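import Mathlib

set_option autoImplicit false

namespace Pool.Agent.Helper871.L1

open Filter Topology Set

/-- The space of absolutely summable real sequences. -/
abbrev L1 := lp (fun _ : ℕ => ℝ) 1

theorem norm_eq (u : L1) : ‖u‖ = ∑' i, |u i| := by
  rw [lp.norm_eq_tsum_rpow (by simp)]
  simp

theorem summable_abs (u : L1) : Summable fun i => |u i| := by
  have := (lp.memℓp u).summable (by simp)
  simpa using this

theorem norm_add_disjoint (u v : L1) (h : ∀ i, u i = 0 ∨ v i = 0) : ‖u + v‖ = ‖u‖ + ‖v‖ := by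
  rw [norm_eq, norm_eq, norm_eq, ← (summable_abs u).tsum_add (summable_abs v)]
  congr 1
  ext i
  rw [lp.coeFn_add, Pi.add_apply]
  rcases h i with h | h <;> simp [h]

/-- Truncation to the first `m` coordinates. -/
noncomputable def trunc (m : ℕ) (u : L1) : L1 := ∑ i ∈ Finset.range m, lp.single 1 i (u i)

theorem trunc_apply (m : ℕ) (u : L1) (j : ℕ) : trunc m u j = if j < m then u j else 0 := by
  unfold trunc
  rw [lp.coeFn_sum, Finset.sum_apply]
  simp only [lp.single_apply]
  split_ifs with h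
  · rw [Finset.sum_eq_single j]
    · simp
    · intro b _ hb
      simp [Pi.single_apply, Ne.symm hb]
    · intro hj
      exact absurd (Finset.mem_range.mpr h) hj
  · apply Finset.sum_eq_zero
    intro b hb
    have : j ≠ b := by
      rintro rfl
      exact h (Finset.mem_range.mp hb)
    simp [Pi.single_apply, this]

theorem tendsto_trunc (u : L1) : Tendsto (fun m => trunc m u) atTop (𝓝 u) := by
  have := (lp.hasSum_single (p := 1) (by simp) u).tendsto_sum_nat
  exact this

theorem norm_trunc_le (m : ℕ) (u : L1) : ‖trunc m u‖ ≤ ∑ i ∈ Finset.range m, |u i| := by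
  unfold trunc
  refine le_trans (norm_sum_le _ _) (Finset.sum_le_sum fun i _ => ?_)
  rw [lp.norm_single (by simp)]
  exact le_of_eq (Real.norm_eq_abs _)

/-- Sequences vanishing before `m`. -/
def Tail (m : ℕ) : Set L1 := {u | ∀ i, i < m → u i = 0}

theorem tail_zero (m : ℕ) : (0 : L1) ∈ Tail m := fun i _ => by simp

theorem tail_smul {m : ℕ} {u : L1} (hu : u ∈ Tail m) (c : ℝ) : c • u ∈ Tail m := by
  intro i hi
  rw [lp.coeFn_smul, Pi.smul_apply, hu i hi, smul_zero]

theorem tail_neg {m : ℕ} {u : L1} (hu : u ∈ Tail m) : -u ∈ Tail m := by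
  intro i hi
  rw [lp.coeFn_neg, Pi.neg_apply, hu i hi, neg_zero]

theorem tail_add {m n : ℕ} (hmn : m ≤ n) {u v : L1} (hu : u ∈ Tail m) (hv : v ∈ Tail n) :
    u + v ∈ Tail m := by
  intro i hi
  rw [lp.coeFn_add, Pi.add_apply, hu i hi, hv i (lt_of_lt_of_le hi hmn), add_zero]

theorem tail_mono {m n : ℕ} (hmn : m ≤ n) {u : L1} (hu : u ∈ Tail n) : u ∈ Tail m :=
  fun i hi => hu i (lt_of_lt_of_le hi hmn)

theorem sub_trunc_mem (m : ℕ) (u : L1) : u - trunc m u ∈ Tail m := by
  intro i hi
  rw [lp.coeFn_sub, Pi.sub_apply, trunc_apply, if_pos hi, sub_self]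

theorem asymp (u : L1) (ε : ℝ) (hε : 0 < ε) :
    ∃ m, ∀ n, m ≤ n → ∀ v ∈ Tail n, ‖u‖ + ‖v‖ - ε ≤ ‖u + v‖ := by
  have h1 := tendsto_trunc u
  rw [Metric.tendsto_atTop] at h1
  obtain ⟨m, hm⟩ := h1 (ε / 2) (by linarith)
  refine ⟨m, fun n hn v hv => ?_⟩
  have h2 := hm n hn
  rw [dist_eq_norm] at h2
  have h3 : ‖trunc n u + v‖ = ‖trunc n u‖ + ‖v‖ := by
    apply norm_add_disjoint
    intro i
    by_cases hi : i < n
    · right; exact hv i hi
    · left; rw [trunc_apply, if_neg hi]
  have h4 : ‖trunc n u + v‖ ≤ ‖u + v‖ + ‖trunc n u - u‖ := by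
    calc ‖trunc n u + v‖ = ‖(u + v) + (trunc n u - u)‖ := by congr 1; abel
      _ ≤ _ := norm_add_le _ _
  have h5 : ‖u‖ ≤ ‖trunc n u‖ + ‖trunc n u - u‖ := by
    calc ‖u‖ = ‖trunc n u - (trunc n u - u)‖ := by congr 1; abel
      _ ≤ _ := norm_sub_le _ _
  linarith

instance separable : TopologicalSpace.SeparableSpace L1 := by
  have hsep : TopologicalSpace.IsSeparable
      ((Submodule.span ℝ (Set.range fun i : ℕ => (lp.single 1 i (1 : ℝ) : L1)) :
        Submodule ℝ L1) : Set L1) :=
    (Set.countable_range _).isSeparable.span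
  have hcl : ∀ u : L1, u ∈ closure
      ((Submodule.span ℝ (Set.range fun i : ℕ => (lp.single 1 i (1 : ℝ) : L1)) :
        Submodule ℝ L1) : Set L1) := by
    intro u
    apply mem_closure_of_tendsto (tendsto_trunc u)
    filter_upwards with m
    apply Submodule.sum_mem
    intro i _
    have : (lp.single 1 i (u i) : L1) = (u i) • (lp.single 1 i (1 : ℝ) : L1) := by
      rw [← lp.single_smul]; simp
    rw [this]
    exact Submodule.smul_mem _ _ (Submodule.subset_span ⟨i, rfl⟩)
  rw [← TopologicalSpace.isSeparable_univ_iff]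
  exact hsep.closure.mono fun u _ => hcl u

theorem not_finiteDimensional : ¬ FiniteDimensional ℝ L1 := by
  intro h
  have hli : LinearIndependent ℝ (fun i : ℕ => (lp.single 1 i (1 : ℝ) : L1)) := by
    rw [linearIndependent_iff']
    intro s g hg i hi
    have h1 := congrArg (fun u : L1 => u i) hg
    simp only [lp.coeFn_sum, Finset.sum_apply, lp.coeFn_smul, Pi.smul_apply, lp.coeFn_zero,
      Pi.zero_apply, lp.single_apply, smul_eq_mul] at h1
    rw [Finset.sum_eq_single i] at h1
    · simpa using h1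
    · intro b _ hb
      simp [Pi.single_apply, Ne.symm hb]
    · intro h; exact absurd hi h
  exact absurd hli.finite (by
    rw [not_finite_iff_infinite]; infer_instance)

end Pool.Agent.Helper871.L1
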