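import Mathlib
import Pool.Agent.Helper871.L1

set_option autoImplicit false

namespace Pool.Agent.Helper871.C0

open Filter Topology Set ZeroAtInfty
open Pool.Agent.Helper871.L1

/-- The unit vectors of `c_0`. -/
noncomputable def del (n : ℕ) : C₀(ℕ, ℝ) where
  toFun := Pi.single n 1
  continuous_toFun := continuous_of_discreteTopology
  zero_at_infty' := by
    rw [Filter.cocompact_eq_cofinite, Nat.cofinite_eq_atTop]
    apply tendsto_const_nhds.congr'
    filter_upwards [eventually_gt_atTop n] with m hm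
    simp [hm.ne']

theorem del_apply (n m : ℕ) : del n m = (Pi.single n 1 : ℕ → ℝ) m := rfl

theorem sum_apply (F : Finset ℕ) (g : ℕ → C₀(ℕ, ℝ)) (m : ℕ) :
    (∑ n ∈ F, g n) m = ∑ n ∈ F, g n m := by
  induction F using Finset.induction_on with
  | empty => simp
  | insert a s ha ih => rw [Finset.sum_insert ha, Finset.sum_insert ha, ← ih]; rfl

theorem norm_sum_del (F : Finset ℕ) (σ : ℕ → ℝ) (hσ : ∀ n, |σ n| ≤ 1) :
    ‖∑ n ∈ F, σ n • del n‖ ≤ 1 := by
  rw [← ZeroAtInftyContinuousMap.norm_toBCF_eq_norm]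
  rw [BoundedContinuousFunction.norm_le zero_le_one]
  intro m
  change ‖(∑ n ∈ F, σ n • del n) m‖ ≤ 1
  rw [sum_apply]
  by_cases hm : m ∈ F
  · rw [Finset.sum_eq_single m]
    · change ‖σ m * del m m‖ ≤ 1
      rw [del_apply]; simpa using hσ m
    · intro b _ hb
      change σ b * del b m = 0
      rw [del_apply]; simp [Ne.symm hb]
    · intro h; exact absurd hm h
  · rw [Finset.sum_eq_zero]
    · simp
    · intro b hb
      have : m ≠ b := by rintro rfl; exact hm hb
      change σ b * del b m = 0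
      rw [del_apply]; simp [this]

theorem one_le_norm_del (n : ℕ) : 1 ≤ ‖del n‖ := by
  rw [← ZeroAtInftyContinuousMap.norm_toBCF_eq_norm]
  have := BoundedContinuousFunction.norm_coe_le_norm (del n).toBCF n
  have h : (del n).toBCF n = 1 := by
    change del n n = 1
    rw [del_apply]; simp
  rw [h] at this
  simpa using this

theorem no_iso : ¬ Nonempty (L1 ≃L[ℝ] ZeroAtInftyContinuousMap ℕ ℝ) := by
  rintro ⟨S⟩
  set T : C₀(ℕ, ℝ) →L[ℝ] L1 := (S.symm : C₀(ℕ, ℝ) →L[ℝ] L1) with hT
  set y : ℕ → L1 := fun n => T (del n) with hy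
  set C : ℝ := ‖T‖ with hC
  set A : ℝ := ‖(S : L1 →L[ℝ] C₀(ℕ, ℝ))‖ with hA
  have hSy : ∀ n, (S : L1 →L[ℝ] C₀(ℕ, ℝ)) (y n) = del n := fun n => S.apply_symm_apply _
  have hlow : ∀ n, 1 ≤ A * ‖y n‖ := by
    intro n
    calc 1 ≤ ‖del n‖ := one_le_norm_del n
      _ = ‖(S : L1 →L[ℝ] C₀(ℕ, ℝ)) (y n)‖ := by rw [hSy]
      _ ≤ _ := ContinuousLinearMap.le_opNorm _ _
  have hApos : 0 < A := by
    by_contra h
    push Not at h
    have := hlow 0
    nlinarith [norm_nonneg (y 0)]
  set c : ℝ := 1 / A with hc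
  have hcpos : 0 < c := by positivity
  have hyc : ∀ n, c ≤ ‖y n‖ := by
    intro n
    rw [hc, div_le_iff₀ hApos]
    linarith [hlow n]
  have hsum : ∀ (F : Finset ℕ) (σ : ℕ → ℝ), (∀ n, |σ n| ≤ 1) → ‖∑ n ∈ F, σ n • y n‖ ≤ C := by
    intro F σ hσ
    have h1 : ∑ n ∈ F, σ n • y n = T (∑ n ∈ F, σ n • del n) := by
      rw [map_sum]; simp [hy]
    rw [h1]
    calc _ ≤ ‖T‖ * ‖∑ n ∈ F, σ n • del n‖ := T.le_opNorm _
      _ ≤ ‖T‖ * 1 := by gcongr; exact norm_sum_del F σ hσ
      _ = C := mul_one _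
  have hcoord : ∀ i, Tendsto (fun n => |y n i|) atTop (𝓝 0) := by
    intro i
    have hs : Summable fun n => |y n i| := by
      apply summable_of_sum_le (c := C) (fun n => abs_nonneg _)
      intro F
      have h1 := hsum F (fun n => SignType.sign (y n i)) (by
        intro n
        rcases lt_trichotomy (y n i) 0 with h | h | h <;> simp [h])
      have h2 : (∑ n ∈ F, ((SignType.sign (y n i) : ℝ)) • y n) i = ∑ n ∈ F, |y n i| := by
        rw [lp.coeFn_sum, Finset.sum_apply]
        apply Finset.sum_congr rfl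
        intro n _
        rw [lp.coeFn_smul, Pi.smul_apply, smul_eq_mul]
        exact sign_mul_self _
      have h3 := lp.norm_apply_le_norm (p := 1) (by simp) (∑ n ∈ F, ((SignType.sign (y n i) : ℝ)) • y n) i
      rw [h2] at h3
      calc ∑ n ∈ F, |y n i| ≤ ‖∑ n ∈ F, |y n i|‖ := le_abs_self _
        _ ≤ _ := h3
        _ ≤ C := h1
    exact hs.tendsto_atTop_zero
  have hgrow : ∀ J : ℕ, ∃ F : Finset ℕ, (J : ℝ) * (c / 2) ≤ ‖∑ n ∈ F, y n‖ := by
    intro J
    induction J with
    | zero => exact ⟨∅, by simp⟩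
    | succ J ih =>
      obtain ⟨F, hF⟩ := ih
      set s := ∑ n ∈ F, y n with hs
      obtain ⟨m, hm⟩ := asymp s (c / 16) (by linarith)
      have h1 : Tendsto (fun n => ∑ i ∈ Finset.range m, |y n i|) atTop (𝓝 0) := by
        have := tendsto_finsetSum (Finset.range m) (fun i _ => hcoord i)
        simpa using this
      have h2 := (h1.eventually (gt_mem_nhds (show 0 < c / 16 by linarith))).and
        (eventually_gt_atTop (F.sup id))
      obtain ⟨n, hn1, hn2⟩ := h2.exists
      have hnF : n ∉ F := by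
        intro h
        have := Finset.le_sup (f := id) h
        simp only [id] at this
        omega
      refine ⟨insert n F, ?_⟩
      rw [Finset.sum_insert hnF, ← hs]
      have h3 := hm m le_rfl (y n - trunc m (y n)) (sub_trunc_mem m (y n))
      have h4 := norm_trunc_le m (y n)
      have h5 : ‖y n‖ ≤ ‖y n - trunc m (y n)‖ + ‖trunc m (y n)‖ := by
        calc ‖y n‖ = ‖(y n - trunc m (y n)) + trunc m (y n)‖ := by congr 1; abel
          _ ≤ _ := norm_add_le _ _
      have h6 : ‖s + (y n - trunc m (y n))‖ ≤ ‖y n + s‖ + ‖trunc m (y n)‖ := by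
        calc ‖s + (y n - trunc m (y n))‖ = ‖(y n + s) - trunc m (y n)‖ := by congr 1; abel
          _ ≤ _ := norm_sub_le _ _
      have h7 := hyc n
      push_cast
      linarith
  obtain ⟨J, hJ⟩ := exists_nat_gt (C / (c / 2))
  obtain ⟨F, hF⟩ := hgrow J
  have h1 := hsum F (fun _ => 1) (by simp)
  simp only [one_smul] at h1
  rw [div_lt_iff₀ (by positivity)] at hJ
  linarith

end Pool.Agent.Helper871.C0
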