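import Mathlib

set_option autoImplicit false

namespace Pool.Agent.Helper871.NormExt

open Filter Topology Set

section Basic

variable {Z : Type} [NormedAddCommGroup Z] [NormedSpace ℝ Z]

/-- Weak-star closedness of a set of functionals. -/
def WClosed (B : Set (StrongDual ℝ Z)) : Prop :=
  IsClosed (WeakDual.toStrongDual ⁻¹' B : Set (WeakDual ℝ Z))

theorem wclosed_inter {B C : Set (StrongDual ℝ Z)} (hB : WClosed B) (hC : WClosed C) :
    WClosed (B ∩ C) := by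
  unfold WClosed at *
  rw [Set.preimage_inter]
  exact hB.inter hC

theorem wclosed_iInter {ι : Sort*} {B : ι → Set (StrongDual ℝ Z)} (hB : ∀ i, WClosed (B i)) :
    WClosed (⋂ i, B i) := by
  unfold WClosed at *
  rw [Set.preimage_iInter]
  exact isClosed_iInter hB

theorem wclosed_eval_le (z : Z) (r : ℝ) : WClosed {f : StrongDual ℝ Z | f z ≤ r} := by
  unfold WClosed
  have : Continuous fun f : WeakDual ℝ Z => f z := WeakDual.eval_continuous z
  exact isClosed_le this continuous_const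

theorem wcompact {B : Set (StrongDual ℝ Z)} (hB : WClosed B) (R : ℝ) (hR : ∀ f ∈ B, ‖f‖ ≤ R) :
    IsCompact (WeakDual.toStrongDual ⁻¹' B : Set (WeakDual ℝ Z)) := by
  apply WeakDual.isCompact_of_bounded_of_closed _ hB
  rw [WeakDual.isBounded_toStrongDual_preimage_iff_isBounded]
  rw [isBounded_iff_forall_norm_le]
  exact ⟨R, hR⟩

theorem exists_max {B : Set (StrongDual ℝ Z)} (hB : WClosed B) (R : ℝ) (hR : ∀ f ∈ B, ‖f‖ ≤ R)
    (hne : B.Nonempty) (z : Z) : ∃ f₀ ∈ B, ∀ f ∈ B, f z ≤ f₀ z := by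
  have hK := wcompact hB R hR
  have hc : ContinuousOn (fun f : WeakDual ℝ Z => f z)
      (WeakDual.toStrongDual ⁻¹' B : Set (WeakDual ℝ Z)) :=
    (WeakDual.eval_continuous z).continuousOn
  obtain ⟨f, hf⟩ := hne
  obtain ⟨f₀, hf₀, hmax⟩ := hK.exists_isMaxOn ⟨StrongDual.toWeakDual f, hf⟩ hc
  exact ⟨WeakDual.toStrongDual f₀, hf₀, fun g hg => hmax (a := StrongDual.toWeakDual g) hg⟩

/-- Uniqueness of the maximiser forces weak-star convergence of almost maximisers. -/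
theorem exposed_wk {B : Set (StrongDual ℝ Z)} (hB : WClosed B) (R : ℝ) (hR : ∀ f ∈ B, ‖f‖ ≤ R)
    (z : Z) (m : ℝ) (f₀ : StrongDual ℝ Z) (hle : ∀ f ∈ B, f z ≤ m)
    (huniq : ∀ f ∈ B, f z = m → f = f₀) (h : Z) (ε : ℝ) (hε : 0 < ε) :
    ∃ δ : ℝ, 0 < δ ∧ ∀ f ∈ B, m - δ ≤ f z → |f h - f₀ h| < ε := by
  set C : Set (StrongDual ℝ Z) := B ∩ {f | ε ≤ |f h - f₀ h|} with hC
  have hCc : WClosed C := by
    apply wclosed_inter hB
    unfold WClosed
    have h1 : Continuous fun f : WeakDual ℝ Z => |f h - f₀ h| :=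
      ((WeakDual.eval_continuous h).sub continuous_const).abs
    exact isClosed_le continuous_const h1
  by_cases hne : C.Nonempty
  · obtain ⟨f₁, hf₁, hmax⟩ := exists_max hCc R (fun f hf => hR f hf.1) hne z
    have hlt : f₁ z < m := by
      rcases lt_or_eq_of_le (hle f₁ hf₁.1) with h' | h'
      · exact h'
      · exfalso
        have := huniq f₁ hf₁.1 h'
        have h2 : ε ≤ |f₁ h - f₀ h| := hf₁.2
        rw [this] at h2
        simp at h2
        linarith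
    refine ⟨(m - f₁ z) / 2, by linarith, fun f hf hfz => ?_⟩
    by_contra hcon
    push Not at hcon
    have := hmax f ⟨hf, hcon⟩
    linarith
  · refine ⟨1, one_pos, fun f hf _ => ?_⟩
    by_contra hcon
    push Not at hcon
    exact hne ⟨f, hf, hcon⟩

/-- Version of `exposed_wk` for weak-star neighbourhoods. -/
theorem exposed_open {B : Set (StrongDual ℝ Z)} (hB : WClosed B) (R : ℝ) (hR : ∀ f ∈ B, ‖f‖ ≤ R)
    (z : Z) (m : ℝ) (f₀ : StrongDual ℝ Z) (hle : ∀ f ∈ B, f z ≤ m)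
    (huniq : ∀ f ∈ B, f z = m → f = f₀) (U : Set (WeakDual ℝ Z)) (hU : IsOpen U)
    (hfU : StrongDual.toWeakDual f₀ ∈ U) :
    ∃ δ : ℝ, 0 < δ ∧ ∀ f ∈ B, m - δ ≤ f z → StrongDual.toWeakDual f ∈ U := by
  set C : Set (StrongDual ℝ Z) := B ∩ {f | StrongDual.toWeakDual f ∉ U} with hC
  have hCc : WClosed C := by
    apply wclosed_inter hB
    unfold WClosed
    exact hU.isClosed_compl
  by_cases hne : C.Nonempty
  · obtain ⟨f₁, hf₁, hmax⟩ := exists_max hCc R (fun f hf => hR f hf.1) hne z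
    have hlt : f₁ z < m := by
      rcases lt_or_eq_of_le (hle f₁ hf₁.1) with h' | h'
      · exact h'
      · exfalso
        have := huniq f₁ hf₁.1 h'
        have h2 : StrongDual.toWeakDual f₁ ∉ U := hf₁.2
        rw [this] at h2
        exact h2 hfU
    refine ⟨(m - f₁ z) / 2, by linarith, fun f hf hfz => ?_⟩
    by_contra hcon
    have := hmax f ⟨hf, hcon⟩
    linarith
  · refine ⟨1, one_pos, fun f hf _ => ?_⟩
    by_contra hcon
    exact hne ⟨f, hf, hcon⟩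

/-- The support function of a bounded set of functionals. -/
noncomputable def supp (B : Set (StrongDual ℝ Z)) (z : Z) : ℝ := sSup ((fun f => f z) '' B)

variable {B : Set (StrongDual ℝ Z)}

theorem le_supp (R : ℝ) (hR : ∀ f ∈ B, ‖f‖ ≤ R) {f : StrongDual ℝ Z} (hf : f ∈ B) (z : Z) :
    f z ≤ supp B z := by
  apply le_csSup
  · refine ⟨R * ‖z‖, ?_⟩
    rintro _ ⟨g, hg, rfl⟩
    calc g z ≤ ‖g z‖ := le_abs_self _
      _ ≤ ‖g‖ * ‖z‖ := g.le_opNorm z
      _ ≤ R * ‖z‖ := by gcongr; exact hR g hg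
  · exact ⟨f, hf, rfl⟩

theorem supp_le (hne : B.Nonempty) {z : Z} {r : ℝ} (h : ∀ f ∈ B, f z ≤ r) : supp B z ≤ r := by
  apply csSup_le (hne.image _)
  rintro _ ⟨g, hg, rfl⟩
  exact h g hg

theorem supp_add (R : ℝ) (hR : ∀ f ∈ B, ‖f‖ ≤ R) (hne : B.Nonempty) (z w : Z) :
    supp B (z + w) ≤ supp B z + supp B w := by
  apply supp_le hne
  intro f hf
  rw [map_add]
  exact add_le_add (le_supp R hR hf z) (le_supp R hR hf w)

theorem supp_smul (R : ℝ) (hR : ∀ f ∈ B, ‖f‖ ≤ R) (hne : B.Nonempty)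
    (hsymm : ∀ f ∈ B, -f ∈ B) (c : ℝ) (z : Z) :
    supp B (c • z) = |c| * supp B z := by
  have key : ∀ (c : ℝ) (z : Z), supp B (c • z) ≤ |c| * supp B z := by
    intro c z
    apply supp_le hne
    intro f hf
    rw [map_smul, smul_eq_mul]
    rcases le_total 0 c with hc | hc
    · rw [abs_of_nonneg hc]
      exact mul_le_mul_of_nonneg_left (le_supp R hR hf z) hc
    · rw [abs_of_nonpos hc]
      have h1 := le_supp R hR (hsymm f hf) z
      have h2 : (-f) z = - f z := rfl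
      rw [h2] at h1
      nlinarith
  apply le_antisymm (key c z)
  by_cases hc : c = 0
  · subst hc
    simp only [zero_smul, abs_zero, zero_mul]
    obtain ⟨f, hf⟩ := hne
    have := le_supp R hR hf (0 : Z)
    simpa using this
  · have h1 := key c⁻¹ (c • z)
    rw [smul_smul, inv_mul_cancel₀ hc, one_smul, abs_inv] at h1
    have hc' : 0 < |c| := abs_pos.mpr hc
    rw [inv_mul_eq_div, le_div_iff₀ hc'] at h1
    linarith

theorem supp_le_norm (R : ℝ) (hR : ∀ f ∈ B, ‖f‖ ≤ R) (hne : B.Nonempty) (z : Z) :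
    supp B z ≤ R * ‖z‖ := by
  apply supp_le hne
  intro f hf
  calc f z ≤ ‖f z‖ := le_abs_self _
      _ ≤ ‖f‖ * ‖z‖ := f.le_opNorm z
      _ ≤ R * ‖z‖ := by gcongr; exact hR f hf

theorem norm_le_supp (R : ℝ) (hR : ∀ f ∈ B, ‖f‖ ≤ R) (r : ℝ) (hr : 0 ≤ r)
    (hball : ∀ f : StrongDual ℝ Z, ‖f‖ ≤ r → f ∈ B) (z : Z) :
    r * ‖z‖ ≤ supp B z := by
  obtain ⟨g, hg1, hg2⟩ := exists_dual_vector'' ℝ z
  have h1 : ‖r • g‖ ≤ r := by
    rw [norm_smul, Real.norm_of_nonneg hr]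
    nlinarith
  have h2 := le_supp R hR (hball _ h1) z
  have h3 : (r • g) z = r * ‖z‖ := by
    simp [hg2]
  rw [h3] at h2
  exact h2

/-- Gateaux differentiability of a support function at a point with a unique maximiser. -/
theorem supp_gateaux (hB : WClosed B) (R : ℝ) (hR : ∀ f ∈ B, ‖f‖ ≤ R) (hne : B.Nonempty)
    (z : Z) (f₀ : StrongDual ℝ Z) (hf₀ : f₀ ∈ B) (hz : f₀ z = supp B z)
    (huniq : ∀ f ∈ B, f z = supp B z → f = f₀) (h : Z) :
    HasDerivAt (fun t : ℝ => supp B (z + t • h)) (f₀ h) 0 := by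
  rw [hasDerivAt_iff_isLittleO, Asymptotics.isLittleO_iff]
  intro ε hε
  obtain ⟨δ, hδ, hδ'⟩ := exposed_wk hB R hR z (supp B z) f₀ (fun f hf => le_supp R hR hf z)
    huniq h ε hε
  have hR0 : 0 ≤ R := le_trans (norm_nonneg _) (hR f₀ hf₀)
  set r : ℝ := δ / (2 * R * ‖h‖ + 1) with hr
  have hden : 0 < 2 * R * ‖h‖ + 1 := by positivity
  have hrpos : 0 < r := div_pos hδ hden
  have hball : Metric.ball (0 : ℝ) r ∈ 𝓝 (0 : ℝ) := Metric.ball_mem_nhds _ hrpos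
  filter_upwards [hball] with t ht
  rw [Metric.mem_ball, dist_zero_right, Real.norm_eq_abs] at ht
  simp only [sub_zero, zero_smul, add_zero, smul_eq_mul]
  rw [Real.norm_eq_abs, Real.norm_eq_abs]
  have hlow : supp B z + t * f₀ h ≤ supp B (z + t • h) := by
    have := le_supp R hR hf₀ (z + t • h)
    rw [map_add, map_smul, smul_eq_mul, hz] at this
    exact this
  obtain ⟨f₁, hf₁, hmax⟩ := exists_max hB R hR hne (z + t • h)
  have hup : supp B (z + t • h) ≤ f₁ z + t * f₁ h := by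
    apply supp_le hne
    intro f hf
    have := hmax f hf
    have h2 : f₁ (z + t • h) = f₁ z + t * f₁ h := by
      rw [map_add, map_smul, smul_eq_mul]
    rwa [h2] at this
  have hbf : ∀ f ∈ B, |f h| ≤ R * ‖h‖ := by
    intro f hf
    calc |f h| = ‖f h‖ := rfl
      _ ≤ ‖f‖ * ‖h‖ := f.le_opNorm h
      _ ≤ R * ‖h‖ := by gcongr; exact hR f hf
  have hclose : supp B z - δ ≤ f₁ z := by
    have h1 := hbf f₁ hf₁
    have h0 := hbf f₀ hf₀
    have h2 : |t * f₁ h| ≤ r * (R * ‖h‖) := by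
      rw [abs_mul]
      exact mul_le_mul ht.le h1 (abs_nonneg _) hrpos.le
    have h3 : |t * f₀ h| ≤ r * (R * ‖h‖) := by
      rw [abs_mul]
      exact mul_le_mul ht.le h0 (abs_nonneg _) hrpos.le
    have h4 : r * (2 * R * ‖h‖ + 1) = δ := by
      rw [hr]; field_simp
    have h5 := (abs_le.mp h2).2
    have h6 := (abs_le.mp h3).1
    nlinarith
  have hfin := hδ' f₁ hf₁ hclose
  have hle : f₁ z ≤ supp B z := le_supp R hR hf₁ z
  have hup2 : supp B (z + t • h) ≤ supp B z + t * f₁ h := by linarith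
  rw [abs_of_nonneg (by linarith)]
  have h7 : t * f₁ h - t * f₀ h ≤ |t| * |f₁ h - f₀ h| := by
    rw [← mul_sub, ← abs_mul]
    exact le_abs_self _
  have h8 : |t| * |f₁ h - f₀ h| ≤ |t| * ε := by
    gcongr
  linarith

/-- Frechet differentiability of a support function from norm convergence of almost maximisers. -/
theorem supp_frechet (hB : WClosed B) (R : ℝ) (hR : ∀ f ∈ B, ‖f‖ ≤ R) (hne : B.Nonempty)
    (z : Z) (f₀ : StrongDual ℝ Z) (hf₀ : f₀ ∈ B) (hz : f₀ z = supp B z)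
    (hstrong : ∀ ε : ℝ, 0 < ε → ∃ δ : ℝ, 0 < δ ∧ ∀ f ∈ B, supp B z - δ ≤ f z → ‖f - f₀‖ ≤ ε) :
    HasFDerivAt (supp B) f₀ z := by
  rw [hasFDerivAt_iff_isLittleO_nhds_zero, Asymptotics.isLittleO_iff]
  intro ε hε
  obtain ⟨δ, hδ, hδ'⟩ := hstrong ε hε
  have hR0 : 0 ≤ R := le_trans (norm_nonneg _) (hR f₀ hf₀)
  set r : ℝ := δ / (2 * R + 1) with hr
  have hden : 0 < 2 * R + 1 := by positivity
  have hrpos : 0 < r := div_pos hδ hden
  have hball : Metric.ball (0 : Z) r ∈ 𝓝 (0 : Z) := Metric.ball_mem_nhds _ hrpos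
  filter_upwards [hball] with h hh
  rw [Metric.mem_ball, dist_zero_right] at hh
  rw [Real.norm_eq_abs]
  have hlow : supp B z + f₀ h ≤ supp B (z + h) := by
    have := le_supp R hR hf₀ (z + h)
    rw [map_add, hz] at this
    exact this
  obtain ⟨f₁, hf₁, hmax⟩ := exists_max hB R hR hne (z + h)
  have hup : supp B (z + h) ≤ f₁ z + f₁ h := by
    apply supp_le hne
    intro f hf
    have := hmax f hf
    have h2 : f₁ (z + h) = f₁ z + f₁ h := map_add _ _ _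
    rwa [h2] at this
  have hbf : ∀ f ∈ B, |f h| ≤ R * ‖h‖ := by
    intro f hf
    calc |f h| = ‖f h‖ := rfl
      _ ≤ ‖f‖ * ‖h‖ := f.le_opNorm h
      _ ≤ R * ‖h‖ := by gcongr; exact hR f hf
  have hclose : supp B z - δ ≤ f₁ z := by
    have h1 := hbf f₁ hf₁
    have h0 := hbf f₀ hf₀
    have h4 : r * (2 * R + 1) = δ := by
      rw [hr]; field_simp
    have h5 := (abs_le.mp h1).2
    have h6 := (abs_le.mp h0).1
    nlinarith [mul_le_mul_of_nonneg_left hh.le hR0]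
  have hfin := hδ' f₁ hf₁ hclose
  have hle : f₁ z ≤ supp B z := le_supp R hR hf₁ z
  rw [abs_of_nonneg (by linarith)]
  have h7 : f₁ h - f₀ h ≤ ‖f₁ - f₀‖ * ‖h‖ := by
    calc f₁ h - f₀ h = (f₁ - f₀) h := rfl
      _ ≤ ‖(f₁ - f₀) h‖ := le_abs_self _
      _ ≤ _ := (f₁ - f₀).le_opNorm h
  have h8 : ‖f₁ - f₀‖ * ‖h‖ ≤ ε * ‖h‖ := by gcongr
  linarith

end Basic

section Main

variable {Z : Type} [NormedAddCommGroup Z] [NormedSpace ℝ Z]
variable {X : Type} [NormedAddCommGroup X] [NormedSpace ℝ X]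

/-- Functionals on `X` dominated by `N`. -/
def Kq (N : X → ℝ) : Set (StrongDual ℝ X) := {g | ∀ x, g x ≤ N x}

/-- Restriction of functionals along an isometric embedding. -/
noncomputable def res (ι : X →ₗᵢ[ℝ] Z) (f : StrongDual ℝ Z) : StrongDual ℝ X :=
  f.comp ι.toContinuousLinearMap

@[simp] theorem res_apply (ι : X →ₗᵢ[ℝ] Z) (f : StrongDual ℝ Z) (x : X) :
    res ι f x = f (ι x) := rfl

/-- Affine majorants of the quotient of `Φ`. -/
def Aff (ι : X →ₗᵢ[ℝ] Z) (N : X → ℝ) (Φ : StrongDual ℝ Z → ℝ) : Set (ℝ × X) :=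
  {c | ∀ g ∈ Kq N, ∃ f : StrongDual ℝ Z, res ι f = g ∧ Φ f ≤ c.1 + g c.2}

/-- The new dual ball. -/
def Ball (ι : X →ₗᵢ[ℝ] Z) (N : X → ℝ) (Φ : StrongDual ℝ Z → ℝ) : Set (StrongDual ℝ Z) :=
  {f | (∀ x, f (ι x) ≤ N x) ∧ ∀ c ∈ Aff ι N Φ, Φ f ≤ c.1 + f (ι c.2)}

/-- The standing assumptions. -/
structure Data (ι : X →ₗᵢ[ℝ] Z) (N : X → ℝ) (Φ : StrongDual ℝ Z → ℝ) : Prop where
  closed_range : IsClosed (Set.range ι)
  N_add : ∀ x y, N (x + y) ≤ N x + N y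
  N_smul : ∀ (c : ℝ) (x : X), N (c • x) = |c| * N x
  N_bd : ∃ a b : ℝ, 0 < a ∧ ∀ x, a * ‖x‖ ≤ N x ∧ N x ≤ b * ‖x‖
  N_gat : ∀ x : X, x ≠ 0 → ∃ f : X →L[ℝ] ℝ,
              ∀ h : X, HasDerivAt (fun t : ℝ => N (x + t • h)) (f h) 0
  Φ_zero : Φ 0 = 0
  Φ_nonneg : ∀ f, 0 ≤ Φ f
  Φ_even : ∀ f, Φ (-f) = Φ f
  Φ_sc : ∀ f g, f ≠ g → Φ ((1 / 2 : ℝ) • (f + g)) < (Φ f + Φ g) / 2
  Φ_cont : Continuous Φ
  Φ_lsc : ∀ r : ℝ, WClosed {f | Φ f ≤ r}
  Φ_bdd : ∀ r : ℝ, ∃ R : ℝ, ∀ f, Φ f ≤ r → ‖f‖ ≤ R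
  Φ_bdd' : ∀ R : ℝ, ∃ M : ℝ, ∀ f, ‖f‖ ≤ R → Φ f ≤ M
  lift : ∀ x₀ : X, x₀ ≠ 0 → ∀ g₀ ∈ Kq N, g₀ x₀ = N x₀ → ∀ f₀ : StrongDual ℝ Z,
    res ι f₀ = g₀ → (∀ f, res ι f = g₀ → Φ f₀ ≤ Φ f) → ∀ ε : ℝ, 0 < ε →
      ∃ δ : ℝ, 0 < δ ∧ ∀ g ∈ Kq N, N x₀ - δ ≤ g x₀ → ∃ f, res ι f = g ∧ Φ f ≤ Φ f₀ + ε

variable {ι : X →ₗᵢ[ℝ] Z} {N : X → ℝ} {Φ : StrongDual ℝ Z → ℝ}

namespace Data

theorem N_zero (D : Data ι N Φ) : N 0 = 0 := by
  have := D.N_smul 0 0
  simpa using this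

theorem N_neg (D : Data ι N Φ) (x : X) : N (-x) = N x := by
  have := D.N_smul (-1) x
  simpa using this

theorem N_nonneg (D : Data ι N Φ) (x : X) : 0 ≤ N x := by
  obtain ⟨a, b, ha, hab⟩ := D.N_bd
  exact le_trans (by positivity) (hab x).1

theorem N_pos (D : Data ι N Φ) {x : X} (hx : x ≠ 0) : 0 < N x := by
  obtain ⟨a, b, ha, hab⟩ := D.N_bd
  exact lt_of_lt_of_le (mul_pos ha (norm_pos_iff.mpr hx)) (hab x).1

theorem neg_mem (D : Data ι N Φ) {g : StrongDual ℝ X} (hg : g ∈ Kq N) : -g ∈ Kq N := by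
  intro x
  have := hg (-x)
  rw [D.N_neg, map_neg] at this
  exact this

theorem Kq_norm (D : Data ι N Φ) : ∃ b : ℝ, 0 ≤ b ∧ ∀ g ∈ Kq N, ‖g‖ ≤ b := by
  obtain ⟨a, b, ha, hab⟩ := D.N_bd
  refine ⟨|b|, abs_nonneg _, fun g hg => ?_⟩
  apply ContinuousLinearMap.opNorm_le_bound _ (abs_nonneg _)
  intro x
  rw [Real.norm_eq_abs, abs_le]
  have h1 := hg x
  have h2 := D.neg_mem hg x
  have h3 := (hab x).2
  have h4 : b * ‖x‖ ≤ |b| * ‖x‖ := by gcongr; exact le_abs_self b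
  have h5 : (-g) x = - g x := rfl
  rw [h5] at h2
  constructor <;> linarith

theorem exists_lift (ι : X →ₗᵢ[ℝ] Z) (g : StrongDual ℝ X) :
    ∃ f : StrongDual ℝ Z, res ι f = g ∧ ‖f‖ ≤ ‖g‖ := by
  let e := ι.equivRange
  let g' : StrongDual ℝ (LinearMap.range ι.toLinearMap) :=
    g.comp (e.symm.toContinuousLinearEquiv : _ →L[ℝ] X)
  obtain ⟨f, hf1, hf2⟩ := exists_extension_norm_eq (LinearMap.range ι.toLinearMap) g'
  refine ⟨f, ?_, ?_⟩
  · ext x
    have := hf1 (e x)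
    simp only [res_apply]
    have h2 : ((e x : LinearMap.range ι.toLinearMap) : Z) = ι x := rfl
    rw [h2] at this
    rw [this]
    simp [g']
  · rw [hf2]
    apply ContinuousLinearMap.opNorm_le_bound _ (norm_nonneg _)
    intro y
    calc ‖g' y‖ = ‖g (e.symm y)‖ := rfl
      _ ≤ ‖g‖ * ‖e.symm y‖ := g.le_opNorm _
      _ = ‖g‖ * ‖y‖ := by rw [e.symm.norm_map]

/-- Norming functionals for `N`. -/
theorem exists_norming (D : Data ι N Φ) (x₀ : X) : ∃ g ∈ Kq N, g x₀ = N x₀ := by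
  obtain ⟨a, b, ha, hab⟩ := D.N_bd
  obtain ⟨g, hg1, hg2⟩ : ∃ g : X →ₗ[ℝ] ℝ, g x₀ = N x₀ ∧ ∀ x, g x ≤ N x := by
    by_cases hx : x₀ = 0
    · refine ⟨0, ?_, ?_⟩
      · rw [hx, D.N_zero]; simp
      · intro x; simpa using D.N_nonneg x
    · let f : X →ₗ.[ℝ] ℝ := LinearPMap.mkSpanSingleton x₀ (N x₀) hx
      obtain ⟨g, hg1, hg2⟩ := exists_extension_of_le_sublinear f N
        (fun c hc x => by rw [D.N_smul, abs_of_pos hc]) D.N_add (by
          rintro ⟨x, hx'⟩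
          obtain ⟨c, rfl⟩ := Submodule.mem_span_singleton.mp hx'
          have : f ⟨c • x₀, hx'⟩ = c • N x₀ := LinearPMap.mkSpanSingleton'_apply _ _ _ _ _
          rw [this]
          show c * N x₀ ≤ N (c • x₀)
          rw [D.N_smul]
          exact mul_le_mul_of_nonneg_right (le_abs_self c) (D.N_nonneg _))
      refine ⟨g, ?_, hg2⟩
      have h1 := hg1 ⟨x₀, Submodule.mem_span_singleton_self x₀⟩
      have h2 : f ⟨x₀, Submodule.mem_span_singleton_self x₀⟩ = N x₀ := by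
        have : f ⟨(1 : ℝ) • x₀, by rw [one_smul]; exact Submodule.mem_span_singleton_self x₀⟩
            = (1 : ℝ) • N x₀ := LinearPMap.mkSpanSingleton'_apply _ _ _ _ _
        simpa using this
      rw [← h2, ← h1]
  have hbd : ∀ x, ‖g x‖ ≤ |b| * ‖x‖ := by
    intro x
    rw [Real.norm_eq_abs, abs_le]
    have h1 := hg2 x
    have h2 := hg2 (-x)
    rw [D.N_neg, map_neg] at h2
    have h3 := (hab x).2
    have h4 : b * ‖x‖ ≤ |b| * ‖x‖ := by gcongr; exact le_abs_self b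
    constructor <;> linarith
  exact ⟨g.mkContinuous |b| hbd, fun x => hg2 x, hg1⟩

theorem half_add (D : Data ι N Φ) (f g : StrongDual ℝ Z) :
    Φ ((1 / 2 : ℝ) • (f + g)) ≤ (Φ f + Φ g) / 2 := by
  by_cases h : f = g
  · subst h
    have : (1 / 2 : ℝ) • (f + f) = f := by
      rw [← two_smul ℝ f, smul_smul]; norm_num
    rw [this]; linarith
  · exact (D.Φ_sc f g h).le

theorem aff_neg (D : Data ι N Φ) {c : ℝ} {x : X} (h : (c, x) ∈ Aff ι N Φ) :
    (c, -x) ∈ Aff ι N Φ := by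
  intro g hg
  obtain ⟨f, hf1, hf2⟩ := h (-g) (D.neg_mem hg)
  refine ⟨-f, ?_, ?_⟩
  · ext y
    have := congrArg (fun k : StrongDual ℝ X => k y) hf1
    simp only [res_apply] at this ⊢
    change f (ι y) = - g y at this
    change - f (ι y) = g y
    rw [this]; ring
  · rw [D.Φ_even]
    change Φ f ≤ c + (- g x) at hf2
    change Φ f ≤ c + g (-x)
    rw [map_neg]; exact hf2

theorem ball_neg (D : Data ι N Φ) {f : StrongDual ℝ Z} (hf : f ∈ Ball ι N Φ) :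
    -f ∈ Ball ι N Φ := by
  refine ⟨fun x => ?_, fun c hc => ?_⟩
  · have := hf.1 (-x)
    rw [D.N_neg, map_neg, map_neg] at this
    exact this
  · have h1 := hf.2 (c.1, -c.2) (D.aff_neg hc)
    rw [D.Φ_even]
    simp only [map_neg] at h1
    exact h1

theorem ball_mid (D : Data ι N Φ) {f g : StrongDual ℝ Z} (hf : f ∈ Ball ι N Φ)
    (hg : g ∈ Ball ι N Φ) : (1 / 2 : ℝ) • (f + g) ∈ Ball ι N Φ := by
  refine ⟨fun x => ?_, fun c hc => ?_⟩
  · have h1 := hf.1 x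
    have h2 := hg.1 x
    change (1 / 2 : ℝ) * (f (ι x) + g (ι x)) ≤ N x
    linarith
  · have h1 := hf.2 c hc
    have h2 := hg.2 c hc
    have h3 := D.half_add f g
    change _ ≤ c.1 + (1 / 2 : ℝ) * (f (ι c.2) + g (ι c.2))
    linarith

theorem exists_const_aff (D : Data ι N Φ) : ∃ M : ℝ, 0 ≤ M ∧ (M, (0 : X)) ∈ Aff ι N Φ ∧
    ∀ g ∈ Kq N, ∃ f : StrongDual ℝ Z, res ι f = g ∧ Φ f ≤ M := by
  obtain ⟨b, hb, hb'⟩ := D.Kq_norm
  obtain ⟨M, hM⟩ := D.Φ_bdd' b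
  have key : ∀ g ∈ Kq N, ∃ f : StrongDual ℝ Z, res ι f = g ∧ Φ f ≤ max M 0 := by
    intro g hg
    obtain ⟨f, hf1, hf2⟩ := exists_lift ι g
    exact ⟨f, hf1, le_trans (hM f (le_trans hf2 (hb' g hg))) (le_max_left _ _)⟩
  refine ⟨max M 0, le_max_right _ _, ?_, key⟩
  intro g hg
  obtain ⟨f, hf1, hf2⟩ := key g hg
  refine ⟨f, hf1, ?_⟩
  simpa using hf2

theorem ball_wclosed (D : Data ι N Φ) : WClosed (Ball ι N Φ) := by
  have h1 : Ball ι N Φ = (⋂ x : X, {f : StrongDual ℝ Z | f (ι x) ≤ N x}) ∩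
      (⋂ c : Aff ι N Φ, {f : StrongDual ℝ Z | Φ f ≤ c.1.1 + f (ι c.1.2)}) := by
    ext f
    simp only [Ball, Set.mem_ofPred_eq, Set.mem_inter_iff, Set.mem_iInter, Subtype.forall]
  rw [h1]
  apply wclosed_inter
  · exact wclosed_iInter fun x => wclosed_eval_le _ _
  · apply wclosed_iInter
    intro c
    -- lower semicontinuity of Φ
    unfold WClosed
    rw [← isOpen_compl_iff, isOpen_iff_mem_nhds]
    intro f hf
    simp only [Set.mem_compl_iff, Set.mem_preimage, Set.mem_ofPred_eq, not_le] at hf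
    obtain ⟨r, hr1, hr2⟩ := exists_between hf
    have hopen1 : IsOpen ((WeakDual.toStrongDual ⁻¹' {f : StrongDual ℝ Z | Φ f ≤ r})ᶜ :
      Set (WeakDual ℝ Z)) := (D.Φ_lsc r).isOpen_compl
    have hcont : Continuous fun f : WeakDual ℝ Z => c.1.1 + f (ι c.1.2) :=
      continuous_const.add (WeakDual.eval_continuous _)
    have hopen2 : IsOpen {f : WeakDual ℝ Z | c.1.1 + f (ι c.1.2) < r} :=
      isOpen_lt hcont continuous_const
    have hmem : f ∈ ((WeakDual.toStrongDual ⁻¹' {f : StrongDual ℝ Z | Φ f ≤ r})ᶜ :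
      Set (WeakDual ℝ Z)) ∩ {f : WeakDual ℝ Z | c.1.1 + f (ι c.1.2) < r} := by
      refine ⟨?_, hr1⟩
      simp only [Set.mem_compl_iff, Set.mem_preimage, Set.mem_ofPred_eq, not_le]
      exact hr2
    filter_upwards [(hopen1.inter hopen2).mem_nhds hmem] with g hg
    obtain ⟨hg1, hg2⟩ := hg
    simp only [Set.mem_compl_iff, Set.mem_preimage, Set.mem_ofPred_eq, not_le] at hg1 hg2 ⊢
    exact lt_trans hg2 hg1

theorem ball_bounded (D : Data ι N Φ) : ∃ R : ℝ, ∀ f ∈ Ball ι N Φ, ‖f‖ ≤ R := by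
  obtain ⟨M, hM0, hM, _⟩ := D.exists_const_aff
  obtain ⟨R, hR⟩ := D.Φ_bdd M
  refine ⟨R, fun f hf => hR f ?_⟩
  have := hf.2 _ hM
  simpa using this

/-- Minimal lifts exist. -/
theorem exists_min_lift (D : Data ι N Φ) {g : StrongDual ℝ X} (hg : g ∈ Kq N) :
    ∃ f₀ : StrongDual ℝ Z, res ι f₀ = g ∧ ∀ f, res ι f = g → Φ f₀ ≤ Φ f := by
  obtain ⟨M, hM0, _, hM⟩ := D.exists_const_aff
  obtain ⟨f₁, hf₁, hf₁'⟩ := hM g hg
  obtain ⟨R, hR⟩ := D.Φ_bdd M
  -- the family of closed sets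
  let C : Set (WeakDual ℝ Z) :=
    WeakDual.toStrongDual ⁻¹' {f : StrongDual ℝ Z | res ι f = g ∧ Φ f ≤ M}
  have hfib : WClosed {f : StrongDual ℝ Z | res ι f = g} := by
    have : {f : StrongDual ℝ Z | res ι f = g} =
        ⋂ x : X, ({f : StrongDual ℝ Z | f (ι x) ≤ g x} ∩ {f | g x ≤ f (ι x)}) := by
      ext f
      simp only [Set.mem_ofPred_eq, Set.mem_iInter, Set.mem_inter_iff]
      constructor
      · intro h x
        rw [← h]; exact ⟨le_refl _, le_refl _⟩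
      · intro h
        ext x
        exact le_antisymm (h x).1 (h x).2
    rw [this]
    apply wclosed_iInter
    intro x
    apply wclosed_inter (wclosed_eval_le _ _)
    unfold WClosed
    have : Continuous fun f : WeakDual ℝ Z => f (ι x) := WeakDual.eval_continuous _
    exact isClosed_le continuous_const this
  have hC : ∀ r : ℝ, WClosed {f : StrongDual ℝ Z | res ι f = g ∧ Φ f ≤ r} := fun r =>
    wclosed_inter hfib (D.Φ_lsc r)
  have hK : IsCompact C := wcompact (hC M) R (fun f hf => hR f hf.2)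
  -- infimum over the fibre
  let S : Set ℝ := Φ '' {f : StrongDual ℝ Z | res ι f = g}
  have hSne : S.Nonempty := ⟨Φ f₁, f₁, hf₁, rfl⟩
  have hSbd : BddBelow S := ⟨0, by rintro _ ⟨f, _, rfl⟩; exact D.Φ_nonneg f⟩
  set m := sInf S with hm
  have hmM : m ≤ M := le_trans (csInf_le hSbd ⟨f₁, hf₁, rfl⟩) hf₁'
  let T : ℕ → Set (WeakDual ℝ Z) := fun n =>
    WeakDual.toStrongDual ⁻¹' {f : StrongDual ℝ Z | res ι f = g ∧ Φ f ≤ m + 1 / ((n : ℝ) + 1)}
  have hTne : ∀ n, (T n).Nonempty := by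
    intro n
    have hlt : m < m + 1 / ((n : ℝ) + 1) := by
      have : (0 : ℝ) < 1 / ((n : ℝ) + 1) := by positivity
      linarith
    obtain ⟨_, ⟨f, hf, rfl⟩, hflt⟩ := exists_lt_of_csInf_lt hSne hlt
    exact ⟨StrongDual.toWeakDual f, hf, hflt.le⟩
  have hTmono : ∀ n, T (n + 1) ⊆ T n := by
    intro n f hf
    refine ⟨hf.1, le_trans hf.2 ?_⟩
    have : 1 / (((n + 1 : ℕ) : ℝ) + 1) ≤ 1 / ((n : ℝ) + 1) := by
      apply one_div_le_one_div_of_le (by positivity)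
      push_cast; linarith
    linarith
  obtain ⟨R', hR'⟩ := D.Φ_bdd (m + 1 / (((0 : ℕ) : ℝ) + 1))
  have hT0 : IsCompact (T 0) := wcompact (hC _) R' (fun f hf => hR' f hf.2)
  obtain ⟨f₀, hf₀⟩ := IsCompact.nonempty_iInter_of_sequence_nonempty_isCompact_isClosed T
    hTmono hTne hT0 (fun n => hC _)
  rw [Set.mem_iInter] at hf₀
  refine ⟨WeakDual.toStrongDual f₀, (hf₀ 0).1, fun f hf => ?_⟩
  have h1 : Φ (WeakDual.toStrongDual f₀) ≤ m := by
    apply le_of_forall_pos_le_add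
    intro ε hε
    obtain ⟨n, hn⟩ := exists_nat_one_div_lt hε
    exact le_trans (hf₀ n).2 (by linarith)
  exact le_trans h1 (csInf_le hSbd ⟨f, hf, rfl⟩)

theorem min_lift_mem (D : Data ι N Φ) {g : StrongDual ℝ X} (hg : g ∈ Kq N)
    {f₀ : StrongDual ℝ Z} (h1 : res ι f₀ = g) (h2 : ∀ f, res ι f = g → Φ f₀ ≤ Φ f) :
    f₀ ∈ Ball ι N Φ := by
  refine ⟨fun x => ?_, fun c hc => ?_⟩
  · have := hg x
    rw [← h1] at this
    exact this
  · obtain ⟨f, hf1, hf2⟩ := hc g hg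
    have h3 : g c.2 = f₀ (ι c.2) := by rw [← h1]; rfl
    rw [← h3]
    exact le_trans (h2 f hf1) hf2

theorem ball_nonempty (D : Data ι N Φ) : (Ball ι N Φ).Nonempty := by
  obtain ⟨g, hg, _⟩ := D.exists_norming 0
  obtain ⟨f₀, h1, h2⟩ := D.exists_min_lift hg
  exact ⟨f₀, D.min_lift_mem hg h1 h2⟩

theorem supp_eq (D : Data ι N Φ) (x : X) : supp (Ball ι N Φ) (ι x) = N x := by
  obtain ⟨R, hR⟩ := D.ball_bounded
  apply le_antisymm
  · exact supp_le D.ball_nonempty fun f hf => hf.1 x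
  · obtain ⟨g, hg, hgx⟩ := D.exists_norming x
    obtain ⟨f₀, h1, h2⟩ := D.exists_min_lift hg
    have h3 := le_supp R hR (D.min_lift_mem hg h1 h2) (ι x)
    have h4 : f₀ (ι x) = g x := by rw [← h1]; rfl
    rw [h4, hgx] at h3
    exact h3

/-- A functional with strictly positive lifts. -/
theorem exists_pos_lift (D : Data ι N Φ) (hX : ∃ x : X, x ≠ 0) : ∃ g ∈ Kq N, ∃ M₀ : ℝ, 0 < M₀ ∧
    ∀ f, res ι f = g → M₀ ≤ Φ f := by
  obtain ⟨x, hx⟩ := hX
  obtain ⟨g, hg, hgx⟩ := D.exists_norming x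
  obtain ⟨f₀, h1, h2⟩ := D.exists_min_lift hg
  refine ⟨g, hg, Φ f₀, ?_, h2⟩
  have hne : f₀ ≠ -f₀ := by
    intro h
    have h3 : f₀ (ι x) = - f₀ (ι x) := by
      conv_lhs => rw [h]
      rfl
    have h4 : f₀ (ι x) = N x := by rw [← hgx, ← h1]; rfl
    have := D.N_pos hx
    linarith
  have := D.Φ_sc f₀ (-f₀) hne
  rw [add_neg_cancel, smul_zero, D.Φ_zero, D.Φ_even] at this
  linarith

theorem ball_ball (D : Data ι N Φ) (hX : ∃ x : X, x ≠ 0) :
    ∃ r : ℝ, 0 < r ∧ ∀ f : StrongDual ℝ Z, ‖f‖ ≤ r → f ∈ Ball ι N Φ := by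
  obtain ⟨g, hg, M₀, hM₀, hg2⟩ := D.exists_pos_lift hX
  obtain ⟨a, b, ha, hab⟩ := D.N_bd
  -- continuity of Φ at zero
  have hcont := D.Φ_cont.continuousAt (x := 0)
  rw [Metric.continuousAt_iff] at hcont
  obtain ⟨s, hs, hs'⟩ := hcont (M₀ / 4) (by linarith)
  refine ⟨min (s / 2) (a / 2), by positivity, fun f hf => ?_⟩
  have hf1 : ‖f‖ ≤ s / 2 := le_trans hf (min_le_left _ _)
  have hf2 : ‖f‖ ≤ a / 2 := le_trans hf (min_le_right _ _)
  have hval : ∀ x, |f (ι x)| ≤ N x / 2 := by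
    intro x
    have h1 : ‖f (ι x)‖ ≤ ‖f‖ * ‖ι x‖ := f.le_opNorm _
    rw [ι.norm_map] at h1
    have h2 := (hab x).1
    have h3 : ‖f‖ * ‖x‖ ≤ a / 2 * ‖x‖ := by gcongr
    rw [Real.norm_eq_abs] at h1
    linarith
  have hΦ : Φ f ≤ M₀ / 4 := by
    have := hs' (x := f) (by rw [dist_zero_right]; linarith)
    rw [D.Φ_zero, Real.dist_eq, sub_zero] at this
    exact le_trans (le_abs_self _) this.le
  refine ⟨fun x => ?_, fun c hc => ?_⟩
  · have := hval x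
    have h2 := D.N_nonneg x
    have h3 := (abs_le.mp this).2
    linarith
  · have hNn := D.N_nonneg c.2
    obtain ⟨g1, hg1, hg1'⟩ := D.exists_norming c.2
    obtain ⟨f2, hf21, hf22⟩ := hc _ (D.neg_mem hg1)
    have h1 : N c.2 ≤ c.1 := by
      have h0 := D.Φ_nonneg f2
      change Φ f2 ≤ c.1 + (- g1 c.2) at hf22
      rw [hg1'] at hf22
      linarith
    obtain ⟨f3, hf31, hf32⟩ := hc _ hg
    have h2 : M₀ ≤ c.1 + N c.2 := by
      have := hg2 f3 hf31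
      have h5 := hg c.2
      linarith
    have h3 := (abs_le.mp (hval c.2)).1
    linarith

/-- Tightness at a maximiser. -/
theorem tight (D : Data ι N Φ) {z : Z} (hz : z ≠ 0) {f : StrongDual ℝ Z}
    (hf : f ∈ Ball ι N Φ) (hfz : f z = supp (Ball ι N Φ) z) (η : ℝ) (hη : 0 < η) :
    ∃ c ∈ Aff ι N Φ, c.1 + f (ι c.2) < Φ f + η := by
  by_contra hcon
  push Not at hcon
  obtain ⟨R, hR⟩ := D.ball_bounded
  by_cases hzX : z ∈ Set.range ι
  · obtain ⟨x₀, rfl⟩ := hzX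
    have hx₀ : x₀ ≠ 0 := by
      rintro rfl
      exact hz (map_zero ι)
    rw [D.supp_eq] at hfz
    set g₀ := res ι f with hg₀
    have hg₀K : g₀ ∈ Kq N := hf.1
    obtain ⟨f₀, h1, h2⟩ := D.exists_min_lift hg₀K
    obtain ⟨δ, hδ, hlift⟩ := D.lift x₀ hx₀ g₀ hg₀K hfz f₀ h1 h2 (η / 2) (by linarith)
    obtain ⟨M, hM0, _, hM⟩ := D.exists_const_aff
    -- the affine function
    have hmem : (Φ f₀ + η / 2 + M / δ * N x₀, -(M / δ) • x₀) ∈ Aff ι N Φ := by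
      intro g hg
      have hMδ : 0 ≤ M / δ := div_nonneg hM0 hδ.le
      have hgx := hg x₀
      rcases le_or_gt (N x₀ - δ) (g x₀) with h | h
      · obtain ⟨f', hf'1, hf'2⟩ := hlift g hg h
        refine ⟨f', hf'1, ?_⟩
        simp only [neg_smul, map_neg, map_smul, smul_eq_mul]
        nlinarith
      · obtain ⟨f', hf'1, hf'2⟩ := hM g hg
        refine ⟨f', hf'1, ?_⟩
        simp only [neg_smul, map_neg, map_smul, smul_eq_mul]
        have h3 : M / δ * δ ≤ M / δ * (N x₀ - g x₀) := by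
          apply mul_le_mul_of_nonneg_left _ hMδ
          linarith
        rw [div_mul_cancel₀ _ hδ.ne'] at h3
        have h4 := D.Φ_nonneg f₀
        nlinarith
    have h5 := hcon _ hmem
    have h6 : f (ι x₀) = N x₀ := hfz
    simp only [neg_smul, map_neg, map_smul, smul_eq_mul, h6] at h5
    have h7 := h2 f rfl
    linarith
  · -- perturb in a direction vanishing on the subspace
    have hclosed : IsClosed ((LinearMap.range ι.toLinearMap : Submodule ℝ Z) : Set Z) := by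
      have : ((LinearMap.range ι.toLinearMap : Submodule ℝ Z) : Set Z) = Set.range ι := by
        ext w; simp
      rw [this]; exact D.closed_range
    obtain ⟨k, u, hk1, hk2⟩ := geometric_hahn_banach_closed_point
      (E := Z) (LinearMap.range ι.toLinearMap).convex hclosed (x := z) (by
        intro h
        apply hzX
        simpa using h)
    have hk0 : ∀ x : X, k (ι x) = 0 := by
      intro x
      by_contra hne
      have h1 : ∀ t : ℝ, t * k (ι x) < u := by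
        intro t
        have := hk1 (ι (t • x)) (LinearMap.mem_range.mpr ⟨t • x, rfl⟩)
        rwa [map_smul, map_smul, smul_eq_mul] at this
      have h2 := h1 ((|u| + 1) / k (ι x))
      rw [div_mul_cancel₀ _ hne] at h2
      linarith [le_abs_self u]
    have hkz : 0 < k z := by
      have := hk1 (ι 0) (by simp)
      rw [hk0] at this
      linarith
    have hcont : ContinuousAt Φ f := D.Φ_cont.continuousAt
    rw [Metric.continuousAt_iff] at hcont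
    obtain ⟨s, hs, hs'⟩ := hcont η hη
    set t : ℝ := s / (2 * (‖k‖ + 1)) with ht
    have htpos : 0 < t := by positivity
    have hmem : f + t • k ∈ Ball ι N Φ := by
      refine ⟨fun x => ?_, fun c hc => ?_⟩
      · change f (ι x) + t * k (ι x) ≤ N x
        rw [hk0]; simpa using hf.1 x
      · have h1 := hcon c hc
        have h2 : dist (f + t • k) f < s := by
          rw [dist_eq_norm, add_sub_cancel_left, norm_smul, Real.norm_of_nonneg htpos.le, ht]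
          rw [div_mul_eq_mul_div, div_lt_iff₀ (by positivity)]
          nlinarith [norm_nonneg k]
        have h3 := hs' h2
        rw [Real.dist_eq] at h3
        have h4 := (abs_lt.mp h3).2
        change _ ≤ c.1 + (f (ι c.2) + t * k (ι c.2))
        rw [hk0]
        linarith
    have h5 := le_supp R hR hmem z
    change f z + t * k z ≤ _ at h5
    rw [hfz] at h5
    nlinarith

theorem unique_max (D : Data ι N Φ) {z : Z} (hz : z ≠ 0) {f g : StrongDual ℝ Z}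
    (hf : f ∈ Ball ι N Φ) (hfz : f z = supp (Ball ι N Φ) z)
    (hg : g ∈ Ball ι N Φ) (hgz : g z = supp (Ball ι N Φ) z) : f = g := by
  by_contra hne
  have hlt := D.Φ_sc f g hne
  have hmid := D.ball_mid hf hg
  have hmz : ((1 / 2 : ℝ) • (f + g)) z = supp (Ball ι N Φ) z := by
    change (1 / 2 : ℝ) * (f z + g z) = _
    rw [hfz, hgz]; ring
  obtain ⟨c, hc, hlt2⟩ := D.tight hz hmid hmz ((Φ f + Φ g) / 2 - Φ ((1 / 2 : ℝ) • (f + g)))
    (by linarith)
  have h1 := hf.2 c hc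
  have h2 := hg.2 c hc
  change c.1 + (1 / 2 : ℝ) * (f (ι c.2) + g (ι c.2)) < _ at hlt2
  linarith

theorem exists_maximizer (D : Data ι N Φ) (z : Z) :
    ∃ f ∈ Ball ι N Φ, f z = supp (Ball ι N Φ) z := by
  obtain ⟨R, hR⟩ := D.ball_bounded
  obtain ⟨f₀, hf₀, hmax⟩ := exists_max D.ball_wclosed R hR D.ball_nonempty z
  exact ⟨f₀, hf₀, le_antisymm (le_supp R hR hf₀ z) (supp_le D.ball_nonempty hmax)⟩

/-- The extension theorem, Gateaux version. -/
theorem gateaux (D : Data ι N Φ) (hX : ∃ x : X, x ≠ 0) : ∃ M : Z → ℝ,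
    ((∀ z w, M (z + w) ≤ M z + M w) ∧
      (∀ (c : ℝ) (z : Z), M (c • z) = |c| * M z) ∧
      (∃ a b : ℝ, 0 < a ∧ ∀ z, a * ‖z‖ ≤ M z ∧ M z ≤ b * ‖z‖) ∧
      (∀ z : Z, z ≠ 0 → ∃ f : Z →L[ℝ] ℝ,
        ∀ h : Z, HasDerivAt (fun t : ℝ => M (z + t • h)) (f h) 0)) ∧
      ∀ x : X, M (ι x) = N x := by
  obtain ⟨R, hR⟩ := D.ball_bounded
  obtain ⟨r, hr, hrb⟩ := D.ball_ball hX
  refine ⟨supp (Ball ι N Φ), ⟨supp_add R hR D.ball_nonempty,
    supp_smul R hR D.ball_nonempty (fun f hf => D.ball_neg hf), ⟨r, R, hr, fun z =>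
      ⟨norm_le_supp R hR r hr.le hrb z, supp_le_norm R hR D.ball_nonempty z⟩⟩, ?_⟩, D.supp_eq⟩
  intro z hz
  obtain ⟨f₀, hf₀, hf₀z⟩ := D.exists_maximizer z
  refine ⟨f₀, fun h => ?_⟩
  exact supp_gateaux D.ball_wclosed R hR D.ball_nonempty z f₀ hf₀ hf₀z
    (fun f hf hfz => D.unique_max hz hf hfz hf₀ hf₀z) h

/-- The extension theorem, Frechet version. -/
theorem frechet (D : Data ι N Φ) (hX : ∃ x : X, x ≠ 0)
    (KK : ∀ f₀ : StrongDual ℝ Z, ∀ ε : ℝ, 0 < ε → ∃ U : Set (WeakDual ℝ Z), IsOpen U ∧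
      StrongDual.toWeakDual f₀ ∈ U ∧ ∃ δ : ℝ, 0 < δ ∧ ∀ f : StrongDual ℝ Z,
        StrongDual.toWeakDual f ∈ U → Φ f < Φ f₀ + δ → ‖f - f₀‖ ≤ ε) :
    ∃ M : Z → ℝ,
    ((∀ z w, M (z + w) ≤ M z + M w) ∧
      (∀ (c : ℝ) (z : Z), M (c • z) = |c| * M z) ∧
      (∃ a b : ℝ, 0 < a ∧ ∀ z, a * ‖z‖ ≤ M z ∧ M z ≤ b * ‖z‖) ∧
      (∀ z : Z, z ≠ 0 → DifferentiableAt ℝ M z)) ∧
      ∀ x : X, M (ι x) = N x := by
  obtain ⟨R, hR⟩ := D.ball_bounded
  obtain ⟨r, hr, hrb⟩ := D.ball_ball hX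
  refine ⟨supp (Ball ι N Φ), ⟨supp_add R hR D.ball_nonempty,
    supp_smul R hR D.ball_nonempty (fun f hf => D.ball_neg hf), ⟨r, R, hr, fun z =>
      ⟨norm_le_supp R hR r hr.le hrb z, supp_le_norm R hR D.ball_nonempty z⟩⟩, ?_⟩, D.supp_eq⟩
  intro z hz
  obtain ⟨f₀, hf₀, hf₀z⟩ := D.exists_maximizer z
  refine (supp_frechet D.ball_wclosed R hR D.ball_nonempty z f₀ hf₀ hf₀z ?_).differentiableAt
  intro ε hε
  obtain ⟨U, hU, hfU, δ, hδ, hKK⟩ := KK f₀ ε hε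
  obtain ⟨c, hc, hct⟩ := D.tight hz hf₀ hf₀z (δ / 2) (by linarith)
  have huniq : ∀ f ∈ Ball ι N Φ, f z = supp (Ball ι N Φ) z → f = f₀ :=
    fun f hf hfz => D.unique_max hz hf hfz hf₀ hf₀z
  obtain ⟨δ₁, hδ₁, h1⟩ := exposed_wk D.ball_wclosed R hR z (supp (Ball ι N Φ) z) f₀
    (fun f hf => le_supp R hR hf z) huniq (ι c.2) (δ / 2) (by linarith)
  obtain ⟨δ₂, hδ₂, h2⟩ := exposed_open D.ball_wclosed R hR z (supp (Ball ι N Φ) z) f₀
    (fun f hf => le_supp R hR hf z) huniq U hU hfU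
  refine ⟨min δ₁ δ₂, lt_min hδ₁ hδ₂, fun f hf hfz => ?_⟩
  have hf1 := h1 f hf (by linarith [min_le_left δ₁ δ₂])
  have hf2 := h2 f hf (by linarith [min_le_right δ₁ δ₂])
  apply hKK f hf2
  have h3 := hf.2 c hc
  have h4 := (abs_lt.mp hf1).2
  linarith

end Data

end Main

end Pool.Agent.Helper871.NormExt
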