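import Pool.Agent.Helper871.CP3
import Pool.Agent.Helper871.NormExt

set_option autoImplicit false

namespace Pool.Agent.Helper871.CP

open Filter Topology Set
open Pool.Agent.Helper871.NormExt

variable {X : Type} [NormedAddCommGroup X] [NormedSpace ℝ X]

/-- Basic neighbourhoods of the weak-star topology. -/
theorem basic_nhds (x : WeakDual ℝ X) (W : Set (WeakDual ℝ X)) (hW : W ∈ 𝓝 x) :
    ∃ F : Finset X, ∃ δ : ℝ, 0 < δ ∧ ∀ z : WeakDual ℝ X, (∀ v ∈ F, |z v - x v| < δ) → z ∈ W := by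
  have h0 : 𝓝 x = comap (fun (z : WeakDual ℝ X) (v : X) => z v) (𝓝 (fun v => x v)) :=
    nhds_induced _ _
  rw [h0, mem_comap] at hW
  obtain ⟨W', hW', hsub⟩ := hW
  rw [nhds_pi, Filter.mem_pi] at hW'
  obtain ⟨I, hI, t, ht, hsub'⟩ := hW'
  have h1 : ∀ i, ∃ r > 0, Metric.ball (x i) r ⊆ t i := fun i => Metric.mem_nhds_iff.mp (ht i)
  choose r hr hr' using h1
  classical
  by_cases hne : hI.toFinset.Nonempty
  · refine ⟨hI.toFinset, hI.toFinset.inf' hne r, ?_, fun z hz => hsub ?_⟩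
    · rw [Finset.lt_inf'_iff]
      exact fun i _ => hr i
    · apply hsub'
      intro i hi
      have hi' : i ∈ hI.toFinset := hI.mem_toFinset.mpr hi
      apply hr' i
      rw [Metric.mem_ball, Real.dist_eq]
      exact lt_of_lt_of_le (hz i hi') (Finset.inf'_le _ hi')
  · refine ⟨∅, 1, one_pos, fun z _ => hsub (hsub' ?_)⟩
    intro i hi
    exact absurd ⟨i, hI.mem_toFinset.mpr hi⟩ hne

theorem basic_open (x : WeakDual ℝ X) (F : Finset X) (δ : ℝ) :
    IsOpen {z : WeakDual ℝ X | ∀ v ∈ F, |z v - x v| < δ} := by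
  have : {z : WeakDual ℝ X | ∀ v ∈ F, |z v - x v| < δ} = ⋂ v ∈ F, {z | |z v - x v| < δ} := by
    ext z; simp
  rw [this]
  apply isOpen_biInter_finset
  intro v _
  exact isOpen_lt ((WeakDual.eval_continuous v).sub continuous_const).abs continuous_const

theorem wclosed_of {C : Set (StrongDual ℝ X)}
    (h : ∀ y : StrongDual ℝ X, y ∉ C → ∃ F : Finset X, ∃ δ : ℝ, 0 < δ ∧
        ∀ z : StrongDual ℝ X, (∀ v ∈ F, |z v - y v| < δ) → z ∉ C) : WClosed C := by
  unfold WClosed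
  rw [← isOpen_compl_iff, isOpen_iff_mem_nhds]
  intro y hy
  obtain ⟨F, δ, hδ, hF⟩ := h (WeakDual.toStrongDual y) hy
  refine mem_of_superset ((basic_open y F δ).mem_nhds ?_) ?_
  · intro v _
    simpa using hδ
  · intro z hz
    exact hF (WeakDual.toStrongDual z) hz

/-- Uniform failure of weak-star to norm continuity. -/
def UNP (K₀ : Set (StrongDual ℝ X)) (c : ℝ) : Prop :=
  ∀ g ∈ K₀, ∀ F : Finset X, ∀ δ : ℝ, 0 < δ → ∃ y ∈ K₀, ∃ z ∈ K₀,
    (∀ v ∈ F, |y v - g v| < δ) ∧ (∀ v ∈ F, |z v - g v| < δ) ∧ c ≤ ‖y - z‖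

theorem exists_unp (h : ¬ CPCP X) : ∃ (K₀ : Set (StrongDual ℝ X)) (R c : ℝ), 0 < c ∧
    K₀.Nonempty ∧ Convex ℝ K₀ ∧ WClosed K₀ ∧ (∀ f ∈ K₀, ‖f‖ ≤ R) ∧ UNP K₀ c := by
  unfold CPCP at h
  push Not at h
  obtain ⟨C, hne, hconv, hbdd, hcl, hbad⟩ := h
  have hC : WClosed C := wclosed_of hcl
  obtain ⟨R, hR⟩ := isBounded_iff_forall_norm_le.mp hbdd
  have hK := wcompact hC R hR
  set C' : Set (WeakDual ℝ X) := WeakDual.toStrongDual ⁻¹' C with hC'
  have : CompactSpace C' := isCompact_iff_compactSpace.mp hK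
  have : Nonempty C' := ⟨⟨StrongDual.toWeakDual hne.choose, hne.choose_spec⟩⟩
  let nm : C' → C' → ℝ := fun y z => ‖WeakDual.toStrongDual y.1 - WeakDual.toStrongDual z.1‖
  let E : ℕ → Set C' := fun n => {x | ∀ U ∈ 𝓝 x, ∃ y ∈ U, ∃ z ∈ U, 1 / ((n : ℝ) + 1) ≤ nm y z}
  have hE1 : ∀ n, IsClosed (E n) := by
    intro n
    rw [← isOpen_compl_iff, isOpen_iff_mem_nhds]
    intro x hx
    simp only [E, Set.mem_compl_iff, Set.mem_ofPred_eq, not_forall] at hx
    obtain ⟨U, hU, hno⟩ := hx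
    obtain ⟨V, hVU, hV, hxV⟩ := mem_nhds_iff.mp hU
    refine mem_of_superset (hV.mem_nhds hxV) ?_
    intro x' hx' hx'E
    obtain ⟨y, hy, z, hz, hyz⟩ := hx'E V (hV.mem_nhds hx')
    exact hno ⟨y, hVU hy, z, hVU hz, hyz⟩
  have hE2 : ⋃ n, E n = univ := by
    rw [eq_univ_iff_forall]
    intro x
    obtain ⟨ε, hε, hx⟩ := hbad (WeakDual.toStrongDual x.1) x.2
    obtain ⟨n, hn⟩ := exists_nat_one_div_lt hε
    refine mem_iUnion.mpr ⟨n, fun U hU => ?_⟩
    obtain ⟨W, hW, hWU⟩ := mem_nhds_subtype _ _ _ |>.mp hU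
    obtain ⟨F, δ, hδ, hF⟩ := basic_nhds x.1 W hW
    obtain ⟨y, hy, h1, h2⟩ := hx F δ hδ
    refine ⟨⟨StrongDual.toWeakDual y, hy⟩, hWU (hF _ h1), x, mem_of_mem_nhds hU, ?_⟩
    exact hn.le.trans h2
  obtain ⟨n, hn⟩ := nonempty_interior_of_iUnion_of_closed hE1 hE2
  obtain ⟨x₀, hx₀⟩ := hn
  obtain ⟨W, hW, hWE⟩ := mem_nhds_subtype _ _ _ |>.mp (mem_interior_iff_mem_nhds.mp hx₀)
  obtain ⟨F, δ, hδ, hF⟩ := basic_nhds x₀.1 W hW
  set u : StrongDual ℝ X := WeakDual.toStrongDual x₀.1 with hu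
  set K₀ : Set (StrongDual ℝ X) := {g | g ∈ C ∧ ∀ v ∈ F, |g v - u v| ≤ δ / 2} with hK₀
  have huC : u ∈ C := x₀.2
  have huK : u ∈ K₀ := ⟨huC, fun v _ => by simp; linarith⟩
  refine ⟨K₀, R, 1 / ((n : ℝ) + 1), by positivity, ⟨u, huK⟩, ?_, ?_, fun f hf => hR f hf.1, ?_⟩
  · intro f hf g hg α β hα hβ hαβ
    refine ⟨hconv hf.1 hg.1 hα hβ hαβ, fun v hv => ?_⟩
    have h1 : (α • f + β • g) v - u v = α * (f v - u v) + β * (g v - u v) := by
      have : (α • f + β • g) v = α * f v + β * g v := rfl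
      rw [this]
      linear_combination (u v) * hαβ
    rw [h1]
    calc _ ≤ |α * (f v - u v)| + |β * (g v - u v)| := abs_add_le _ _
      _ = α * |f v - u v| + β * |g v - u v| := by
        rw [abs_mul, abs_mul, abs_of_nonneg hα, abs_of_nonneg hβ]
      _ ≤ α * (δ / 2) + β * (δ / 2) := by
        gcongr
        · exact hf.2 v hv
        · exact hg.2 v hv
      _ = δ / 2 := by rw [← add_mul, hαβ, one_mul]
  · have : K₀ = C ∩ ⋂ v : F, {g | |g v - u v| ≤ δ / 2} := by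
      ext g
      simp [hK₀]
    rw [this]
    apply wclosed_inter hC
    apply wclosed_iInter
    intro v
    unfold WClosed
    have h1 : Continuous fun f : WeakDual ℝ X => |f v - u v| :=
      ((WeakDual.eval_continuous _).sub continuous_const).abs
    exact isClosed_le h1 continuous_const
  · intro g hg F' δ' hδ'
    -- move towards the centre
    obtain ⟨t, ht0, ht1, ht⟩ : ∃ t : ℝ, 0 < t ∧ t ≤ 1 ∧ ∀ v ∈ F', t * |u v - g v| < δ' / 2 := by
      have : ∀ᶠ t in 𝓝[>] (0 : ℝ), t < 1 ∧ ∀ v ∈ F', t * |u v - g v| < δ' / 2 := by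
        have aux : ∀ (φ : ℝ → ℝ) (c : ℝ), Continuous φ → φ 0 = 0 → 0 < c →
            ∀ᶠ δ in 𝓝[>] (0 : ℝ), φ δ < c := by
          intro φ c hφ h0 hc
          have h1 : Tendsto φ (𝓝[>] 0) (𝓝 0) := by
            have := (hφ.tendsto 0).mono_left (nhdsWithin_le_nhds (s := Ioi 0))
            rwa [h0] at this
          exact h1.eventually_lt_const hc
        refine (aux (fun t => t) 1 continuous_id rfl one_pos).and ?_
        rw [Filter.eventually_all_finset]
        intro v _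
        exact aux (fun t => t * |u v - g v|) _ (by fun_prop) (by simp) (by linarith)
      obtain ⟨t, ⟨h1, h2⟩, h3⟩ := (this.and self_mem_nhdsWithin).exists
      exact ⟨t, h3, h1.le, h2⟩
    set g' : StrongDual ℝ X := (1 - t) • g + t • u with hg'
    have hg'C : g' ∈ C := hconv hg.1 huC (by linarith) ht0.le (by ring)
    have hg'v : ∀ v, g' v - u v = (1 - t) * (g v - u v) := by
      intro v
      have : g' v = (1 - t) * g v + t * u v := rfl
      rw [this]; ring
    have hg'v2 : ∀ v, g' v - g v = t * (u v - g v) := by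
      intro v
      have : g' v = (1 - t) * g v + t * u v := rfl
      rw [this]; ring
    have hg'F : ∀ v ∈ F, |g' v - u v| < δ / 2 := by
      intro v hv
      rw [hg'v, abs_mul, abs_of_nonneg (by linarith : (0 : ℝ) ≤ 1 - t)]
      have h1 := hg.2 v hv
      have h2 := mul_le_mul_of_nonneg_left h1 (by linarith : (0 : ℝ) ≤ 1 - t)
      nlinarith
    have hmem : (⟨StrongDual.toWeakDual g', hg'C⟩ : C') ∈ E n := by
      apply hWE
      apply hF
      intro v hv
      exact lt_trans (hg'F v hv) (by linarith)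
    set U : Set C' := {z | (∀ v ∈ F, |z.1 v - u v| < δ / 2) ∧ ∀ v ∈ F', |z.1 v - g' v| < δ' / 2}
      with hU
    have hUo : IsOpen U := by
      have : U = Subtype.val ⁻¹' ({z : WeakDual ℝ X | ∀ v ∈ F, |z v - x₀.1 v| < δ / 2} ∩
          {z : WeakDual ℝ X | ∀ v ∈ F', |z v - (StrongDual.toWeakDual g') v| < δ' / 2}) := rfl
      rw [this]
      exact ((basic_open _ _ _).inter (basic_open _ _ _)).preimage continuous_subtype_val
    obtain ⟨y, hy, z, hz, hyz⟩ := hmem U (hUo.mem_nhds ⟨hg'F, fun v _ => by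
      have : (StrongDual.toWeakDual g') v - g' v = 0 := sub_self _
      rw [this, abs_zero]
      linarith⟩)
    refine ⟨WeakDual.toStrongDual y.1, ⟨y.2, fun v hv => (hy.1 v hv).le⟩,
      WeakDual.toStrongDual z.1, ⟨z.2, fun v hv => (hz.1 v hv).le⟩, ?_, ?_, hyz⟩
    · intro v hv
      have h1 := hy.2 v hv
      have h2 := ht v hv
      have h3 : |g' v - g v| < δ' / 2 := by
        rw [hg'v2, abs_mul, abs_of_nonneg ht0.le]; exact h2
      calc |y.1 v - g v| = |(y.1 v - g' v) + (g' v - g v)| := by rw [sub_add_sub_cancel]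
        _ ≤ _ := abs_add_le _ _
        _ < δ' := by linarith
    · intro v hv
      have h1 := hz.2 v hv
      have h2 := ht v hv
      have h3 : |g' v - g v| < δ' / 2 := by
        rw [hg'v2, abs_mul, abs_of_nonneg ht0.le]; exact h2
      calc |z.1 v - g v| = |(z.1 v - g' v) + (g' v - g v)| := by rw [sub_add_sub_cancel]
        _ ≤ _ := abs_add_le _ _
        _ < δ' := by linarith

end Pool.Agent.Helper871.CP
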