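import Pool.Agent.Helper871.CB5

set_option autoImplicit false

namespace Pool.Agent.Helper871.CP

open Filter Topology Set Cardinal

theorem mk_Iic_lt {κ : Cardinal.{0}} (hκ : ℵ₀ < κ) (i : κ.ord.ToType) : #(Iic i) < κ := by
  have h1 : #(Iio i) < κ := by simpa using mk_Iio_lt i
  have h2 : Iic i = insert i (Iio i) := by
    ext j; simp [le_iff_eq_or_lt]
  rw [h2]
  refine (mk_insert_le).trans_lt ?_
  exact add_lt_of_lt hκ.le h1 (one_lt_aleph0.trans hκ)

/-- The finiteness argument. -/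
theorem finite_blocks {X : Type} [NormedAddCommGroup X] [NormedSpace ℝ X] [CompleteSpace X]
    {H : Set X} (hH : WC H) {I : Type} [LinearOrder I] [WellFoundedLT I]
    (Lo Hi : I → X →L[ℝ] X) (hnorm : ∀ i x, ‖Lo i x‖ ≤ ‖x‖)
    (hLL : ∀ i j, i ≤ j → ∀ x, Lo i (Lo j x) = Lo i x)
    (hLH : ∀ i j, i ≤ j → ∀ x, Lo i (Hi j x) = Lo i x)
    (hLH' : ∀ i j, i < j → ∀ x, Lo j (Hi i x) = Hi i x)
    (hLL' : ∀ i j, i ≤ j → ∀ x, Lo j (Lo i x) = Lo i x)
    {Γ : I → Type} (x : ∀ i, Γ i → X) (hxH : ∀ i γ, x i γ ∈ H)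
    (hxQ : ∀ i γ, Hi i (x i γ) - Lo i (x i γ) = x i γ) (f : StrongDual ℝ X) (ε : ℝ) (hε : 0 < ε) :
    {i | ∃ γ, ε ≤ |f (x i γ)|}.Finite := by
  by_contra hcon
  have hinf : {i | ∃ γ, ε ≤ |f (x i γ)|}.Infinite := hcon
  set e := hinf.natEmbedding with he
  obtain ⟨g, hg⟩ := exists_increasing_or_nonincreasing_subseq (· < ·) (fun n => (e n : I))
  have hmono : StrictMono fun n => (e (g n) : I) := by
    rcases hg with hg | hg
    · exact fun m n h => hg m n h
    · exfalso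
      have h1 : ∀ m n : ℕ, m < n → (e (g n) : I) < e (g m) := by
        intro m n hmn
        have h2 := hg m n hmn
        refine lt_of_le_of_ne (not_lt.mp h2) ?_
        intro h3
        have h4 := e.injective (Subtype.ext h3)
        have h5 := g.injective h4
        omega
      obtain ⟨i, ⟨n, rfl⟩, hi⟩ := (wellFounded_lt (α := I)).has_min
        (range fun n => (e (g n) : I)) (range_nonempty _)
      exact hi _ ⟨n + 1, rfl⟩ (h1 n (n + 1) (Nat.lt_succ_self n))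
  set i : ℕ → I := fun n => (e (g n) : I) with hi
  have hγ : ∀ n, ∃ γ, ε ≤ |f (x (i n) γ)| := fun n => (e (g n)).2
  choose γ hγ using hγ
  set z : ℕ → X := fun n => x (i n) (γ n) with hz
  obtain ⟨y, hyH, hy⟩ := hH ℕ (hyperfilter ℕ) z (fun n => hxH _ _)
  have hzQ : ∀ n, Hi (i n) (z n) - Lo (i n) (z n) = z n := fun n => hxQ _ _
  have ha : ∀ m, Lo (i m) y = 0 := by
    intro m
    apply ext_dual
    intro φ
    have h1 := hy (φ.comp (Lo (i m)))
    have h2 : ∀ᶠ n in (hyperfilter ℕ : Filter ℕ), (φ.comp (Lo (i m))) (z n) = 0 := by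
      apply Nat.hyperfilter_le_atTop
      filter_upwards [eventually_ge_atTop m] with n hn
      have h3 : i m ≤ i n := hmono.monotone hn
      rw [ContinuousLinearMap.comp_apply, ← hzQ n, map_sub, hLH _ _ h3, hLL _ _ h3, sub_self,
        map_zero]
    have h3 : Tendsto (fun n => (φ.comp (Lo (i m))) (z n)) (hyperfilter ℕ) (𝓝 0) :=
      tendsto_const_nhds.congr' (h2.mono fun n hn => hn.symm)
    rw [map_zero]
    exact tendsto_nhds_unique h1 h3
  let Z₀ : Submodule ℝ X :=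
    { carrier := {w | ∃ m, Lo (i m) w = w}
      zero_mem' := ⟨0, map_zero _⟩
      add_mem' := by
        rintro v w ⟨m, hm⟩ ⟨n, hn⟩
        refine ⟨max m n, ?_⟩
        have h1 : Lo (i (max m n)) v = v := by
          rw [← hm, hLL' _ _ (hmono.monotone (le_max_left m n))]
        have h2 : Lo (i (max m n)) w = w := by
          rw [← hn, hLL' _ _ (hmono.monotone (le_max_right m n))]
        rw [map_add, h1, h2]
      smul_mem' := by
        rintro c w ⟨m, hm⟩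
        exact ⟨m, by rw [map_smul, hm]⟩ }
  have hzZ : ∀ n, z n ∈ Z₀ := by
    intro n
    refine ⟨n + 1, ?_⟩
    have h1 : i n < i (n + 1) := hmono (Nat.lt_succ_self n)
    rw [← hzQ n, map_sub, hLH' _ _ h1, hLL' _ _ h1.le]
  have hyZ : y ∈ closure (Z₀ : Set X) := by
    apply mem_closure_of_dual
    intro φ hφ
    have h1 := hy φ
    have h2 : ∀ n, φ (z n) = 0 := fun n => hφ _ (hzZ n)
    simp only [h2] at h1
    exact tendsto_nhds_unique h1 tendsto_const_nhds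
  have hy0 : y = 0 := by
    by_contra hne
    have hpos : 0 < ‖y‖ := norm_pos_iff.mpr hne
    obtain ⟨w, ⟨m, hw⟩, hyw⟩ := Metric.mem_closure_iff.mp hyZ (‖y‖ / 2) (by linarith)
    rw [dist_eq_norm] at hyw
    have h1 : ‖w‖ ≤ ‖y - w‖ := by
      have h2 : w = Lo (i m) (w - y) := by rw [map_sub, hw, ha m, sub_zero]
      nth_rw 1 [h2]
      rw [norm_sub_rev y w]
      exact hnorm _ _
    have h2 : ‖y‖ ≤ ‖y - w‖ + ‖w‖ := by
      calc ‖y‖ = ‖(y - w) + w‖ := by rw [sub_add_cancel]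
        _ ≤ _ := norm_add_le _ _
    linarith
  have h1 := (hy f).abs
  rw [hy0, map_zero, abs_zero] at h1
  have h2 := ge_of_tendsto h1 (Eventually.of_forall fun n => hγ n)
  linarith

theorem al_step {κ : Cardinal.{0}} (hκ : ℵ₀ < κ) (hIH : ∀ κ' < κ, ALC κ') : ALC κ := by
  intro X _ _ _ K D hK hne hspan hD hcard
  obtain ⟨ops, hops⟩ := exists_ops hne
  obtain ⟨R, hR0, hR⟩ := wc_bdd hK
  -- seeds
  obtain ⟨s, hs⟩ : ∃ s : κ.ord.ToType → UU X, ∀ d ∈ D, ∃ i, s i = (d, 0) := by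
    have h1 : #D ≤ #κ.ord.ToType := by rw [mk_ord_toType]; exact hcard
    obtain ⟨e⟩ := h1
    have : Nonempty D := hD.nonempty.to_subtype
    refine ⟨fun i => ((Function.invFun e i : D), 0), fun d hd => ⟨e ⟨d, hd⟩, ?_⟩⟩
    simp only
    rw [Function.leftInverse_invFun e.injective]
  have hproj : ∀ S : Set (UU X), ∃ P : X →L[ℝ] X,
      IsProj K (Prod.fst '' cl ops S) (Prod.snd '' cl ops S) P := fun S =>
    exists_proj (hops _ (cl_closed ops S)) hK hspan
  choose Pr hPr using hproj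
  have comm : ∀ S S' : Set (UU X), S ⊆ S' → ∀ x, Pr S' (Pr S x) = Pr S x ∧ Pr S (Pr S' x) = Pr S x :=
    fun S S' h x => proj_comm (hPr S) (hPr S') (image_mono (cl_mono ops h))
      (image_mono (cl_mono ops h)) x
  have hmkA : ∀ S : Set (UU X), #S < κ → #(Prod.fst '' cl ops S) < κ := by
    intro S hS
    refine mk_image_le.trans_lt ((mk_cl_le ops S).trans_lt ?_)
    exact max_lt hS hκ
  set Lo : κ.ord.ToType → Set (UU X) := fun i => s '' Iio i with hLo
  set Hi : κ.ord.ToType → Set (UU X) := fun i => s '' Iic i with hHi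
  have hLoHi : ∀ i, Lo i ⊆ Hi i := fun i => image_mono Iio_subset_Iic_self
  have hHiLo : ∀ i j, i < j → Hi i ⊆ Lo j := fun i j h =>
    image_mono (fun k hk => lt_of_le_of_lt (mem_Iic.mp hk) h)
  have hLoLo : ∀ i j, i ≤ j → Lo i ⊆ Lo j := fun i j h => image_mono (Iio_subset_Iio h)
  have hHicard : ∀ i, #(Hi i) < κ := fun i => mk_image_le.trans_lt (mk_Iic_lt hκ i)
  -- blocks
  have hb : ∀ i, ∃ (Γ : Type) (x : Γ → X),
      (∀ γ, x γ ∈ Hat ((fun k => (1 / 4 : ℝ) • (Pr (Hi i) - Pr (Lo i)) k) '' K)) ∧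
      (∀ γ, (Pr (Hi i) - Pr (Lo i)) (x γ) = x γ) ∧
      (∀ (f : StrongDual ℝ X) (ε : ℝ), 0 < ε → {γ | ε ≤ |f (x γ)|}.Finite) ∧
      ∀ z, (Pr (Hi i) - Pr (Lo i)) z ∈
        closure ((Submodule.span ℝ (range x) : Submodule ℝ X) : Set X) := by
    intro i
    apply block hIH hK hne hspan (Pr (Hi i) - Pr (Lo i)) _ (Prod.fst '' cl ops (Hi i))
      (hmkA _ (hHicard i))
    · intro x
      have h1 : (Pr (Hi i) - Pr (Lo i)) x =
          (Pr (Hi i) - Pr (Lo i)) (Pr (Hi i) x) := by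
        change Pr (Hi i) x - Pr (Lo i) x = Pr (Hi i) (Pr (Hi i) x) - Pr (Lo i) (Pr (Hi i) x)
        rw [(comm _ _ (subset_refl (Hi i)) x).1, (comm _ _ (hLoHi i) x).2]
      rw [h1]
      exact image_closure_subset_closure_image (Pr (Hi i) - Pr (Lo i)).continuous
        ⟨_, (hPr (Hi i)).mem x, rfl⟩
    · intro x
      change Pr (Hi i) (Pr (Hi i) x - Pr (Lo i) x) - Pr (Lo i) (Pr (Hi i) x - Pr (Lo i) x) =
        Pr (Hi i) x - Pr (Lo i) x
      rw [map_sub, map_sub, (comm _ _ (subset_refl (Hi i)) x).1, (comm _ _ (hLoHi i) x).1,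
        (comm _ _ (hLoHi i) x).2, (comm _ _ (subset_refl (Lo i)) x).1]
      abel
  have hb0 := block hIH hK hne hspan (Pr ∅) (fun x => (comm ∅ ∅ (subset_refl _) x).1)
    (Prod.fst '' cl ops ∅) (hmkA ∅ (by rw [mk_eq_zero]; exact aleph0_pos.trans hκ)) (by
      intro x
      rw [← (comm ∅ ∅ (subset_refl _) x).1]
      exact image_closure_subset_closure_image (Pr ∅).continuous ⟨_, (hPr ∅).mem x, rfl⟩)
  choose Γ x hx1 hx2 hx3 hx4 using hb
  obtain ⟨Γ₀, x₀, hx₀1, hx₀2, hx₀3, hx₀4⟩ := hb0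
  have hxK : ∀ i γ, x i γ ∈ Hat K := by
    intro i γ
    exact hat_diff hR (Pr (Lo i)) (Pr (Hi i)) (hPr (Lo i)).K_mem (hPr (Hi i)).K_mem (hx1 i γ)
  have hx₀K : ∀ γ, x₀ γ ∈ Hat K := fun γ => hat_scale (Pr ∅) (hPr ∅).K_mem (hx₀1 γ)
  obtain ⟨xx, hxx1, hxx2⟩ : ∃ xx : Γ₀ ⊕ (Σ i, Γ i) → X, (∀ γ, xx (Sum.inl γ) = x₀ γ) ∧
      ∀ i γ, xx (Sum.inr ⟨i, γ⟩) = x i γ :=
    ⟨Sum.elim x₀ (fun p : (Σ i, Γ i) => x p.1 p.2), fun _ => rfl, fun _ _ => rfl⟩
  refine ⟨Γ₀ ⊕ (Σ i, Γ i), xx, ?_, ?_, ?_⟩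
  · rintro (γ | ⟨i, γ⟩)
    · rw [hxx1]; exact hx₀K γ
    · rw [hxx2]; exact hxK i γ
  · intro f ε hε
    have hfin : {i | ∃ γ, ε ≤ |f (x i γ)|}.Finite := by
      apply finite_blocks (wc_hat hK) (fun i => Pr (Lo i)) (fun i => Pr (Hi i))
        (fun i x => (hPr (Lo i)).norm_le x) (fun i j h x => (comm _ _ (hLoLo i j h) x).2)
        (fun i j h x => (comm _ _ ((hLoLo i j h).trans (hLoHi j)) x).2)
        (fun i j h x => (comm _ _ (hHiLo i j h) x).1)
        (fun i j h x => (comm _ _ (hLoLo i j h) x).1) x hxK hx2 f ε hε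
    have h1 : {γ : Γ₀ ⊕ (Σ i, Γ i) | ε ≤ |f (xx γ)|} ⊆
        (Sum.inl '' {γ | ε ≤ |f (x₀ γ)|}) ∪
        ⋃ i ∈ {i | ∃ γ, ε ≤ |f (x i γ)|}, (fun γ : Γ i => (Sum.inr ⟨i, γ⟩ : Γ₀ ⊕ (Σ i, Γ i))) ''
          {γ | ε ≤ |f (x i γ)|} := by
      rintro (γ | ⟨i, γ⟩) hγ
      · rw [Set.mem_ofPred_eq, hxx1] at hγ
        exact Or.inl ⟨γ, hγ, rfl⟩
      · rw [Set.mem_ofPred_eq, hxx2] at hγ
        exact Or.inr (mem_biUnion (show i ∈ {i | ∃ γ, ε ≤ |f (x i γ)|} from ⟨γ, hγ⟩) ⟨γ, hγ, rfl⟩)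
    exact (((hx₀3 f ε hε).image _).union (hfin.biUnion fun i _ => (hx3 i f ε hε).image _)).subset h1
  · set V : Submodule ℝ X := Submodule.span ℝ (range xx) with hV
    have hsub0 : Submodule.span ℝ (range x₀) ≤ V := by
      apply Submodule.span_mono
      rintro _ ⟨γ, rfl⟩
      exact ⟨Sum.inl γ, hxx1 γ⟩
    have hsub : ∀ i, Submodule.span ℝ (range (x i)) ≤ V := by
      intro i
      apply Submodule.span_mono
      rintro _ ⟨γ, rfl⟩
      exact ⟨Sum.inr ⟨i, γ⟩, hxx2 i γ⟩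
    have hV0 : ∀ z, Pr ∅ z ∈ V.topologicalClosure := fun z => closure_mono hsub0 (hx₀4 z)
    have hVi : ∀ i z, (Pr (Hi i) - Pr (Lo i)) z ∈ V.topologicalClosure := fun i z =>
      closure_mono (hsub i) (hx4 i z)
    have hempty : Prod.fst '' cl ops ∅ ⊆ (V.topologicalClosure : Set X) := by
      intro a ha
      rw [← (hPr ∅).fix a (subset_closure ha)]
      exact hV0 a
    have hHiLo' : ∀ i, Prod.fst '' cl ops (Lo i) ⊆ (V.topologicalClosure : Set X) →
        Prod.fst '' cl ops (Hi i) ⊆ (V.topologicalClosure : Set X) := by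
      intro i hi a ha
      have h1 : a = (Pr (Hi i) - Pr (Lo i)) a + Pr (Lo i) a := by
        change a = Pr (Hi i) a - Pr (Lo i) a + Pr (Lo i) a
        rw [sub_add_cancel, (hPr (Hi i)).fix a (subset_closure ha)]
      rw [h1]
      apply V.topologicalClosure.add_mem (hVi i a)
      exact closure_minimal hi V.isClosed_topologicalClosure ((hPr (Lo i)).mem a)
    have hall : ∀ i, Prod.fst '' cl ops (Lo i) ⊆ (V.topologicalClosure : Set X) := by
      intro i
      induction i using WellFoundedLT.induction with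
      | ind i ih =>
        rintro _ ⟨u, hu, rfl⟩
        rcases cl_stage ops s (Iio i) hu with hu | ⟨j, hj, hu⟩
        · exact hempty ⟨u, hu, rfl⟩
        · exact hHiLo' j (ih j hj) ⟨u, hu, rfl⟩
    have hDV : D ⊆ (V.topologicalClosure : Set X) := by
      intro d hd
      obtain ⟨i, hi⟩ := hs d hd
      apply hHiLo' i (hall i)
      refine ⟨s i, subset_cl ops _ ⟨i, mem_Iic.mpr le_rfl, rfl⟩, ?_⟩
      rw [hi]
    intro z
    have h1 : z ∈ (V.topologicalClosure : Set X) :=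
      closure_minimal hDV V.isClosed_topologicalClosure (hD z)
    rwa [Submodule.topologicalClosure_coe] at h1

/-- The Amir-Lindenstrauss theorem. -/
theorem amir_lindenstrauss (X : Type) [NormedAddCommGroup X] [NormedSpace ℝ X] [CompleteSpace X]
    (K : Set X) (hK : WC K) (hne : K.Nonempty)
    (hspan : Dense ((Submodule.span ℝ K : Submodule ℝ X) : Set X)) : AL X K := by
  have h : ∀ κ : Cardinal.{0}, ALC κ := by
    intro κ
    induction κ using WellFoundedLT.induction with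
    | ind κ ih =>
      rcases le_or_gt κ ℵ₀ with hκ | hκ
      · intro X _ _ _ K D hK hne hspan hD hcard
        exact al_base X K D hK hne hspan hD (hcard.trans hκ)
      · exact al_step hκ ih
  exact h #(univ : Set X) X K univ hK hne hspan dense_univ le_rfl

end Pool.Agent.Helper871.CP
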