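import Pool.Agent.Helper871.CP3

set_option autoImplicit false

namespace Pool.Agent.Helper871.CP

open Filter Topology Set

variable {X : Type} [NormedAddCommGroup X] [NormedSpace ℝ X]

theorem osc_dense [CompleteSpace X] {N : X → ℝ} {a b : ℝ} (h : EN N a b)
    (hg : ∀ x : X, x ≠ 0 → ∃ L : X →L[ℝ] ℝ, ∀ v : X, HasLineDerivAt ℝ N (L v) x v)
    (hP : CPCP X) (x₀ : X) (hx₀ : x₀ ≠ 0) (ε : ℝ) (hε : 0 < ε) :
    x₀ ∈ closure (Osc N ε) := by
  rw [Metric.mem_closure_iff]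
  intro r hr
  have hn : 0 < ‖x₀‖ := norm_pos_iff.mpr hx₀
  obtain ⟨y, hy1, hy2⟩ := dense_step h hg hP x₀ hx₀ (min r ‖x₀‖) (lt_min hr hn)
    (min_le_right _ _) ε hε
  refine ⟨y, hy2, ?_⟩
  rw [dist_eq_norm, norm_sub_rev]
  exact lt_of_lt_of_le hy1 (min_le_left _ _)

/-- A Gateaux point lying in all oscillation sets is a Frechet point. -/
theorem frechet_of_osc {N : X → ℝ} {a b : ℝ} (h : EN N a b) {x : X} {L : X →L[ℝ] ℝ}
    (hL : ∀ v : X, HasLineDerivAt ℝ N (L v) x v)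
    (hx : ∀ n : ℕ, x ∈ Osc N (1 / ((n : ℝ) + 1))) : HasFDerivAt N L x := by
  have hs : Sub N x L := sub_of_line h.convexOn hL
  rw [hasFDerivAt_iff_isLittleO_nhds_zero, Asymptotics.isLittleO_iff]
  intro c hc
  obtain ⟨n, hn⟩ := exists_nat_one_div_lt hc
  obtain ⟨ρ, hρ, ε', hε', h1⟩ := hx n
  rw [Metric.eventually_nhds_iff_ball]
  refine ⟨ρ, hρ, fun k hk => ?_⟩
  rw [Metric.mem_ball, dist_zero_right] at hk
  have hD0 : 0 ≤ N (x + k) - N x - L k := by
    have := hs (x + k)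
    rw [add_sub_cancel_left] at this
    linarith
  rw [Real.norm_of_nonneg hD0]
  by_cases hk0 : k = 0
  · rw [hk0]; simp
  have hkn : 0 < ‖k‖ := norm_pos_iff.mpr hk0
  set s := ‖k‖ / ρ with hs'
  have hs0 : 0 < s := by positivity
  have hs1 : s ≤ 1 := by rw [hs', div_le_one hρ]; exact hk.le
  set k' := s⁻¹ • k with hk'
  have hk'n : ‖k'‖ ≤ ρ := by
    rw [hk', norm_smul, norm_inv, Real.norm_of_nonneg hs0.le, hs', inv_div,
      div_mul_cancel₀ _ hkn.ne']
  have hkk : k = s • k' := by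
    rw [hk', smul_smul, mul_inv_cancel₀ hs0.ne', one_smul]
  have h2 := h.conv_le x (x + k') s hs0.le hs1
  have h3 : (1 - s) • x + s • (x + k') = x + k := by
    rw [hkk, smul_add, sub_smul, one_smul]; abel
  rw [h3] at h2
  have h4 := h1 k' hk'n
  have h5 := hs (x - k')
  rw [sub_sub_cancel_left, map_neg] at h5
  have h6 : L k = s * L k' := by rw [hkk, map_smul, smul_eq_mul]
  have h7 : N (x + k') - N x - L k' ≤ ε' * ρ := by linarith
  have h8 := mul_le_mul_of_nonneg_left h7 hs0.le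
  have h9 : s * (ε' * ρ) = ε' * ‖k‖ := by rw [hs']; field_simp
  have h10 : ε' * ‖k‖ ≤ c * ‖k‖ := by
    apply mul_le_mul_of_nonneg_right _ hkn.le
    linarith
  rw [h6]
  nlinarith

/-- If the dual has the convex point of continuity property then every Gateaux smooth norm has a
point of Frechet smoothness. -/
theorem partA [CompleteSpace X] [Nontrivial X] {N : X → ℝ} {a b : ℝ} (h : EN N a b)
    (hg : ∀ x : X, x ≠ 0 → ∃ L : X →L[ℝ] ℝ, ∀ v : X, HasLineDerivAt ℝ N (L v) x v)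
    (hP : CPCP X) : ∃ x : X, x ≠ 0 ∧ DifferentiableAt ℝ N x := by
  have h0 : Dense ({0}ᶜ : Set X) := dense_compl_singleton 0
  have hd : ∀ n : ℕ, Dense (Osc N (1 / ((n : ℝ) + 1))) := by
    intro n
    have h1 : ({0}ᶜ : Set X) ⊆ closure (Osc N (1 / ((n : ℝ) + 1))) := fun x hx =>
      osc_dense h hg hP x hx _ (by positivity)
    have h2 := h0.mono h1
    exact dense_closure.mp h2
  have h2 : Dense (⋂ n : ℕ, Osc N (1 / ((n : ℝ) + 1))) :=
    dense_iInter_of_isOpen_nat (fun n => osc_open h _) hd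
  obtain ⟨x, hx1, hx2⟩ := h2.inter_open_nonempty ({0}ᶜ : Set X) isOpen_compl_singleton
    (by obtain ⟨x, hx⟩ := exists_ne (0 : X); exact ⟨x, hx⟩)
  have hx0 : x ≠ 0 := hx1
  obtain ⟨L, hL⟩ := hg x hx0
  exact ⟨x, hx0, (frechet_of_osc h hL (Set.mem_iInter.mp hx2)).differentiableAt⟩

end Pool.Agent.Helper871.CP
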