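import Pool.Agent.Helper871.CB9
import Pool.Agent.Helper871.CB6
import Pool.Agent.Helper871.CP4

set_option autoImplicit false

namespace Pool.Agent.Helper871.CP

open Filter Topology Set Cardinal
open Pool.Agent.Helper871.NormExt

variable {X : Type} [NormedAddCommGroup X] [NormedSpace ℝ X]

theorem list_min {α : Type} (L : List α) (d : α → ℝ) (h : ∀ a ∈ L, 0 < d a) :
    ∃ δ : ℝ, 0 < δ ∧ ∀ a ∈ L, δ ≤ d a := by
  induction L with
  | nil => exact ⟨1, one_pos, fun a ha => absurd ha List.not_mem_nil⟩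
  | cons b L ih =>
    obtain ⟨δ, hδ, h1⟩ := ih (fun a ha => h a (List.mem_cons_of_mem _ ha))
    refine ⟨min δ (d b), lt_min hδ (h b List.mem_cons_self), fun a ha => ?_⟩
    rcases List.mem_cons.mp ha with rfl | ha
    · exact min_le_right _ _
    · exact (min_le_left _ _).trans (h1 a ha)

/-- The set of functionals in a rational box. -/
def Bx (K₀ : Set (StrongDual ℝ X)) (l : List X) (ρ : List (ℚ × ℚ)) : Set (StrongDual ℝ X) :=
  {g | g ∈ K₀ ∧ ∀ p ∈ l.zip ρ, (p.2.1 : ℝ) < g p.1 ∧ g p.1 < p.2.2}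

theorem exists_wit {K₀ : Set (StrongDual ℝ X)} {c : ℝ} (hc : 0 < c) (hK : UNP K₀ c)
    (l : List X) (ρ : List (ℚ × ℚ)) (h : (Bx K₀ l ρ).Nonempty) :
    ∃ x : X, ‖x‖ ≤ 1 ∧ ∃ g ∈ Bx K₀ l ρ, ∃ g' ∈ Bx K₀ l ρ, c / 2 ≤ g x - g' x := by
  classical
  obtain ⟨g₀, hg₀, hb⟩ := h
  obtain ⟨δ, hδ, hδ'⟩ := list_min (l.zip ρ)
    (fun p => min (g₀ p.1 - p.2.1) (p.2.2 - g₀ p.1)) (fun p hp => by
      obtain ⟨h1, h2⟩ := hb p hp
      exact lt_min (by linarith) (by linarith))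
  obtain ⟨y, hy, z, hz, h1, h2, h3⟩ := hK g₀ hg₀ l.toFinset δ hδ
  have key : ∀ w ∈ K₀, (∀ v ∈ l.toFinset, |w v - g₀ v| < δ) → w ∈ Bx K₀ l ρ := by
    intro w hw hw'
    refine ⟨hw, fun p hp => ?_⟩
    have h4 := hw' p.1 (List.mem_toFinset.mpr (List.of_mem_zip hp).1)
    have h5 := hδ' p hp
    have h6 := h5.trans (min_le_left _ _)
    have h7 := h5.trans (min_le_right _ _)
    rw [abs_lt] at h4
    constructor <;> linarith [h4.1, h4.2]
  have h4 : c / 2 < ‖y - z‖ := by linarith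
  obtain ⟨x, hx1, hx2⟩ := ContinuousLinearMap.exists_lt_apply_of_lt_opNorm (y - z) h4
  have h5 : (y - z) x = y x - z x := rfl
  rw [h5, Real.norm_eq_abs] at hx2
  rcases le_total 0 (y x - z x) with h6 | h6
  · rw [abs_of_nonneg h6] at hx2
    exact ⟨x, hx1.le, y, key y hy h1, z, key z hz h2, hx2.le⟩
  · rw [abs_of_nonpos h6] at hx2
    exact ⟨x, hx1.le, z, key z hz h2, y, key y hy h1, by linarith⟩

/-- Operations providing witnesses. -/
theorem exists_ops' {K₀ : Set (StrongDual ℝ X)} {c : ℝ} (hc : 0 < c) (hK : UNP K₀ c) :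
    ∃ ops : List (ℚ × ℚ) → List (UU X) → UU X, ∀ M : Set (UU X), Closed ops M →
      ∀ (l : List X) (ρ : List (ℚ × ℚ)), (∀ x ∈ l, x ∈ Prod.fst '' M) → (Bx K₀ l ρ).Nonempty →
      ∃ x ∈ Prod.fst '' M, ‖x‖ ≤ 1 ∧ ∃ g ∈ Bx K₀ l ρ, ∃ g' ∈ Bx K₀ l ρ, c / 2 ≤ g x - g' x := by
  classical
  have h1 : ∀ (l : List X) (ρ : List (ℚ × ℚ)), ∃ x : X, (Bx K₀ l ρ).Nonempty →
      ‖x‖ ≤ 1 ∧ ∃ g ∈ Bx K₀ l ρ, ∃ g' ∈ Bx K₀ l ρ, c / 2 ≤ g x - g' x := by
    intro l ρ
    by_cases h : (Bx K₀ l ρ).Nonempty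
    · obtain ⟨x, hx⟩ := exists_wit hc hK l ρ h
      exact ⟨x, fun _ => hx⟩
    · exact ⟨0, fun h' => absurd h' h⟩
  choose w hw using h1
  refine ⟨fun ρ l => (w (l.map Prod.fst) ρ, 0), fun M hM l ρ hl hne => ?_⟩
  have lift1 : ∀ l : List X, (∀ x ∈ l, x ∈ Prod.fst '' M) →
      ∃ l' : List (UU X), (∀ u ∈ l', u ∈ M) ∧ l'.map Prod.fst = l := by
    clear hne hl l
    intro l hl
    induction l with
    | nil => exact ⟨[], by simp, rfl⟩
    | cons a l ih =>
      obtain ⟨l', h1, h2⟩ := ih (fun x hx => hl x (List.mem_cons_of_mem _ hx))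
      obtain ⟨u, hu, rfl⟩ := hl a List.mem_cons_self
      refine ⟨u :: l', ?_, by simp [h2]⟩
      intro v hv
      rcases List.mem_cons.mp hv with rfl | hv
      · exact hu
      · exact h1 v hv
  obtain ⟨l', h1, rfl⟩ := lift1 l hl
  exact ⟨_, ⟨_, hM ρ l' h1, rfl⟩, hw _ _ hne⟩

/-- The transfer of the bad set to a separable complemented subspace. -/
theorem transfer [CompleteSpace X] {K : Set X} (hWC : WC K) (hne : K.Nonempty)
    (hspan : Dense ((Submodule.span ℝ K : Submodule ℝ X) : Set X))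
    {K₀ : Set (StrongDual ℝ X)} {R c : ℝ} (hc : 0 < c) (hK₀ne : K₀.Nonempty)
    (hR : ∀ f ∈ K₀, ‖f‖ ≤ R) (hK : UNP K₀ c) :
    ∃ (A : Set X) (P : X →L[ℝ] X), A.Countable ∧ A.Nonempty ∧ (∀ x, P x ∈ closure A) ∧
      (∀ a ∈ closure A, P a = a) ∧ (∀ x, ‖P x‖ ≤ ‖x‖) ∧
      ∀ g ∈ K₀, ∀ F : Finset X, ∀ δ : ℝ, 0 < δ → ∃ g' ∈ K₀,
        (∀ v ∈ F, |g' (P v) - g (P v)| < δ) ∧ c / 4 ≤ ‖g'.comp P - g.comp P‖ := by
  classical
  obtain ⟨ops₁, hops₁⟩ := exists_ops hne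
  obtain ⟨ops₂, hops₂⟩ := exists_ops' hc hK
  set M := cl (Sum.elim ops₁ ops₂) (∅ : Set (UU X)) with hM
  have hMc := cl_closed (Sum.elim ops₁ ops₂) (∅ : Set (UU X))
  have hM1 : Closed ops₁ M := fun i l h => hMc (Sum.inl i) l h
  have hM2 : Closed ops₂ M := fun i l h => hMc (Sum.inr i) l h
  have hG := hops₁ M hM1
  obtain ⟨P, hP⟩ := exists_proj hG hWC hspan
  have hR0 : 0 ≤ R := by
    obtain ⟨g, hg⟩ := hK₀ne
    exact (norm_nonneg _).trans (hR _ hg)
  refine ⟨Prod.fst '' M, P, ?_, ?_, hP.mem, hP.fix, hP.norm_le, ?_⟩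
  · apply Set.Countable.image
    rw [← Cardinal.le_aleph0_iff_set_countable]
    refine (mk_cl_le (Sum.elim ops₁ ops₂) ∅).trans ?_
    rw [mk_eq_zero]
    exact max_le (by simp) le_rfl
  · exact ⟨_, hG.lin [] (by simp) 1⟩
  · intro g hg F δ hδ
    have h1 : ∀ v : X, ∃ a ∈ Prod.fst '' M, ‖P v - a‖ < δ / (4 * (R + 1)) := by
      intro v
      obtain ⟨a, ha, h⟩ := Metric.mem_closure_iff.mp (hP.mem v) (δ / (4 * (R + 1)))
        (by positivity)
      exact ⟨a, ha, by rwa [dist_eq_norm] at h⟩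
    choose a ha1 ha2 using h1
    have h2 : ∀ v : X, ∃ r : ℚ × ℚ, (r.1 : ℝ) < g (a v) ∧ g (a v) < r.2 ∧
        (r.2 : ℝ) - r.1 < δ / 2 := by
      intro v
      obtain ⟨r, hr1, hr2⟩ := exists_rat_btwn (show g (a v) - δ / 4 < g (a v) by linarith)
      obtain ⟨r', hr1', hr2'⟩ := exists_rat_btwn (show g (a v) < g (a v) + δ / 4 by linarith)
      exact ⟨(r, r'), hr2, hr1', by linarith⟩
    choose r hr1 hr2 hr3 using h2
    have hzip : (F.toList.map a).zip (F.toList.map r) = F.toList.map (fun v => (a v, r v)) := by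
      rw [List.zip_map']
    have hgB : g ∈ Bx K₀ (F.toList.map a) (F.toList.map r) := by
      refine ⟨hg, fun p hp => ?_⟩
      rw [hzip] at hp
      obtain ⟨v, _, rfl⟩ := List.mem_map.mp hp
      exact ⟨hr1 v, hr2 v⟩
    obtain ⟨x, hx, hx1, g₁, hg₁, g₂, hg₂, h12⟩ := hops₂ M hM2 (F.toList.map a) (F.toList.map r)
      (by
        intro x hx
        obtain ⟨v, _, rfl⟩ := List.mem_map.mp hx
        exact ha1 v) ⟨g, hgB⟩
    have hclose : ∀ g' ∈ Bx K₀ (F.toList.map a) (F.toList.map r),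
        ∀ v ∈ F, |g' (P v) - g (P v)| < δ := by
      intro g' hg' v hv
      have h3 := hg'.2 (a v, r v) (by
        rw [hzip]
        exact List.mem_map.mpr ⟨v, Finset.mem_toList.mpr hv, rfl⟩)
      have h4 : |g' (a v) - g (a v)| < δ / 2 := by
        rw [abs_lt]
        constructor <;> linarith [h3.1, h3.2, hr1 v, hr2 v, hr3 v]
      have hb : ∀ w ∈ K₀, |w (P v - a v)| ≤ δ / 4 := by
        intro w hw
        calc |w (P v - a v)| = ‖w (P v - a v)‖ := rfl
          _ ≤ ‖w‖ * ‖P v - a v‖ := w.le_opNorm _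
          _ ≤ R * (δ / (4 * (R + 1))) := by
            gcongr
            · exact hR w hw
            · exact (ha2 v).le
          _ ≤ δ / 4 := by
            rw [mul_div_assoc', div_le_div_iff₀ (by positivity) (by norm_num)]
            nlinarith
      have h5 := hb g' hg'.1
      have h6 := hb g hg
      have h7 : g' (P v) - g (P v) = (g' (a v) - g (a v)) + (g' (P v - a v) - g (P v - a v)) := by
        rw [map_sub, map_sub]; ring
      rw [h7]
      rw [abs_lt] at h4 ⊢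
      rw [abs_le] at h5 h6
      constructor <;> linarith [h4.1, h4.2, h5.1, h5.2, h6.1, h6.2]
    have hPx : P x = x := hP.fix x (subset_closure hx)
    have hbig : c / 2 ≤ ‖g₁.comp P - g₂.comp P‖ := by
      have h3 : (g₁.comp P - g₂.comp P) x = g₁ x - g₂ x := by
        change g₁ (P x) - g₂ (P x) = _
        rw [hPx]
      calc c / 2 ≤ g₁ x - g₂ x := h12
        _ = (g₁.comp P - g₂.comp P) x := h3.symm
        _ ≤ ‖(g₁.comp P - g₂.comp P) x‖ := le_abs_self _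
        _ ≤ ‖g₁.comp P - g₂.comp P‖ * ‖x‖ := ContinuousLinearMap.le_opNorm _ _
        _ ≤ ‖g₁.comp P - g₂.comp P‖ * 1 := by gcongr
        _ = _ := mul_one _
    by_cases hcase : c / 4 ≤ ‖g₁.comp P - g.comp P‖
    · exact ⟨g₁, hg₁.1, hclose g₁ hg₁, hcase⟩
    · refine ⟨g₂, hg₂.1, hclose g₂ hg₂, ?_⟩
      push Not at hcase
      have h3 : ‖g₁.comp P - g₂.comp P‖ ≤ ‖g₁.comp P - g.comp P‖ + ‖g₂.comp P - g.comp P‖ := by
        calc ‖g₁.comp P - g₂.comp P‖ = ‖(g₁.comp P - g.comp P) - (g₂.comp P - g.comp P)‖ := by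
              congr 1; abel
          _ ≤ _ := norm_sub_le _ _
      linarith

theorem partB [CompleteSpace X] {K : Set X} (hWC : WC K) (hne : K.Nonempty)
    (hspan : Dense ((Submodule.span ℝ K : Submodule ℝ X) : Set X)) (hC : ¬ CPCP X) :
    ∃ N : X → ℝ,
      (∀ x y : X, N (x + y) ≤ N x + N y) ∧
      (∀ (c : ℝ) (x : X), N (c • x) = |c| * N x) ∧
      (∃ a b : ℝ, 0 < a ∧ 0 < b ∧ ∀ x : X, a * ‖x‖ ≤ N x ∧ N x ≤ b * ‖x‖) ∧
      (∀ x : X, x ≠ 0 → ∃ L : X →L[ℝ] ℝ, ∀ v : X, HasLineDerivAt ℝ N (L v) x v) ∧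
      (∀ x : X, x ≠ 0 → ¬ DifferentiableAt ℝ N x) := by
  obtain ⟨K₀, R, c, hc, hK₀ne, hK₀conv, hK₀cl, hR, hUNP⟩ := exists_unp hC
  obtain ⟨A, P, hAc, hAne, hPm, hPf, hPn, hnp⟩ := transfer hWC hne hspan hc hK₀ne hR hUNP
  obtain ⟨Γ, x, hx1, hx2, hx3⟩ := amir_lindenstrauss X K hWC hne hspan
  obtain ⟨R', hR'0, hR'⟩ := wc_bdd (wc_hat hWC)
  have hR0 : 0 ≤ R := by
    obtain ⟨g, hg⟩ := hK₀ne
    exact (norm_nonneg _).trans (hR _ hg)
  have hPP : ∀ v, P (P v) = P v := fun v => hPf _ (hPm v)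
  obtain ⟨a, ha⟩ := hAc.exists_eq_range hAne
  obtain ⟨z, hz⟩ : ∃ z : ℕ → X, ∀ n, z n = (1 / (((n : ℝ) + 1) * (1 + ‖a n‖))) • a n :=
    ⟨_, fun _ => rfl⟩
  have hzn : ∀ n, ‖z n‖ ≤ 1 / ((n : ℝ) + 1) := by
    intro n
    have h0 := norm_nonneg (a n)
    rw [hz, norm_smul, Real.norm_of_nonneg (by positivity), div_mul_eq_mul_div, one_mul,
      div_le_div_iff₀ (by positivity) (by positivity)]
    nlinarith [mul_nonneg h0 (by positivity : (0 : ℝ) ≤ (n : ℝ) + 1)]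
  have hzP : ∀ n, P (z n) = z n := by
    intro n
    rw [hz, map_smul, hPf (a n) (subset_closure (by rw [ha]; exact mem_range_self n))]
  obtain ⟨y, hy1, hy2⟩ : ∃ y : ℕ ⊕ Γ → X, (∀ n, y (Sum.inl n) = z n) ∧
      ∀ γ, y (Sum.inr γ) = x γ - P (x γ) :=
    ⟨Sum.elim z (fun γ => x γ - P (x γ)), fun _ => rfl, fun _ => rfl⟩
  set KZ : Set (StrongDual ℝ X) := (fun g : StrongDual ℝ X => g.comp P) '' K₀ with hKZ
  have hKZP : ∀ u ∈ KZ, ∀ v, u (P v) = u v := by
    rintro _ ⟨g, _, rfl⟩ v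
    change g (P (P v)) = g (P v)
    rw [hPP]
  have hPnorm : ‖P‖ ≤ 1 := P.opNorm_le_bound zero_le_one (fun v => by rw [one_mul]; exact hPn v)
  have hKZR : ∀ u ∈ KZ, ‖u‖ ≤ R := by
    rintro _ ⟨g, hg, rfl⟩
    calc ‖g.comp P‖ ≤ ‖g‖ * ‖P‖ := g.opNorm_comp_le P
      _ ≤ R * 1 := by gcongr; exact hR g hg
      _ = R := mul_one R
  have hfin : ∀ (C ε : ℝ), 0 < ε → ∃ n₀ : ℕ, ∀ n : ℕ, n₀ ≤ n → C * (1 / ((n : ℝ) + 1)) < ε := by
    intro C ε hε
    have h1 : Tendsto (fun n : ℕ => C * (1 / ((n : ℝ) + 1))) atTop (𝓝 (C * 0)) :=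
      tendsto_const_nhds.mul tendsto_one_div_add_atTop_nhds_zero_nat
    rw [mul_zero] at h1
    obtain ⟨n₀, h2⟩ := eventually_atTop.mp (h1.eventually_lt_const hε)
    exact ⟨n₀, h2⟩
  apply good_norm (ι := ℕ ⊕ Γ) (y := y) (K := KZ) (R := R) (S := 1 + 2 * R') (c := c / 4)
    (hK₀ne.image _) ?_ hKZR ?_ ?_ (by positivity) ?_ ?_ (by positivity) ?_ ?_
  · -- convex
    rintro _ ⟨g, hg, rfl⟩ _ ⟨g', hg', rfl⟩ α β hα hβ hαβ
    exact ⟨α • g + β • g', hK₀conv hg hg' hα hβ hαβ, rfl⟩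
  · -- closed
    have hc1 := wcompact hK₀cl R hR
    have h2 : Continuous fun g : WeakDual ℝ X =>
        StrongDual.toWeakDual ((WeakDual.toStrongDual g).comp P) := by
      apply WeakDual.continuous_of_continuous_eval
      intro v
      exact WeakDual.eval_continuous (P v)
    have h3 := (hc1.image h2).isClosed
    unfold WClosed
    convert h3 using 1
    ext f
    constructor
    · rintro ⟨g, hg, hgf⟩
      exact ⟨StrongDual.toWeakDual g, hg, hgf⟩
    · rintro ⟨g, hg, rfl⟩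
      exact ⟨WeakDual.toStrongDual g, hg, rfl⟩
  · -- bounded family
    rintro (n | γ)
    · rw [hy1]
      have h1 := hzn n
      have h2 : 1 / ((n : ℝ) + 1) ≤ 1 := by
        rw [div_le_one (by positivity)]
        have : (0 : ℝ) ≤ n := Nat.cast_nonneg n
        linarith
      linarith
    · rw [hy2]
      have h1 := hR' _ (hx1 γ)
      have h2 := hPn (x γ)
      linarith [norm_sub_le (x γ) (P (x γ))]
  · -- c₀ condition
    intro f ε hε
    obtain ⟨n₀, hn₀⟩ := hfin ‖f‖ ε hε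
    have h1 := hx2 (f.comp (ContinuousLinearMap.id ℝ X - P)) ε hε
    apply (((Set.finite_Iio n₀).image (Sum.inl : ℕ → ℕ ⊕ Γ)).union
      (h1.image (Sum.inr : Γ → ℕ ⊕ Γ))).subset
    rintro (n | γ) h
    · left
      refine ⟨n, ?_, rfl⟩
      rw [mem_Iio]
      by_contra hcon
      push Not at hcon
      rw [Set.mem_ofPred_eq, hy1] at h
      have h2 := hn₀ n hcon
      have h3 : |f (z n)| ≤ ‖f‖ * (1 / ((n : ℝ) + 1)) :=
        (f.le_opNorm _).trans (by gcongr; exact hzn n)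
      linarith
    · right
      refine ⟨γ, ?_, rfl⟩
      rw [Set.mem_ofPred_eq, hy2] at h
      exact h
  · -- total
    intro f hf
    have hfA : ∀ v ∈ closure A, f v = 0 := by
      have h1 : ∀ v ∈ A, f v = 0 := by
        intro v hv
        rw [ha] at hv
        obtain ⟨n, rfl⟩ := hv
        have h2 := hf (Sum.inl n)
        rw [hy1, hz, map_smul, smul_eq_mul, mul_eq_zero] at h2
        rcases h2 with h2 | h2
        · exfalso
          have h0 := norm_nonneg (a n)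
          have : (0 : ℝ) < 1 / (((n : ℝ) + 1) * (1 + ‖a n‖)) := by positivity
          linarith
        · exact h2
      exact fun v hv => closure_minimal (fun v hv => h1 v hv)
        (isClosed_eq f.continuous continuous_const) hv
    have hfx : ∀ γ, f (x γ) = 0 := by
      intro γ
      have h2 := hf (Sum.inr γ)
      rw [hy2, map_sub, hfA _ (hPm _), sub_zero] at h2
      exact h2
    have h3 : ((Submodule.span ℝ (range x) : Submodule ℝ X) : Set X) ⊆ {v | f v = 0} := by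
      have h4 : Submodule.span ℝ (range x) ≤ LinearMap.ker f.toLinearMap := by
        rw [Submodule.span_le]
        rintro _ ⟨γ, rfl⟩
        exact hfx γ
      exact h4
    ext v
    exact closure_minimal h3 (isClosed_eq f.continuous continuous_const) (hx3 v)
  · -- uniform non-continuity
    rintro _ ⟨g, hg, rfl⟩ F δ hδ
    obtain ⟨g', hg', h1, h2⟩ := hnp g hg F δ hδ
    exact ⟨g'.comp P, ⟨g', hg', rfl⟩, h1, h2⟩
  · -- smallness along the family
    intro u hu δ hδ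
    classical
    obtain ⟨n₀, hn₀⟩ := hfin (2 * R) δ hδ
    refine ⟨(Finset.range n₀).image z, δ, hδ, fun u' hu' h i => ?_⟩
    rcases i with n | γ
    · rw [hy1]
      by_cases hn : n < n₀
      · exact (h (z n) (Finset.mem_image_of_mem _ (Finset.mem_range.mpr hn))).le
      · push Not at hn
        have h2 := hn₀ n hn
        have h3 : |u' (z n)| ≤ R * (1 / ((n : ℝ) + 1)) :=
          (u'.le_opNorm _).trans (by
            gcongr
            · exact hKZR u' hu'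
            · exact hzn n)
        have h4 : |u (z n)| ≤ R * (1 / ((n : ℝ) + 1)) :=
          (u.le_opNorm _).trans (by
            gcongr
            · exact hKZR u hu
            · exact hzn n)
        have h5 := abs_sub (u' (z n)) (u (z n))
        linarith
    · rw [hy2, map_sub, map_sub, hKZP u' hu', hKZP u hu, sub_self, sub_self, sub_zero, abs_zero]
      exact hδ.le

end Pool.Agent.Helper871.CP
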