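import Pool.Agent.Helper871.CB2

set_option autoImplicit false

namespace Pool.Agent.Helper871.CP

open Filter Topology Set

section WC

variable {X : Type} [NormedAddCommGroup X] [NormedSpace ℝ X]

/-- Relative weak compactness expressed through ultrafilters. -/
def WC (K : Set X) : Prop := ∀ (ι : Type) (U : Ultrafilter ι) (k : ι → X), (∀ i, k i ∈ K) →
  ∃ z ∈ K, ∀ φ : StrongDual ℝ X, Tendsto (fun i => φ (k i)) U (𝓝 (φ z))

theorem wc_of_compact {K : Set X} (hK : IsCompact ((toWeakSpace ℝ X) '' K)) : WC K := by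
  intro ι U k hk
  have h1 := hK.ultrafilter_le_nhds (U.map fun j => toWeakSpace ℝ X (k j)) (by
    rw [le_principal_iff, Ultrafilter.mem_coe, Ultrafilter.mem_map]
    exact Filter.univ_mem' fun j => ⟨k j, hk j, rfl⟩)
  obtain ⟨_, ⟨z, hzK, rfl⟩, hz⟩ := h1
  refine ⟨z, hzK, fun φ => ?_⟩
  have h2 : Continuous fun w : WeakSpace ℝ X => φ ((toWeakSpace ℝ X).symm w) :=
    WeakBilin.eval_continuous _ φ
  exact (h2.tendsto _).comp hz

theorem wc_image {Y : Type} [NormedAddCommGroup Y] [NormedSpace ℝ Y] {K : Set X} (hK : WC K)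
    (T : X →L[ℝ] Y) : WC (T '' K) := by
  intro ι U k hk
  choose k' hk' hk'' using hk
  obtain ⟨z, hz, h⟩ := hK ι U k' hk'
  refine ⟨T z, ⟨z, hz, rfl⟩, fun φ => ?_⟩
  have := h (φ.comp T)
  simp only [ContinuousLinearMap.comp_apply, hk''] at this
  exact this

theorem wc_bdd {K : Set X} (hK : WC K) : ∃ R : ℝ, 0 ≤ R ∧ ∀ k ∈ K, ‖k‖ ≤ R := by
  have h1 : ∀ φ : StrongDual ℝ X, ∃ C : ℝ, ∀ k : K, ‖φ k‖ ≤ C := by
    intro φ
    by_contra hcon
    push Not at hcon
    choose k hk using fun n : ℕ => hcon n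
    obtain ⟨z, _, hz⟩ := hK ℕ (hyperfilter ℕ) (fun n => (k n : X)) (fun n => (k n).2)
    have h2 := hz φ
    have h3 : Tendsto (fun n : ℕ => ‖φ (k n)‖) (hyperfilter ℕ) atTop := by
      apply tendsto_atTop_mono (fun n => (hk n).le)
      exact tendsto_natCast_atTop_atTop.mono_left Nat.hyperfilter_le_atTop
    exact not_tendsto_nhds_of_tendsto_atTop h3 _ h2.norm
  obtain ⟨C, hC⟩ := banach_steinhaus (g := fun k : K =>
    NormedSpace.inclusionInDoubleDual ℝ X (k : X)) (fun φ => h1 φ)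
  refine ⟨max C 0, le_max_right _ _, fun k hk => ?_⟩
  have h2 := hC ⟨k, hk⟩
  have h3 := (NormedSpace.inclusionInDoubleDualLi ℝ (E := X)).norm_map k
  exact (h3.symm.le.trans h2).trans (le_max_left _ _)

theorem ext_dual {x y : X} (h : ∀ φ : StrongDual ℝ X, φ x = φ y) : x = y := by
  obtain ⟨g, _, hg⟩ := exists_dual_vector'' ℝ (x - y)
  rw [map_sub, h g, sub_self] at hg
  have : ‖x - y‖ = 0 := by simpa using hg.symm
  exact sub_eq_zero.mp (norm_eq_zero.mp this)

/-- A functional detecting the distance to a subspace. -/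
theorem dist_functional (p : Submodule ℝ X) (w : X) (r : ℝ)
    (hr : 0 < r) (h : ∀ φ : StrongDual ℝ X, (∀ y ∈ p, φ y = 0) → φ w = 0) :
    ∃ y ∈ p, ‖w - y‖ < r := by
  set q := p.topologicalClosure with hq
  have : IsClosed (q : Set X) := p.isClosed_topologicalClosure
  obtain ⟨g, hg1, hg2⟩ := exists_dual_vector'' ℝ (q.mkQL w)
  set φ : StrongDual ℝ X := g.comp q.mkQL with hφ
  have h2 : ∀ y ∈ p, φ y = 0 := by
    intro y hy
    have : q.mkQL y = 0 := by
      rw [Submodule.mkQL_apply, Submodule.mkQ_apply, Submodule.Quotient.mk_eq_zero]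
      exact p.le_topologicalClosure hy
    rw [hφ, ContinuousLinearMap.comp_apply, this, map_zero]
  have h3 := h φ h2
  rw [hφ, ContinuousLinearMap.comp_apply, hg2] at h3
  have h4 : ‖q.mkQL w‖ = 0 := by simpa using h3
  have h5 : w ∈ q := by
    have := norm_eq_zero.mp h4
    rwa [Submodule.mkQL_apply, Submodule.mkQ_apply, Submodule.Quotient.mk_eq_zero] at this
  have h6 : w ∈ closure (p : Set X) := h5
  rw [Metric.mem_closure_iff] at h6
  obtain ⟨y, hy, hyw⟩ := h6 r hr
  exact ⟨y, hy, by rwa [dist_eq_norm] at hyw⟩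

theorem mem_closure_of_dual (p : Submodule ℝ X) (w : X)
    (h : ∀ φ : StrongDual ℝ X, (∀ y ∈ p, φ y = 0) → φ w = 0) : w ∈ closure (p : Set X) := by
  rw [Metric.mem_closure_iff]
  intro r hr
  obtain ⟨y, hy, h1⟩ := dist_functional p w r hr h
  exact ⟨y, hy, by rwa [dist_eq_norm]⟩

end WC

section Hat

variable {X : Type} [NormedAddCommGroup X] [NormedSpace ℝ X]

/-- Weights. -/
noncomputable def cc (i : ℕ) : ℝ := 1 / ((i : ℝ) + 1) ^ 2

theorem cc_pos (i : ℕ) : 0 < cc i := by unfold cc; positivity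

theorem cc_summable : Summable cc := by
  have h := (summable_nat_add_iff 1).mpr (Real.summable_one_div_nat_pow.mpr one_lt_two)
  refine h.congr fun i => ?_
  unfold cc
  push_cast
  rfl

/-- The countable absolutely convergent hull. -/
def Hat (K : Set X) : Set X := {x | ∃ (e : ℕ → ℝ) (k : ℕ → X), (∀ i, |e i| ≤ 1) ∧
  (∀ i, k i ∈ K) ∧ HasSum (fun i => (cc i * e i) • k i) x}

theorem hat_single {K : Set X} {k : X} (hk : k ∈ K) {t : ℝ} (ht : |t| ≤ 1) : t • k ∈ Hat K := by
  refine ⟨fun i => if i = 0 then t else 0, fun _ => k, ?_, fun _ => hk, ?_⟩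
  · intro i
    simp only
    split_ifs
    · exact ht
    · simp
  · have h := hasSum_single (f := fun i : ℕ => (cc i * (if i = 0 then t else 0)) • k) 0 (by
      intro i hi; simp [hi])
    simpa [cc] using h

theorem hat_map {Y : Type} [NormedAddCommGroup Y] [NormedSpace ℝ Y] {K : Set X}
    (T : X →L[ℝ] Y) {x : X} (hx : x ∈ Hat K) : T x ∈ Hat (T '' K) := by
  obtain ⟨e, k, he, hk, hs⟩ := hx
  refine ⟨e, fun i => T (k i), he, fun i => ⟨k i, hk i, rfl⟩, ?_⟩
  have := hs.mapL T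
  simpa only [map_smul] using this

theorem hat_bdd {K : Set X} {R : ℝ} (hR : ∀ k ∈ K, ‖k‖ ≤ R) :
    ∀ x ∈ Hat K, ‖x‖ ≤ (∑' i, cc i) * R := by
  rintro x ⟨e, k, he, hk, hs⟩
  rw [← hs.tsum_eq]
  have hR0 : 0 ≤ R := (norm_nonneg _).trans (hR _ (hk 0))
  have h1 : ∀ i, ‖(cc i * e i) • k i‖ ≤ cc i * R := by
    intro i
    rw [norm_smul, norm_mul, Real.norm_of_nonneg (cc_pos i).le, Real.norm_eq_abs]
    have h0 := (cc_pos i).le
    calc cc i * |e i| * ‖k i‖ ≤ cc i * 1 * R := by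
          gcongr
          · exact he i
          · exact hR _ (hk i)
      _ = cc i * R := by ring
  have h2 : HasSum (fun i => cc i * R) ((∑' i, cc i) * R) := cc_summable.hasSum.mul_right R
  exact tsum_of_norm_bounded h2 h1

theorem summable_hat [CompleteSpace X] {e : ℕ → ℝ} {k : ℕ → X} (he : ∀ i, |e i| ≤ 1) {R : ℝ}
    (hk : ∀ i, ‖k i‖ ≤ R) : Summable fun i => (cc i * e i) • k i := by
  apply Summable.of_norm_bounded (g := fun i => cc i * R) (cc_summable.mul_right R)
  intro i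
  rw [norm_smul, norm_mul, Real.norm_of_nonneg (cc_pos i).le, Real.norm_eq_abs]
  have h0 := (cc_pos i).le
  calc cc i * |e i| * ‖k i‖ ≤ cc i * 1 * R := by
        gcongr
        · exact he i
        · exact hk i
    _ = cc i * R := by ring

theorem cc_even (j : ℕ) : cc j / 4 ≤ cc (2 * j) := by
  unfold cc
  rw [div_div, one_div, one_div]
  apply inv_anti₀ (by positivity)
  push_cast
  nlinarith [(Nat.cast_nonneg j : (0 : ℝ) ≤ j)]

theorem cc_odd (j : ℕ) : cc j / 4 ≤ cc (2 * j + 1) := by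
  unfold cc
  rw [div_div, one_div, one_div]
  apply inv_anti₀ (by positivity)
  push_cast
  nlinarith [(Nat.cast_nonneg j : (0 : ℝ) ≤ j)]

/-- Interleaving of two sequences. -/
def il {α : Type} (a b : ℕ → α) (i : ℕ) : α := if i % 2 = 0 then a (i / 2) else b (i / 2)

theorem il_even {α : Type} (a b : ℕ → α) (j : ℕ) : il a b (2 * j) = a j := by
  unfold il
  rw [if_pos (by omega), show 2 * j / 2 = j by omega]

theorem il_odd {α : Type} (a b : ℕ → α) (j : ℕ) : il a b (2 * j + 1) = b j := by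
  unfold il
  rw [if_neg (by omega), show (2 * j + 1) / 2 = j by omega]

theorem il_forall {α : Type} (a b : ℕ → α) (p : α → Prop) (ha : ∀ j, p (a j))
    (hb : ∀ j, p (b j)) (i : ℕ) : p (il a b i) := by
  rcases Nat.even_or_odd' i with ⟨j, rfl | rfl⟩
  · rw [il_even]; exact ha j
  · rw [il_odd]; exact hb j

/-- The hull absorbs quarter differences. -/
theorem hat_diff [CompleteSpace X] {K : Set X} {R : ℝ} (hR : ∀ k ∈ K, ‖k‖ ≤ R) (P P' : X → X)
    (hP : ∀ k ∈ K, P k ∈ K) (hP' : ∀ k ∈ K, P' k ∈ K) {x : X}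
    (hx : x ∈ Hat ((fun k => (1 / 4 : ℝ) • (P' k - P k)) '' K)) : x ∈ Hat K := by
  obtain ⟨e, k, he, hk, hs⟩ := hx
  choose k' hk'1 hk'2 using hk
  simp only at hk'2
  obtain ⟨a, ha⟩ : ∃ a : ℕ → ℝ, ∀ j, a j = cc j / 4 / cc (2 * j) * e j := ⟨_, fun _ => rfl⟩
  obtain ⟨b, hb⟩ : ∃ b : ℕ → ℝ, ∀ j, b j = -(cc j / 4 / cc (2 * j + 1) * e j) :=
    ⟨_, fun _ => rfl⟩
  have ha1 : ∀ j, |a j| ≤ 1 := by
    intro j
    have h1 := cc_pos j
    have h2 := cc_pos (2 * j)
    have h3 : 0 ≤ cc j / 4 / cc (2 * j) := by positivity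
    rw [ha, abs_mul, abs_of_nonneg h3]
    calc _ ≤ (1 : ℝ) * 1 := mul_le_mul ((div_le_one h2).mpr (cc_even j)) (he j) (abs_nonneg _)
          zero_le_one
      _ = 1 := one_mul 1
  have hb1 : ∀ j, |b j| ≤ 1 := by
    intro j
    have h1 := cc_pos j
    have h2 := cc_pos (2 * j + 1)
    have h3 : 0 ≤ cc j / 4 / cc (2 * j + 1) := by positivity
    rw [hb, abs_neg, abs_mul, abs_of_nonneg h3]
    calc _ ≤ (1 : ℝ) * 1 := mul_le_mul ((div_le_one h2).mpr (cc_odd j)) (he j) (abs_nonneg _)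
          zero_le_one
      _ = 1 := one_mul 1
  have habs : ∀ i, |il a b i| ≤ 1 := il_forall a b (fun t => |t| ≤ 1) ha1 hb1
  have hK : ∀ i, il (fun j => P' (k' j)) (fun j => P (k' j)) i ∈ K :=
    il_forall _ _ (fun t => t ∈ K) (fun j => hP' _ (hk'1 j)) (fun j => hP _ (hk'1 j))
  refine ⟨il a b, il (fun j => P' (k' j)) (fun j => P (k' j)), habs, hK, ?_⟩
  have hse : Summable fun j => (cc (2 * j) * a j) • P' (k' j) := by
    have h1 : Summable fun j => (cc j * (e j / 4)) • P' (k' j) :=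
      summable_hat (R := R) (fun i => by
        rw [abs_div, abs_of_pos (by norm_num : (0 : ℝ) < 4)]; linarith [he i, abs_nonneg (e i)])
        (fun i => hR _ (hP' _ (hk'1 i)))
    refine h1.congr fun j => ?_
    rw [ha]
    congr 1
    have := (cc_pos (2 * j)).ne'
    field_simp
  have hso : Summable fun j => (cc (2 * j + 1) * b j) • P (k' j) := by
    have h1 : Summable fun j => (cc j * (-e j / 4)) • P (k' j) :=
      summable_hat (R := R) (fun i => by
        rw [abs_div, abs_neg, abs_of_pos (by norm_num : (0 : ℝ) < 4)]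
        linarith [he i, abs_nonneg (e i)])
        (fun i => hR _ (hP _ (hk'1 i)))
    refine h1.congr fun j => ?_
    rw [hb]
    congr 1
    have := (cc_pos (2 * j + 1)).ne'
    field_simp
  have h2 := hse.hasSum.add hso.hasSum
  have h3 : (fun j => (cc (2 * j) * a j) • P' (k' j) + (cc (2 * j + 1) * b j) • P (k' j)) =
      fun j => (cc j * e j) • k j := by
    funext j
    have a5 : cc (2 * j) * a j = cc j * e j * (1 / 4) := by
      rw [ha]
      have := (cc_pos (2 * j)).ne'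
      field_simp
    have a6 : cc (2 * j + 1) * b j = - (cc j * e j * (1 / 4)) := by
      rw [hb]
      have := (cc_pos (2 * j + 1)).ne'
      field_simp
    rw [a5, a6, ← hk'2 j, smul_smul, smul_sub, neg_smul, sub_eq_add_neg]
  rw [h3] at h2
  rw [hs.unique h2]
  apply HasSum.even_add_odd
  · simp only [il_even]
    exact hse.hasSum
  · simp only [il_odd]
    exact hso.hasSum

/-- Scaled versions. -/
theorem hat_scale {K : Set X} (P : X → X) (hP : ∀ k ∈ K, P k ∈ K) {x : X}
    (hx : x ∈ Hat ((fun k => (1 / 4 : ℝ) • P k) '' K)) : x ∈ Hat K := by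
  obtain ⟨e, k, he, hk, hs⟩ := hx
  choose k' hk'1 hk'2 using hk
  refine ⟨fun i => e i * (1 / 4), fun i => P (k' i), ?_, fun i => hP _ (hk'1 i), ?_⟩
  · intro i
    rw [abs_mul, abs_of_nonneg (by norm_num : (0 : ℝ) ≤ 1 / 4)]
    have := he i
    linarith
  · refine hs.congr_fun ?_
    intro i
    have := hk'2 i
    simp only at this
    rw [← this, smul_smul]
    congr 1
    ring

end Hat

end Pool.Agent.Helper871.CP
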