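import Pool.Agent.Helper871.CB4

set_option autoImplicit false

namespace Pool.Agent.Helper871.CP

open Filter Topology Set Cardinal

/-- The conclusion of the Amir-Lindenstrauss theorem. -/
def AL (X : Type) [NormedAddCommGroup X] [NormedSpace ℝ X] (K : Set X) : Prop :=
  ∃ (Γ : Type) (x : Γ → X), (∀ γ, x γ ∈ Hat K) ∧
    (∀ (f : StrongDual ℝ X) (ε : ℝ), 0 < ε → {γ | ε ≤ |f (x γ)|}.Finite) ∧
    Dense ((Submodule.span ℝ (range x) : Submodule ℝ X) : Set X)

/-- The inductive statement. -/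
def ALC (κ : Cardinal.{0}) : Prop :=
  ∀ (X : Type) [NormedAddCommGroup X] [NormedSpace ℝ X] [CompleteSpace X] (K : Set X) (D : Set X),
    WC K → K.Nonempty → Dense ((Submodule.span ℝ K : Submodule ℝ X) : Set X) → Dense D →
    #D ≤ κ → AL X K

theorem al_base : ALC ℵ₀ := by
  intro X _ _ _ K D hK hne hspan hD hcard
  obtain ⟨R, hR0, hR⟩ := wc_bdd hK
  have hDc : D.Countable := by
    rw [← Cardinal.le_aleph0_iff_set_countable]; exact hcard
  have : TopologicalSpace.SeparableSpace X := ⟨D, hDc, hD⟩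
  have : SecondCountableTopology X := UniformSpace.secondCountable_of_separable X
  have : Nonempty K := hne.to_subtype
  set d := TopologicalSpace.denseSeq K with hd
  have hd' : DenseRange d := TopologicalSpace.denseRange_denseSeq _
  refine ⟨ℕ, fun n => (1 / ((n : ℝ) + 1)) • (d n : X), fun n => ?_, ?_, ?_⟩
  · apply hat_single (d n).2
    rw [abs_of_pos (by positivity), div_le_one (by positivity)]
    have : (0 : ℝ) ≤ n := Nat.cast_nonneg n
    linarith
  · intro f ε hε
    obtain ⟨N, hN⟩ := exists_nat_gt (‖f‖ * R / ε)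
    apply (Set.finite_Iio N).subset
    intro n hn
    rw [Set.mem_ofPred_eq] at hn
    rw [mem_Iio]
    by_contra hcon
    push Not at hcon
    rw [map_smul, smul_eq_mul, abs_mul, abs_of_pos (by positivity : (0 : ℝ) < 1 / ((n : ℝ) + 1))]
      at hn
    have h1 : |f (d n)| ≤ ‖f‖ * R := (f.le_opNorm _).trans (by gcongr; exact hR _ (d n).2)
    have h2 : (N : ℝ) ≤ n := by exact_mod_cast hcon
    have h3 : ε * ((n : ℝ) + 1) ≤ |f (d n)| := by
      rw [one_div, inv_mul_eq_div, le_div_iff₀ (by positivity)] at hn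
      exact hn
    rw [div_lt_iff₀ hε] at hN
    nlinarith
  · set S := (Submodule.span ℝ (range fun n : ℕ => (1 / ((n : ℝ) + 1)) • (d n : X))) with hS
    have h1 : ∀ n, (d n : X) ∈ S := by
      intro n
      have h2 : (1 / ((n : ℝ) + 1)) • (d n : X) ∈ S := Submodule.subset_span ⟨n, rfl⟩
      have h3 := S.smul_mem ((n : ℝ) + 1) h2
      rw [smul_smul, mul_one_div_cancel (by positivity), one_smul] at h3
      exact h3
    have h2 : K ⊆ S.topologicalClosure := by
      intro k hk
      have h3 : k ∈ closure (S : Set X) := by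
        rw [Metric.mem_closure_iff]
        intro ε hε
        obtain ⟨n, hn⟩ := Metric.denseRange_iff.mp hd' ⟨k, hk⟩ ε hε
        exact ⟨d n, h1 n, hn⟩
      exact h3
    have h3 : Submodule.span ℝ K ≤ S.topologicalClosure := Submodule.span_le.mpr h2
    have h4 : closure ((Submodule.span ℝ K : Submodule ℝ X) : Set X) ⊆ closure (S : Set X) :=
      closure_minimal h3 isClosed_closure
    exact fun x => h4 (hspan x)

section Block

variable {X : Type} [NormedAddCommGroup X] [NormedSpace ℝ X]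

/-- The inductive hypothesis applied to the range of a projection. -/
theorem block [CompleteSpace X] {κ : Cardinal.{0}} (hIH : ∀ κ' < κ, ALC κ') {K : Set X}
    (hK : WC K) (hne : K.Nonempty) (hspan : Dense ((Submodule.span ℝ K : Submodule ℝ X) : Set X))
    (Q : X →L[ℝ] X) (hQ : ∀ x, Q (Q x) = Q x) (A : Set X) (hA : #A < κ)
    (hAd : ∀ x, Q x ∈ closure (Q '' A)) :
    ∃ (Γ : Type) (x : Γ → X), (∀ γ, x γ ∈ Hat ((fun k => (1 / 4 : ℝ) • Q k) '' K)) ∧
      (∀ γ, Q (x γ) = x γ) ∧
      (∀ (f : StrongDual ℝ X) (ε : ℝ), 0 < ε → {γ | ε ≤ |f (x γ)|}.Finite) ∧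
      ∀ z, Q z ∈ closure ((Submodule.span ℝ (range x) : Submodule ℝ X) : Set X) := by
  let Y : Submodule ℝ X := LinearMap.ker (ContinuousLinearMap.id ℝ X - Q).toLinearMap
  have hYmem : ∀ y, y ∈ Y ↔ Q y = y := by
    intro y
    have : y ∈ Y ↔ y - Q y = 0 := Iff.rfl
    rw [this, sub_eq_zero, eq_comm]
  have hYc : IsClosed (Y : Set X) := ContinuousLinearMap.isClosed_ker (ContinuousLinearMap.id ℝ X - Q)
  have : CompleteSpace Y := hYc.completeSpace_coe
  let q : X →L[ℝ] Y := Q.codRestrict Y (fun x => (hYmem _).mpr (hQ x))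
  have hq : ∀ x, (q x : X) = Q x := fun x => rfl
  have hqY : ∀ y : Y, q y = y := fun y => Subtype.ext ((hYmem _).mp y.2)
  let T : X →L[ℝ] Y := (1 / 4 : ℝ) • q
  have hTs : Function.Surjective T := by
    intro y
    refine ⟨(4 : ℝ) • (y : X), ?_⟩
    change (1 / 4 : ℝ) • q ((4 : ℝ) • (y : X)) = y
    rw [map_smul, hqY, smul_smul]
    norm_num
  have h1 : WC (T '' K) := wc_image hK T
  have h2 : Dense ((Submodule.span ℝ (T '' K) : Submodule ℝ Y) : Set Y) := by
    have h3 := hTs.denseRange.dense_image T.continuous hspan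
    have h4 : T '' ((Submodule.span ℝ K : Submodule ℝ X) : Set X) =
        ((Submodule.span ℝ (T '' K) : Submodule ℝ Y) : Set Y) := by
      have := Submodule.map_span T.toLinearMap K
      have h5 : (((Submodule.span ℝ K).map T.toLinearMap : Submodule ℝ Y) : Set Y) =
        T '' ((Submodule.span ℝ K : Submodule ℝ X) : Set X) := rfl
      rw [← h5, this]
      rfl
    rwa [h4] at h3
  have h3 : Dense (q '' A) := by
    intro y
    rw [Metric.mem_closure_iff]
    intro ε hε
    obtain ⟨_, ⟨a, ha, rfl⟩, hd⟩ := Metric.mem_closure_iff.mp (hAd y) ε hε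
    rw [(hYmem _).mp y.2] at hd
    exact ⟨q a, ⟨a, ha, rfl⟩, hd⟩
  obtain ⟨Γ, y, hy1, hy2, hy3⟩ := hIH #A hA Y (T '' K) (q '' A) h1 (hne.image _) h2 h3 mk_image_le
  refine ⟨Γ, fun γ => (y γ : X), ?_, ?_, ?_, ?_⟩
  · intro γ
    have h4 := hat_map Y.subtypeL (hy1 γ)
    have h5 : Y.subtypeL '' (T '' K) = (fun k => (1 / 4 : ℝ) • Q k) '' K := by
      rw [← image_comp]
      rfl
    rw [h5] at h4
    exact h4
  · exact fun γ => (hYmem _).mp (y γ).2
  · intro f ε hε
    exact hy2 (f.comp Y.subtypeL) ε hε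
  · intro z
    have h4 := hy3 (q z)
    rw [Metric.mem_closure_iff] at h4 ⊢
    intro ε hε
    obtain ⟨w, hw, hwz⟩ := h4 ε hε
    refine ⟨w, ?_, hwz⟩
    have h5 : (w : X) ∈ (Submodule.span ℝ (range y)).map Y.subtype := ⟨w, hw, rfl⟩
    rw [Submodule.map_span, ← range_comp] at h5
    exact h5

end Block

end Pool.Agent.Helper871.CP
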