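import Pool.Agent.Helper871.CB1

set_option autoImplicit false

namespace Pool.Agent.Helper871.CP

open Filter Topology Set
open Pool.Agent.Helper871.NormExt

variable {X : Type} [NormedAddCommGroup X] [NormedSpace ℝ X] {ι : Type}

open Classical in
/-- Admissible sets of pairs. -/
def Ad (A : Finset (ℕ × ι)) : Prop := ∀ q, (A.filter fun p => p.1 = q).card ≤ q

/-- The quadratic expression. -/
noncomputable def th (y : ι → X) (t : ℝ) (A : Finset (ℕ × ι)) (f : StrongDual ℝ X) : ℝ :=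
  t ^ 2 + ∑ p ∈ A, ((1 / 2) ^ p.1 * f (y p.2)) ^ 2

/-- The dual ball of the new norm. -/
def DD (y : ι → X) (K : Set (StrongDual ℝ X)) : Set (StrongDual ℝ X) :=
  {f | ∃ t : ℝ, 0 ≤ t ∧ ∃ g₁ ∈ K, ∃ g₂ ∈ K, ∃ b : StrongDual ℝ X, ‖b‖ ≤ 1 ∧
    f = t • (g₁ - g₂ + b) ∧ ∀ A, Ad A → th y t A f ≤ 1}

theorem Ad_empty : Ad (∅ : Finset (ℕ × ι)) := fun q => by simp

theorem sum_weights (A : Finset (ℕ × ι)) (hA : Ad A) : ∑ p ∈ A, (1 / 4 : ℝ) ^ p.1 ≤ 2 := by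
  classical
  have h1 : ∑ p ∈ A, (1 / 4 : ℝ) ^ p.1 =
      ∑ q ∈ A.image Prod.fst, ∑ p ∈ A.filter (fun p => p.1 = q), (1 / 4 : ℝ) ^ p.1 := by
    rw [Finset.sum_fiberwise_of_maps_to]
    intro p hp
    exact Finset.mem_image_of_mem _ hp
  rw [h1]
  have h2 : ∀ q ∈ A.image Prod.fst, ∑ p ∈ A.filter (fun p => p.1 = q), (1 / 4 : ℝ) ^ p.1 ≤
      (1 / 2) ^ q := by
    intro q _
    have h3 : ∑ p ∈ A.filter (fun p => p.1 = q), (1 / 4 : ℝ) ^ p.1 =
        ((A.filter (fun p => p.1 = q)).card : ℝ) * (1 / 4) ^ q := by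
      rw [← nsmul_eq_mul, ← Finset.sum_const]
      apply Finset.sum_congr rfl
      intro p hp
      rw [(Finset.mem_filter.mp hp).2]
    rw [h3]
    have h4 : ((A.filter (fun p => p.1 = q)).card : ℝ) ≤ q := by
      have := hA q
      have h5 : (A.filter (fun p => p.1 = q)).card ≤ q := by convert this
      exact_mod_cast h5
    have h5 : (q : ℝ) ≤ 2 ^ q := by exact_mod_cast (Nat.lt_two_pow_self).le
    have h6 : (2 : ℝ) ^ q * (1 / 4) ^ q = (1 / 2) ^ q := by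
      rw [← mul_pow]; norm_num
    calc _ ≤ (2 : ℝ) ^ q * (1 / 4) ^ q := by
          apply mul_le_mul_of_nonneg_right (h4.trans h5) (by positivity)
      _ = _ := h6
  calc _ ≤ ∑ q ∈ A.image Prod.fst, (1 / 2 : ℝ) ^ q := Finset.sum_le_sum h2
    _ ≤ ∑' q : ℕ, (1 / 2 : ℝ) ^ q :=
        summable_geometric_two.sum_le_tsum _ (fun q _ => by positivity)
    _ = 2 := tsum_geometric_two

theorem sq_term (q : ℕ) (r : ℝ) : ((1 / 2 : ℝ) ^ q * r) ^ 2 = (1 / 4) ^ q * r ^ 2 := by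
  rw [mul_pow, ← pow_mul, mul_comm q 2, pow_mul]
  norm_num

theorem th_smul (y : ι → X) (t : ℝ) (A : Finset (ℕ × ι)) (c : ℝ) (f : StrongDual ℝ X) :
    th y (c * t) A (c • f) = c ^ 2 * th y t A f := by
  unfold th
  have : ∀ v, (c • f) v = c * f v := fun _ => rfl
  rw [mul_add, Finset.mul_sum]
  simp only [this]
  congr 1
  · ring
  · apply Finset.sum_congr rfl
    intro p _
    ring

theorem th_par (y : ι → X) (t t' : ℝ) (A : Finset (ℕ × ι)) (f g : StrongDual ℝ X) :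
    th y ((t + t') / 2) A ((1 / 2 : ℝ) • (f + g)) + th y ((t - t') / 2) A ((1 / 2 : ℝ) • (f - g)) =
      (th y t A f + th y t' A g) / 2 := by
  unfold th
  have h1 : ∀ v, ((1 / 2 : ℝ) • (f + g)) v = (1 / 2) * (f v + g v) := fun _ => rfl
  have h2 : ∀ v, ((1 / 2 : ℝ) • (f - g)) v = (1 / 2) * (f v - g v) := fun _ => rfl
  have h3 : ∑ p ∈ A, ((1 / 2) ^ p.1 * ((1 / 2 : ℝ) • (f + g)) (y p.2)) ^ 2 +
      ∑ p ∈ A, ((1 / 2) ^ p.1 * ((1 / 2 : ℝ) • (f - g)) (y p.2)) ^ 2 =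
      (∑ p ∈ A, ((1 / 2) ^ p.1 * f (y p.2)) ^ 2 +
      ∑ p ∈ A, ((1 / 2) ^ p.1 * g (y p.2)) ^ 2) / 2 := by
    rw [← Finset.sum_add_distrib, ← Finset.sum_add_distrib, Finset.sum_div]
    apply Finset.sum_congr rfl
    intro p _
    rw [h1, h2]
    ring
  linear_combination h3

theorem th_nonneg (y : ι → X) (t : ℝ) (A : Finset (ℕ × ι)) (f : StrongDual ℝ X) :
    0 ≤ th y t A f := by
  unfold th
  have : 0 ≤ ∑ p ∈ A, ((1 / 2) ^ p.1 * f (y p.2)) ^ 2 :=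
    Finset.sum_nonneg fun p _ => sq_nonneg _
  positivity

section

variable {y : ι → X} {K : Set (StrongDual ℝ X)} {R S : ℝ}

theorem DD_neg : ∀ f ∈ DD y K, -f ∈ DD y K := by
  rintro f ⟨t, ht, g₁, hg₁, g₂, hg₂, b, hb, hf, hA⟩
  refine ⟨t, ht, g₂, hg₂, g₁, hg₁, -b, by rwa [norm_neg], ?_, fun A hA' => ?_⟩
  · rw [hf]
    ext v
    change -(t * (g₁ v - g₂ v + b v)) = t * (g₂ v - g₁ v + -(b v))
    ring
  · have h1 : th y t A (-f) = th y t A f := by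
      unfold th
      have : ∀ v, (-f) v = - f v := fun _ => rfl
      simp only [this, mul_neg, neg_sq]
    rw [h1]; exact hA A hA'

theorem DD_t_le {t : ℝ} {f : StrongDual ℝ X} (hA : ∀ A, Ad A → th y t A f ≤ 1) (ht : 0 ≤ t) :
    t ≤ 1 := by
  have h1 := hA ∅ Ad_empty
  unfold th at h1
  rw [Finset.sum_empty, add_zero] at h1
  nlinarith

theorem DD_norm_rep {g₁ g₂ b : StrongDual ℝ X} (hR : ∀ f ∈ K, ‖f‖ ≤ R) (hg₁ : g₁ ∈ K)
    (hg₂ : g₂ ∈ K) (hb : ‖b‖ ≤ 1) : ‖g₁ - g₂ + b‖ ≤ 2 * R + 1 := by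
  calc ‖g₁ - g₂ + b‖ ≤ ‖g₁ - g₂‖ + ‖b‖ := norm_add_le _ _
    _ ≤ (‖g₁‖ + ‖g₂‖) + ‖b‖ := by gcongr; exact norm_sub_le _ _
    _ ≤ (R + R) + 1 := add_le_add (add_le_add (hR _ hg₁) (hR _ hg₂)) hb
    _ = 2 * R + 1 := by ring

theorem DD_bdd (hR : ∀ f ∈ K, ‖f‖ ≤ R) : ∀ f ∈ DD y K, ‖f‖ ≤ 2 * R + 1 := by
  rintro f ⟨t, ht, g₁, hg₁, g₂, hg₂, b, hb, hf, hA⟩
  have h1 := DD_t_le hA ht
  have h2 := DD_norm_rep hR hg₁ hg₂ hb
  rw [hf, norm_smul, Real.norm_of_nonneg ht]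
  have h3 := norm_nonneg (g₁ - g₂ + b)
  nlinarith

theorem DD_ball (hne : K.Nonempty) (hS : ∀ i, ‖y i‖ ≤ S) (hS0 : 0 ≤ S) :
    ∀ f : StrongDual ℝ X, ‖f‖ ≤ 1 / (2 * (S + 1)) → f ∈ DD y K := by
  intro f hf
  obtain ⟨g, hg⟩ := hne
  set r : ℝ := 1 / (2 * (S + 1)) with hr
  have hr0 : 0 < r := by positivity
  refine ⟨r, hr0.le, g, hg, g, hg, r⁻¹ • f, ?_, ?_, fun A hA => ?_⟩
  · rw [norm_smul, norm_inv, Real.norm_of_nonneg hr0.le, inv_mul_le_iff₀ hr0]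
    linarith
  · rw [sub_self, zero_add, smul_smul, mul_inv_cancel₀ hr0.ne', one_smul]
  · unfold th
    have hrS : r * S ≤ 1 / 2 := by
      rw [hr, div_mul_eq_mul_div, one_mul, div_le_div_iff₀ (by positivity) (by norm_num)]
      linarith
    have hr1 : r ≤ 1 / 2 := by
      rw [hr]
      apply one_div_le_one_div_of_le (by norm_num)
      linarith
    have hb : ∀ i, (f (y i)) ^ 2 ≤ 1 / 4 := by
      intro i
      have h1 : |f (y i)| ≤ 1 / 2 := by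
        calc |f (y i)| = ‖f (y i)‖ := rfl
          _ ≤ ‖f‖ * ‖y i‖ := f.le_opNorm _
          _ ≤ r * S := by gcongr; exact hS i
          _ ≤ 1 / 2 := hrS
      rw [← sq_abs]
      nlinarith [abs_nonneg (f (y i))]
    have h2 : ∑ p ∈ A, ((1 / 2) ^ p.1 * f (y p.2)) ^ 2 ≤ ∑ p ∈ A, (1 / 4 : ℝ) ^ p.1 * (1 / 4) := by
      apply Finset.sum_le_sum
      intro p _
      rw [sq_term]
      exact mul_le_mul_of_nonneg_left (hb _) (by positivity)
    rw [← Finset.sum_mul] at h2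
    have h5 := sum_weights A hA
    nlinarith

theorem DD_wclosed (hK : WClosed K) (hR : ∀ f ∈ K, ‖f‖ ≤ R) : WClosed (DD y K) := by
  -- compact parameter set
  have hKc := wcompact hK R hR
  have hBc : IsCompact (WeakDual.toStrongDual ⁻¹' (Metric.closedBall (0 : StrongDual ℝ X) 1) :
      Set (WeakDual ℝ X)) := WeakDual.isCompact_closedBall _ _
  set K' : Set (WeakDual ℝ X) := WeakDual.toStrongDual ⁻¹' K with hK'
  set B' : Set (WeakDual ℝ X) :=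
    WeakDual.toStrongDual ⁻¹' (Metric.closedBall (0 : StrongDual ℝ X) 1) with hB'
  have hP : IsCompact ((Icc (0 : ℝ) 1) ×ˢ K' ×ˢ K' ×ˢ B') :=
    isCompact_Icc.prod (hKc.prod (hKc.prod hBc))
  let Φ : ℝ × WeakDual ℝ X × WeakDual ℝ X × WeakDual ℝ X → WeakDual ℝ X := fun p =>
    StrongDual.toWeakDual (p.1 • (WeakDual.toStrongDual p.2.1 - WeakDual.toStrongDual p.2.2.1 +
      WeakDual.toStrongDual p.2.2.2))
  have hΦ : ∀ p v, Φ p v = p.1 * (p.2.1 v - p.2.2.1 v + p.2.2.2 v) := fun _ _ => rfl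
  have hev : ∀ v : X, Continuous fun p : ℝ × WeakDual ℝ X × WeakDual ℝ X × WeakDual ℝ X =>
      p.1 * (p.2.1 v - p.2.2.1 v + p.2.2.2 v) := by
    intro v
    have h1 : Continuous fun p : ℝ × WeakDual ℝ X × WeakDual ℝ X × WeakDual ℝ X => p.2.1 v :=
      (WeakDual.eval_continuous v).comp (continuous_fst.comp continuous_snd)
    have h2 : Continuous fun p : ℝ × WeakDual ℝ X × WeakDual ℝ X × WeakDual ℝ X => p.2.2.1 v :=
      (WeakDual.eval_continuous v).comp (continuous_fst.comp (continuous_snd.comp continuous_snd))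
    have h3 : Continuous fun p : ℝ × WeakDual ℝ X × WeakDual ℝ X × WeakDual ℝ X => p.2.2.2 v :=
      (WeakDual.eval_continuous v).comp (continuous_snd.comp (continuous_snd.comp continuous_snd))
    exact continuous_fst.mul ((h1.sub h2).add h3)
  have hΦc : Continuous Φ := by
    apply WeakDual.continuous_of_continuous_eval
    intro v
    exact hev v
  set E : Set (ℝ × WeakDual ℝ X × WeakDual ℝ X × WeakDual ℝ X) :=
    ((Icc (0 : ℝ) 1) ×ˢ K' ×ˢ K' ×ˢ B') ∩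
      ⋂ A : {A : Finset (ℕ × ι) // Ad A}, {p | p.1 ^ 2 + ∑ q ∈ A.1, ((1 / 2) ^ q.1 *
        (p.1 * (p.2.1 (y q.2) - p.2.2.1 (y q.2) + p.2.2.2 (y q.2)))) ^ 2 ≤ 1} with hE
  have hEc : IsCompact E := by
    apply hP.inter_right
    apply isClosed_iInter
    intro A
    refine isClosed_le ((continuous_fst.pow 2).add ?_) continuous_const
    exact continuous_finsetSum _ fun q _ => (continuous_const.mul (hev _)).pow 2
  have hIm : (WeakDual.toStrongDual ⁻¹' DD y K : Set (WeakDual ℝ X)) = Φ '' E := by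
    ext f
    constructor
    · rintro ⟨t, ht, g₁, hg₁, g₂, hg₂, b, hb, hf, hA⟩
      refine ⟨(t, StrongDual.toWeakDual g₁, StrongDual.toWeakDual g₂, StrongDual.toWeakDual b),
        ⟨⟨⟨ht, DD_t_le hA ht⟩, hg₁, hg₂, ?_⟩, ?_⟩, ?_⟩
      · change b ∈ Metric.closedBall (0 : StrongDual ℝ X) 1
        rw [Metric.mem_closedBall, dist_zero_right]
        exact hb
      · rw [mem_iInter]
        rintro ⟨A, hA'⟩
        have h1 := hA A hA'
        unfold th at h1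
        rw [hf] at h1
        exact h1
      · change StrongDual.toWeakDual (t • (g₁ - g₂ + b)) = f
        rw [← hf]
        rfl
    · rintro ⟨⟨t, g₁, g₂, b⟩, ⟨⟨ht, hg₁, hg₂, hb⟩, hA⟩, rfl⟩
      refine ⟨t, ht.1, WeakDual.toStrongDual g₁, hg₁, WeakDual.toStrongDual g₂, hg₂,
        WeakDual.toStrongDual b, ?_, rfl, fun A hA' => ?_⟩
      · have : WeakDual.toStrongDual b ∈ Metric.closedBall (0 : StrongDual ℝ X) 1 := hb
        rw [Metric.mem_closedBall, dist_zero_right] at this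
        exact this
      · exact (mem_iInter.mp hA) ⟨A, hA'⟩
  unfold WClosed
  rw [hIm]
  exact (hEc.image hΦc).isClosed

/-- Scaling criterion. -/
theorem DD_scale {t : ℝ} (ht : 0 ≤ t) {g₁ g₂ b f : StrongDual ℝ X} (hg₁ : g₁ ∈ K) (hg₂ : g₂ ∈ K)
    (hb : ‖b‖ ≤ 1) (hf : f = t • (g₁ - g₂ + b)) {τ : ℝ} (hτ : 0 ≤ τ)
    (h : ∀ A, Ad A → τ ^ 2 * th y t A f ≤ 1) : τ • f ∈ DD y K := by
  refine ⟨τ * t, by positivity, g₁, hg₁, g₂, hg₂, b, hb, ?_, fun A hA => ?_⟩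
  · rw [hf, smul_smul]
  · rw [th_smul]; exact h A hA

/-- Representation of midpoints. -/
theorem mid_rep (hconv : Convex ℝ K) {t t' : ℝ} (ht : 0 ≤ t) (ht' : 0 ≤ t')
    {g₁ g₂ b g₁' g₂' b' : StrongDual ℝ X} (hg₁ : g₁ ∈ K) (hg₂ : g₂ ∈ K) (hb : ‖b‖ ≤ 1)
    (hg₁' : g₁' ∈ K) (hg₂' : g₂' ∈ K) (hb' : ‖b'‖ ≤ 1) :
    ∃ h₁ ∈ K, ∃ h₂ ∈ K, ∃ d : StrongDual ℝ X, ‖d‖ ≤ 1 ∧
      (1 / 2 : ℝ) • (t • (g₁ - g₂ + b) + t' • (g₁' - g₂' + b')) =
        ((t + t') / 2) • (h₁ - h₂ + d) := by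
  by_cases hs : t + t' = 0
  · have h1 : t = 0 := by linarith
    have h2 : t' = 0 := by linarith
    refine ⟨g₁, hg₁, g₂, hg₂, b, hb, ?_⟩
    rw [h1, h2]; simp
  · have hpos : 0 < t + t' := lt_of_le_of_ne (by linarith) (Ne.symm hs)
    set α := t / (t + t') with hα
    set β := t' / (t + t') with hβ
    have hα0 : 0 ≤ α := by positivity
    have hβ0 : 0 ≤ β := by positivity
    have hαβ : α + β = 1 := by rw [hα, hβ]; field_simp
    refine ⟨α • g₁ + β • g₁', hconv hg₁ hg₁' hα0 hβ0 hαβ, α • g₂ + β • g₂',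
      hconv hg₂ hg₂' hα0 hβ0 hαβ, α • b + β • b', ?_, ?_⟩
    · calc ‖α • b + β • b'‖ ≤ ‖α • b‖ + ‖β • b'‖ := norm_add_le _ _
        _ = α * ‖b‖ + β * ‖b'‖ := by
          rw [norm_smul, norm_smul, Real.norm_of_nonneg hα0, Real.norm_of_nonneg hβ0]
        _ ≤ α * 1 + β * 1 := by gcongr
        _ = 1 := by linarith
    · have h1 : (t + t') / 2 * α = 1 / 2 * t := by rw [hα]; field_simp
      have h2 : (t + t') / 2 * β = 1 / 2 * t' := by rw [hβ]; field_simp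
      simp only [smul_add, smul_sub, smul_smul, h1, h2]
      abel

end

end Pool.Agent.Helper871.CP
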