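import Pool.Agent.Helper871.CB7

set_option autoImplicit false

namespace Pool.Agent.Helper871.CP

open Filter Topology Set
open Pool.Agent.Helper871.NormExt

variable {X : Type} [NormedAddCommGroup X] [NormedSpace ℝ X] {ι : Type}

/-- Rotundity of the new dual norm at a coordinate. -/
theorem rot {y : ι → X} {t t' : ℝ} {f g : StrongDual ℝ X} (hf : ∀ A, Ad A → th y t A f ≤ 1)
    (hg : ∀ A, Ad A → th y t' A g ≤ 1) {A : Finset (ℕ × ι)} (hA : Ad A) {η c c' : ℝ}
    (hθ : 1 - η < th y ((t + t') / 2) A ((1 / 2 : ℝ) • (f + g))) (q : ℕ) (σ : ι)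
    (hc' : 0 ≤ c') (hcc : c' < c) (h1 : c ≤ |((1 / 2 : ℝ) • (f + g)) (y σ)|)
    (h2 : ∀ S : Finset ι, (∀ τ ∈ S, c' ≤ |((1 / 2 : ℝ) • (f + g)) (y τ)|) →
      S.card ≤ q) (hη : η ≤ (1 / 4) ^ q * (c ^ 2 - c' ^ 2)) :
    (1 / 4) ^ q * (f (y σ) - g (y σ)) ^ 2 / 4 ≤ η := by
  classical
  set h : StrongDual ℝ X := (1 / 2 : ℝ) • (f + g) with hh
  set tm := (t + t') / 2 with htm
  have hC : ∀ A, Ad A → th y tm A h ≤ 1 := by
    intro A hA
    have h3 := th_par y t t' A f g
    have h4 := hf A hA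
    have h5 := hg A hA
    have h6 := th_nonneg y ((t - t') / 2) A ((1 / 2 : ℝ) • (f - g))
    rw [← hh, ← htm] at h3
    linarith
  have hterm : ∀ τ : ι, ((1 / 2 : ℝ) ^ q * h (y τ)) ^ 2 = (1 / 4) ^ q * (h (y τ)) ^ 2 :=
    fun τ => sq_term q _
  have hq4 : (0 : ℝ) < (1 / 4) ^ q := by positivity
  have hcσ : c ^ 2 ≤ (h (y σ)) ^ 2 := by
    rw [← sq_abs (h (y σ))]
    exact pow_le_pow_left₀ (by linarith) h1 2
  have hmem : (q, σ) ∈ A := by
    by_contra hnot
    by_cases hcase : (A.filter fun p => p.1 = q).card < q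
    · -- insert
      have hA' : Ad (insert (q, σ) A) := by
        intro r
        rw [Finset.filter_insert]
        split_ifs with hr
        · have hr' : q = r := hr
          subst hr'
          exact (Finset.card_insert_le _ _).trans (by omega)
        · exact hA r
      have h3 := hC _ hA'
      have h4 : th y tm (insert (q, σ) A) h = th y tm A h + ((1 / 2 : ℝ) ^ q * h (y σ)) ^ 2 := by
        unfold th
        rw [Finset.sum_insert hnot]
        ring
      rw [h4, hterm] at h3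
      nlinarith [mul_le_mul_of_nonneg_left hcσ hq4.le, sq_nonneg c']
    · -- swap
      have hex : ∃ τ, (q, τ) ∈ A ∧ |h (y τ)| < c' := by
        by_contra hcon
        push Not at hcon
        have h3 := h2 (insert σ ((A.filter fun p => p.1 = q).image Prod.snd)) (by
          intro τ hτ
          rw [Finset.mem_insert] at hτ
          rcases hτ with rfl | hτ
          · linarith
          · obtain ⟨p, hp, rfl⟩ := Finset.mem_image.mp hτ
            rw [Finset.mem_filter] at hp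
            have hpq : p = (q, p.2) := Prod.ext hp.2 rfl
            exact hcon _ (by rw [← hpq]; exact hp.1))
        rw [Finset.card_insert_of_notMem, Finset.card_image_of_injOn] at h3
        · omega
        · intro p hp r hr hpr
          rw [Finset.mem_coe, Finset.mem_filter] at hp hr
          exact Prod.ext (hp.2.trans hr.2.symm) hpr
        · intro hmem
          obtain ⟨p, hp, hp2⟩ := Finset.mem_image.mp hmem
          rw [Finset.mem_filter] at hp
          apply hnot
          have : p = (q, σ) := Prod.ext hp.2 hp2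
          rw [← this]; exact hp.1
      obtain ⟨τ, hτA, hτ⟩ := hex
      have hnot' : (q, σ) ∉ A.erase (q, τ) := fun h => hnot (Finset.mem_of_mem_erase h)
      have hA' : Ad (insert (q, σ) (A.erase (q, τ))) := by
        intro r
        rw [Finset.filter_insert]
        split_ifs with hr
        · have hr' : q = r := hr
          subst hr'
          refine (Finset.card_insert_le _ _).trans ?_
          have hmem2 : (q, τ) ∈ A.filter (fun p => p.1 = q) :=
            Finset.mem_filter.mpr ⟨hτA, rfl⟩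
          rw [Finset.filter_erase, Finset.card_erase_of_mem hmem2]
          have h5 := hA q
          have h6 : 0 < (A.filter fun p => p.1 = q).card :=
            Finset.card_pos.mpr ⟨_, hmem2⟩
          have h7 : (A.filter fun p => p.1 = q).card ≤ q := by convert h5
          omega
        · refine (Finset.card_le_card ?_).trans (hA r)
          intro p hp
          rw [Finset.mem_filter] at hp ⊢
          exact ⟨Finset.mem_of_mem_erase hp.1, hp.2⟩
      have h3 := hC _ hA'
      have h4 : th y tm (insert (q, σ) (A.erase (q, τ))) h =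
          th y tm A h - ((1 / 2 : ℝ) ^ q * h (y τ)) ^ 2 + ((1 / 2 : ℝ) ^ q * h (y σ)) ^ 2 := by
        unfold th
        rw [Finset.sum_insert hnot', ← Finset.add_sum_erase A _ hτA]
        ring
      rw [h4, hterm, hterm] at h3
      have h5 : (h (y τ)) ^ 2 ≤ c' ^ 2 := by
        rw [← sq_abs (h (y τ))]
        exact pow_le_pow_left₀ (abs_nonneg _) hτ.le 2
      nlinarith [mul_le_mul_of_nonneg_left hcσ hq4.le, mul_le_mul_of_nonneg_left h5 hq4.le]
  have h3 := th_par y t t' A f g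
  have h4 := hf A hA
  have h5 := hg A hA
  have h6 : ((1 / 2 : ℝ) ^ q * ((1 / 2 : ℝ) • (f - g)) (y σ)) ^ 2 ≤
      th y ((t - t') / 2) A ((1 / 2 : ℝ) • (f - g)) := by
    unfold th
    have h7 := Finset.single_le_sum
      (f := fun p : ℕ × ι => ((1 / 2 : ℝ) ^ p.1 * ((1 / 2 : ℝ) • (f - g)) (y p.2)) ^ 2)
      (fun p _ => sq_nonneg _) hmem
    simp only at h7
    nlinarith [sq_nonneg ((t - t') / 2)]
  have h8 : ((1 / 2 : ℝ) ^ q * ((1 / 2 : ℝ) • (f - g)) (y σ)) ^ 2 =
      (1 / 4) ^ q * (f (y σ) - g (y σ)) ^ 2 / 4 := by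
    have h9 : ((1 / 2 : ℝ) • (f - g)) (y σ) = (1 / 2) * (f (y σ) - g (y σ)) := rfl
    rw [h9, sq_term]
    ring
  rw [h8] at h6
  rw [← hh, ← htm] at h3
  linarith

section

variable {y : ι → X} {K : Set (StrongDual ℝ X)} {R : ℝ}

theorem uniq_aux (hconv : Convex ℝ K) (hR : ∀ f ∈ K, ‖f‖ ≤ R)
    (hc0 : ∀ (f : StrongDual ℝ X) (ε : ℝ), 0 < ε → {i | ε ≤ |f (y i)|}.Finite)
    {x : X} {m : ℝ} (hm : 0 < m) (hmax : ∀ f ∈ DD y K, f x ≤ m) {f g : StrongDual ℝ X}
    (hf : f ∈ DD y K) (hg : g ∈ DD y K) (hfx : f x = m) (hgx : g x = m) :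
    (1 / 2 : ℝ) • (f + g) ∈ DD y K ∧
      ∀ σ, ((1 / 2 : ℝ) • (f + g)) (y σ) ≠ 0 → f (y σ) = g (y σ) := by
  obtain ⟨t, ht, g₁, hg₁, g₂, hg₂, b, hb, hfr, hfA⟩ := hf
  obtain ⟨t', ht', g₁', hg₁', g₂', hg₂', b', hb', hgr, hgA⟩ := hg
  obtain ⟨h₁, hh₁, h₂, hh₂, d, hd, hrep⟩ := mid_rep hconv ht ht' hg₁ hg₂ hb hg₁' hg₂' hb'
  rw [← hfr, ← hgr] at hrep
  set h : StrongDual ℝ X := (1 / 2 : ℝ) • (f + g) with hh
  set tm := (t + t') / 2 with htm
  have htm0 : 0 ≤ tm := by rw [htm]; linarith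
  have hC : ∀ A, Ad A → th y tm A h ≤ 1 := by
    intro A hA
    have h3 := th_par y t t' A f g
    have h4 := hfA A hA
    have h5 := hgA A hA
    have h6 := th_nonneg y ((t - t') / 2) A ((1 / 2 : ℝ) • (f - g))
    rw [← hh, ← htm] at h3
    linarith
  refine ⟨⟨tm, htm0, h₁, hh₁, h₂, hh₂, d, hd, hrep, hC⟩, ?_⟩
  have hhx : h x = m := by
    have : h x = (1 / 2) * (f x + g x) := rfl
    rw [this, hfx, hgx]; ring
  have hnear : ∀ η : ℝ, 0 < η → ∃ A, Ad A ∧ 1 - η < th y tm A h := by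
    intro η hη
    by_contra hcon
    push Not at hcon
    set η' := min η (1 / 2) with hη'
    have hη'0 : 0 < η' := lt_min hη (by norm_num)
    have hη'1 : η' ≤ 1 / 2 := min_le_right _ _
    have h3 : (1 + η' / 4) • h ∈ DD y K := by
      apply DD_scale htm0 hh₁ hh₂ hd hrep (by linarith)
      intro A hA
      have h4 := hcon A hA
      have h5 : th y tm A h ≤ 1 - η' := by linarith [min_le_left η (1 / 2)]
      have h6 : (1 + η' / 4) ^ 2 * th y tm A h ≤ (1 + η' / 4) ^ 2 * (1 - η') :=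
        mul_le_mul_of_nonneg_left h5 (by positivity)
      nlinarith [mul_pos hη'0 hη'0, mul_pos (mul_pos hη'0 hη'0) hη'0]
    have h4 := hmax _ h3
    have h5 : ((1 + η' / 4) • h) x = (1 + η' / 4) * h x := rfl
    rw [h5, hhx] at h4
    nlinarith
  intro σ hσ
  by_contra hne
  set c := |h (y σ)| with hc
  have hcpos : 0 < c := abs_pos.mpr hσ
  have hfin := hc0 h (c / 2) (by linarith)
  set q := hfin.toFinset.card with hq
  have hd2 : 0 < (f (y σ) - g (y σ)) ^ 2 := by
    have := sub_ne_zero.mpr hne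
    positivity
  have hq4 : (0 : ℝ) < (1 / 4) ^ q := by positivity
  set η := min ((1 / 4) ^ q * (c ^ 2 - (c / 2) ^ 2)) ((1 / 4) ^ q * (f (y σ) - g (y σ)) ^ 2 / 8)
    with hη
  have hη0 : 0 < η := by
    apply lt_min
    · have : 0 < c ^ 2 - (c / 2) ^ 2 := by nlinarith
      positivity
    · positivity
  obtain ⟨A, hA, hθ⟩ := hnear η hη0
  have h3 := rot hfA hgA hA (η := η) (c := c) (c' := c / 2) hθ q σ (by linarith) (by linarith)
    le_rfl (by
      intro S hS
      rw [hq]
      apply Finset.card_le_card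
      intro τ hτ
      rw [Set.Finite.mem_toFinset]
      exact hS τ hτ) (min_le_left _ _)
  have h4 : η ≤ (1 / 4) ^ q * (f (y σ) - g (y σ)) ^ 2 / 8 := min_le_right _ _
  have h5 : 0 < (1 / 4) ^ q * (f (y σ) - g (y σ)) ^ 2 := by positivity
  linarith

theorem uniq (hconv : Convex ℝ K) (hR : ∀ f ∈ K, ‖f‖ ≤ R)
    (hc0 : ∀ (f : StrongDual ℝ X) (ε : ℝ), 0 < ε → {i | ε ≤ |f (y i)|}.Finite)
    (htot : ∀ f : StrongDual ℝ X, (∀ i, f (y i) = 0) → f = 0)
    {x : X} {m : ℝ} (hm : 0 < m) (hmax : ∀ f ∈ DD y K, f x ≤ m) {f g : StrongDual ℝ X}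
    (hf : f ∈ DD y K) (hg : g ∈ DD y K) (hfx : f x = m) (hgx : g x = m) : f = g := by
  rw [← sub_eq_zero]
  apply htot
  intro i
  have hfg : (f - g) (y i) = f (y i) - g (y i) := rfl
  rw [hfg, sub_eq_zero]
  obtain ⟨h1, h2⟩ := uniq_aux hconv hR hc0 hm hmax hf hg hfx hgx
  set h : StrongDual ℝ X := (1 / 2 : ℝ) • (f + g) with hh
  by_cases hi : h (y i) = 0
  · have hhx : h x = m := by
      have : h x = (1 / 2) * (f x + g x) := rfl
      rw [this, hfx, hgx]; ring
    obtain ⟨_, h3⟩ := uniq_aux hconv hR hc0 hm hmax hf h1 hfx hhx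
    have h4 : ((1 / 2 : ℝ) • (f + h)) (y i) = (1 / 2) * (f (y i) + h (y i)) := rfl
    have h5 : h (y i) = (1 / 2) * (f (y i) + g (y i)) := rfl
    by_cases hfi : f (y i) = 0
    · rw [hi] at h5
      linarith
    · have h6 := h3 i (by rw [h4, hi]; simpa using hfi)
      rw [hi] at h6
      exact absurd h6 hfi
  · exact h2 i hi

end

end Pool.Agent.Helper871.CP
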