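import Pool.Agent.Helper871.CB8

set_option autoImplicit false

namespace Pool.Agent.Helper871.CP

open Filter Topology Set
open Pool.Agent.Helper871.NormExt

variable {X : Type} [NormedAddCommGroup X] [NormedSpace ℝ X] {ι : Type}

section

variable {y : ι → X} {K : Set (StrongDual ℝ X)} {R S : ℝ}

theorem DD_ne (hne : K.Nonempty) (hS : ∀ i, ‖y i‖ ≤ S) (hS0 : 0 ≤ S) : (DD y K).Nonempty :=
  ⟨0, DD_ball hne hS hS0 0 (by rw [norm_zero]; positivity)⟩

/-- Frechet differentiability forces small slices. -/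
theorem smulian {B : Set (StrongDual ℝ X)} (hR : ∀ f ∈ B, ‖f‖ ≤ R)
    {x : X} {f : StrongDual ℝ X} (hf : f ∈ B) (hfx : f x = supp B x)
    (hd : DifferentiableAt ℝ (supp B) x) (η : ℝ) (hη : 0 < η) :
    ∃ ρ > 0, ∀ f' ∈ B, ‖f' - f‖ ≤ (supp B x - f' x) / ρ + η := by
  obtain ⟨L, hL⟩ := hd
  have hLf : L = f := by
    have key : ∀ h, f h ≤ L h := by
      intro h
      have h1 : HasDerivAt (fun t : ℝ => supp B (x + t • h)) (L h) 0 := by
        have h2 : HasFDerivAt (supp B) L (x + (0 : ℝ) • h) := by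
          rw [zero_smul, add_zero]; exact hL
        have h3 : HasDerivAt (fun t : ℝ => x + t • h) h 0 := by
          have := ((hasDerivAt_id (0 : ℝ)).smul_const h).const_add x
          simpa using this
        exact h2.comp_hasDerivAt 0 h3
      have h2 := h1.tendsto_slope_zero_right
      refine ge_of_tendsto h2 ?_
      filter_upwards [self_mem_nhdsWithin] with t ht
      have ht' : (0 : ℝ) < t := ht
      simp only [zero_add, zero_smul, add_zero, smul_eq_mul]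
      rw [le_inv_mul_iff₀ ht']
      have h3 := le_supp R hR hf (x + t • h)
      rw [map_add, map_smul, smul_eq_mul, hfx] at h3
      linarith
    ext h
    apply le_antisymm
    · have := key (-h)
      rw [map_neg, map_neg] at this
      linarith
    · exact key h
  rw [hLf, hasFDerivAt_iff_isLittleO_nhds_zero, Asymptotics.isLittleO_iff] at hL
  have h1 := hL hη
  rw [Metric.eventually_nhds_iff_ball] at h1
  obtain ⟨ρ, hρ, h1⟩ := h1
  refine ⟨ρ / 2, by linarith, fun f' hf' => ?_⟩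
  have hsl : 0 ≤ supp B x - f' x := by linarith [le_supp R hR hf' x]
  have key : ∀ h : X, ‖h‖ = 1 → (f' - f) h ≤ (supp B x - f' x) / (ρ / 2) + η := by
    intro h hh
    have h2 : (ρ / 2) • h ∈ Metric.ball (0 : X) ρ := by
      rw [Metric.mem_ball, dist_zero_right, norm_smul, hh, Real.norm_of_nonneg (by linarith)]
      linarith
    have h3 := h1 _ h2
    rw [norm_smul, hh, Real.norm_of_nonneg (by linarith : (0 : ℝ) ≤ ρ / 2), mul_one,
      Real.norm_eq_abs] at h3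
    have h4 := (abs_le.mp h3).2
    have h5 := le_supp R hR hf' (x + (ρ / 2) • h)
    rw [map_add, map_smul, smul_eq_mul] at h5
    rw [map_smul, smul_eq_mul] at h4
    have h6 : (f' - f) h = f' h - f h := rfl
    rw [h6]
    have h7 : (ρ / 2) * (f' h - f h) ≤ (supp B x - f' x) + (ρ / 2) * η := by linarith
    have hρ2 : (0 : ℝ) < ρ / 2 := by linarith
    rw [← sub_le_iff_le_add, le_div_iff₀ hρ2]
    linarith
  apply ContinuousLinearMap.opNorm_le_of_unit_norm (by positivity)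
  intro h hh
  rw [Real.norm_eq_abs, abs_le]
  have h2 := key h hh
  have h3 := key (-h) (by rw [norm_neg, hh])
  rw [map_neg] at h3
  constructor <;> linarith

theorem not_frechet (hne : K.Nonempty) (hR : ∀ f ∈ K, ‖f‖ ≤ R) (hK : WClosed K)
    (hS : ∀ i, ‖y i‖ ≤ S) (hS0 : 0 ≤ S) {c : ℝ} (hc : 0 < c)
    (hnp : ∀ u ∈ K, ∀ F : Finset X, ∀ δ : ℝ, 0 < δ →
      ∃ u' ∈ K, (∀ v ∈ F, |u' v - u v| < δ) ∧ c ≤ ‖u' - u‖)
    (hU : ∀ u ∈ K, ∀ δ : ℝ, 0 < δ → ∃ F : Finset X, ∃ δ' : ℝ, 0 < δ' ∧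
      ∀ u' ∈ K, (∀ v ∈ F, |u' v - u v| < δ') → ∀ i, |u' (y i) - u (y i)| ≤ δ)
    {x : X} (hx : x ≠ 0) : ¬ DifferentiableAt ℝ (supp (DD y K)) x := by
  intro hd
  have hRD := DD_bdd (y := y) hR
  have hpos : 0 < supp (DD y K) x := by
    have h1 := norm_le_supp (2 * R + 1) hRD (1 / (2 * (S + 1))) (by positivity)
      (DD_ball hne hS hS0) x
    have h2 : 0 < ‖x‖ := norm_pos_iff.mpr hx
    have h3 : 0 < 1 / (2 * (S + 1)) * ‖x‖ := by positivity
    linarith
  obtain ⟨f, hf, hfmax⟩ := exists_max (DD_wclosed hK hR) (2 * R + 1) hRD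
    (DD_ne (y := y) hne hS hS0) x
  have hfx : f x = supp (DD y K) x :=
    le_antisymm (le_supp _ hRD hf x) (supp_le (DD_ne hne hS hS0) hfmax)
  obtain ⟨t, ht, g₁, hg₁, g₂, hg₂, b, hb, hfr, hfA⟩ := hf
  have hf : f ∈ DD y K := ⟨t, ht, g₁, hg₁, g₂, hg₂, b, hb, hfr, hfA⟩
  have ht1 : t ≤ 1 := DD_t_le hfA ht
  have htpos : 0 < t := by
    rcases ht.lt_or_eq with h | h
    · exact h
    · exfalso
      rw [hfr, ← h, zero_smul] at hfx
      have : (0 : StrongDual ℝ X) x = 0 := rfl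
      rw [this] at hfx
      linarith
  have hR0 : 0 ≤ R := (norm_nonneg _).trans (hR _ hg₁)
  obtain ⟨ρ, hρ, hsm⟩ := smulian hRD hf hfx hd (t * c / 4) (by positivity)
  set M : ℝ := 2 * ((2 * R + 1) * S) + 1 with hM
  have hM0 : 0 < M := by positivity
  set s₀ := supp (DD y K) x with hs₀
  -- choose δ
  obtain ⟨δ, hδ0, hδ1, hδ2⟩ : ∃ δ : ℝ, 0 < δ ∧ δ ≤ 1 ∧
      (2 * M * δ) * (2 * R + 1) + ((2 * M * δ) * s₀ + δ) / ρ < t * c / 2 := by
    have h1 : Continuous fun δ : ℝ => (2 * M * δ) * (2 * R + 1) + ((2 * M * δ) * s₀ + δ) / ρ := by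
      fun_prop
    have h2 : Tendsto (fun δ : ℝ => (2 * M * δ) * (2 * R + 1) + ((2 * M * δ) * s₀ + δ) / ρ)
        (𝓝[>] 0) (𝓝 0) := by
      have := (h1.tendsto 0).mono_left (nhdsWithin_le_nhds (s := Ioi 0))
      simpa using this
    have h3 := h2.eventually_lt_const (show (0 : ℝ) < t * c / 2 by positivity)
    obtain ⟨δ, ⟨h4, h5⟩, h6⟩ := ((h3.and (Ioo_mem_nhdsGT (show (0 : ℝ) < 1 by norm_num))).and
      self_mem_nhdsWithin).exists
    exact ⟨δ, h6, h5.2.le, h4⟩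
  obtain ⟨F, δ', hδ', hF⟩ := hU g₁ hg₁ δ hδ0
  classical
  obtain ⟨u, huK, hu1, hu2⟩ := hnp g₁ hg₁ (insert x F) (min δ δ') (lt_min hδ0 hδ')
  have hux : |u x - g₁ x| ≤ δ :=
    ((hu1 x (Finset.mem_insert_self _ _)).trans_le (min_le_left _ _)).le
  have huy : ∀ i, |u (y i) - g₁ (y i)| ≤ δ := hF u huK (fun v hv =>
    (hu1 v (Finset.mem_insert_of_mem hv)).trans_le (min_le_right _ _))
  set f' : StrongDual ℝ X := t • (u - g₂ + b) with hf'
  have hf'v : ∀ v, f' v = f v + t * (u v - g₁ v) := by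
    intro v
    have h1 : f' v = t * (u v - g₂ v + b v) := rfl
    have h2 : f v = t * (g₁ v - g₂ v + b v) := by rw [hfr]; rfl
    rw [h1, h2]; ring
  set κ := 2 * M * δ with hκ
  have hκ0 : 0 < κ := by positivity
  have hθ : ∀ A, Ad A → th y t A f' ≤ 1 + κ := by
    intro A hA
    have h1 := hfA A hA
    have h2 : ∑ p ∈ A, ((1 / 2) ^ p.1 * f' (y p.2)) ^ 2 ≤
        ∑ p ∈ A, ((1 / 2) ^ p.1 * f (y p.2)) ^ 2 + ∑ p ∈ A, (1 / 4 : ℝ) ^ p.1 * (M * δ) := by
      rw [← Finset.sum_add_distrib]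
      apply Finset.sum_le_sum
      intro p _
      rw [sq_term, sq_term, ← mul_add]
      apply mul_le_mul_of_nonneg_left _ (by positivity)
      rw [hf'v]
      have h3 : |f (y p.2)| ≤ (2 * R + 1) * S := by
        calc |f (y p.2)| = ‖f (y p.2)‖ := rfl
          _ ≤ ‖f‖ * ‖y p.2‖ := f.le_opNorm _
          _ ≤ (2 * R + 1) * S := by
            gcongr
            · exact hRD f hf
            · exact hS _
      have h4 : |t * (u (y p.2) - g₁ (y p.2))| ≤ δ := by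
        rw [abs_mul, abs_of_pos htpos]
        have h5 := huy p.2
        have h6 := abs_nonneg (u (y p.2) - g₁ (y p.2))
        nlinarith
      set α := f (y p.2)
      set β := t * (u (y p.2) - g₁ (y p.2))
      have h7 : α * β ≤ (2 * R + 1) * S * δ := by
        calc α * β ≤ |α * β| := le_abs_self _
          _ = |α| * |β| := abs_mul _ _
          _ ≤ (2 * R + 1) * S * δ := mul_le_mul h3 h4 (abs_nonneg _) (by positivity)
      have h8 : β ^ 2 ≤ δ := by
        rw [← sq_abs]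
        nlinarith [abs_nonneg β]
      have h9 : M * δ = 2 * ((2 * R + 1) * S * δ) + δ := by rw [hM]; ring
      rw [h9]
      nlinarith
    rw [← Finset.sum_mul] at h2
    have h3 := sum_weights A hA
    have h4 : (∑ p ∈ A, (1 / 4 : ℝ) ^ p.1) * (M * δ) ≤ 2 * (M * δ) :=
      mul_le_mul_of_nonneg_right h3 (by positivity)
    unfold th at h1 ⊢
    have h5 : κ = 2 * (M * δ) := by rw [hκ]; ring
    linarith
  set τ := 1 / (1 + κ) with hτ
  have hτ0 : 0 < τ := by positivity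
  have hτ1 : τ ≤ 1 := by
    rw [hτ, div_le_one (by positivity)]; linarith
  have hτκ : τ * (1 + κ) = 1 := by rw [hτ]; field_simp
  have h1τ : 1 - τ ≤ κ := by nlinarith
  have hf'' : τ • f' ∈ DD y K := by
    apply DD_scale ht huK hg₂ hb hf' hτ0.le
    intro A hA
    have h1 := hθ A hA
    have h2 : τ ^ 2 * th y t A f' ≤ τ ^ 2 * (1 + κ) := mul_le_mul_of_nonneg_left h1 (by positivity)
    have h3 : τ ^ 2 * (1 + κ) = τ := by
      rw [pow_two, mul_assoc, hτκ, mul_one]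
    linarith
  have h1 := hsm _ hf''
  have hf''x : s₀ - (τ • f') x ≤ κ * s₀ + δ := by
    have h2 : (τ • f') x = τ * (f x + t * (u x - g₁ x)) := by
      rw [← hf'v]; rfl
    rw [h2, hfx]
    have h3 : |t * (u x - g₁ x)| ≤ δ := by
      rw [abs_mul, abs_of_pos htpos]
      have h6 := abs_nonneg (u x - g₁ x)
      nlinarith
    have h4 := (abs_le.mp h3).1
    have h5 : τ * (s₀ + t * (u x - g₁ x)) ≥ τ * s₀ - δ := by nlinarith
    nlinarith
  have h2 : ‖f' - f‖ ≤ ‖τ • f' - f‖ + κ * (2 * R + 1) := by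
    have h3 : f' - f = (τ • f' - f) + (1 - τ) • f' := by
      ext v
      change f' v - f v = (τ * f' v - f v) + (1 - τ) * f' v
      ring
    have h4 : ‖(1 - τ) • f'‖ ≤ κ * (2 * R + 1) := by
      rw [norm_smul, Real.norm_of_nonneg (by linarith)]
      have h5 : ‖f'‖ ≤ 2 * R + 1 := by
        rw [hf', norm_smul, Real.norm_of_nonneg ht]
        have h6 := DD_norm_rep hR huK hg₂ hb
        have h7 := norm_nonneg (u - g₂ + b)
        nlinarith
      exact mul_le_mul h1τ h5 (norm_nonneg _) hκ0.le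
    calc ‖f' - f‖ = ‖(τ • f' - f) + (1 - τ) • f'‖ := by rw [← h3]
      _ ≤ _ := norm_add_le _ _
      _ ≤ _ := by linarith
  have h3 : t * c ≤ ‖f' - f‖ := by
    have h4 : f' - f = t • (u - g₁) := by
      ext v
      have h5 : (f' - f) v = f' v - f v := rfl
      have h6 : (t • (u - g₁)) v = t * (u v - g₁ v) := rfl
      rw [h5, h6, hf'v]; ring
    rw [h4, norm_smul, Real.norm_of_nonneg ht]
    exact mul_le_mul_of_nonneg_left hu2 ht
  have h4 : (s₀ - (τ • f') x) / ρ ≤ (κ * s₀ + δ) / ρ := by gcongr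
  have h5 : 0 < t * c := by positivity
  linarith

/-- The new norm is an equivalent Gateaux smooth norm without points of Frechet smoothness. -/
theorem good_norm (hne : K.Nonempty) (hconv : Convex ℝ K) (hR : ∀ f ∈ K, ‖f‖ ≤ R)
    (hK : WClosed K) (hS : ∀ i, ‖y i‖ ≤ S) (hS0 : 0 ≤ S)
    (hc0 : ∀ (f : StrongDual ℝ X) (ε : ℝ), 0 < ε → {i | ε ≤ |f (y i)|}.Finite)
    (htot : ∀ f : StrongDual ℝ X, (∀ i, f (y i) = 0) → f = 0) {c : ℝ} (hc : 0 < c)
    (hnp : ∀ u ∈ K, ∀ F : Finset X, ∀ δ : ℝ, 0 < δ →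
      ∃ u' ∈ K, (∀ v ∈ F, |u' v - u v| < δ) ∧ c ≤ ‖u' - u‖)
    (hU : ∀ u ∈ K, ∀ δ : ℝ, 0 < δ → ∃ F : Finset X, ∃ δ' : ℝ, 0 < δ' ∧
      ∀ u' ∈ K, (∀ v ∈ F, |u' v - u v| < δ') → ∀ i, |u' (y i) - u (y i)| ≤ δ) :
    ∃ N : X → ℝ,
      (∀ x y : X, N (x + y) ≤ N x + N y) ∧
      (∀ (c : ℝ) (x : X), N (c • x) = |c| * N x) ∧
      (∃ a b : ℝ, 0 < a ∧ 0 < b ∧ ∀ x : X, a * ‖x‖ ≤ N x ∧ N x ≤ b * ‖x‖) ∧
      (∀ x : X, x ≠ 0 → ∃ L : X →L[ℝ] ℝ, ∀ v : X, HasLineDerivAt ℝ N (L v) x v) ∧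
      (∀ x : X, x ≠ 0 → ¬ DifferentiableAt ℝ N x) := by
  have hRD := DD_bdd (y := y) hR
  have hR0 : 0 ≤ R := by
    obtain ⟨g, hg⟩ := hne
    exact (norm_nonneg _).trans (hR _ hg)
  have hDne := DD_ne (y := y) hne hS hS0
  have hcl := DD_wclosed (y := y) hK hR
  have hlo := norm_le_supp (2 * R + 1) hRD (1 / (2 * (S + 1))) (by positivity)
      (DD_ball hne hS hS0)
  refine ⟨supp (DD y K), supp_add _ hRD hDne, supp_smul _ hRD hDne DD_neg,
    ⟨1 / (2 * (S + 1)), 2 * R + 1, by positivity, by positivity, fun x =>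
      ⟨hlo x, supp_le_norm _ hRD hDne x⟩⟩, ?_, fun x hx => not_frechet hne hR hK hS hS0 hc hnp hU hx⟩
  intro x hx
  have hpos : 0 < supp (DD y K) x := by
    have h2 : 0 < ‖x‖ := norm_pos_iff.mpr hx
    have h3 : 0 < 1 / (2 * (S + 1)) * ‖x‖ := by positivity
    linarith [hlo x]
  obtain ⟨f, hf, hfmax⟩ := exists_max hcl (2 * R + 1) hRD hDne x
  have hfx : f x = supp (DD y K) x :=
    le_antisymm (le_supp _ hRD hf x) (supp_le hDne hfmax)
  refine ⟨f, fun v => ?_⟩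
  exact supp_gateaux hcl (2 * R + 1) hRD hDne x f hf hfx (fun g hg hgx =>
    uniq hconv hR hc0 htot hpos (fun f hf => le_supp _ hRD hf x) hg hf hgx hfx) v

end

end Pool.Agent.Helper871.CP
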