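import Mathlib

set_option autoImplicit false

namespace Pool.Agent.Helper871.CP

open Filter Topology Set

/-- Ekeland's variational principle for continuous functions. -/
theorem ekeland {X : Type} [MetricSpace X] [CompleteSpace X] (φ : X → ℝ) (hφ : Continuous φ)
    (m : ℝ) (hm : ∀ x, m ≤ φ x) (δ : ℝ) (hδ : 0 < δ) (x₀ : X) :
    ∃ y, φ y + δ * dist y x₀ ≤ φ x₀ ∧ ∀ x, φ y ≤ φ x + δ * dist x y := by
  set S : X → Set X := fun x => {z | φ z + δ * dist z x ≤ φ x} with hS
  have hself : ∀ x, x ∈ S x := fun x => by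
    simp only [hS, Set.mem_ofPred_eq, dist_self, mul_zero, add_zero, le_refl]
  have htrans : ∀ x z w, z ∈ S x → w ∈ S z → w ∈ S x := by
    intro x z w hz hw
    simp only [hS, Set.mem_ofPred_eq] at hz hw ⊢
    have := dist_triangle w z x
    nlinarith [mul_le_mul_of_nonneg_left this hδ.le]
  have hclosed : ∀ x, IsClosed (S x) := fun x =>
    isClosed_le (hφ.add (continuous_const.mul (continuous_id.dist continuous_const)))
      continuous_const
  have hnext : ∀ (x : X) (n : ℕ), ∃ z ∈ S x, ∀ w ∈ S x, φ z ≤ φ w + (1 / 2) ^ n := by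
    intro x n
    have hb : BddBelow (φ '' S x) := ⟨m, by rintro _ ⟨w, _, rfl⟩; exact hm w⟩
    have hne : (φ '' S x).Nonempty := ⟨_, x, hself x, rfl⟩
    obtain ⟨_, ⟨z, hz, rfl⟩, hlt⟩ := Real.lt_sInf_add_pos hne
      (show (0 : ℝ) < (1 / 2) ^ n by positivity)
    refine ⟨z, hz, fun w hw => ?_⟩
    have := csInf_le hb ⟨w, hw, rfl⟩
    linarith
  choose nxt hn1 hn2 using hnext
  let u : ℕ → X := fun n => Nat.rec x₀ (fun n x => nxt x n) n
  have hu : ∀ n, u (n + 1) = nxt (u n) n := fun n => rfl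
  have hmem : ∀ n k, u (n + k) ∈ S (u n) := by
    intro n k
    induction k with
    | zero => exact hself _
    | succ k ih =>
      refine htrans _ _ _ ih ?_
      have : u (n + (k + 1)) = nxt (u (n + k)) (n + k) := hu (n + k)
      rw [this]; exact hn1 _ _
  have hsmall : ∀ n, ∀ w ∈ S (u (n + 1)), dist w (u (n + 1)) ≤ (1 / δ) * (1 / 2) ^ n := by
    intro n w hw
    have h1 : w ∈ S (u n) := htrans _ _ _ (hmem n 1) hw
    have h2 := hn2 (u n) n w h1
    rw [← hu] at h2
    have h3 : φ w + δ * dist w (u (n + 1)) ≤ φ (u (n + 1)) := hw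
    rw [div_mul_eq_mul_div, one_mul, le_div_iff₀ hδ]
    linarith
  have hcauchy : CauchySeq (fun n => u (n + 1)) := by
    apply cauchySeq_of_le_geometric (1 / 2) (1 / δ) (by norm_num)
    intro n
    rw [dist_comm]
    exact hsmall n _ (hmem (n + 1) 1)
  obtain ⟨y, hy⟩ := cauchySeq_tendsto_of_complete hcauchy
  have hyS : ∀ n, y ∈ S (u n) := by
    intro n
    apply (hclosed (u n)).mem_of_tendsto hy
    filter_upwards [eventually_ge_atTop n] with k hk
    obtain ⟨j, rfl⟩ := Nat.exists_eq_add_of_le hk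
    have := hmem n (j + 1)
    rwa [← add_assoc] at this
  refine ⟨y, hyS 0, fun x => ?_⟩
  by_cases hx : x ∈ S y
  · have h1 : ∀ n, φ (u (n + 1)) ≤ φ x + (1 / 2) ^ n := by
      intro n
      rw [hu]
      exact hn2 _ _ _ (htrans _ _ _ (hyS n) hx)
    have h2 : Tendsto (fun n => φ (u (n + 1))) atTop (𝓝 (φ y)) := (hφ.tendsto y).comp hy
    have h3 : Tendsto (fun n : ℕ => φ x + (1 / 2 : ℝ) ^ n) atTop (𝓝 (φ x + 0)) :=
      tendsto_const_nhds.add (tendsto_pow_atTop_nhds_zero_of_lt_one (by norm_num) (by norm_num))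
    have h4 := le_of_tendsto_of_tendsto' h2 h3 h1
    have h5 : 0 ≤ δ * dist x y := mul_nonneg hδ.le dist_nonneg
    linarith
  · have : φ y < φ x + δ * dist x y := by
      by_contra hcon
      push Not at hcon
      exact hx hcon
    exact this.le

section Convex

variable {X : Type} [NormedAddCommGroup X] [NormedSpace ℝ X]

/-- Derivative of a convex function bounds the increments. -/
theorem line_le {ψ : X → ℝ} (hψ : ConvexOn ℝ univ ψ) {x v : X} {l : ℝ}
    (h : HasLineDerivAt ℝ ψ l x v) : l ≤ ψ (x + v) - ψ x := by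
  have h1 : HasDerivAt (fun t : ℝ => ψ (x + t • v)) l 0 := h
  have h2 := h1.tendsto_slope_zero_right
  refine le_of_tendsto h2 ?_
  filter_upwards [Ioo_mem_nhdsGT (show (0 : ℝ) < 1 by norm_num)] with t ht
  have h3 := hψ.2 (mem_univ x) (mem_univ (x + v)) (show (0 : ℝ) ≤ 1 - t by linarith [ht.2])
    ht.1.le (by ring)
  have h4 : (1 - t) • x + t • (x + v) = x + t • v := by
    rw [smul_add, sub_smul, one_smul]; abel
  rw [h4, smul_eq_mul, smul_eq_mul] at h3
  simp only [zero_add, zero_smul, add_zero, smul_eq_mul]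
  rw [inv_mul_le_iff₀ ht.1]
  nlinarith [ht.1]

/-- The difference quotient is eventually close to the derivative. -/
theorem line_upper {ψ : X → ℝ} {x v : X} {l : ℝ} (h : HasLineDerivAt ℝ ψ l x v) (η : ℝ)
    (hη : 0 < η) : ∃ s : ℝ, 0 < s ∧ ψ (x + s • v) - ψ x ≤ s * (l + η) := by
  have h1 : HasDerivAt (fun t : ℝ => ψ (x + t • v)) l 0 := h
  have h2 := h1.tendsto_slope_zero_right
  have h3 : ∀ᶠ t in 𝓝[>] (0 : ℝ), t⁻¹ • (ψ (x + (0 + t) • v) - ψ (x + (0 : ℝ) • v)) < l + η :=
    h2.eventually_lt_const (by linarith)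
  obtain ⟨t, h4, h5⟩ := (h3.and self_mem_nhdsWithin).exists
  have h5' : (0 : ℝ) < t := h5
  refine ⟨t, h5', ?_⟩
  simp only [zero_add, zero_smul, add_zero, smul_eq_mul] at h4
  rw [inv_mul_lt_iff₀ h5'] at h4
  exact h4.le

/-- Subgradient inequality. -/
def Sub (ψ : X → ℝ) (y : X) (g : X →L[ℝ] ℝ) : Prop := ∀ x, g (x - y) ≤ ψ x - ψ y

theorem sub_of_line {ψ : X → ℝ} (hψ : ConvexOn ℝ univ ψ) {y : X} {g : X →L[ℝ] ℝ}
    (h : ∀ v, HasLineDerivAt ℝ ψ (g v) y v) : Sub ψ y g := by
  intro x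
  have := line_le hψ (h (x - y))
  rwa [add_sub_cancel] at this

/-- Upper semicontinuity of subgradients. -/
theorem sub_near {ψ : X → ℝ} (hc : Continuous ψ) {y : X} {v : X → X} (hv : Continuous v) {l : ℝ}
    (h : HasLineDerivAt ℝ ψ l y (v y)) (η : ℝ) (hη : 0 < η) :
    ∀ᶠ y' in 𝓝 y, ∀ g : X →L[ℝ] ℝ, Sub ψ y' g → g (v y') ≤ l + η := by
  obtain ⟨s, hs, h1⟩ := line_upper h (η / 2) (by linarith)
  have h2 : Continuous fun y' => ψ (y' + s • v y') - ψ y' :=
    (hc.comp (continuous_id.add (continuous_const.smul hv))).sub hc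
  have h3 : ψ (y + s • v y) - ψ y < s * (l + η) := by nlinarith
  filter_upwards [(h2.tendsto y).eventually_lt_const h3] with y' hy' g hg
  have h4 := hg (y' + s • v y')
  rw [add_sub_cancel_left, map_smul, smul_eq_mul] at h4
  by_contra hcon
  push Not at hcon
  nlinarith

end Convex

end Pool.Agent.Helper871.CP
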