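import Pool.Agent.Helper871.CP1

set_option autoImplicit false

namespace Pool.Agent.Helper871.CP

open Filter Topology Set

variable {X : Type} [NormedAddCommGroup X] [NormedSpace ℝ X]

/-- An equivalent norm. -/
structure EN (N : X → ℝ) (a b : ℝ) : Prop where
  add : ∀ x y, N (x + y) ≤ N x + N y
  smul : ∀ (c : ℝ) x, N (c • x) = |c| * N x
  a_pos : 0 < a
  b_pos : 0 < b
  lo : ∀ x, a * ‖x‖ ≤ N x
  hi : ∀ x, N x ≤ b * ‖x‖

namespace EN

variable {N : X → ℝ} {a b : ℝ} (h : EN N a b)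
include h

theorem zero : N 0 = 0 := by
  have := h.smul 0 0
  simpa using this

theorem neg (x : X) : N (-x) = N x := by
  have := h.smul (-1) x
  simpa using this

theorem nonneg (x : X) : 0 ≤ N x := (mul_nonneg h.a_pos.le (norm_nonneg x)).trans (h.lo x)

theorem lip (x y : X) : N x ≤ N y + b * ‖x - y‖ := by
  have h1 := h.add y (x - y)
  rw [add_sub_cancel] at h1
  linarith [h.hi (x - y)]

theorem cont : Continuous N := by
  have : LipschitzWith ⟨b, h.b_pos.le⟩ N := by
    apply LipschitzWith.of_dist_le_mul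
    intro x y
    rw [Real.dist_eq, dist_eq_norm, abs_le]
    have h1 := h.lip x y
    have h2 := h.lip y x
    rw [norm_sub_rev] at h2
    constructor
    · change -(b * ‖x - y‖) ≤ _
      linarith
    · change _ ≤ b * ‖x - y‖
      linarith
  exact this.continuous

theorem conv_le (x y : X) (s : ℝ) (h0 : 0 ≤ s) (h1 : s ≤ 1) :
    N ((1 - s) • x + s • y) ≤ (1 - s) * N x + s * N y := by
  have h2 := h.add ((1 - s) • x) (s • y)
  rw [h.smul, h.smul, abs_of_nonneg h0, abs_of_nonneg (by linarith : (0 : ℝ) ≤ 1 - s)] at h2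
  exact h2

theorem convexOn : ConvexOn ℝ univ N := by
  refine ⟨convex_univ, fun x _ y _ α β hα hβ hαβ => ?_⟩
  have h2 := h.add (α • x) (β • y)
  rw [h.smul, h.smul, abs_of_nonneg hα, abs_of_nonneg hβ] at h2
  exact h2

end EN

/-- The localized norm. -/
def psi (N : X → ℝ) (x₀ : X) (x : X) : ℝ := N x + N (x - x₀) ^ 2

section Psi

variable {N : X → ℝ} {a b : ℝ} (h : EN N a b) (x₀ : X)
include h

theorem psi_cont : Continuous (psi N x₀) :=
  h.cont.add ((h.cont.comp (continuous_id.sub continuous_const)).pow 2)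

theorem q_conv : ConvexOn ℝ univ (fun x => N (x - x₀) ^ 2) := by
  have h1 : ConvexOn ℝ univ (fun x => N (x - x₀)) := by
    refine ⟨convex_univ, fun x _ y _ α β hα hβ hαβ => ?_⟩
    have h2 := h.add (α • (x - x₀)) (β • (y - x₀))
    rw [h.smul, h.smul, abs_of_nonneg hα, abs_of_nonneg hβ] at h2
    have h3 : α • (x - x₀) + β • (y - x₀) = α • x + β • y - x₀ := by
      have : x₀ = α • x₀ + β • x₀ := by rw [← add_smul, hαβ, one_smul]
      nth_rw 3 [this]
      rw [smul_sub, smul_sub]; abel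
    rw [h3] at h2
    exact h2
  exact h1.pow (fun x _ => h.nonneg _) 2

theorem psi_conv : ConvexOn ℝ univ (psi N x₀) := h.convexOn.add (q_conv h x₀)

theorem psi_self : psi N x₀ x₀ = N x₀ := by
  unfold psi; rw [sub_self, h.zero]; ring

theorem psi_line (hg : ∀ x : X, x ≠ 0 → ∃ L : X →L[ℝ] ℝ, ∀ v : X, HasLineDerivAt ℝ N (L v) x v)
    {y : X} (hy : y ≠ 0) : ∃ g : X →L[ℝ] ℝ, ∀ v, HasLineDerivAt ℝ (psi N x₀) (g v) y v := by
  obtain ⟨L, hL⟩ := hg y hy
  by_cases hyx : y = x₀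
  · refine ⟨L, fun v => ?_⟩
    have h1 : HasDerivAt (fun t : ℝ => N (y + t • v)) (L v) 0 := hL v
    have h2 : HasDerivAt (fun t : ℝ => t ^ 2 * N v ^ 2) 0 0 := by
      have := (hasDerivAt_pow 2 (0 : ℝ)).mul_const (N v ^ 2)
      simpa using this
    have h3 := h1.add h2
    change HasDerivAt (fun t : ℝ => psi N x₀ (y + t • v)) (L v) 0
    rw [add_zero] at h3
    refine h3.congr_of_eventuallyEq (Eventually.of_forall fun t => ?_)
    simp only [psi, Pi.add_apply]
    rw [hyx, add_sub_cancel_left, h.smul, mul_pow, sq_abs]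
  · obtain ⟨L', hL'⟩ := hg (y - x₀) (sub_ne_zero.mpr hyx)
    refine ⟨L + (2 * N (y - x₀)) • L', fun v => ?_⟩
    have h1 : HasDerivAt (fun t : ℝ => N (y + t • v)) (L v) 0 := hL v
    have h2 : HasDerivAt (fun t : ℝ => N (y - x₀ + t • v)) (L' v) 0 := hL' v
    have h3 := h1.add (h2.pow 2)
    change HasDerivAt (fun t : ℝ => psi N x₀ (y + t • v)) _ 0
    have h4 : (L + (2 * N (y - x₀)) • L') v =
        L v + (2 : ℕ) * N (y - x₀ + (0 : ℝ) • v) ^ (2 - 1) * L' v := by
      rw [zero_smul, add_zero]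
      simp
    rw [h4]
    refine h3.congr_of_eventuallyEq (Eventually.of_forall fun t => ?_)
    simp only [psi, Pi.add_apply, Pi.pow_apply]
    rw [show y + t • v - x₀ = y - x₀ + t • v by abel]

end Psi

/-- Points of small uniform second difference. -/
def Osc (N : X → ℝ) (ε : ℝ) : Set X :=
  {x | ∃ ρ > 0, ∃ ε' < ε, ∀ k : X, ‖k‖ ≤ ρ → N (x + k) + N (x - k) - 2 * N x ≤ ε' * ρ}

theorem osc_open {N : X → ℝ} {a b : ℝ} (h : EN N a b) (ε : ℝ) : IsOpen (Osc N ε) := by
  rw [Metric.isOpen_iff]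
  rintro x ⟨ρ, hρ, ε', hε', hx⟩
  set ε'' := (ε' + ε) / 2 with hε''
  have h1 : 0 < (ε'' - ε') * ρ := mul_pos (by rw [hε'']; linarith) hρ
  have hb := h.b_pos
  refine ⟨(ε'' - ε') * ρ / (4 * b), by positivity, fun y hy => ?_⟩
  rw [Metric.mem_ball, dist_eq_norm, lt_div_iff₀ (by positivity)] at hy
  refine ⟨ρ, hρ, ε'', by rw [hε'']; linarith, fun k hk => ?_⟩
  have h2 := hx k hk
  have h3 := h.lip (y + k) (x + k)
  have h4 := h.lip (y - k) (x - k)
  have h5 := h.lip x y
  rw [add_sub_add_right_eq_sub] at h3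
  rw [sub_sub_sub_cancel_right] at h4
  rw [norm_sub_rev] at h5
  nlinarith

end Pool.Agent.Helper871.CP
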