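import Pool.Agent.Helper871.CP2

set_option autoImplicit false

namespace Pool.Agent.Helper871.CP

open Filter Topology Set

variable {X : Type} [NormedAddCommGroup X] [NormedSpace ℝ X]

/-- The convex point of continuity property of the dual, as in the frozen statement. -/
def CPCP (X : Type) [NormedAddCommGroup X] [NormedSpace ℝ X] : Prop :=
  ∀ C : Set (X →L[ℝ] ℝ), C.Nonempty → Convex ℝ C → Bornology.IsBounded C →
    (∀ y : X →L[ℝ] ℝ, y ∉ C → ∃ F : Finset X, ∃ δ : ℝ, 0 < δ ∧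
        ∀ z : X →L[ℝ] ℝ, (∀ v ∈ F, |z v - y v| < δ) → z ∉ C) →
    ∃ x ∈ C, ∀ ε : ℝ, 0 < ε → ∃ F : Finset X, ∃ δ : ℝ, 0 < δ ∧
      ∀ y ∈ C, (∀ v ∈ F, |y v - x v| < δ) → ‖y - x‖ < ε

theorem dense_step [CompleteSpace X] {N : X → ℝ} {a b : ℝ} (h : EN N a b)
    (hg : ∀ x : X, x ≠ 0 → ∃ L : X →L[ℝ] ℝ, ∀ v : X, HasLineDerivAt ℝ N (L v) x v)
    (hP : CPCP X) (x₀ : X) (hx₀ : x₀ ≠ 0) (r : ℝ) (hr : 0 < r) (hrx : r ≤ ‖x₀‖) (ε : ℝ)
    (hε : 0 < ε) : ∃ y, ‖y - x₀‖ < r ∧ y ∈ Osc N ε := by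
  have ha := h.a_pos
  have hb := h.b_pos
  set ψ := psi N x₀ with hψ
  have hψc : Continuous ψ := psi_cont h x₀
  have hψconv : ConvexOn ℝ univ ψ := psi_conv h x₀
  have hψ₀ : ψ x₀ = N x₀ := psi_self h x₀
  have hNψ : ∀ x, N x ≤ ψ x := fun x => by
    rw [hψ]; unfold psi; nlinarith [sq_nonneg (N (x - x₀))]
  set γ := a ^ 2 * r ^ 2 / 8 with hγ
  have hγ0 : 0 < γ := by positivity
  obtain ⟨d₀, hd₀⟩ := hg x₀ hx₀
  have hd₀s : Sub N x₀ d₀ := sub_of_line h.convexOn hd₀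
  have hd₀ψ : ∀ x, d₀ (x - x₀) ≤ ψ x - ψ x₀ := fun x => by
    have := hd₀s x
    rw [hψ₀]
    linarith [hNψ x]
  set C : Set (X →L[ℝ] ℝ) := {f | ∀ x, f (x - x₀) ≤ ψ x - ψ x₀ + γ} with hC
  have hCne : C.Nonempty := ⟨d₀, fun x => by linarith [hd₀ψ x]⟩
  have hCconv : Convex ℝ C := by
    intro f hf g hg α β hα hβ hαβ x
    have h1 := mul_le_mul_of_nonneg_left (hf x) hα
    have h2 := mul_le_mul_of_nonneg_left (hg x) hβ
    have h3 : (α • f + β • g) (x - x₀) = α * f (x - x₀) + β * g (x - x₀) := rfl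
    rw [h3]
    have h4 : (α + β) * (ψ x - ψ x₀ + γ) = ψ x - ψ x₀ + γ := by rw [hαβ, one_mul]
    linarith
  have hCb : Bornology.IsBounded C := by
    rw [isBounded_iff_forall_norm_le]
    refine ⟨b + b ^ 2 + γ, fun f hf => ?_⟩
    apply ContinuousLinearMap.opNorm_le_of_unit_norm (by positivity)
    have key : ∀ k : X, ‖k‖ = 1 → f k ≤ b + b ^ 2 + γ := by
      intro k hk
      have h1 := hf (x₀ + k)
      rw [add_sub_cancel_left, hψ₀, hψ] at h1
      unfold psi at h1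
      rw [add_sub_cancel_left] at h1
      have h2 := h.add x₀ k
      have h3 := h.hi k
      rw [hk, mul_one] at h3
      have h4 : N k ^ 2 ≤ b ^ 2 := pow_le_pow_left₀ (h.nonneg k) h3 2
      linarith
    intro k hk
    rw [Real.norm_eq_abs, abs_le]
    have h1 := key k hk
    have h2 := key (-k) (by rw [norm_neg, hk])
    rw [map_neg] at h2
    constructor <;> linarith
  have hCcl : ∀ y : X →L[ℝ] ℝ, y ∉ C → ∃ F : Finset X, ∃ δ : ℝ, 0 < δ ∧
        ∀ z : X →L[ℝ] ℝ, (∀ v ∈ F, |z v - y v| < δ) → z ∉ C := by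
    intro y hy
    simp only [hC, Set.mem_ofPred_eq, not_forall, not_le] at hy
    obtain ⟨x, hx⟩ := hy
    refine ⟨{x - x₀}, y (x - x₀) - (ψ x - ψ x₀ + γ), by linarith, fun z hz hzC => ?_⟩
    have h1 := hz (x - x₀) (Finset.mem_singleton_self _)
    have h2 := hzC x
    rw [abs_lt] at h1
    linarith [h1.1]
  obtain ⟨f, hfC, hf⟩ := hP C hCne hCconv hCb hCcl
  obtain ⟨F, δW, hδW, hfW⟩ := hf (ε / 8) (by linarith)
  -- choice of δ
  have hev : ∀ᶠ δ in 𝓝[>] (0 : ℝ), (δ < a ^ 2 * r / 4 ∧ 2 * δ * r / γ < 1 / 2) ∧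
      ∀ v ∈ F, 2 * δ * ‖v‖ < δW / 4 ∧ (2 * δ * r / γ) * |d₀ v - f v| < δW / 4 := by
    have aux : ∀ (φ : ℝ → ℝ) (c : ℝ), Continuous φ → φ 0 = 0 → 0 < c →
        ∀ᶠ δ in 𝓝[>] (0 : ℝ), φ δ < c := by
      intro φ c hφ h0 hc
      have h1 : Tendsto φ (𝓝[>] 0) (𝓝 0) := by
        have := (hφ.tendsto 0).mono_left (nhdsWithin_le_nhds (s := Ioi 0))
        rwa [h0] at this
      exact h1.eventually_lt_const hc
    have hcont1 : Continuous fun δ : ℝ => 2 * δ * r / γ := by fun_prop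
    refine ((aux (fun δ => δ) _ continuous_id rfl (by positivity)).and
      (aux _ _ hcont1 (by simp) (by norm_num))).and ?_
    rw [Filter.eventually_all_finset]
    intro v _
    refine (aux (fun δ => 2 * δ * ‖v‖) _ (by fun_prop) (by simp) (by linarith)).and
      (aux (fun δ => (2 * δ * r / γ) * |d₀ v - f v|) _ (by fun_prop) (by simp) (by linarith))
  obtain ⟨δ, ⟨⟨hδ1, hδ2⟩, hδF⟩, hδ0⟩ := (hev.and self_mem_nhdsWithin).exists
  have hδ0' : (0 : ℝ) < δ := hδ0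
  -- Ekeland
  set φ : X → ℝ := fun x => ψ x - f x with hφ
  have hφC : ∀ x, φ x₀ - γ ≤ φ x := by
    intro x
    have := hfC x
    rw [map_sub] at this
    simp only [hφ]
    linarith
  obtain ⟨y, hy1, hy2⟩ := ekeland φ (hψc.sub f.continuous) (φ x₀ - γ) hφC δ hδ0' x₀
  -- localization
  have hyr : ‖y - x₀‖ < r := by
    by_contra hcon
    push Not at hcon
    have h1 := hy2 ((1 / 2 : ℝ) • (x₀ + y))
    have h2 : (1 / 2 : ℝ) • (x₀ + y) - y = (1 / 2 : ℝ) • (x₀ - y) := by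
      rw [smul_add, smul_sub]
      have : y = (1 / 2 : ℝ) • y + (1 / 2 : ℝ) • y := by rw [← add_smul]; norm_num
      nth_rw 2 [this]; abel
    have h2' : (1 / 2 : ℝ) • (x₀ + y) - x₀ = (1 / 2 : ℝ) • (y - x₀) := by
      rw [smul_add, smul_sub]
      have : x₀ = (1 / 2 : ℝ) • x₀ + (1 / 2 : ℝ) • x₀ := by rw [← add_smul]; norm_num
      nth_rw 2 [this]; abel
    rw [dist_eq_norm, h2, norm_smul, Real.norm_of_nonneg (by norm_num)] at h1
    simp only [hφ, hψ] at h1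
    unfold psi at h1
    rw [h2', h.smul (1 / 2) (y - x₀), map_smul, map_add, smul_eq_mul] at h1
    have h3 := h.conv_le x₀ y (1 / 2) (by norm_num) (by norm_num)
    rw [show (1 - 1 / 2 : ℝ) • x₀ + (1 / 2 : ℝ) • y = (1 / 2 : ℝ) • (x₀ + y) by
      rw [smul_add]; norm_num] at h3
    have h4 := hφC y
    simp only [hφ, hψ] at h4
    unfold psi at h4
    rw [sub_self, h.zero] at h4
    have h5 : |(1 / 2 : ℝ)| = 1 / 2 := abs_of_nonneg (by norm_num)
    rw [h5, mul_pow] at h1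
    have h6 : a ^ 2 * ‖y - x₀‖ ^ 2 ≤ N (y - x₀) ^ 2 := by
      rw [← mul_pow]
      exact pow_le_pow_left₀ (by positivity) (h.lo _) 2
    rw [norm_sub_rev] at h1
    -- N(y-x₀)^2/2 ≤ γ + δ ‖y - x₀‖
    have h7 : N (y - x₀) ^ 2 / 2 ≤ γ + δ * ‖y - x₀‖ := by
      linarith [h1, h3, h4]
    have hs : 0 < ‖y - x₀‖ := by linarith
    have h8 : a ^ 2 * r ^ 2 ≤ a ^ 2 * ‖y - x₀‖ ^ 2 :=
      mul_le_mul_of_nonneg_left (pow_le_pow_left₀ hr.le hcon 2) (by positivity)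
    have h9 : δ * ‖y - x₀‖ < a ^ 2 * r / 4 * ‖y - x₀‖ := mul_lt_mul_of_pos_right hδ1 hs
    have h10 : a ^ 2 * r / 4 * ‖y - x₀‖ ≤ a ^ 2 * ‖y - x₀‖ ^ 2 / 4 := by
      have : r * ‖y - x₀‖ ≤ ‖y - x₀‖ ^ 2 := by nlinarith
      nlinarith [mul_le_mul_of_nonneg_left this (sq_nonneg a)]
    nlinarith [mul_pos (pow_pos ha 2) (pow_pos hs 2)]
  have hy0 : y ≠ 0 := by
    rintro rfl
    rw [zero_sub, norm_neg] at hyr
    linarith
  refine ⟨y, hyr, ?_⟩
  obtain ⟨g, hgl⟩ := psi_line h x₀ hg hy0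
  rw [← hψ] at hgl
  have hgs : Sub ψ y g := sub_of_line hψconv hgl
  have hfg : ∀ v, f v - g v ≤ δ * ‖v‖ := by
    intro v
    apply le_of_forall_pos_le_add
    intro η hη
    obtain ⟨s, hs, h1⟩ := line_upper (hgl v) η hη
    have h2 := hy2 (y + s • v)
    simp only [hφ] at h2
    rw [dist_eq_norm, add_sub_cancel_left, norm_smul, Real.norm_of_nonneg hs.le, map_add,
      map_smul, smul_eq_mul] at h2
    have h3 : s * (f v - g v) ≤ s * (δ * ‖v‖ + η) := by nlinarith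
    exact le_of_mul_le_mul_left h3 hs
  have hfg' : ∀ v, |g v - f v| ≤ δ * ‖v‖ := by
    intro v
    rw [abs_le]
    have h1 := hfg v
    have h2 := hfg (-v)
    rw [map_neg, map_neg, norm_neg] at h2
    constructor <;> linarith
  set κ := 2 * δ * r with hκ
  have hκ0 : 0 < κ := by positivity
  set t := κ / (γ + κ) with ht
  have ht0 : 0 < t := by positivity
  have htκ : t ≤ κ / γ := by
    rw [ht]
    exact div_le_div_of_nonneg_left hκ0.le hγ0 (by linarith)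
  have ht2 : t < 1 / 2 := lt_of_le_of_lt htκ hδ2
  have htγ : (1 - t) * (γ + κ) = γ := by
    rw [ht]; field_simp; ring
  -- near y
  have hnear : ∀ᶠ y' in 𝓝 y, ∀ g' : X →L[ℝ] ℝ, Sub ψ y' g' →
      ‖(1 - t) • g' + t • d₀ - f‖ < ε / 8 := by
    have e1 : ∀ᶠ y' in 𝓝 y, ∀ v ∈ F, (∀ g' : X →L[ℝ] ℝ, Sub ψ y' g' → g' v ≤ g v + δW / 8) ∧
        (∀ g' : X →L[ℝ] ℝ, Sub ψ y' g' → g' (-v) ≤ g (-v) + δW / 8) := by
      rw [Filter.eventually_all_finset]
      intro v _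
      exact (sub_near hψc (v := fun _ => v) continuous_const (hgl v) _ (by linarith)).and
        (sub_near hψc (v := fun _ => -v) continuous_const (hgl (-v)) _ (by linarith))
    have e2 : ∀ᶠ y' in 𝓝 y, ∀ g' : X →L[ℝ] ℝ, Sub ψ y' g' →
        g' (y' - x₀) ≤ g (y - x₀) + δ * r / 2 :=
      sub_near hψc (v := fun y' => y' - x₀) (continuous_id.sub continuous_const)
        (hgl (y - x₀)) _ (by positivity)
    have e3 : ∀ᶠ y' in 𝓝 y, ψ y - δ * r / 2 < ψ y' :=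
      (hψc.tendsto y).eventually_const_lt (by nlinarith [mul_pos hδ0' hr])
    filter_upwards [e1, e2, e3] with y' h1 h2 h3 g' hg'
    apply hfW
    · intro x
      have h4 : ((1 - t) • g' + t • d₀) (x - x₀) =
          (1 - t) * g' (x - x₀) + t * d₀ (x - x₀) := rfl
      rw [h4]
      have h5 := hg' x
      have h6 := h2 g' hg'
      have h7 : g' (x - x₀) = g' (x - y') + g' (y' - x₀) := by
        rw [← map_add]; congr 1; abel
      have h8 := hφC y
      have h9 := (le_abs_self _).trans (hfg' (y - x₀))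
      have h10 : δ * ‖y - x₀‖ ≤ δ * r := mul_le_mul_of_nonneg_left hyr.le hδ0'.le
      have h11 : g' (x - x₀) ≤ ψ x - ψ x₀ + (γ + κ) := by
        simp only [hφ] at h8
        rw [map_sub f] at h9
        rw [h7]
        linarith
      have h12 := mul_le_mul_of_nonneg_left h11 (by linarith : (0 : ℝ) ≤ 1 - t)
      have h13 := mul_le_mul_of_nonneg_left (hd₀ψ x) ht0.le
      clear_value ψ γ t κ
      linarith [h12, h13, htγ]
    · intro v hv
      obtain ⟨h4, h5⟩ := h1 v hv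
      have h6 := h4 g' hg'
      have h7 := h5 g' hg'
      rw [map_neg, map_neg] at h7
      have h8 : |g' v - g v| ≤ δW / 8 := by
        rw [abs_le]; constructor <;> linarith
      have h9 : ((1 - t) • g' + t • d₀) v - f v =
          (1 - t) * ((g' v - g v) + (g v - f v)) + t * (d₀ v - f v) := by
        have : ((1 - t) • g' + t • d₀) v = (1 - t) * g' v + t * d₀ v := rfl
        rw [this]; ring
      have h10 := hfg' v
      obtain ⟨h11, h12⟩ := hδF v hv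
      rw [h9]
      have h13 : |(g' v - g v) + (g v - f v)| ≤ δW / 8 + δ * ‖v‖ :=
        (abs_add_le _ _).trans (add_le_add h8 h10)
      have h14 : |(1 - t) * ((g' v - g v) + (g v - f v))| ≤ δW / 8 + δ * ‖v‖ := by
        rw [abs_mul, abs_of_nonneg (by linarith : (0 : ℝ) ≤ 1 - t)]
        have h16 := abs_nonneg ((g' v - g v) + (g v - f v))
        have h17 := mul_le_mul_of_nonneg_right (by linarith : 1 - t ≤ 1) h16
        linarith
      have h15 : |t * (d₀ v - f v)| ≤ κ / γ * |d₀ v - f v| := by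
        rw [abs_mul, abs_of_nonneg ht0.le]
        exact mul_le_mul_of_nonneg_right htκ (abs_nonneg _)
      calc _ ≤ |(1 - t) * ((g' v - g v) + (g v - f v))| + |t * (d₀ v - f v)| := abs_add_le _ _
        _ ≤ (δW / 8 + δ * ‖v‖) + κ / γ * |d₀ v - f v| := add_le_add h14 h15
        _ < δW := by linarith
  have hnear' : ∀ᶠ y' in 𝓝 y, y' ≠ 0 := (isOpen_ne.mem_nhds hy0)
  obtain ⟨ρ, hρ, hball⟩ := Metric.eventually_nhds_iff_ball.mp (hnear.and hnear')
  refine ⟨ρ / 2, by linarith, ε / 2, by linarith, fun k hk => ?_⟩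
  have hk1 : y + k ∈ Metric.ball y ρ := by
    rw [Metric.mem_ball, dist_eq_norm, add_sub_cancel_left]; linarith
  have hk2 : y - k ∈ Metric.ball y ρ := by
    rw [Metric.mem_ball, dist_eq_norm, sub_sub_cancel_left, norm_neg]; linarith
  obtain ⟨g₁, hg₁⟩ := psi_line h x₀ hg (hball _ hk1).2
  obtain ⟨g₂, hg₂⟩ := psi_line h x₀ hg (hball _ hk2).2
  rw [← hψ] at hg₁ hg₂
  have hs₁ := sub_of_line hψconv hg₁
  have hs₂ := sub_of_line hψconv hg₂
  have h1 := (hball _ hk1).1 g₁ hs₁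
  have h2 := (hball _ hk2).1 g₂ hs₂
  have h3 : ‖(1 - t) • (g₁ - g₂)‖ ≤ ε / 4 := by
    have : (1 - t) • (g₁ - g₂) = ((1 - t) • g₁ + t • d₀ - f) - ((1 - t) • g₂ + t • d₀ - f) := by
      rw [smul_sub]; abel
    rw [this]
    linarith [norm_sub_le ((1 - t) • g₁ + t • d₀ - f) ((1 - t) • g₂ + t • d₀ - f)]
  rw [norm_smul, Real.norm_of_nonneg (by linarith : (0 : ℝ) ≤ 1 - t)] at h3
  have h4 : ‖g₁ - g₂‖ ≤ ε / 2 := by nlinarith [norm_nonneg (g₁ - g₂)]
  have h5 := hs₁ y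
  have h6 := hs₂ y
  rw [sub_add_cancel_left, map_neg] at h5
  rw [sub_sub_cancel] at h6
  have h7 : g₁ k - g₂ k ≤ ε / 2 * ‖k‖ := by
    calc g₁ k - g₂ k = (g₁ - g₂) k := rfl
      _ ≤ ‖(g₁ - g₂) k‖ := le_abs_self _
      _ ≤ ‖g₁ - g₂‖ * ‖k‖ := (g₁ - g₂).le_opNorm k
      _ ≤ ε / 2 * ‖k‖ := by gcongr
  have h8 : 2 * N (y - x₀) ^ 2 ≤ N (y + k - x₀) ^ 2 + N (y - k - x₀) ^ 2 := by
    have hq := (q_conv h x₀).2 (mem_univ (y + k)) (mem_univ (y - k))
      (show (0 : ℝ) ≤ 1 / 2 by norm_num) (show (0 : ℝ) ≤ 1 / 2 by norm_num) (by norm_num)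
    have h9 : (1 / 2 : ℝ) • (y + k) + (1 / 2 : ℝ) • (y - k) = y := by
      rw [← smul_add, show y + k + (y - k) = (2 : ℝ) • y by rw [two_smul]; abel, smul_smul]
      norm_num
    simp only [h9, smul_eq_mul] at hq
    linarith
  have h9 : ψ (y + k) = N (y + k) + N (y + k - x₀) ^ 2 := rfl
  have h10 : ψ (y - k) = N (y - k) + N (y - k - x₀) ^ 2 := rfl
  have h11 : ψ y = N y + N (y - x₀) ^ 2 := rfl
  have h12 : ε / 2 * ‖k‖ ≤ ε / 2 * (ρ / 2) := by gcongr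
  linarith

end Pool.Agent.Helper871.CP
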