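import Mathlib
import Pool.Agent.Helper871.NormExt

set_option autoImplicit false

namespace Pool.Agent.Helper871.KK

open Filter Topology Set
open Pool.Agent.Helper871.NormExt

variable {Z : Type} [NormedAddCommGroup Z] [NormedSpace ℝ Z]

/-- The individual terms. -/
noncomputable def psi (w : ℕ → StrongDual ℝ Z) (z : ℕ → Z) (j : ℕ) (f : StrongDual ℝ Z) : ℝ :=
  (1 / 2 : ℝ) ^ j * ((‖f - w j‖ ^ 2 + ‖f + w j‖ ^ 2 - 2 * ‖w j‖ ^ 2) / (1 + ‖w j‖)
    + (f (z j)) ^ 2 / (1 + ‖z j‖) ^ 2)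

/-- The Kadec-Klee function. -/
noncomputable def Phi (w : ℕ → StrongDual ℝ Z) (z : ℕ → Z) (f : StrongDual ℝ Z) : ℝ :=
  ‖f‖ ^ 2 + ∑' j, psi w z j f

variable (w : ℕ → StrongDual ℝ Z) (z : ℕ → Z)

theorem par_nonneg (f v : StrongDual ℝ Z) : 0 ≤ ‖f - v‖ ^ 2 + ‖f + v‖ ^ 2 - 2 * ‖v‖ ^ 2 := by
  have h1 : ‖v + v‖ ≤ ‖f - v‖ + ‖f + v‖ := by
    have : v + v = (f + v) - (f - v) := by abel
    rw [this]
    calc ‖(f + v) - (f - v)‖ ≤ ‖f + v‖ + ‖f - v‖ := norm_sub_le _ _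
      _ = _ := by ring
  have h2 : ‖v + v‖ = 2 * ‖v‖ := by
    rw [← two_smul ℝ v, norm_smul]; norm_num
  rw [h2] at h1
  nlinarith [norm_nonneg v, norm_nonneg (f - v), norm_nonneg (f + v),
    sq_nonneg (‖f - v‖ - ‖f + v‖)]

theorem par_le (f v : StrongDual ℝ Z) :
    ‖f - v‖ ^ 2 + ‖f + v‖ ^ 2 - 2 * ‖v‖ ^ 2 ≤ 2 * ‖f‖ ^ 2 + 4 * ‖f‖ * ‖v‖ := by
  have h1 := norm_sub_le f v
  have h2 := norm_add_le f v
  nlinarith [norm_nonneg v, norm_nonneg f, norm_nonneg (f - v), norm_nonneg (f + v)]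

theorem psi_nonneg (j : ℕ) (f : StrongDual ℝ Z) : 0 ≤ psi w z j f := by
  unfold psi
  have := par_nonneg f (w j)
  positivity

theorem psi_le (j : ℕ) (f : StrongDual ℝ Z) :
    psi w z j f ≤ (1 / 2 : ℝ) ^ j * (3 * ‖f‖ ^ 2 + 4 * ‖f‖) := by
  unfold psi
  apply mul_le_mul_of_nonneg_left _ (by positivity)
  have h1 : (‖f - w j‖ ^ 2 + ‖f + w j‖ ^ 2 - 2 * ‖w j‖ ^ 2) / (1 + ‖w j‖)
      ≤ 2 * ‖f‖ ^ 2 + 4 * ‖f‖ := by
    rw [div_le_iff₀ (by positivity)]
    have := par_le f (w j)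
    nlinarith [norm_nonneg (w j), norm_nonneg f, mul_nonneg (norm_nonneg (w j)) (sq_nonneg ‖f‖)]
  have h2 : (f (z j)) ^ 2 / (1 + ‖z j‖) ^ 2 ≤ ‖f‖ ^ 2 := by
    rw [div_le_iff₀ (by positivity)]
    have h3 : |f (z j)| ≤ ‖f‖ * ‖z j‖ := f.le_opNorm (z j)
    have h4 : |f (z j)| ≤ ‖f‖ * (1 + ‖z j‖) := by nlinarith [norm_nonneg f]
    calc (f (z j)) ^ 2 = |f (z j)| ^ 2 := (sq_abs _).symm
      _ ≤ (‖f‖ * (1 + ‖z j‖)) ^ 2 := by gcongr
      _ = _ := by ring
  linarith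

theorem summable_geom (c : ℝ) : Summable fun j : ℕ => (1 / 2 : ℝ) ^ j * c :=
  (summable_geometric_of_lt_one (by norm_num) (by norm_num)).mul_right c

theorem psi_summable (f : StrongDual ℝ Z) : Summable fun j => psi w z j f :=
  Summable.of_nonneg_of_le (fun j => psi_nonneg w z j f) (fun j => psi_le w z j f)
    (summable_geom _)

theorem psi_even (j : ℕ) (f : StrongDual ℝ Z) : psi w z j (-f) = psi w z j f := by
  unfold psi
  have h1 : ‖-f - w j‖ = ‖f + w j‖ := by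
    rw [← norm_neg]; congr 1; abel
  have h2 : ‖-f + w j‖ = ‖f - w j‖ := by
    rw [← norm_neg]; congr 1; abel
  have h3 : (-f) (z j) = - f (z j) := rfl
  rw [h1, h2, h3]; ring

theorem norm_mid (f g v : StrongDual ℝ Z) :
    ‖(1 / 2 : ℝ) • (f + g) - v‖ ^ 2 ≤ (‖f - v‖ ^ 2 + ‖g - v‖ ^ 2) / 2 := by
  have h1 : (1 / 2 : ℝ) • (f + g) - v = (1 / 2 : ℝ) • ((f - v) + (g - v)) := by
    module
  rw [h1, norm_smul]
  have h2 := norm_add_le (f - v) (g - v)
  have h3 : ‖(1 / 2 : ℝ)‖ = 1 / 2 := by norm_num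
  rw [h3]
  nlinarith [norm_nonneg (f - v), norm_nonneg (g - v), norm_nonneg ((f - v) + (g - v)),
    sq_nonneg (‖f - v‖ - ‖g - v‖)]

theorem norm_mid' (f g v : StrongDual ℝ Z) :
    ‖(1 / 2 : ℝ) • (f + g) + v‖ ^ 2 ≤ (‖f + v‖ ^ 2 + ‖g + v‖ ^ 2) / 2 := by
  have := norm_mid f g (-v)
  simpa only [sub_neg_eq_add] using this

theorem psi_mid (j : ℕ) (f g : StrongDual ℝ Z) :
    psi w z j ((1 / 2 : ℝ) • (f + g)) ≤ (psi w z j f + psi w z j g) / 2
      - (1 / 2 : ℝ) ^ j * ((f - g) (z j) ^ 2 / (4 * (1 + ‖z j‖) ^ 2)) := by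
  unfold psi
  have h1 := norm_mid f g (w j)
  have h2 := norm_mid' f g (w j)
  have h3 : ((1 / 2 : ℝ) • (f + g)) (z j) = (f (z j) + g (z j)) / 2 := by
    change (1 / 2 : ℝ) * (f (z j) + g (z j)) = _
    ring
  have h4 : (f - g) (z j) = f (z j) - g (z j) := rfl
  rw [h3, h4]
  have h5 : (‖(1 / 2 : ℝ) • (f + g) - w j‖ ^ 2 + ‖(1 / 2 : ℝ) • (f + g) + w j‖ ^ 2
      - 2 * ‖w j‖ ^ 2) / (1 + ‖w j‖) ≤
      ((‖f - w j‖ ^ 2 + ‖f + w j‖ ^ 2 - 2 * ‖w j‖ ^ 2) / (1 + ‖w j‖) +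
      (‖g - w j‖ ^ 2 + ‖g + w j‖ ^ 2 - 2 * ‖w j‖ ^ 2) / (1 + ‖w j‖)) / 2 := by
    rw [← add_div, div_div, mul_comm (1 + ‖w j‖) 2, ← div_div]
    apply div_le_div_of_nonneg_right _ (by positivity)
    linarith
  have h6 : ((f (z j) + g (z j)) / 2) ^ 2 / (1 + ‖z j‖) ^ 2 =
      ((f (z j)) ^ 2 / (1 + ‖z j‖) ^ 2 + (g (z j)) ^ 2 / (1 + ‖z j‖) ^ 2) / 2 -
      (f (z j) - g (z j)) ^ 2 / (4 * (1 + ‖z j‖) ^ 2) := by
    have : (1 + ‖z j‖) ^ 2 ≠ 0 := by positivity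
    field_simp
    ring
  rw [h6]
  have h7 : (0 : ℝ) ≤ (1 / 2 : ℝ) ^ j := by positivity
  nlinarith

theorem Phi_mid_lt (hz : DenseRange z) (f g : StrongDual ℝ Z) (hfg : f ≠ g) :
    Phi w z ((1 / 2 : ℝ) • (f + g)) < (Phi w z f + Phi w z g) / 2 := by
  obtain ⟨j, hj⟩ : ∃ j, (f - g) (z j) ≠ 0 := by
    by_contra hcon
    push Not at hcon
    apply hfg
    have h1 : (fun x => (f - g) x) = fun _ => (0 : ℝ) := by
      apply hz.equalizer (f - g).continuous continuous_const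
      ext j; exact hcon j
    ext x
    have := congrFun h1 x
    change f x - g x = 0 at this
    linarith
  unfold Phi
  have h1 : ‖(1 / 2 : ℝ) • (f + g)‖ ^ 2 ≤ (‖f‖ ^ 2 + ‖g‖ ^ 2) / 2 := by
    have := norm_mid f g 0
    simpa only [sub_zero] using this
  have h2 : ∑' j, psi w z j ((1 / 2 : ℝ) • (f + g)) <
      ∑' j, ((psi w z j f + psi w z j g) / 2) := by
    apply Summable.tsum_lt_tsum (i := j)
    · intro i
      have := psi_mid w z i f g
      have h3 : 0 ≤ (1 / 2 : ℝ) ^ i * ((f - g) (z i) ^ 2 / (4 * (1 + ‖z i‖) ^ 2)) := by positivity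
      linarith
    · have := psi_mid w z j f g
      have h3 : 0 < (1 / 2 : ℝ) ^ j * ((f - g) (z j) ^ 2 / (4 * (1 + ‖z j‖) ^ 2)) := by
        have : 0 < (f - g) (z j) ^ 2 := by positivity
        positivity
      linarith
    · exact psi_summable w z _
    · exact ((psi_summable w z f).add (psi_summable w z g)).div_const 2
  have h3 : ∑' j, ((psi w z j f + psi w z j g) / 2) =
      (∑' j, psi w z j f + ∑' j, psi w z j g) / 2 := by
    rw [tsum_div_const, (psi_summable w z f).tsum_add (psi_summable w z g)]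
  rw [h3] at h2
  linarith

theorem Phi_zero : Phi w z 0 = 0 := by
  unfold Phi
  have : ∀ j, psi w z j 0 = 0 := by
    intro j
    unfold psi
    have h1 : ‖w j‖ ^ 2 + ‖w j‖ ^ 2 - 2 * ‖w j‖ ^ 2 = 0 := by ring
    simp [h1]
  simp [this]

theorem Phi_nonneg (f : StrongDual ℝ Z) : 0 ≤ Phi w z f := by
  unfold Phi
  have : 0 ≤ ∑' j, psi w z j f := tsum_nonneg fun j => psi_nonneg w z j f
  positivity

theorem norm_sq_le_Phi (f : StrongDual ℝ Z) : ‖f‖ ^ 2 ≤ Phi w z f := by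
  unfold Phi
  have : 0 ≤ ∑' j, psi w z j f := tsum_nonneg fun j => psi_nonneg w z j f
  linarith

theorem Phi_even (f : StrongDual ℝ Z) : Phi w z (-f) = Phi w z f := by
  unfold Phi
  simp only [psi_even, norm_neg]

theorem Phi_le (f : StrongDual ℝ Z) : Phi w z f ≤ ‖f‖ ^ 2 + 2 * (3 * ‖f‖ ^ 2 + 4 * ‖f‖) := by
  unfold Phi
  have h1 : ∑' j, psi w z j f ≤ ∑' j : ℕ, (1 / 2 : ℝ) ^ j * (3 * ‖f‖ ^ 2 + 4 * ‖f‖) :=
    Summable.tsum_le_tsum (fun j => psi_le w z j f) (psi_summable w z f) (summable_geom _)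
  rw [tsum_mul_right, tsum_geometric_of_lt_one (by norm_num) (by norm_num)] at h1
  norm_num at h1
  linarith

theorem psi_continuous (j : ℕ) : Continuous (psi w z j) := by
  unfold psi
  have h : Continuous fun f : StrongDual ℝ Z => f (z j) :=
    (ContinuousLinearMap.apply ℝ ℝ (z j)).continuous
  fun_prop

theorem Phi_continuous : Continuous (Phi w z) := by
  unfold Phi
  apply Continuous.add (by fun_prop)
  rw [continuous_iff_continuousAt]
  intro f
  have hball : Metric.closedBall f 1 ∈ 𝓝 f := Metric.closedBall_mem_nhds f one_pos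
  apply ContinuousOn.continuousAt _ hball
  apply continuousOn_tsum (u := fun j => (1 / 2 : ℝ) ^ j * (3 * (‖f‖ + 1) ^ 2 + 4 * (‖f‖ + 1)))
  · intro j
    exact (psi_continuous w z j).continuousOn
  · exact summable_geom _
  · intro j g hg
    rw [Real.norm_of_nonneg (psi_nonneg w z j g)]
    refine le_trans (psi_le w z j g) ?_
    have h1 : ‖g‖ ≤ ‖f‖ + 1 := by
      rw [Metric.mem_closedBall, dist_eq_norm] at hg
      calc ‖g‖ = ‖(g - f) + f‖ := by congr 1; abel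
        _ ≤ ‖g - f‖ + ‖f‖ := norm_add_le _ _
        _ ≤ _ := by linarith
    gcongr

/-- Lower semicontinuity of distance functions in the weak-star topology. -/
theorem lsc_dist (v : StrongDual ℝ Z) :
    LowerSemicontinuous fun f : WeakDual ℝ Z => ‖WeakDual.toStrongDual f - v‖ := by
  rw [lowerSemicontinuous_iff_isClosed_preimage]
  intro r
  have := WeakDual.isClosed_closedBall v r
  convert this using 1
  ext f
  simp [dist_eq_norm]

theorem lsc_dist_sq (v : StrongDual ℝ Z) :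
    LowerSemicontinuous fun f : WeakDual ℝ Z => ‖WeakDual.toStrongDual f - v‖ ^ 2 := by
  have h1 := lsc_dist v
  have h2 : (fun f : WeakDual ℝ Z => ‖WeakDual.toStrongDual f - v‖ ^ 2) =
      (fun t : ℝ => (max t 0) ^ 2) ∘ fun f : WeakDual ℝ Z => ‖WeakDual.toStrongDual f - v‖ := by
    ext f
    simp [max_eq_left (norm_nonneg _)]
  rw [h2]
  apply Continuous.comp_lowerSemicontinuous _ h1
  · intro a b hab
    have : max a 0 ≤ max b 0 := max_le_max hab le_rfl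
    exact pow_le_pow_left₀ (le_max_right _ _) this 2
  · fun_prop

theorem lsc_psi (j : ℕ) :
    LowerSemicontinuous fun f : WeakDual ℝ Z => psi w z j (WeakDual.toStrongDual f) := by
  have h1 := lsc_dist_sq (w j)
  have h2 := lsc_dist_sq (-(w j))
  simp only [sub_neg_eq_add] at h2
  have h3 : Continuous fun f : WeakDual ℝ Z => (f (z j)) ^ 2 / (1 + ‖z j‖) ^ 2 - 
      2 * ‖w j‖ ^ 2 / (1 + ‖w j‖) :=
    (((WeakDual.eval_continuous (z j)).pow 2).div_const _).sub continuous_const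
  have h4 : LowerSemicontinuous fun f : WeakDual ℝ Z =>
      (1 + ‖w j‖)⁻¹ * (‖WeakDual.toStrongDual f - w j‖ ^ 2 + ‖WeakDual.toStrongDual f + w j‖ ^ 2) := by
    have h5 := h1.add h2
    have h6 : Monotone fun t : ℝ => (1 + ‖w j‖)⁻¹ * t := by
      intro a b hab
      exact mul_le_mul_of_nonneg_left hab (by positivity)
    exact (continuous_const.mul continuous_id).comp_lowerSemicontinuous h5 h6
  have h5 := h4.add h3.lowerSemicontinuous
  have h6 : Monotone fun t : ℝ => (1 / 2 : ℝ) ^ j * t := by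
    intro a b hab
    exact mul_le_mul_of_nonneg_left hab (by positivity)
  have h7 := (continuous_const.mul continuous_id).comp_lowerSemicontinuous h5 h6
  have e : (fun f : WeakDual ℝ Z => psi w z j (WeakDual.toStrongDual f)) =
      (fun t : ℝ => (1 / 2 : ℝ) ^ j * id t) ∘ (fun f : WeakDual ℝ Z =>
        ((fun t : ℝ => (1 + ‖w j‖)⁻¹ * id t) ∘ (fun f : WeakDual ℝ Z =>
          ‖WeakDual.toStrongDual f - w j‖ ^ 2 + ‖WeakDual.toStrongDual f + w j‖ ^ 2)) f +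
        ((f (z j)) ^ 2 / (1 + ‖z j‖) ^ 2 - 2 * ‖w j‖ ^ 2 / (1 + ‖w j‖))) := by
    funext f
    unfold psi
    simp only [id, Function.comp]
    have : (WeakDual.toStrongDual f) (z j) = f (z j) := rfl
    rw [this]
    field_simp
    ring
  rw [e]
  exact h7

theorem lsc_partial (n : ℕ) :
    LowerSemicontinuous fun f : WeakDual ℝ Z =>
      ‖WeakDual.toStrongDual f‖ ^ 2 + ∑ j ∈ Finset.range n, psi w z j (WeakDual.toStrongDual f) := by
  have h1 := lsc_dist_sq (0 : StrongDual ℝ Z)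
  simp only [sub_zero] at h1
  apply h1.add
  exact lowerSemicontinuous_sum fun j _ => lsc_psi w z j

theorem lsc_Phi :
    LowerSemicontinuous fun f : WeakDual ℝ Z => Phi w z (WeakDual.toStrongDual f) := by
  intro f y hy
  unfold Phi at hy
  -- partial sums converge
  have h1 : Tendsto (fun n => ‖WeakDual.toStrongDual f‖ ^ 2 +
      ∑ j ∈ Finset.range n, psi w z j (WeakDual.toStrongDual f)) atTop
      (𝓝 (‖WeakDual.toStrongDual f‖ ^ 2 + ∑' j, psi w z j (WeakDual.toStrongDual f))) :=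
    tendsto_const_nhds.add (psi_summable w z _).hasSum.tendsto_sum_nat
  obtain ⟨n, hn⟩ := (h1.eventually (lt_mem_nhds hy)).exists
  filter_upwards [lsc_partial w z n f y hn] with g hg
  refine lt_of_lt_of_le hg ?_
  unfold Phi
  gcongr
  exact (psi_summable w z _).sum_le_tsum _ fun j _ => psi_nonneg w z j _

theorem Phi_wclosed (r : ℝ) : WClosed {f | Phi w z f ≤ r} :=
  (lowerSemicontinuous_iff_isClosed_preimage.mp (lsc_Phi w z)) r

/-- The difference of `Phi` and one term is still lower semicontinuous, which gives the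
Kadec-Klee property. -/
theorem KK_psi (j : ℕ) (f₀ : StrongDual ℝ Z) (η : ℝ) (hη : 0 < η) :
    ∃ U : Set (WeakDual ℝ Z), IsOpen U ∧ StrongDual.toWeakDual f₀ ∈ U ∧ ∃ δ : ℝ, 0 < δ ∧
      ∀ f : StrongDual ℝ Z, StrongDual.toWeakDual f ∈ U → Phi w z f < Phi w z f₀ + δ →
        psi w z j f < psi w z j f₀ + η := by
  -- choose a large partial sum
  have h1 : Tendsto (fun n => ∑ i ∈ Finset.range n, psi w z i f₀) atTop
      (𝓝 (∑' i, psi w z i f₀)) := (psi_summable w z _).hasSum.tendsto_sum_nat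
  have h2 : ∀ᶠ n in atTop, ∑' i, psi w z i f₀ - η / 4 < ∑ i ∈ Finset.range n, psi w z i f₀ :=
    h1.eventually (lt_mem_nhds (by linarith))
  obtain ⟨n, hn, hjn⟩ := (h2.and (eventually_gt_atTop j)).exists
  have hj : j ∈ Finset.range n := Finset.mem_range.mpr hjn
  -- the rest
  have hrest : LowerSemicontinuous fun f : WeakDual ℝ Z =>
      ‖WeakDual.toStrongDual f‖ ^ 2 +
        ∑ i ∈ (Finset.range n).erase j, psi w z i (WeakDual.toStrongDual f) := by
    have h3 := lsc_dist_sq (0 : StrongDual ℝ Z)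
    simp only [sub_zero] at h3
    exact h3.add (lowerSemicontinuous_sum fun i _ => lsc_psi w z i)
  set y : ℝ := ‖f₀‖ ^ 2 + ∑ i ∈ (Finset.range n).erase j, psi w z i f₀ - η / 4 with hy
  have hopen : IsOpen {f : WeakDual ℝ Z | y < ‖WeakDual.toStrongDual f‖ ^ 2 +
        ∑ i ∈ (Finset.range n).erase j, psi w z i (WeakDual.toStrongDual f)} := by
    have := lowerSemicontinuous_iff_isOpen_preimage.mp hrest y
    exact this
  refine ⟨_, hopen, ?_, η / 4, by linarith, ?_⟩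
  · simp only [Set.mem_ofPred_eq, hy]
    have : WeakDual.toStrongDual (StrongDual.toWeakDual f₀) = f₀ := rfl
    rw [this]
    linarith
  · intro f hf hlt
    simp only [Set.mem_ofPred_eq] at hf
    have h0 : WeakDual.toStrongDual (StrongDual.toWeakDual f) = f := rfl
    rw [h0] at hf
    have h4 : ∑ i ∈ Finset.range n, psi w z i f ≤ ∑' i, psi w z i f :=
      (psi_summable w z _).sum_le_tsum _ fun i _ => psi_nonneg w z i _
    have h5 := Finset.add_sum_erase (Finset.range n) (fun i => psi w z i f) hj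
    have h6 := Finset.add_sum_erase (Finset.range n) (fun i => psi w z i f₀) hj
    unfold Phi at hlt
    linarith

theorem KK_dist (j : ℕ) (f₀ : StrongDual ℝ Z) (η : ℝ) (hη : 0 < η) :
    ∃ U : Set (WeakDual ℝ Z), IsOpen U ∧ StrongDual.toWeakDual f₀ ∈ U ∧ ∃ δ : ℝ, 0 < δ ∧
      ∀ f : StrongDual ℝ Z, StrongDual.toWeakDual f ∈ U → Phi w z f < Phi w z f₀ + δ →
        ‖f - w j‖ ^ 2 < ‖f₀ - w j‖ ^ 2 + η := by
  set κ : ℝ := (1 / 2 : ℝ) ^ j / (1 + ‖w j‖) with hκ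
  have hκpos : 0 < κ := by positivity
  obtain ⟨U, hU, hfU, δ, hδ, hUδ⟩ := KK_psi w z j f₀ (κ * η / 2) (by positivity)
  -- lower semicontinuity of the other parts of psi
  have h2 := lsc_dist_sq (-(w j))
  simp only [sub_neg_eq_add] at h2
  have h3 : LowerSemicontinuous fun f : WeakDual ℝ Z =>
      κ * ‖WeakDual.toStrongDual f + w j‖ ^ 2 +
      ((1 / 2 : ℝ) ^ j * ((f (z j)) ^ 2 / (1 + ‖z j‖) ^ 2)) := by
    have h4 : Monotone fun t : ℝ => κ * t := fun a b hab =>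
      mul_le_mul_of_nonneg_left hab hκpos.le
    have h5 := (continuous_const.mul continuous_id).comp_lowerSemicontinuous h2 h4
    have h6 : Continuous fun f : WeakDual ℝ Z =>
        ((1 / 2 : ℝ) ^ j * ((f (z j)) ^ 2 / (1 + ‖z j‖) ^ 2)) :=
      continuous_const.mul (((WeakDual.eval_continuous (z j)).pow 2).div_const _)
    exact h5.add h6.lowerSemicontinuous
  set y : ℝ := κ * ‖f₀ + w j‖ ^ 2 + ((1 / 2 : ℝ) ^ j * ((f₀ (z j)) ^ 2 / (1 + ‖z j‖) ^ 2))
    - κ * η / 2 with hy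
  have hopen : IsOpen {f : WeakDual ℝ Z | y < κ * ‖WeakDual.toStrongDual f + w j‖ ^ 2 +
      ((1 / 2 : ℝ) ^ j * ((f (z j)) ^ 2 / (1 + ‖z j‖) ^ 2))} :=
    lowerSemicontinuous_iff_isOpen_preimage.mp h3 y
  refine ⟨U ∩ _, hU.inter hopen, ⟨hfU, ?_⟩, δ, hδ, ?_⟩
  · simp only [Set.mem_ofPred_eq]
    have h0 : WeakDual.toStrongDual (StrongDual.toWeakDual f₀) = f₀ := rfl
    have h1 : (StrongDual.toWeakDual f₀) (z j) = f₀ (z j) := rfl
    rw [h0, h1, hy]
    have : 0 < κ * η := by positivity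
    linarith
  · rintro f ⟨hf1, hf2⟩ hlt
    have h4 := hUδ f hf1 hlt
    simp only [Set.mem_ofPred_eq] at hf2
    have h0 : WeakDual.toStrongDual (StrongDual.toWeakDual f) = f := rfl
    have h1 : (StrongDual.toWeakDual f) (z j) = f (z j) := rfl
    rw [h0, h1, hy] at hf2
    have e1 : ∀ g : StrongDual ℝ Z, psi w z j g = κ * ‖g - w j‖ ^ 2 + κ * ‖g + w j‖ ^ 2
        - κ * (2 * ‖w j‖ ^ 2) + ((1 / 2 : ℝ) ^ j * ((g (z j)) ^ 2 / (1 + ‖z j‖) ^ 2)) := by
      intro g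
      unfold psi
      rw [hκ]
      field_simp
    rw [e1 f, e1 f₀] at h4
    have h5 : κ * ‖f - w j‖ ^ 2 < κ * (‖f₀ - w j‖ ^ 2 + η) := by linarith
    exact lt_of_mul_lt_mul_left h5 hκpos.le

theorem KK_main (hw : DenseRange w) (f₀ : StrongDual ℝ Z) (ε : ℝ) (hε : 0 < ε) :
    ∃ U : Set (WeakDual ℝ Z), IsOpen U ∧ StrongDual.toWeakDual f₀ ∈ U ∧ ∃ δ : ℝ, 0 < δ ∧
      ∀ f : StrongDual ℝ Z, StrongDual.toWeakDual f ∈ U → Phi w z f < Phi w z f₀ + δ →
        ‖f - f₀‖ ≤ ε := by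
  obtain ⟨j, hj⟩ := hw.exists_dist_lt f₀ (show 0 < ε / 4 by linarith)
  rw [dist_eq_norm] at hj
  obtain ⟨U, hU, hfU, δ, hδ, h⟩ := KK_dist w z j f₀ (ε ^ 2 / 16) (by positivity)
  refine ⟨U, hU, hfU, δ, hδ, fun f hf hlt => ?_⟩
  have h1 := h f hf hlt
  have h2 : ‖f - w j‖ < ε / 2 := by
    by_contra hcon
    push Not at hcon
    nlinarith [norm_nonneg (f₀ - w j), norm_nonneg (f - w j)]
  calc ‖f - f₀‖ = ‖(f - w j) - (f₀ - w j)‖ := by congr 1; abel
    _ ≤ ‖f - w j‖ + ‖f₀ - w j‖ := norm_sub_le _ _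
    _ ≤ ε := by linarith

end Pool.Agent.Helper871.KK
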