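import Mathlib
import Pool.Agent.Helper871.NormExt
import Pool.Agent.Helper871.KK

set_option autoImplicit false

namespace Pool.Agent.Helper871.Frechet

open Filter Topology Set
open Pool.Agent.Helper871.NormExt Pool.Agent.Helper871.KK

/-- A normed space with separable dual is separable. -/
theorem separable_of_dual (E : Type) [NormedAddCommGroup E] [NormedSpace ℝ E]
    [TopologicalSpace.SeparableSpace (StrongDual ℝ E)] : TopologicalSpace.SeparableSpace E := by
  set F : ℕ → StrongDual ℝ E := TopologicalSpace.denseSeq (StrongDual ℝ E) with hF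
  have hFd : DenseRange F := TopologicalSpace.denseRange_denseSeq _
  have hx : ∀ n, ∃ x : E, ‖x‖ ≤ 1 ∧ ‖F n‖ / 2 ≤ |F n x| := by
    intro n
    by_cases h0 : F n = 0
    · exact ⟨0, by simp, by simp [h0]⟩
    · have hpos : 0 < ‖F n‖ := norm_pos_iff.mpr h0
      by_contra hcon
      push Not at hcon
      have : ‖F n‖ ≤ ‖F n‖ / 2 := by
        apply ContinuousLinearMap.opNorm_le_of_unit_norm (by positivity)
        intro x hx
        exact (hcon x hx.le).le
      linarith
  choose x hx1 hx2 using hx
  have hsep : TopologicalSpace.IsSeparable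
      ((Submodule.span ℝ (Set.range x) : Submodule ℝ E) : Set E) :=
    (Set.countable_range x).isSeparable.span
  have hdense : Dense ((Submodule.span ℝ (Set.range x) : Submodule ℝ E) : Set E) := by
    rw [Submodule.dense_iff_topologicalClosure_eq_top]
    by_contra hne
    obtain ⟨y, hy⟩ : ∃ y, y ∉ (Submodule.span ℝ (Set.range x)).topologicalClosure := by
      by_contra hcon
      push Not at hcon
      exact hne (Submodule.eq_top_iff'.mpr hcon)
    set S := (Submodule.span ℝ (Set.range x)).topologicalClosure with hS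
    have hcl : IsClosed (S : Set E) := Submodule.isClosed_topologicalClosure _
    obtain ⟨k, u, hk1, hk2⟩ := geometric_hahn_banach_closed_point (E := E) S.convex hcl hy
    have hk0 : ∀ s ∈ S, k s = 0 := by
      intro s hs
      by_contra hne
      have h1 : ∀ t : ℝ, t * k s < u := by
        intro t
        have := hk1 (t • s) (S.smul_mem t hs)
        rwa [map_smul, smul_eq_mul] at this
      have h2 := h1 ((|u| + 1) / k s)
      rw [div_mul_cancel₀ _ hne] at h2
      linarith [le_abs_self u]
    have hkne : 0 < ‖k‖ := by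
      rw [norm_pos_iff]
      rintro rfl
      have := hk1 0 S.zero_mem
      simp at this hk2
      linarith
    obtain ⟨n, hn⟩ := hFd.exists_dist_lt k (show 0 < ‖k‖ / 4 by linarith)
    rw [dist_eq_norm] at hn
    have h1 : k (x n) = 0 := hk0 _ (Submodule.le_topologicalClosure _
      (Submodule.subset_span ⟨n, rfl⟩))
    have h2 : |F n (x n)| ≤ ‖k - F n‖ := by
      have h3 : (k - F n) (x n) = - F n (x n) := by
        change k (x n) - F n (x n) = _
        rw [h1]; ring
      have h4 := (k - F n).le_opNorm (x n)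
      rw [h3, norm_neg, Real.norm_eq_abs] at h4
      calc |F n (x n)| ≤ ‖k - F n‖ * ‖x n‖ := h4
        _ ≤ ‖k - F n‖ * 1 := by gcongr; exact hx1 n
        _ = _ := mul_one _
    have h5 := hx2 n
    have h6 : ‖k‖ ≤ ‖k - F n‖ + ‖F n‖ := by
      calc ‖k‖ = ‖(k - F n) + F n‖ := by congr 1; abel
        _ ≤ _ := norm_add_le _ _
    linarith
  have : TopologicalSpace.IsSeparable (Set.univ : Set E) := by
    have := hsep.closure
    rwa [hdense.closure_eq] at this
  exact TopologicalSpace.isSeparable_univ_iff.mp this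

variable {Z : Type} [NormedAddCommGroup Z] [NormedSpace ℝ Z]
variable {X : Type} [NormedAddCommGroup X] [NormedSpace ℝ X]

theorem near_derivative (N : X → ℝ) (x₀ : X) (L : X →L[ℝ] ℝ) (hL : HasFDerivAt N L x₀) (ε : ℝ)
    (hε : 0 < ε) : ∃ δ : ℝ, 0 < δ ∧ ∀ g ∈ Kq N, N x₀ - δ ≤ g x₀ → ‖g - L‖ ≤ ε := by
  rw [hasFDerivAt_iff_isLittleO_nhds_zero, Asymptotics.isLittleO_iff] at hL
  have h1 := hL (show 0 < ε / 2 by linarith)
  rw [Metric.eventually_nhds_iff] at h1
  obtain ⟨r, hr, hr'⟩ := h1
  refine ⟨ε / 2 * (r / 2), by positivity, fun g hg hgx => ?_⟩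
  apply ContinuousLinearMap.opNorm_le_bound _ hε.le
  have key : ∀ h : X, (g - L) h ≤ ε * ‖h‖ := by
    intro h
    by_cases h0 : h = 0
    · simp [h0]
    have hpos : 0 < ‖h‖ := norm_pos_iff.mpr h0
    set t : ℝ := (r / 2) / ‖h‖ with ht
    have htpos : 0 < t := by positivity
    have hnorm : ‖t • h‖ = r / 2 := by
      rw [norm_smul, Real.norm_of_nonneg htpos.le, ht]; field_simp
    have h2 := hr' (y := t • h) (by rw [dist_zero_right, hnorm]; linarith)
    rw [hnorm, Real.norm_eq_abs] at h2
    have h3 := (abs_le.mp h2).2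
    have h4 := hg (x₀ + t • h)
    rw [map_add, map_smul, smul_eq_mul] at h4
    rw [map_smul, smul_eq_mul] at h3
    have h5 : t * (g h - L h) ≤ ε * (r / 2) := by nlinarith
    change g h - L h ≤ _
    have h6 : t * ‖h‖ = r / 2 := by rw [ht]; field_simp
    have h7 : t * (g h - L h) ≤ t * (ε * ‖h‖) := by nlinarith
    exact le_of_mul_le_mul_left h7 htpos
  intro h
  rw [Real.norm_eq_abs, abs_le]
  have h1 := key h
  have h2 := key (-h)
  rw [map_neg, norm_neg] at h2
  constructor <;> linarith

theorem frechet_extension [TopologicalSpace.SeparableSpace (StrongDual ℝ Z)]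
    (ι : X →ₗᵢ[ℝ] Z) (hcl : IsClosed (Set.range ι)) (N : X → ℝ)
    (N_add : ∀ x y, N (x + y) ≤ N x + N y)
    (N_smul : ∀ (c : ℝ) (x : X), N (c • x) = |c| * N x)
    (N_bd : ∃ a b : ℝ, 0 < a ∧ ∀ x, a * ‖x‖ ≤ N x ∧ N x ≤ b * ‖x‖)
    (N_fr : ∀ x : X, x ≠ 0 → DifferentiableAt ℝ N x) (hX : ∃ x : X, x ≠ 0) :
    ∃ M : Z → ℝ,
    ((∀ z w, M (z + w) ≤ M z + M w) ∧
      (∀ (c : ℝ) (z : Z), M (c • z) = |c| * M z) ∧
      (∃ a b : ℝ, 0 < a ∧ ∀ z, a * ‖z‖ ≤ M z ∧ M z ≤ b * ‖z‖) ∧
      (∀ z : Z, z ≠ 0 → DifferentiableAt ℝ M z)) ∧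
      ∀ x : X, M (ι x) = N x := by
  haveI := separable_of_dual Z
  set w : ℕ → StrongDual ℝ Z := TopologicalSpace.denseSeq (StrongDual ℝ Z) with hw
  set z : ℕ → Z := TopologicalSpace.denseSeq Z with hz
  have hwd : DenseRange w := TopologicalSpace.denseRange_denseSeq _
  have hzd : DenseRange z := TopologicalSpace.denseRange_denseSeq _
  have D : Data ι N (Phi w z) :=
    { closed_range := hcl
      N_add := N_add
      N_smul := N_smul
      N_bd := N_bd
      N_gat := by
        intro x hx
        refine ⟨fderiv ℝ N x, fun h => ?_⟩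
        exact (N_fr x hx).hasFDerivAt.hasLineDerivAt h
      Φ_zero := Phi_zero w z
      Φ_nonneg := Phi_nonneg w z
      Φ_even := Phi_even w z
      Φ_sc := Phi_mid_lt w z hzd
      Φ_cont := Phi_continuous w z
      Φ_lsc := Phi_wclosed w z
      Φ_bdd := by
        intro r
        refine ⟨|r| + 1, fun f hf => ?_⟩
        have h1 := norm_sq_le_Phi w z f
        have h2 := le_abs_self r
        nlinarith [norm_nonneg f, abs_nonneg r]
      Φ_bdd' := by
        intro R
        refine ⟨R ^ 2 + 2 * (3 * R ^ 2 + 4 * R), fun f hf => le_trans (Phi_le w z f) ?_⟩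
        have := norm_nonneg f
        gcongr
      lift := by
        intro x₀ hx₀ g₀ hg₀ hg₀x f₀ hf₀ _ ε hε
        have hcont : ContinuousAt (Phi w z) f₀ := (Phi_continuous w z).continuousAt
        rw [Metric.continuousAt_iff] at hcont
        obtain ⟨s, hs, hs'⟩ := hcont ε hε
        obtain ⟨δ, hδ, hδ'⟩ := near_derivative N x₀ _ (N_fr x₀ hx₀).hasFDerivAt (s / 4)
          (by linarith)
        refine ⟨δ, hδ, fun g hg hgx => ?_⟩
        have h1 := hδ' g hg hgx
        have h2 := hδ' g₀ hg₀ (by linarith)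
        have h3 : ‖g - g₀‖ ≤ s / 2 := by
          calc ‖g - g₀‖ = ‖(g - fderiv ℝ N x₀) - (g₀ - fderiv ℝ N x₀)‖ := by congr 1; abel
            _ ≤ _ := norm_sub_le _ _
            _ ≤ s / 2 := by linarith
        obtain ⟨k, hk1, hk2⟩ := Data.exists_lift ι (g - g₀)
        refine ⟨f₀ + k, ?_, ?_⟩
        · ext x
          have := congrArg (fun q : StrongDual ℝ X => q x) hk1
          have h4 := congrArg (fun q : StrongDual ℝ X => q x) hf₀
          simp only [res_apply] at this h4 ⊢
          change k (ι x) = g x - g₀ x at this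
          change f₀ (ι x) + k (ι x) = g x
          rw [this, h4]; ring
        · have h5 := hs' (x := f₀ + k) (by
            rw [dist_eq_norm, add_sub_cancel_left]
            linarith)
          rw [Real.dist_eq] at h5
          have := (abs_lt.mp h5).2
          linarith }
  exact D.frechet hX (KK_main w z hwd)

end Pool.Agent.Helper871.Frechet
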