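import Mathlib
import Pool.Agent.Helper871.L1

set_option autoImplicit false

namespace Pool.Agent.Helper871.Gam

open Filter Topology Set
open Pool.Agent.Helper871.L1

variable {Z : Type} [NormedAddCommGroup Z] [NormedSpace ℝ Z] (ι : L1 →ₗᵢ[ℝ] Z)

/-- Lower bound of `‖w + ι u‖ - ‖u‖` over tails. -/
noncomputable def gm (m : ℕ) (w : Z) : ℝ := ⨅ u : Tail m, (‖w + ι (u : L1)‖ - ‖(u : L1)‖)

noncomputable def ga (w : Z) : ℝ := ⨆ m, gm ι m w

instance (m : ℕ) : Nonempty (Tail m) := ⟨⟨0, tail_zero m⟩⟩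

theorem low (w : Z) (u : L1) : -‖w‖ ≤ ‖w + ι u‖ - ‖u‖ := by
  have h1 : ‖ι u‖ ≤ ‖w + ι u‖ + ‖w‖ := by
    calc ‖ι u‖ = ‖(w + ι u) - w‖ := by congr 1; abel
      _ ≤ _ := norm_sub_le _ _
  rw [ι.norm_map] at h1
  linarith

theorem gm_bdd (m : ℕ) (w : Z) :
    BddBelow (Set.range fun u : Tail m => (‖w + ι (u : L1)‖ - ‖(u : L1)‖)) :=
  ⟨-‖w‖, by rintro _ ⟨u, rfl⟩; exact low ι w u⟩

theorem gm_le {m : ℕ} (w : Z) {u : L1} (hu : u ∈ Tail m) : gm ι m w ≤ ‖w + ι u‖ - ‖u‖ :=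
  ciInf_le (gm_bdd ι m w) ⟨u, hu⟩

theorem le_gm {m : ℕ} {w : Z} {r : ℝ} (h : ∀ u ∈ Tail m, r ≤ ‖w + ι u‖ - ‖u‖) : r ≤ gm ι m w :=
  le_ciInf fun u => h u u.2

theorem gm_le_norm (m : ℕ) (w : Z) : gm ι m w ≤ ‖w‖ := by
  have := gm_le ι w (tail_zero m)
  simpa using this

theorem gm_mono {m n : ℕ} (h : m ≤ n) (w : Z) : gm ι m w ≤ gm ι n w :=
  le_gm ι fun _ hu => gm_le ι w (tail_mono h hu)

theorem ga_bdd (w : Z) : BddAbove (Set.range fun m => gm ι m w) :=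
  ⟨‖w‖, by rintro _ ⟨m, rfl⟩; exact gm_le_norm ι m w⟩

theorem gm_le_ga (m : ℕ) (w : Z) : gm ι m w ≤ ga ι w := le_ciSup (ga_bdd ι w) m

theorem ga_le {w : Z} {r : ℝ} (h : ∀ m, gm ι m w ≤ r) : ga ι w ≤ r := ciSup_le h

theorem ga_le_norm (w : Z) : ga ι w ≤ ‖w‖ := ga_le ι fun m => gm_le_norm ι m w

theorem exists_gm (w : Z) (ε : ℝ) (hε : 0 < ε) : ∃ m, ga ι w - ε < gm ι m w :=
  exists_lt_of_lt_ciSup (by unfold ga; linarith)

theorem key (m : ℕ) (w : Z) {u : L1} (hu : u ∈ Tail m) : gm ι m w + ‖u‖ ≤ ga ι (w + ι u) := by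
  apply le_of_forall_pos_le_add
  intro ε hε
  obtain ⟨j, hj⟩ := asymp u ε hε
  have h1 : gm ι m w + ‖u‖ - ε ≤ gm ι (max m j) (w + ι u) := by
    apply le_gm
    intro v hv
    have h2 := hj (max m j) (le_max_right _ _) v hv
    have h3 := gm_le ι w (tail_add (le_max_left m j) hu hv)
    rw [map_add, ← add_assoc] at h3
    linarith
  have := gm_le_ga ι (max m j) (w + ι u)
  linarith

theorem ga_add (w w' : Z) : ga ι (w + w') ≤ ga ι w + ga ι w' := by
  apply ga_le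
  intro m
  rw [← sub_le_iff_le_add]
  refine le_trans ?_ (gm_le_ga ι m w)
  apply le_gm
  intro u hu
  rw [sub_le_iff_le_add]
  -- now take tails for w'
  apply le_of_forall_pos_le_add
  intro ε hε
  obtain ⟨j, hj⟩ := asymp u ε hε
  have h1 : gm ι m (w + w') - (‖w + ι u‖ - ‖u‖) - ε ≤ gm ι (max m j) w' := by
    apply le_gm
    intro v hv
    have h2 := hj (max m j) (le_max_right _ _) v hv
    have h3 := gm_le ι (w + w') (tail_add (le_max_left m j) hu hv)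
    have h4 : ‖w + w' + ι (u + v)‖ ≤ ‖w + ι u‖ + ‖w' + ι v‖ := by
      calc ‖w + w' + ι (u + v)‖ = ‖(w + ι u) + (w' + ι v)‖ := by
            congr 1; rw [map_add]; abel
        _ ≤ _ := norm_add_le _ _
    linarith
  have := gm_le_ga ι (max m j) w'
  linarith

theorem gm_smul_le (m : ℕ) (c : ℝ) (hc : c ≠ 0) (w : Z) : gm ι m (c • w) ≤ |c| * gm ι m w := by
  have hc' : 0 < |c| := abs_pos.mpr hc
  rw [← div_le_iff₀' hc']
  apply le_gm
  intro u hu
  rw [div_le_iff₀' hc']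
  have h1 := gm_le ι (c • w) (tail_smul hu c)
  rw [map_smul, ← smul_add, norm_smul, norm_smul, Real.norm_eq_abs] at h1
  linarith

theorem ga_smul_le (c : ℝ) (hc : c ≠ 0) (w : Z) : ga ι (c • w) ≤ |c| * ga ι w := by
  apply ga_le
  intro m
  refine le_trans (gm_smul_le ι m c hc w) ?_
  gcongr
  exact gm_le_ga ι m w

theorem norm_le_ga (a : L1) : ‖a‖ ≤ ga ι (ι a) := by
  apply le_of_forall_pos_le_add
  intro ε hε
  obtain ⟨j, hj⟩ := asymp a ε hε
  have h1 : ‖a‖ - ε ≤ gm ι j (ι a) := by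
    apply le_gm
    intro v hv
    have := hj j le_rfl v hv
    rw [← map_add, ι.norm_map]
    linarith
  have := gm_le_ga ι j (ι a)
  linarith

theorem ga_zero : ga ι 0 = 0 := by
  have h1 := norm_le_ga ι 0
  have h2 := ga_le_norm ι (0 : Z)
  simp at h1 h2
  linarith

theorem ga_smul (c : ℝ) (w : Z) : ga ι (c • w) = |c| * ga ι w := by
  by_cases hc : c = 0
  · subst hc; simp [ga_zero]
  · apply le_antisymm (ga_smul_le ι c hc w)
    have h1 := ga_smul_le ι c⁻¹ (inv_ne_zero hc) (c • w)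
    rw [smul_smul, inv_mul_cancel₀ hc, one_smul, abs_inv] at h1
    have hc' : 0 < |c| := abs_pos.mpr hc
    rw [inv_mul_eq_div, le_div_iff₀ hc'] at h1
    linarith

/-- The quotient seminorm. -/
noncomputable def dd (w : Z) : ℝ :=
  ‖(Submodule.Quotient.mk w : Z ⧸ LinearMap.range ι.toLinearMap)‖

theorem dd_nonneg (w : Z) : 0 ≤ dd ι w := norm_nonneg _

theorem dd_add (w w' : Z) : dd ι (w + w') ≤ dd ι w + dd ι w' := by
  unfold dd
  rw [Submodule.Quotient.mk_add]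
  exact norm_add_le _ _

theorem dd_smul (c : ℝ) (w : Z) : dd ι (c • w) = |c| * dd ι w := by
  unfold dd
  rw [Submodule.Quotient.mk_smul, norm_smul, Real.norm_eq_abs]

theorem dd_iota (a : L1) : dd ι (ι a) = 0 := by
  unfold dd
  have : (Submodule.Quotient.mk (ι a) : Z ⧸ LinearMap.range ι.toLinearMap) = 0 := by
    rw [Submodule.Quotient.mk_eq_zero]
    exact LinearMap.mem_range_self ι.toLinearMap a
  rw [this, norm_zero]

theorem dd_add_iota (w : Z) (a : L1) : dd ι (w + ι a) = dd ι w := by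
  unfold dd
  congr 1
  rw [Submodule.Quotient.eq]
  have : w + ι a - w = ι a := by abel
  rw [this]
  exact LinearMap.mem_range_self ι.toLinearMap a

theorem dd_le_norm (w : Z) : dd ι w ≤ ‖w‖ := Submodule.Quotient.norm_mk_le _ _

theorem exists_dd (w : Z) (ε : ℝ) (hε : 0 < ε) : ∃ a : L1, ‖w - ι a‖ < dd ι w + ε := by
  obtain ⟨m, hm1, hm2⟩ := Submodule.Quotient.norm_mk_lt
    (Submodule.Quotient.mk w : Z ⧸ LinearMap.range ι.toLinearMap) hε
  rw [Submodule.Quotient.eq] at hm1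
  obtain ⟨a, ha⟩ := hm1
  refine ⟨-a, ?_⟩
  have : w - ι (-a) = m := by
    rw [map_neg]
    have h2 : ι a = m - w := ha
    rw [h2]; abel
  rw [this]
  exact hm2

/-- The new norm on `Z`. -/
noncomputable def nu (w : Z) : ℝ := ga ι w + dd ι w

theorem nu_add (w w' : Z) : nu ι (w + w') ≤ nu ι w + nu ι w' := by
  unfold nu
  have := ga_add ι w w'
  have := dd_add ι w w'
  linarith

theorem nu_smul (c : ℝ) (w : Z) : nu ι (c • w) = |c| * nu ι w := by
  unfold nu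
  rw [ga_smul, dd_smul]; ring

theorem nu_iota (a : L1) : nu ι (ι a) = ‖a‖ := by
  unfold nu
  rw [dd_iota, add_zero]
  apply le_antisymm _ (norm_le_ga ι a)
  rw [← ι.norm_map a]
  exact ga_le_norm ι _

theorem nu_le (w : Z) : nu ι w ≤ 2 * ‖w‖ := by
  unfold nu
  have := ga_le_norm ι w
  have := dd_le_norm ι w
  linarith

theorem le_nu (w : Z) : ‖w‖ ≤ 2 * nu ι w := by
  have hga : 0 ≤ ga ι w := by
    have h1 := ga_add ι w (-w)
    rw [add_neg_cancel, ga_zero] at h1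
    have h2 := ga_smul ι (-1) w
    rw [neg_one_smul] at h2
    rw [h2] at h1
    simp at h1
    linarith
  have h : ‖w‖ ≤ ga ι w + 2 * dd ι w := by
    apply le_of_forall_pos_le_add
    intro ε hε
    obtain ⟨a, ha⟩ := exists_dd ι w (ε / 2) (by linarith)
    have h1 : ‖w‖ ≤ ‖w - ι a‖ + ‖a‖ := by
      calc ‖w‖ = ‖(w - ι a) + ι a‖ := by congr 1; abel
        _ ≤ ‖w - ι a‖ + ‖ι a‖ := norm_add_le _ _
        _ = _ := by rw [ι.norm_map]
    have h2 := norm_le_ga ι a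
    have h3 : ga ι (ι a) ≤ ga ι w + ga ι (ι a - w) := by
      have := ga_add ι w (ι a - w)
      have e : w + (ι a - w) = ι a := by abel
      rwa [e] at this
    have h4 : ga ι (ι a - w) ≤ ‖w - ι a‖ := by
      rw [← norm_sub_rev]; exact ga_le_norm ι _
    linarith
  unfold nu
  linarith

theorem nu_nonneg (w : Z) : 0 ≤ nu ι w := by
  have := le_nu ι w
  have := norm_nonneg w
  linarith

theorem star (w : Z) (ε : ℝ) (hε : 0 < ε) :
    ∃ m, ∀ u ∈ Tail m, nu ι w + ‖u‖ - ε ≤ nu ι (w + ι u) := by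
  obtain ⟨m, hm⟩ := exists_gm ι w ε hε
  refine ⟨m, fun u hu => ?_⟩
  have := key ι m w hu
  unfold nu
  rw [dd_add_iota]
  linarith

end Pool.Agent.Helper871.Gam
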