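import Mathlib

set_option autoImplicit false

namespace Pool.Agent.Helper871.Geo

open Filter Topology Set

theorem key_k (a b ε m₁ m₂ : ℝ) (ha : 0 ≤ a) (hb : 0 ≤ b) (hab : a + b = 1) (hε : 0 ≤ ε)
    (hε' : ε ≤ 1 / 100) (h₁ : |m₁| ≤ 3) (h₂ : |m₂| ≤ 3) :
    (1 / 2 + ε * (a * m₁ + b * m₂) ^ 2) * (b * (1 / 2 + ε * m₁ ^ 2) + a * (1 / 2 + ε * m₂ ^ 2))
      ≤ (1 / 2 + ε * m₁ ^ 2) * (1 / 2 + ε * m₂ ^ 2) := by
  have hb' : b = 1 - a := by linarith
  have e : (1 / 2 + ε * (a * m₁ + b * m₂) ^ 2) *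
      (b * (1 / 2 + ε * m₁ ^ 2) + a * (1 / 2 + ε * m₂ ^ 2)) =
      (1 / 2 + ε * m₁ ^ 2) * (1 / 2 + ε * m₂ ^ 2) +
      a * b * ε * (m₁ - m₂) ^ 2 * (ε * (m₁ + m₂) ^ 2 -
        (b * (1 / 2 + ε * m₁ ^ 2) + a * (1 / 2 + ε * m₂ ^ 2))) := by
    subst hb'; ring
  rw [e]
  have h3 : (m₁ + m₂) ^ 2 ≤ 36 := by
    have := abs_le.mp h₁
    have := abs_le.mp h₂
    nlinarith
  have h4 : ε * (m₁ + m₂) ^ 2 ≤ 36 / 100 := by nlinarith [sq_nonneg (m₁ + m₂)]
  have h5 : (1 / 2 : ℝ) ≤ b * (1 / 2 + ε * m₁ ^ 2) + a * (1 / 2 + ε * m₂ ^ 2) := by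
    have : 0 ≤ b * (ε * m₁ ^ 2) := by positivity
    have : 0 ≤ a * (ε * m₂ ^ 2) := by positivity
    nlinarith
  have h6 : 0 ≤ a * b * ε * (m₁ - m₂) ^ 2 := by positivity
  nlinarith

theorem key_F (a b ε m₁ m₂ u₁ u₂ : ℝ) (ha : 0 ≤ a) (hb : 0 ≤ b) (hab : a + b = 1) (hε : 0 ≤ ε)
    (hε' : ε ≤ 1 / 100) (h₁ : |m₁| ≤ 3) (h₂ : |m₂| ≤ 3) :
    (a * u₁ + b * u₂) ^ 2 * (1 / 2 + ε * (a * m₁ + b * m₂) ^ 2) ≤
      a * (u₁ ^ 2 * (1 / 2 + ε * m₁ ^ 2)) + b * (u₂ ^ 2 * (1 / 2 + ε * m₂ ^ 2)) := by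
  have hk := key_k a b ε m₁ m₂ ha hb hab hε hε' h₁ h₂
  set k := 1 / 2 + ε * (a * m₁ + b * m₂) ^ 2 with hkdef
  set k₁ := 1 / 2 + ε * m₁ ^ 2 with hk₁
  set k₂ := 1 / 2 + ε * m₂ ^ 2 with hk₂
  have hkp : 0 < k := by positivity
  have hk₁p : 0 < k₁ := by positivity
  have hk₂p : 0 < k₂ := by positivity
  have h1 : (a * u₁ + b * u₂) ^ 2 * (k₁ * k₂) ≤
      (a * (u₁ ^ 2 * k₁) + b * (u₂ ^ 2 * k₂)) * (b * k₁ + a * k₂) := by
    have e : (a * (u₁ ^ 2 * k₁) + b * (u₂ ^ 2 * k₂)) * (b * k₁ + a * k₂) -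
        (a * u₁ + b * u₂) ^ 2 * (k₁ * k₂) = a * b * (u₁ * k₁ - u₂ * k₂) ^ 2 := by ring
    have : 0 ≤ a * b * (u₁ * k₁ - u₂ * k₂) ^ 2 := by positivity
    linarith
  have hX : 0 ≤ a * (u₁ ^ 2 * k₁) + b * (u₂ ^ 2 * k₂) := by positivity
  have h2 : (a * u₁ + b * u₂) ^ 2 * k * (k₁ * k₂) ≤
      (a * (u₁ ^ 2 * k₁) + b * (u₂ ^ 2 * k₂)) * (k₁ * k₂) := by
    calc (a * u₁ + b * u₂) ^ 2 * k * (k₁ * k₂)
        = ((a * u₁ + b * u₂) ^ 2 * (k₁ * k₂)) * k := by ring
      _ ≤ ((a * (u₁ ^ 2 * k₁) + b * (u₂ ^ 2 * k₂)) * (b * k₁ + a * k₂)) * k := by gcongr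
      _ = (a * (u₁ ^ 2 * k₁) + b * (u₂ ^ 2 * k₂)) * (k * (b * k₁ + a * k₂)) := by ring
      _ ≤ _ := by gcongr
  exact le_of_mul_le_mul_right h2 (by positivity)

/-- The two-dimensional building block. -/
noncomputable def phi (ε h y : ℝ) : ℝ := y ^ 2 + ε * (|y| * h - y) ^ 2

theorem phi_eq (ε h y : ℝ) : phi ε h y = 1 / 2 * y ^ 2 +
    ((max y 0) ^ 2 * (1 / 2 + ε * (h - 1) ^ 2) + (max (-y) 0) ^ 2 * (1 / 2 + ε * (h + 1) ^ 2)) := by
  unfold phi
  rcases le_total 0 y with hy | hy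
  · rw [abs_of_nonneg hy, max_eq_left hy, max_eq_right (by linarith)]
    ring
  · rw [abs_of_nonpos hy, max_eq_right hy, max_eq_left (by linarith)]
    ring

theorem phi_conv (ε a b h₁ h₂ y₁ y₂ : ℝ) (ha : 0 ≤ a) (hb : 0 ≤ b) (hab : a + b = 1)
    (hε : 0 ≤ ε) (hε' : ε ≤ 1 / 100) (hh₁ : |h₁| ≤ 2) (hh₂ : |h₂| ≤ 2) :
    phi ε (a * h₁ + b * h₂) (a * y₁ + b * y₂) ≤
      a * phi ε h₁ y₁ + b * phi ε h₂ y₂ - a * b * (y₁ - y₂) ^ 2 / 2 := by
  rw [phi_eq, phi_eq, phi_eq]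
  have hb' : b = 1 - a := by linarith
  have h1 := abs_le.mp hh₁
  have h2 := abs_le.mp hh₂
  have hu : max (a * y₁ + b * y₂) 0 ≤ a * max y₁ 0 + b * max y₂ 0 := by
    apply max_le
    · gcongr <;> exact le_max_left _ _
    · have := le_max_right y₁ 0
      have := le_max_right y₂ 0
      positivity
  have hv : max (-(a * y₁ + b * y₂)) 0 ≤ a * max (-y₁) 0 + b * max (-y₂) 0 := by
    apply max_le
    · have := le_max_left (-y₁) 0
      have := le_max_left (-y₂) 0
      nlinarith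
    · have := le_max_right (-y₁) 0
      have := le_max_right (-y₂) 0
      positivity
  have hu2 : (max (a * y₁ + b * y₂) 0) ^ 2 ≤ (a * max y₁ 0 + b * max y₂ 0) ^ 2 :=
    pow_le_pow_left₀ (le_max_right _ _) hu 2
  have hv2 : (max (-(a * y₁ + b * y₂)) 0) ^ 2 ≤ (a * max (-y₁) 0 + b * max (-y₂) 0) ^ 2 :=
    pow_le_pow_left₀ (le_max_right _ _) hv 2
  have hF1 := key_F a b ε (h₁ - 1) (h₂ - 1) (max y₁ 0) (max y₂ 0) ha hb hab hε hε'
    (by rw [abs_le]; constructor <;> linarith) (by rw [abs_le]; constructor <;> linarith)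
  have hF2 := key_F a b ε (h₁ + 1) (h₂ + 1) (max (-y₁) 0) (max (-y₂) 0) ha hb hab hε hε'
    (by rw [abs_le]; constructor <;> linarith) (by rw [abs_le]; constructor <;> linarith)
  have e1 : a * (h₁ - 1) + b * (h₂ - 1) = a * h₁ + b * h₂ - 1 := by subst hb'; ring
  have e2 : a * (h₁ + 1) + b * (h₂ + 1) = a * h₁ + b * h₂ + 1 := by subst hb'; ring
  rw [e1] at hF1
  rw [e2] at hF2
  have hG1 : (max (a * y₁ + b * y₂) 0) ^ 2 * (1 / 2 + ε * (a * h₁ + b * h₂ - 1) ^ 2) ≤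
      (a * max y₁ 0 + b * max y₂ 0) ^ 2 * (1 / 2 + ε * (a * h₁ + b * h₂ - 1) ^ 2) := by
    gcongr
  have hG2 : (max (-(a * y₁ + b * y₂)) 0) ^ 2 * (1 / 2 + ε * (a * h₁ + b * h₂ + 1) ^ 2) ≤
      (a * max (-y₁) 0 + b * max (-y₂) 0) ^ 2 * (1 / 2 + ε * (a * h₁ + b * h₂ + 1) ^ 2) := by
    gcongr
  have e3 : 1 / 2 * (a * y₁ + b * y₂) ^ 2 =
      a * (1 / 2 * y₁ ^ 2) + b * (1 / 2 * y₂ ^ 2) - a * b * (y₁ - y₂) ^ 2 / 2 := by
    subst hb'; ring
  rw [e3]
  linarith

/-- The barrier. -/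
noncomputable def be (h : ℝ) : ℝ := (max (|h| - 1) 0) ^ 2

theorem be_nonneg (h : ℝ) : 0 ≤ be h := by unfold be; positivity

theorem be_conv (a b h₁ h₂ : ℝ) (ha : 0 ≤ a) (hb : 0 ≤ b) (hab : a + b = 1) :
    be (a * h₁ + b * h₂) ≤ a * be h₁ + b * be h₂ := by
  unfold be
  have h1 : |a * h₁ + b * h₂| ≤ a * |h₁| + b * |h₂| := by
    refine le_trans (abs_add_le _ _) ?_
    rw [abs_mul, abs_mul, abs_of_nonneg ha, abs_of_nonneg hb]
  have h2 : max (|a * h₁ + b * h₂| - 1) 0 ≤ a * max (|h₁| - 1) 0 + b * max (|h₂| - 1) 0 := by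
    apply max_le
    · have := le_max_left (|h₁| - 1) 0
      have := le_max_left (|h₂| - 1) 0
      nlinarith
    · have := le_max_right (|h₁| - 1) 0
      have := le_max_right (|h₂| - 1) 0
      positivity
  have h3 : (max (|a * h₁ + b * h₂| - 1) 0) ^ 2 ≤
      (a * max (|h₁| - 1) 0 + b * max (|h₂| - 1) 0) ^ 2 :=
    pow_le_pow_left₀ (le_max_right _ _) h2 2
  have hb' : b = 1 - a := by linarith
  have h4 : (a * max (|h₁| - 1) 0 + b * max (|h₂| - 1) 0) ^ 2 =
      a * (max (|h₁| - 1) 0) ^ 2 + b * (max (|h₂| - 1) 0) ^ 2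
        - a * b * (max (|h₁| - 1) 0 - max (|h₂| - 1) 0) ^ 2 := by subst hb'; ring
  have h5 : 0 ≤ a * b * (max (|h₁| - 1) 0 - max (|h₂| - 1) 0) ^ 2 := by positivity
  linarith

theorem be_le_one {h : ℝ} (hh : be h ≤ 1) : |h| ≤ 2 := by
  unfold be at hh
  by_contra hcon
  push Not at hcon
  have h1 := le_max_left (|h| - 1) 0
  nlinarith

theorem be_zero {h : ℝ} (hh : |h| ≤ 1) : be h = 0 := by
  unfold be
  rw [max_eq_right (by linarith)]
  norm_num

theorem be_lt_one {h : ℝ} (hh : |h| < 2) : be h < 1 := by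
  unfold be
  have h1 : max (|h| - 1) 0 < 1 := max_lt (by linarith) one_pos
  have h2 := le_max_right (|h| - 1) 0
  nlinarith

theorem be_neg (h : ℝ) : be (-h) = be h := by unfold be; rw [abs_neg]

/-- The Hilbert space. -/
abbrev H := lp (fun _ : ℕ => ℝ) 2

noncomputable def ep (n : ℕ) : ℝ := (1 / 2 : ℝ) ^ n / 100

theorem ep_pos (n : ℕ) : 0 < ep n := by unfold ep; positivity

theorem ep_le (n : ℕ) : ep n ≤ 1 / 100 := by
  unfold ep
  have : (1 / 2 : ℝ) ^ n ≤ 1 := pow_le_one₀ (by norm_num) (by norm_num)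
  linarith

theorem ep_summable : Summable ep := by
  unfold ep
  exact (summable_geometric_of_lt_one (by norm_num) (by norm_num)).div_const _

theorem norm_sq (x : H) : ‖x‖ ^ 2 = ∑' n, (x n) ^ 2 := by
  have := lp.norm_rpow_eq_tsum (p := 2) (by norm_num) x
  simpa using this

theorem summable_sq (x : H) : Summable fun n => (x n) ^ 2 := by
  have := (lp.memℓp x).summable (p := 2) (by norm_num)
  simpa using this

theorem summable_sq' (x : H) : Summable fun n => (x (n + 1)) ^ 2 :=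
  (summable_nat_add_iff 1).mpr (summable_sq x)

theorem norm_sq' (x : H) : ‖x‖ ^ 2 = (x 0) ^ 2 + ∑' n, (x (n + 1)) ^ 2 := by
  rw [norm_sq, (summable_sq x).tsum_eq_zero_add]

/-- The tilted part. -/
noncomputable def qt (n : ℕ) (x : H) : ℝ := ep n * (|x (n + 1)| * x 0 - x (n + 1)) ^ 2

theorem qt_nonneg (n : ℕ) (x : H) : 0 ≤ qt n x := by
  unfold qt; have := ep_pos n; positivity

theorem coord_le (x : H) (n : ℕ) : |x n| ≤ ‖x‖ := lp.norm_apply_le_norm (by norm_num) x n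

theorem qt_le (n : ℕ) (x : H) : qt n x ≤ ep n * (‖x‖ ^ 2 * (1 + ‖x‖) ^ 2) := by
  unfold qt
  apply mul_le_mul_of_nonneg_left _ (ep_pos n).le
  have h1 : |(|x (n + 1)| * x 0 - x (n + 1))| ≤ ‖x‖ * (1 + ‖x‖) := by
    have h2 := coord_le x (n + 1)
    have h3 := coord_le x 0
    calc |(|x (n + 1)| * x 0 - x (n + 1))| ≤ |(|x (n + 1)| * x 0)| + |x (n + 1)| := abs_sub _ _
      _ = |x (n + 1)| * |x 0| + |x (n + 1)| := by rw [abs_mul, abs_abs]
      _ ≤ ‖x‖ * ‖x‖ + ‖x‖ := by gcongr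
      _ = _ := by ring
  calc (|x (n + 1)| * x 0 - x (n + 1)) ^ 2 = |(|x (n + 1)| * x 0 - x (n + 1))| ^ 2 :=
        (sq_abs _).symm
    _ ≤ (‖x‖ * (1 + ‖x‖)) ^ 2 := by gcongr
    _ = _ := by ring

theorem qt_summable (x : H) : Summable fun n => qt n x :=
  Summable.of_nonneg_of_le (fun n => qt_nonneg n x) (fun n => qt_le n x)
    (ep_summable.mul_right _)

/-- The convex functional defining the dual ball. -/
noncomputable def G (x : H) : ℝ := (‖x‖ ^ 2 - (x 0) ^ 2) + ∑' n, qt n x + be (x 0)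

theorem coord_continuous (n : ℕ) : Continuous fun x : H => x n :=
  (lp.lipschitzWith_one_eval (E := fun _ : ℕ => ℝ) 2 n).continuous

theorem G_continuous : Continuous G := by
  unfold G
  have h0 := coord_continuous 0
  have hbe : Continuous be := by unfold be; fun_prop
  have hq : Continuous fun x : H => ∑' n, qt n x := by
    rw [continuous_iff_continuousAt]
    intro f
    have hball : Metric.closedBall f 1 ∈ 𝓝 f := Metric.closedBall_mem_nhds f one_pos
    apply ContinuousOn.continuousAt _ hball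
    apply continuousOn_tsum (u := fun j => ep j * ((‖f‖ + 1) ^ 2 * (1 + (‖f‖ + 1)) ^ 2))
    · intro j
      apply Continuous.continuousOn
      unfold qt
      have h1 := coord_continuous (j + 1)
      exact continuous_const.mul (((h1.abs.mul h0).sub h1).pow 2)
    · exact ep_summable.mul_right _
    · intro j g hg
      rw [Real.norm_of_nonneg (qt_nonneg j g)]
      refine le_trans (qt_le j g) ?_
      have h1 : ‖g‖ ≤ ‖f‖ + 1 := by
        rw [Metric.mem_closedBall, dist_eq_norm] at hg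
        calc ‖g‖ = ‖(g - f) + f‖ := by congr 1; abel
          _ ≤ ‖g - f‖ + ‖f‖ := norm_add_le _ _
          _ ≤ _ := by linarith
      have := (ep_pos j).le
      gcongr
  exact (((continuous_norm.pow 2).sub (h0.pow 2)).add hq).add (hbe.comp h0)

theorem G_eq (x : H) : G x = ∑' n, phi (ep n) (x 0) (x (n + 1)) + be (x 0) := by
  have h : ∑' n, phi (ep n) (x 0) (x (n + 1)) = ∑' n, (x (n + 1)) ^ 2 + ∑' n, qt n x :=
    Summable.tsum_add (summable_sq' x) (qt_summable x)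
  unfold G
  rw [norm_sq', h]
  ring

theorem phi_summable (x : H) : Summable fun n => phi (ep n) (x 0) (x (n + 1)) := by
  unfold phi
  exact (summable_sq' x).add (qt_summable x)

theorem tail_le_G (x : H) : ‖x‖ ^ 2 - (x 0) ^ 2 ≤ G x := by
  unfold G
  have h1 : 0 ≤ ∑' n, qt n x := tsum_nonneg fun n => qt_nonneg n x
  have h2 := be_nonneg (x 0)
  linarith

theorem be_le_G (x : H) : be (x 0) ≤ G x := by
  unfold G
  have h1 : 0 ≤ ∑' n, qt n x := tsum_nonneg fun n => qt_nonneg n x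
  have h2 : 0 ≤ ‖x‖ ^ 2 - (x 0) ^ 2 := by
    have := coord_le x 0
    have h3 : (x 0) ^ 2 = |x 0| ^ 2 := (sq_abs _).symm
    have h4 : |x 0| ^ 2 ≤ ‖x‖ ^ 2 := by gcongr
    linarith
  linarith

theorem G_nonneg (x : H) : 0 ≤ G x := le_trans (be_nonneg _) (be_le_G x)

theorem G_neg (x : H) : G (-x) = G x := by
  unfold G
  have h1 : ∀ n, (-x : H) n = - x n := fun n => rfl
  have h2 : ∀ n, qt n (-x) = qt n x := by
    intro n
    unfold qt
    rw [h1, h1, abs_neg]; ring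
  rw [norm_neg, h1, be_neg]
  simp only [h2]
  ring

theorem G_zero : G 0 = 0 := by
  have h : ∀ n, (0 : H) n = 0 := fun n => rfl
  unfold G qt
  simp only [h]
  rw [be_zero (by simp)]
  simp

theorem coord_le_two {x : H} (hx : G x ≤ 1) : |x 0| ≤ 2 := be_le_one (le_trans (be_le_G x) hx)

theorem norm_le_three {x : H} (hx : G x ≤ 1) : ‖x‖ ≤ 3 := by
  have h1 := coord_le_two hx
  have h2 := tail_le_G x
  have h3 : (x 0) ^ 2 ≤ 4 := by
    rw [← sq_abs]; nlinarith [abs_nonneg (x 0)]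
  nlinarith [norm_nonneg x]

theorem G_conv (x y : H) (hx : |x 0| ≤ 2) (hy : |y 0| ≤ 2) (a b : ℝ) (ha : 0 ≤ a) (hb : 0 ≤ b)
    (hab : a + b = 1) : G (a • x + b • y) ≤ a * G x + b * G y -
      a * b * (∑' n, (x (n + 1) - y (n + 1)) ^ 2) / 2 := by
  have hc : ∀ n, (a • x + b • y : H) n = a * x n + b * y n := fun n => rfl
  rw [G_eq, G_eq, G_eq]
  simp only [hc]
  have h1 := be_conv a b (x 0) (y 0) ha hb hab
  have hsd : Summable fun n => (x (n + 1) - y (n + 1)) ^ 2 := by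
    have := summable_sq' (x - y)
    exact this
  have h2 : ∑' n, phi (ep n) (a * x 0 + b * y 0) (a * x (n + 1) + b * y (n + 1)) ≤
      ∑' n, (a * phi (ep n) (x 0) (x (n + 1)) + b * phi (ep n) (y 0) (y (n + 1))
        - a * b * (x (n + 1) - y (n + 1)) ^ 2 / 2) := by
    apply Summable.tsum_le_tsum
    · intro n
      exact phi_conv (ep n) a b _ _ _ _ ha hb hab (ep_pos n).le (ep_le n) hx hy
    · have := phi_summable (a • x + b • y)
      simp only [hc] at this
      exact this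
    · exact (((phi_summable x).mul_left a).add ((phi_summable y).mul_left b)).sub
        ((hsd.mul_left (a * b)).div_const 2)
  rw [Summable.tsum_sub (((phi_summable x).mul_left a).add ((phi_summable y).mul_left b))
        ((hsd.mul_left (a * b)).div_const 2),
    Summable.tsum_add ((phi_summable x).mul_left a) ((phi_summable y).mul_left b),
    tsum_mul_left, tsum_mul_left, tsum_div_const, tsum_mul_left] at h2
  linarith

theorem G_ball {x : H} (hx : ‖x‖ ≤ 1 / 2) : G x ≤ 1 := by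
  have h0 := coord_le x 0
  unfold G
  rw [be_zero (by linarith)]
  have h1 : ∑' n, qt n x ≤ ∑' n, ep n * (‖x‖ ^ 2 * (1 + ‖x‖) ^ 2) :=
    Summable.tsum_le_tsum (fun n => qt_le n x) (qt_summable x) (ep_summable.mul_right _)
  have h2 : ∑' n, ep n = 2 / 100 := by
    unfold ep
    rw [tsum_div_const, tsum_geometric_of_lt_one (by norm_num) (by norm_num)]
    norm_num
  rw [tsum_mul_right, h2] at h1
  have h3 := norm_nonneg x
  have h4 : ‖x‖ ^ 2 ≤ 1 / 4 := by nlinarith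
  have h5 : (1 + ‖x‖) ^ 2 ≤ 9 / 4 := by nlinarith
  have h6 : ‖x‖ ^ 2 * (1 + ‖x‖) ^ 2 ≤ 1 / 4 * (9 / 4) := by gcongr
  have h7 := sq_nonneg (x 0)
  linarith

/-- Strict midpoint convexity of the ball. -/
theorem G_strict {x y : H} (hx : G x ≤ 1) (hy : G y ≤ 1) (hxy : x ≠ y) :
    G ((1 / 2 : ℝ) • x + (1 / 2 : ℝ) • y) < 1 := by
  have hx2 := coord_le_two hx
  have hy2 := coord_le_two hy
  by_cases hdiff : ∃ n, x (n + 1) ≠ y (n + 1)
  · obtain ⟨n, hn⟩ := hdiff
    have h1 := G_conv x y hx2 hy2 (1 / 2) (1 / 2) (by norm_num) (by norm_num) (by norm_num)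
    have hsd : Summable fun n => (x (n + 1) - y (n + 1)) ^ 2 := by
      have := summable_sq' (x - y)
      exact this
    have h2 : 0 < ∑' n, (x (n + 1) - y (n + 1)) ^ 2 :=
      hsd.tsum_pos (fun n => sq_nonneg _) n (by
        have : x (n + 1) - y (n + 1) ≠ 0 := sub_ne_zero.mpr hn
        positivity)
    linarith
  · push Not at hdiff
    have h0 : x 0 ≠ y 0 := by
      intro h
      apply hxy
      apply lp.ext
      funext n
      cases n with
      | zero => exact h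
      | succ n => exact hdiff n
    set z : H := (1 / 2 : ℝ) • x + (1 / 2 : ℝ) • y with hz
    have hz0 : z 0 = (x 0 + y 0) / 2 := by
      have : z 0 = (1 / 2) * x 0 + (1 / 2) * y 0 := rfl
      rw [this]; ring
    have hzn : ∀ n, z (n + 1) = x (n + 1) := by
      intro n
      have : z (n + 1) = (1 / 2) * x (n + 1) + (1 / 2) * y (n + 1) := rfl
      rw [this, ← hdiff n]; ring
    have hbe := be_conv (1 / 2) (1 / 2) (x 0) (y 0) (by norm_num) (by norm_num) (by norm_num)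
    have e0 : (1 / 2) * x 0 + (1 / 2) * y 0 = z 0 := by rw [hz0]; ring
    rw [e0] at hbe
    by_cases hall : ∀ n, x (n + 1) = 0
    · -- only the barrier is left
      have hG : G z = be (z 0) := by
        rw [G_eq]
        have : ∀ n, phi (ep n) (z 0) (z (n + 1)) = 0 := by
          intro n
          rw [hzn, hall n]
          unfold phi
          simp
        simp [this]
      rw [hG]
      apply be_lt_one
      rw [hz0]
      have h1 := abs_le.mp hx2
      have h2 := abs_le.mp hy2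
      rw [abs_lt]
      rcases lt_or_gt_of_ne h0 with h | h
      · constructor <;> linarith
      · constructor <;> linarith
    · push Not at hall
      obtain ⟨n, hn⟩ := hall
      -- strict convexity in the first coordinate
      have hterm : ∀ i, phi (ep i) (z 0) (z (i + 1)) =
          (1 / 2) * phi (ep i) (x 0) (x (i + 1)) + (1 / 2) * phi (ep i) (y 0) (y (i + 1))
          - ep i * (x (i + 1)) ^ 2 * (x 0 - y 0) ^ 2 / 4 := by
        intro i
        rw [hzn, hz0, ← hdiff i]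
        unfold phi
        have : |x (i + 1)| ^ 2 = (x (i + 1)) ^ 2 := sq_abs _
        have e : ∀ h : ℝ, (|x (i + 1)| * h - x (i + 1)) ^ 2 =
            (x (i + 1)) ^ 2 * h ^ 2 - 2 * |x (i + 1)| * x (i + 1) * h + (x (i + 1)) ^ 2 := by
          intro h
          rw [← this]
          have : x (i + 1) ^ 2 = |x (i + 1)| ^ 2 := (sq_abs _).symm
          ring_nf
          rw [this]
          ring
        rw [e, e, e]
        ring
      have hlt : ∑' i, phi (ep i) (z 0) (z (i + 1)) <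
          ∑' i, ((1 / 2) * phi (ep i) (x 0) (x (i + 1)) +
            (1 / 2) * phi (ep i) (y 0) (y (i + 1))) := by
        apply Summable.tsum_lt_tsum (i := n)
        · intro i
          have ht := hterm i
          have : 0 ≤ ep i * (x (i + 1)) ^ 2 * (x 0 - y 0) ^ 2 / 4 := by
            have := (ep_pos i).le
            positivity
          change phi (ep i) (z 0) (z (i + 1)) ≤ (1 / 2) * phi (ep i) (x 0) (x (i + 1)) +
            (1 / 2) * phi (ep i) (y 0) (y (i + 1))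
          linarith
        · have ht := hterm n
          have : 0 < ep n * (x (n + 1)) ^ 2 * (x 0 - y 0) ^ 2 / 4 := by
            have := ep_pos n
            have h3 : x 0 - y 0 ≠ 0 := sub_ne_zero.mpr h0
            positivity
          linarith
        · exact phi_summable z
        · exact ((phi_summable x).mul_left _).add ((phi_summable y).mul_left _)
      rw [Summable.tsum_add ((phi_summable x).mul_left _) ((phi_summable y).mul_left _),
        tsum_mul_left, tsum_mul_left] at hlt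
      rw [G_eq] at hx hy
      rw [G_eq]
      linarith

end Pool.Agent.Helper871.Geo
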