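import Mathlib

set_option autoImplicit false

namespace Pool.Agent.Helper871.Renorm

open Filter Topology Set

/-- An equivalent norm on a normed space. -/
structure EqNorm (H : Type) [NormedAddCommGroup H] [NormedSpace ℝ H] where
  p : H → ℝ
  add : ∀ x y, p (x + y) ≤ p x + p y
  smul : ∀ (c : ℝ) (x : H), p (c • x) = |c| * p x
  a : ℝ
  b : ℝ
  a_pos : 0 < a
  lo : ∀ x, a * ‖x‖ ≤ p x
  hi : ∀ x, p x ≤ b * ‖x‖

variable {H : Type} [NormedAddCommGroup H] [NormedSpace ℝ H]

/-- The space with the new norm. -/
def Rn (_e : EqNorm H) : Type := H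

variable (e : EqNorm H)

instance : AddCommGroup (Rn e) := inferInstanceAs (AddCommGroup H)
instance : Module ℝ (Rn e) := inferInstanceAs (Module ℝ H)
instance : Norm (Rn e) := ⟨e.p⟩

/-- The identity map. -/
def toRn : H ≃ₗ[ℝ] Rn e := LinearEquiv.refl ℝ H

theorem norm_toRn (x : H) : ‖toRn e x‖ = e.p x := rfl

theorem core : NormedSpace.Core ℝ (Rn e) where
  norm_nonneg x := le_trans (mul_nonneg e.a_pos.le (norm_nonneg (E := H) x)) (e.lo x)
  norm_smul c x := e.smul c x
  norm_triangle x y := e.add x y
  norm_eq_zero_iff x := by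
    constructor
    · intro h
      have h1 := e.lo x
      have h2 : e.p x = 0 := h
      rw [h2] at h1
      have h3 : norm (E := H) x ≤ 0 := by
        by_contra hcon
        push Not at hcon
        have := mul_pos e.a_pos hcon
        linarith
      exact (norm_le_zero_iff (E := H)).mp h3
    · rintro rfl
      have h1 := e.smul 0 0
      have h2 : e.p 0 = 0 := by simpa using h1
      exact h2

noncomputable instance : NormedAddCommGroup (Rn e) := NormedAddCommGroup.ofCore (core e)
noncomputable instance : NormedSpace ℝ (Rn e) := NormedSpace.ofCore (core e)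

/-- The identity map as a continuous linear equivalence. -/
noncomputable def eqv : H ≃L[ℝ] Rn e :=
  { toRn e with
    continuous_toFun := by
      have : Continuous (toRn e).toLinearMap := by
        apply AddMonoidHomClass.continuous_of_bound (toRn e).toLinearMap e.b
        intro x
        exact e.hi x
      exact this
    continuous_invFun := by
      have : Continuous (toRn e).symm.toLinearMap := by
        apply AddMonoidHomClass.continuous_of_bound (toRn e).symm.toLinearMap (e.a⁻¹)
        intro x
        rw [inv_mul_eq_div, le_div_iff₀ e.a_pos, mul_comm]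
        exact e.lo x
      exact this }

theorem norm_eqv (x : H) : ‖eqv e x‖ = e.p x := rfl

instance [CompleteSpace H] : CompleteSpace (Rn e) :=
  (completeSpace_congr (e := (eqv e).toLinearEquiv.toEquiv) (eqv e).isUniformEmbedding).mp
    inferInstance

theorem reflexive_transfer {E F : Type} [NormedAddCommGroup E] [NormedSpace ℝ E]
    [NormedAddCommGroup F] [NormedSpace ℝ F] (φ : E ≃L[ℝ] F)
    (h : Function.Surjective (NormedSpace.inclusionInDoubleDual ℝ E)) :
    Function.Surjective (NormedSpace.inclusionInDoubleDual ℝ F) := by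
  intro ξ
  let T : StrongDual ℝ E →L[ℝ] StrongDual ℝ F :=
    (ContinuousLinearMap.compL ℝ F E ℝ).flip (φ.symm : F →L[ℝ] E)
  obtain ⟨x, hx⟩ := h (ξ.comp T)
  refine ⟨φ x, ?_⟩
  ext f
  rw [NormedSpace.dual_def]
  have h1 := congrArg (fun k : StrongDual ℝ (StrongDual ℝ E) => k (f.comp (φ : E →L[ℝ] F))) hx
  simp only [NormedSpace.dual_def] at h1
  have h2 : T (f.comp (φ : E →L[ℝ] F)) = f := by
    ext y
    change f (φ (φ.symm y)) = f y
    rw [φ.apply_symm_apply]
  change f (φ x) = ξ (T (f.comp (φ : E →L[ℝ] F))) at h1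
  rw [h2] at h1
  exact h1

theorem hilbert_reflexive (E : Type) [NormedAddCommGroup E] [InnerProductSpace ℝ E]
    [CompleteSpace E] : Function.Surjective (NormedSpace.inclusionInDoubleDual ℝ E) := by
  intro ξ
  -- pull back to E via Riesz
  let R : E →L[ℝ] StrongDual ℝ E := innerSL ℝ
  refine ⟨(InnerProductSpace.toDual ℝ E).symm (ξ.comp R), ?_⟩
  ext f
  rw [NormedSpace.dual_def]
  have h1 : f = R ((InnerProductSpace.toDual ℝ E).symm f) := by
    ext y
    change f y = inner ℝ ((InnerProductSpace.toDual ℝ E).symm f) y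
    rw [InnerProductSpace.toDual_symm_apply]
  have h2 : f ((InnerProductSpace.toDual ℝ E).symm (ξ.comp R)) =
      inner ℝ ((InnerProductSpace.toDual ℝ E).symm f)
        ((InnerProductSpace.toDual ℝ E).symm (ξ.comp R)) := by
    rw [InnerProductSpace.toDual_symm_apply]
  rw [h2, real_inner_comm, InnerProductSpace.toDual_symm_apply]
  change ξ (R _) = ξ f
  rw [← h1]

end Pool.Agent.Helper871.Renorm
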