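import Mathlib
import Pool.Agent.Helper871.NormExt
import Pool.Agent.Helper871.Geo
import Pool.Agent.Helper871.Renorm

set_option autoImplicit false

namespace Pool.Agent.Helper871.Geo2

open Filter Topology Set
open Pool.Agent.Helper871.NormExt Pool.Agent.Helper871.Geo Pool.Agent.Helper871.Renorm

/-- Convex norm closed sets of functionals on a reflexive space are weak-star closed. -/
theorem wclosed_of_convex {E : Type} [NormedAddCommGroup E] [NormedSpace ℝ E]
    (hE : Function.Surjective (NormedSpace.inclusionInDoubleDual ℝ E))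
    (C : Set (StrongDual ℝ E)) (hC : Convex ℝ C) (hcl : IsClosed C) : WClosed C := by
  unfold WClosed
  rw [← isOpen_compl_iff, isOpen_iff_mem_nhds]
  intro f hf
  obtain ⟨F, u, hF1, hF2⟩ := geometric_hahn_banach_closed_point (E := StrongDual ℝ E) hC hcl
    (x := WeakDual.toStrongDual f) hf
  obtain ⟨x, rfl⟩ := hE F
  have hopen : IsOpen {g : WeakDual ℝ E | u < g x} :=
    isOpen_lt continuous_const (WeakDual.eval_continuous x)
  filter_upwards [hopen.mem_nhds hF2] with g hg hgC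
  have h1 := hF1 (WeakDual.toStrongDual g) hgC
  have h2 : u < (WeakDual.toStrongDual g) x := hg
  have h3 : (WeakDual.toStrongDual g) x < u := h1
  exact absurd h2 (not_lt.mpr h3.le)

/-- The bipolar statement. -/
theorem mem_of_le_supp {E : Type} [NormedAddCommGroup E] [NormedSpace ℝ E]
    (hE : Function.Surjective (NormedSpace.inclusionInDoubleDual ℝ E))
    (C : Set (StrongDual ℝ E)) (hC : Convex ℝ C) (hcl : IsClosed C) (hne : C.Nonempty)
    (f : StrongDual ℝ E) (hf : ∀ v, f v ≤ supp C v) : f ∈ C := by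
  by_contra hcon
  obtain ⟨F, u, hF1, hF2⟩ := geometric_hahn_banach_closed_point (E := StrongDual ℝ E) hC hcl hcon
  obtain ⟨x, rfl⟩ := hE F
  have h1 : supp C x ≤ u := supp_le hne fun g hg => (hF1 g hg).le
  have h2 := hf x
  have h3 : u < f x := hF2
  linarith

/-- Riesz representatives. -/
noncomputable def D (f : StrongDual ℝ H) : H := (InnerProductSpace.toDual ℝ H).symm f

theorem inner_D (f : StrongDual ℝ H) (v : H) : inner ℝ (D f) v = f v :=
  InnerProductSpace.toDual_symm_apply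

theorem norm_D (f : StrongDual ℝ H) : ‖D f‖ = ‖f‖ := LinearIsometryEquiv.norm_map _ _

theorem D_continuous : Continuous D := (InnerProductSpace.toDual ℝ H).symm.continuous

theorem D_comb (a b : ℝ) (f g : StrongDual ℝ H) : D (a • f + b • g) = a • D f + b • D g := by
  apply ext_inner_right ℝ
  intro v
  rw [inner_D, inner_add_left, inner_smul_left, inner_smul_left, inner_D, inner_D]
  simp

theorem D_neg (f : StrongDual ℝ H) : D (-f) = - D f := by
  unfold D; rw [map_neg]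

theorem D_toDual (x : H) : D (InnerProductSpace.toDual ℝ H x) = x := by
  unfold D; simp

/-- Unit vectors. -/
noncomputable def e (n : ℕ) : H := lp.single 2 n (1 : ℝ)

theorem e_apply (n m : ℕ) : e n m = if m = n then 1 else 0 := by
  unfold e
  rw [lp.single_apply, Pi.single_apply]

theorem inner_e (x : H) (n : ℕ) : inner ℝ x (e n) = x n := by
  unfold e
  rw [lp.inner_single_right]
  simp

theorem D_apply (f : StrongDual ℝ H) (n : ℕ) : D f n = f (e n) := by
  rw [← inner_e, inner_D]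

/-- The dual ball. -/
def Bs : Set (StrongDual ℝ H) := {f | G (D f) ≤ 1}

theorem Bs_convex : Convex ℝ Bs := by
  intro f hf g hg a b ha hb hab
  have h1 := G_conv (D f) (D g) (coord_le_two hf) (coord_le_two hg) a b ha hb hab
  change G (D (a • f + b • g)) ≤ 1
  rw [D_comb]
  have h2 : 0 ≤ a * b * (∑' n, (D f (n + 1) - D g (n + 1)) ^ 2) / 2 := by
    have : 0 ≤ ∑' n, (D f (n + 1) - D g (n + 1)) ^ 2 := tsum_nonneg fun n => sq_nonneg _
    positivity
  have h3 : G (D f) ≤ 1 := hf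
  have h4 : G (D g) ≤ 1 := hg
  nlinarith

theorem Bs_closed : IsClosed Bs := isClosed_le (G_continuous.comp D_continuous) continuous_const

theorem H_refl : Function.Surjective (NormedSpace.inclusionInDoubleDual ℝ H) :=
  hilbert_reflexive H

theorem Bs_wclosed : WClosed Bs := wclosed_of_convex H_refl Bs Bs_convex Bs_closed

theorem Bs_bdd : ∀ f ∈ Bs, ‖f‖ ≤ 3 := by
  intro f hf
  rw [← norm_D]
  exact norm_le_three hf

theorem Bs_neg : ∀ f ∈ Bs, -f ∈ Bs := by
  intro f hf
  change G (D (-f)) ≤ 1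
  rw [D_neg, G_neg]
  exact hf

theorem Bs_ball : ∀ f : StrongDual ℝ H, ‖f‖ ≤ 1 / 2 → f ∈ Bs := by
  intro f hf
  exact G_ball (by rw [norm_D]; exact hf)

theorem Bs_ne : Bs.Nonempty := ⟨0, Bs_ball 0 (by simp)⟩

theorem Bs_unique {v : H} (hv : v ≠ 0) {f g : StrongDual ℝ H} (hf : f ∈ Bs)
    (hfv : f v = supp Bs v) (hg : g ∈ Bs) (hgv : g v = supp Bs v) : f = g := by
  by_contra hne
  have hDne : D f ≠ D g := by
    intro h
    apply hne
    ext w
    rw [← inner_D, ← inner_D, h]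
  have hlt := G_strict hf hg hDne
  rw [← D_comb] at hlt
  set k := (1 / 2 : ℝ) • f + (1 / 2 : ℝ) • g with hk
  have hkv : k v = supp Bs v := by
    have : k v = (1 / 2) * f v + (1 / 2) * g v := rfl
    rw [this, hfv, hgv]; ring
  have hpos : 0 < supp Bs v := by
    have := norm_le_supp 3 Bs_bdd (1 / 2) (by norm_num) Bs_ball v
    have h2 : 0 < ‖v‖ := norm_pos_iff.mpr hv
    linarith
  -- scale up
  have hcont : Continuous fun t : ℝ => G (D (t • k)) := by
    have h1 : Continuous fun t : ℝ => t • k := by fun_prop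
    exact (G_continuous.comp D_continuous).comp h1
  have hone : G (D ((1 : ℝ) • k)) < 1 := by rw [one_smul]; exact hlt
  have hev : ∀ᶠ t in 𝓝 (1 : ℝ), G (D (t • k)) < 1 :=
    (hcont.tendsto 1).eventually (gt_mem_nhds hone)
  rw [Metric.eventually_nhds_iff] at hev
  obtain ⟨ε, hε, hε'⟩ := hev
  have h1 := hε' (y := 1 + ε / 2) (by
    rw [Real.dist_eq, abs_of_pos (by linarith)]; linarith)
  have h2 : (1 + ε / 2) • k ∈ Bs := h1.le
  have h3 := le_supp 3 Bs_bdd h2 v
  have h4 : ((1 + ε / 2) • k) v = (1 + ε / 2) * k v := rfl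
  rw [h4, hkv] at h3
  nlinarith

/-- The new norm. -/
noncomputable def eqn : EqNorm H where
  p := supp Bs
  add := supp_add 3 Bs_bdd Bs_ne
  smul := supp_smul 3 Bs_bdd Bs_ne Bs_neg
  a := 1 / 2
  b := 3
  a_pos := by norm_num
  lo := norm_le_supp 3 Bs_bdd (1 / 2) (by norm_num) Bs_ball
  hi := supp_le_norm 3 Bs_bdd Bs_ne

/-- The example. -/
abbrev X := Rn eqn

/-- The identity map. -/
noncomputable abbrev φ : H ≃L[ℝ] X := eqv eqn

theorem norm_φ (v : H) : ‖φ v‖ = supp Bs v := rfl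

theorem mem_Bs_of_norm {F : StrongDual ℝ X} (hF : ‖F‖ ≤ 1) : F.comp (φ : H →L[ℝ] X) ∈ Bs := by
  apply mem_of_le_supp H_refl Bs Bs_convex Bs_closed Bs_ne
  intro v
  calc F (φ v) ≤ ‖F (φ v)‖ := le_abs_self _
    _ ≤ ‖F‖ * ‖φ v‖ := F.le_opNorm _
    _ ≤ 1 * ‖φ v‖ := by gcongr
    _ = supp Bs v := by rw [one_mul, norm_φ]

theorem gateaux (x : X) (hx : x ≠ 0) : ∃ f : X →L[ℝ] ℝ,
    ∀ v : X, HasLineDerivAt ℝ (fun y : X => ‖y‖) (f v) x v := by
  set v₀ : H := φ.symm x with hv₀
  have hv₀ne : v₀ ≠ 0 := by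
    intro h
    apply hx
    rw [← φ.apply_symm_apply x, ← hv₀, h, map_zero]
  obtain ⟨f₀, hf₀, hmax⟩ := exists_max Bs_wclosed 3 Bs_bdd Bs_ne v₀
  have hf₀v : f₀ v₀ = supp Bs v₀ :=
    le_antisymm (le_supp 3 Bs_bdd hf₀ v₀) (supp_le Bs_ne hmax)
  refine ⟨f₀.comp (φ.symm : X →L[ℝ] H), fun v => ?_⟩
  have h1 := supp_gateaux Bs_wclosed 3 Bs_bdd Bs_ne v₀ f₀ hf₀ hf₀v
    (fun f hf hfz => Bs_unique hv₀ne hf hfz hf₀ hf₀v) (φ.symm v)
  exact h1

/-- The coordinate functional. -/
noncomputable def co : X →L[ℝ] ℝ :=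
  (lp.evalCLM ℝ (fun _ : ℕ => ℝ) 2 0).comp (φ.symm : X →L[ℝ] H)

theorem co_apply (v : H) : co (φ v) = v 0 := rfl

/-- The subspace. -/
noncomputable def E : Subspace ℝ X := LinearMap.ker (co : X →ₗ[ℝ] ℝ)

theorem E_closed : IsClosed (E : Set X) := co.isClosed_ker

theorem mem_E (x : X) : x ∈ E ↔ co x = 0 := LinearMap.mem_ker

/-- The first unit vector in `X`. -/
noncomputable def x₀ : X := φ (e 0)

theorem co_x₀ : co x₀ = 1 := by
  change (e 0 : H) 0 = 1
  rw [e_apply]; simp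

/-- The projection onto `E`. -/
noncomputable def π : X →L[ℝ] E :=
  (ContinuousLinearMap.id ℝ X - co.smulRight x₀).codRestrict E (by
    intro x
    rw [mem_E]
    simp [co_x₀])

theorem π_apply (x : X) : (π x : X) = x - co x • x₀ := rfl

theorem π_E (x : E) : π x = x := by
  apply Subtype.ext
  rw [π_apply, (mem_E _).mp x.2, zero_smul, sub_zero]

theorem en_mem (n : ℕ) : φ (e (n + 1)) ∈ E := by
  rw [mem_E, co_apply, e_apply]; simp

/-- The one-variable optimisation. -/
theorem opt (A B ε t : ℝ) (hA : 0 ≤ A) (hB : |B| ≤ A) (hε : 0 < ε) :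
    A * (B / (A + ε)) ^ 2 - 2 * B * (B / (A + ε)) ≤ A * t ^ 2 - 2 * B * t + ε := by
  have hAε : 0 < A + ε := by linarith
  have hB' := abs_le.mp hB
  -- truncation of t
  have key : ∀ s : ℝ, |s| ≤ 1 → A * (B / (A + ε)) ^ 2 - 2 * B * (B / (A + ε)) ≤
      A * s ^ 2 - 2 * B * s + ε := by
    intro s hs
    have h1 : (A + ε) * (B / (A + ε)) ^ 2 - 2 * B * (B / (A + ε)) ≤
        (A + ε) * s ^ 2 - 2 * B * s := by
      have e1 : (A + ε) * (B / (A + ε)) = B := by field_simp
      set h := B / (A + ε)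
      rw [← e1]
      nlinarith [mul_nonneg hAε.le (sq_nonneg (s - h))]
    have h2 : s ^ 2 ≤ 1 := by
      rw [← sq_abs]; nlinarith [abs_nonneg s]
    nlinarith [mul_nonneg hε.le (sq_nonneg (B / (A + ε)))]
  rcases le_total t 1 with h1 | h1
  · rcases le_total (-1) t with h2 | h2
    · exact key t (abs_le.mpr ⟨h2, h1⟩)
    · have := key (-1) (by norm_num)
      nlinarith [mul_nonneg (show (0:ℝ) ≤ -1 - t by linarith) (show 0 ≤ A * (1 - t) + 2 * B by
        nlinarith)]
  · have := key 1 (by norm_num)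
    nlinarith [mul_nonneg (show (0:ℝ) ≤ t - 1 by linarith) (show 0 ≤ A * (t + 1) - 2 * B by
        nlinarith)]

section EP

variable {K : Type} [TopologicalSpace K] [CompactSpace K] [T2Space K]

/-- Change of the first coordinate. -/
noncomputable def chg (b : H) (h : ℝ) : H := b + (h - b 0) • e 0

theorem chg_zero (b : H) (h : ℝ) : chg b h 0 = h := by
  have : chg b h 0 = b 0 + (h - b 0) * e 0 0 := rfl
  rw [this, e_apply]; simp

theorem chg_succ (b : H) (h : ℝ) (n : ℕ) : chg b h (n + 1) = b (n + 1) := by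
  have : chg b h (n + 1) = b (n + 1) + (h - b 0) * e 0 (n + 1) := rfl
  rw [this, e_apply]; simp

noncomputable def Aq (b : H) : ℝ := ∑' n, ep n * (b (n + 1)) ^ 2
noncomputable def Bq (b : H) : ℝ := ∑' n, ep n * (b (n + 1) * |b (n + 1)|)

theorem Aq_summable (b : H) : Summable fun n => ep n * (b (n + 1)) ^ 2 := by
  apply Summable.of_nonneg_of_le (fun n => by have := ep_pos n; positivity) _
    (ep_summable.mul_right (‖b‖ ^ 2))
  intro n
  have h1 := coord_le b (n + 1)
  have : (b (n + 1)) ^ 2 ≤ ‖b‖ ^ 2 := by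
    rw [← sq_abs]; gcongr
  have := (ep_pos n).le
  gcongr

theorem Bq_abs (b : H) (n : ℕ) : |ep n * (b (n + 1) * |b (n + 1)|)| = ep n * (b (n + 1)) ^ 2 := by
  rw [abs_mul, abs_mul, abs_abs, abs_of_pos (ep_pos n), ← sq_abs (b (n + 1))]
  ring

theorem Bq_summable (b : H) : Summable fun n => ep n * (b (n + 1) * |b (n + 1)|) := by
  apply Summable.of_abs
  simp only [Bq_abs]
  exact Aq_summable b

theorem Aq_nonneg (b : H) : 0 ≤ Aq b := tsum_nonneg fun n => by have := ep_pos n; positivity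

theorem Bq_le (b : H) : |Bq b| ≤ Aq b := by
  unfold Bq Aq
  have h1 : Summable fun n => ‖ep n * (b (n + 1) * |b (n + 1)|)‖ := by
    simp only [Real.norm_eq_abs, Bq_abs]
    exact Aq_summable b
  have h2 := norm_tsum_le_tsum_norm h1
  simp only [Real.norm_eq_abs, Bq_abs] at h2
  exact h2

theorem qt_sum (x : H) : ∑' n, qt n x = Aq x * (x 0) ^ 2 - 2 * Bq x * (x 0) + Aq x := by
  have h : ∀ n, qt n x = (ep n * (x (n + 1)) ^ 2) * (x 0) ^ 2 -
      (ep n * (x (n + 1) * |x (n + 1)|)) * (2 * x 0) + ep n * (x (n + 1)) ^ 2 := by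
    intro n
    unfold qt
    have : |x (n + 1)| ^ 2 = (x (n + 1)) ^ 2 := sq_abs _
    have e1 : (|x (n + 1)| * x 0 - x (n + 1)) ^ 2 =
        |x (n + 1)| ^ 2 * (x 0) ^ 2 - 2 * x 0 * (x (n + 1) * |x (n + 1)|) + (x (n + 1)) ^ 2 := by
      ring
    rw [e1, this]; ring
  simp only [h]
  rw [Summable.tsum_add (((Aq_summable x).mul_right _).sub ((Bq_summable x).mul_right _))
    (Aq_summable x), Summable.tsum_sub ((Aq_summable x).mul_right _)
    ((Bq_summable x).mul_right _), tsum_mul_right, tsum_mul_right]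
  unfold Aq Bq
  ring

theorem G_chg (b : H) (ε : ℝ) (hε : 0 < ε) : G (chg b (Bq b / (Aq b + ε))) ≤ G b + ε := by
  have hA := Aq_nonneg b
  have hB := Bq_le b
  have hB' := abs_le.mp hB
  set h := Bq b / (Aq b + ε) with hh
  have hAε : 0 < Aq b + ε := by linarith
  have hh1 : |h| ≤ 1 := by
    rw [hh, abs_div, abs_of_pos hAε, div_le_one hAε]; linarith
  have hnorm : ‖chg b h‖ ^ 2 - (chg b h 0) ^ 2 = ‖b‖ ^ 2 - (b 0) ^ 2 := by
    rw [norm_sq', norm_sq']
    simp only [chg_succ]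
    ring
  have hAq : Aq (chg b h) = Aq b := by unfold Aq; simp only [chg_succ]
  have hBq : Bq (chg b h) = Bq b := by unfold Bq; simp only [chg_succ]
  unfold G
  rw [hnorm, qt_sum, qt_sum, hAq, hBq, chg_zero, be_zero hh1]
  have h1 := opt (Aq b) (Bq b) ε (b 0) hA hB hε
  rw [← hh] at h1
  have h2 := be_nonneg (b 0)
  linarith

theorem scaled (b : H) (ε : ℝ) (hε : 0 < ε) (hb0 : |b 0| ≤ 2) (hb : G b ≤ 1 + ε) :
    G ((1 / (1 + ε)) • b) ≤ 1 := by
  have h1 := G_conv b 0 hb0 (by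
    have : (0 : H) 0 = 0 := rfl
    rw [this]; norm_num) (1 / (1 + ε)) (ε / (1 + ε)) (by positivity) (by positivity)
      (by field_simp)
  rw [smul_zero, add_zero, G_zero, mul_zero, add_zero] at h1
  have h2 : 0 ≤ 1 / (1 + ε) * (ε / (1 + ε)) *
      (∑' n, (b (n + 1) - (0 : H) (n + 1)) ^ 2) / 2 := by
    have : 0 ≤ ∑' n, (b (n + 1) - (0 : H) (n + 1)) ^ 2 := tsum_nonneg fun n => sq_nonneg _
    positivity
  have h3 : 1 / (1 + ε) * G b ≤ 1 := by
    rw [one_div, inv_mul_eq_div, div_le_one (by linarith)]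
    exact hb
  linarith

theorem ep_property (ε : ℝ) (hε : 0 < ε) (T : ↥E →L[ℝ] C(K, ℝ)) :
    ∃ S : X →L[ℝ] C(K, ℝ), (∀ x : ↥E, S (x : X) = T x) ∧ ‖S‖ ≤ (1 + ε) * ‖T‖ := by
  by_cases hT : ‖T‖ = 0
  · refine ⟨0, fun x => ?_, ?_⟩
    · have h1 := T.le_opNorm x
      rw [hT, zero_mul] at h1
      have h2 : T x = 0 := norm_le_zero_iff.mp h1
      rw [h2]; rfl
    · rw [hT, mul_zero]
      exact ContinuousLinearMap.opNorm_zero.le
  have hTpos : 0 < ‖T‖ := lt_of_le_of_ne (ContinuousLinearMap.opNorm_nonneg T) (Ne.symm hT)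
  -- functionals
  have hF : ∀ k : K, ∃ F : StrongDual ℝ X, ‖F‖ ≤ 1 ∧ ∀ x : E, F x = (T x) k / ‖T‖ := by
    intro k
    let τ : StrongDual ℝ E := (‖T‖⁻¹) • ((ContinuousMap.evalCLM ℝ k).comp T)
    obtain ⟨F, hF1, hF2⟩ := exists_extension_norm_eq E τ
    refine ⟨F, ?_, fun x => ?_⟩
    · rw [hF2]
      apply ContinuousLinearMap.opNorm_le_bound _ zero_le_one
      intro x
      change ‖‖T‖⁻¹ * (T x) k‖ ≤ 1 * ‖x‖
      have hnn : ‖(‖T‖ : ℝ)‖ = ‖T‖ := Real.norm_of_nonneg (ContinuousLinearMap.opNorm_nonneg T)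
      rw [norm_mul, norm_inv, hnn, one_mul, inv_mul_eq_div, div_le_iff₀ hTpos]
      calc ‖(T x) k‖ ≤ ‖T x‖ := ContinuousMap.norm_coe_le_norm _ _
        _ ≤ ‖T‖ * ‖x‖ := T.le_opNorm x
        _ = ‖x‖ * ‖T‖ := mul_comm _ _
    · rw [hF1]
      change ‖T‖⁻¹ * (T x) k = _
      field_simp
  choose F hF1 hF2 using hF
  set b : K → H := fun k => D ((F k).comp (φ : H →L[ℝ] X)) with hb
  have hbG : ∀ k, G (b k) ≤ 1 := fun k => mem_Bs_of_norm (hF1 k)
  have hbn : ∀ k n, b k (n + 1) = (T ⟨φ (e (n + 1)), en_mem n⟩) k / ‖T‖ := by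
    intro k n
    rw [hb]
    simp only
    rw [D_apply]
    exact hF2 k ⟨φ (e (n + 1)), en_mem n⟩
  have hbc : ∀ n, Continuous fun k => b k (n + 1) := by
    intro n
    simp only [hbn]
    exact (ContinuousMap.continuous _).div_const _
  have hb3 : ∀ k n, |b k n| ≤ 3 := fun k n => le_trans (coord_le _ _) (norm_le_three (hbG k))
  have hAc : Continuous fun k => Aq (b k) := by
    unfold Aq
    apply continuous_tsum (f := fun n k => ep n * (b k (n + 1)) ^ 2) (u := fun n => ep n * 9)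
      (fun n => continuous_const.mul ((hbc n).pow 2)) (ep_summable.mul_right _)
    intro n k
    have hep := (ep_pos n).le
    rw [Real.norm_of_nonneg (mul_nonneg hep (sq_nonneg _))]
    have h1 := hb3 k (n + 1)
    have h2 : (b k (n + 1)) ^ 2 ≤ 9 := by
      rw [← sq_abs]; nlinarith [abs_nonneg (b k (n + 1))]
    exact mul_le_mul_of_nonneg_left h2 hep
  have hBc : Continuous fun k => Bq (b k) := by
    unfold Bq
    apply continuous_tsum (f := fun n k => ep n * (b k (n + 1) * |b k (n + 1)|))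
      (u := fun n => ep n * 9)
      (fun n => continuous_const.mul ((hbc n).mul (hbc n).abs)) (ep_summable.mul_right _)
    intro n k
    have hep := (ep_pos n).le
    rw [Real.norm_eq_abs, Bq_abs]
    have h1 := hb3 k (n + 1)
    have h2 : (b k (n + 1)) ^ 2 ≤ 9 := by
      rw [← sq_abs]; nlinarith [abs_nonneg (b k (n + 1))]
    exact mul_le_mul_of_nonneg_left h2 hep
  have hden : ∀ k, Aq (b k) + ε ≠ 0 := fun k => by
    have := Aq_nonneg (b k)
    linarith
  let h : C(K, ℝ) := ⟨fun k => Bq (b k) / (Aq (b k) + ε), hBc.div (hAc.add continuous_const) hden⟩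
  let S : X →L[ℝ] C(K, ℝ) := T.comp π + co.smulRight (‖T‖ • h)
  have hSE : ∀ x : ↥E, S (x : X) = T x := by
    intro x
    change T (π (x : X)) + co (x : X) • (‖T‖ • h) = T x
    rw [π_E, (mem_E _).mp x.2, zero_smul, add_zero]
  refine ⟨S, hSE, ?_⟩
  apply ContinuousLinearMap.opNorm_le_bound _ (by positivity)
  -- the key estimate
  have key : ∀ (v : H) (k : K), (S (φ v)) k ≤ (1 + ε) * ‖T‖ * ‖φ v‖ := by
    intro v k
    set b' := chg (b k) (h k) with hb'
    have hGb' : G b' ≤ 1 + ε := le_trans (G_chg (b k) ε hε) (by linarith [hbG k])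
    have hhk : |h k| ≤ 1 := by
      change |Bq (b k) / (Aq (b k) + ε)| ≤ 1
      have hA := Aq_nonneg (b k)
      have hAε : 0 < Aq (b k) + ε := by linarith
      rw [abs_div, abs_of_pos hAε, div_le_one hAε]
      linarith [Bq_le (b k)]
    have h0 : |b' 0| ≤ 2 := by rw [hb', chg_zero]; linarith
    have hsc := scaled b' ε hε h0 hGb'
    have hmem : InnerProductSpace.toDual ℝ H ((1 / (1 + ε)) • b') ∈ Bs := by
      change G (D _) ≤ 1
      rw [D_toDual]; exact hsc
    have h1 := le_supp 3 Bs_bdd hmem v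
    rw [InnerProductSpace.toDual_apply_apply, inner_smul_left] at h1
    simp only [RCLike.conj_to_real] at h1
    have h2 : inner ℝ b' v ≤ (1 + ε) * supp Bs v := by
      rw [one_div, inv_mul_eq_div, div_le_iff₀ (by linarith)] at h1
      linarith
    have h3 : inner ℝ b' v = inner ℝ (b k) v + (h k - b k 0) * v 0 := by
      rw [hb']
      unfold chg
      rw [inner_add_left, inner_smul_left, real_inner_comm (e 0) v |>.symm, real_inner_comm,
        inner_e]
      simp
    -- identify S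
    have h4 : (S (φ v)) k = (T (π (φ v))) k + v 0 * (‖T‖ * h k) := rfl
    have h5 : (T (π (φ v))) k = ‖T‖ * F k (π (φ v) : X) := by
      rw [hF2]; field_simp
    have h6 : F k (π (φ v) : X) = inner ℝ (b k) v - v 0 * b k 0 := by
      rw [π_apply, map_sub, map_smul, co_apply, smul_eq_mul]
      have e1 : F k (φ v) = inner ℝ (b k) v := by
        rw [hb]; simp only; rw [inner_D]; rfl
      have e2 : F k x₀ = b k 0 := by
        rw [hb]; simp only; rw [D_apply]; rfl
      rw [e1, e2]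
    rw [h4, h5, h6, norm_φ]
    have h7 : ‖T‖ * inner ℝ b' v ≤ ‖T‖ * ((1 + ε) * supp Bs v) := by gcongr
    rw [h3] at h7
    linarith
  intro x
  obtain ⟨v, rfl⟩ := φ.surjective x
  rw [ContinuousMap.norm_le _ (by positivity)]
  intro k
  rw [Real.norm_eq_abs, abs_le]
  constructor
  · have := key (-v) k
    rw [map_neg, map_neg, norm_neg] at this
    have h2 : (-(S (φ v))) k = - (S (φ v)) k := rfl
    rw [h2] at this
    linarith
  · exact key v k

end EP

section NoEP

theorem coord_tendsto (x : H) : Tendsto (fun n => x n) atTop (𝓝 0) := by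
  have h1 := (summable_sq x).tendsto_atTop_zero
  have h2 := h1.sqrt
  rw [Real.sqrt_zero] at h2
  simp only [Real.sqrt_sq_eq_abs] at h2
  exact (tendsto_zero_iff_abs_tendsto_zero _).mpr h2

theorem sgn_tendsto (x : H) :
    Tendsto (fun n : ℕ => (-1 : ℝ) ^ n * x (n / 2 + 1)) atTop (𝓝 0) := by
  have h1 : Tendsto (fun n : ℕ => n / 2 + 1) atTop atTop := by
    apply tendsto_atTop_mono (f := fun n => n / 2) (fun n => Nat.le_succ _)
    exact Nat.tendsto_div_const_atTop (by norm_num)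
  have h2 := (coord_tendsto x).comp h1
  rw [tendsto_zero_iff_abs_tendsto_zero] at h2 ⊢
  convert h2 using 1
  ext n
  simp [abs_mul]

/-- The operator without norm preserving extension. -/
noncomputable def T0 : ↥E →ₗ[ℝ] C(OnePoint ℕ, ℝ) where
  toFun x := OnePoint.continuousMapMkNat
    (fun n : ℕ => (-1 : ℝ) ^ n * (φ.symm (x : X)) (n / 2 + 1)) 0 (sgn_tendsto _)
  map_add' x y := by
    ext z
    refine OnePoint.rec ?_ ?_ z
    · change (0 : ℝ) = 0 + 0
      simp
    · intro n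
      change (-1 : ℝ) ^ n * ((φ.symm (x : X)) (n / 2 + 1) + (φ.symm (y : X)) (n / 2 + 1)) =
        (-1 : ℝ) ^ n * (φ.symm (x : X)) (n / 2 + 1) + (-1 : ℝ) ^ n * (φ.symm (y : X)) (n / 2 + 1)
      ring
  map_smul' c x := by
    ext z
    refine OnePoint.rec ?_ ?_ z
    · change (0 : ℝ) = c * 0
      simp
    · intro n
      change (-1 : ℝ) ^ n * (c * (φ.symm (x : X)) (n / 2 + 1)) =
        c * ((-1 : ℝ) ^ n * (φ.symm (x : X)) (n / 2 + 1))
      ring

theorem G_pair (m : ℕ) : G (e (m + 1) + e 0) ≤ 1 := by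
  have h0 : (e (m + 1) + e 0 : H) 0 = 1 := by
    have : (e (m + 1) + e 0 : H) 0 = e (m + 1) 0 + e 0 0 := rfl
    rw [this, e_apply, e_apply]; simp
  have hs : ∀ n, (e (m + 1) + e 0 : H) (n + 1) = if n = m then 1 else 0 := by
    intro n
    have : (e (m + 1) + e 0 : H) (n + 1) = e (m + 1) (n + 1) + e 0 (n + 1) := rfl
    rw [this, e_apply, e_apply]; simp
  rw [G_eq, h0, be_zero (by norm_num), add_zero]
  simp only [hs]
  rw [tsum_eq_single m]
  · simp [phi]
  · intro n hn
    simp [phi, hn]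

theorem coord_le_norm (x : ↥E) (m : ℕ) : |(φ.symm (x : X)) (m + 1)| ≤ ‖x‖ := by
  have key : ∀ v : H, v 0 = 0 → v (m + 1) ≤ supp Bs v := by
    intro v hv
    have hmem : InnerProductSpace.toDual ℝ H (e (m + 1) + e 0) ∈ Bs := by
      change G (D _) ≤ 1
      rw [D_toDual]; exact G_pair m
    have h1 := le_supp 3 Bs_bdd hmem v
    rw [InnerProductSpace.toDual_apply_apply, real_inner_comm, inner_add_right, inner_e, inner_e,
      hv, add_zero] at h1
    exact h1
  have hx0 : (φ.symm (x : X)) 0 = 0 := (mem_E _).mp x.2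
  have hn : ‖x‖ = supp Bs (φ.symm (x : X)) := rfl
  rw [abs_le]
  constructor
  · have := key (-(φ.symm (x : X))) (by
      change - (φ.symm (x : X)) 0 = 0
      rw [hx0, neg_zero])
    change - (φ.symm (x : X)) (m + 1) ≤ _ at this
    have h2 : supp Bs (-(φ.symm (x : X))) = supp Bs (φ.symm (x : X)) := by
      have := supp_smul 3 Bs_bdd Bs_ne Bs_neg (-1) (φ.symm (x : X))
      simpa using this
    rw [h2, ← hn] at this
    linarith
  · rw [hn]; exact key _ hx0

theorem T0_bound (x : ↥E) : ‖T0 x‖ ≤ 1 * ‖x‖ := by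
  rw [one_mul, ContinuousMap.norm_le _ (norm_nonneg _)]
  intro z
  refine OnePoint.rec ?_ ?_ z
  · change ‖(0 : ℝ)‖ ≤ ‖x‖
    simp
  · intro n
    change ‖(-1 : ℝ) ^ n * (φ.symm (x : X)) (n / 2 + 1)‖ ≤ ‖x‖
    rw [norm_mul, norm_pow, norm_neg, norm_one, one_pow, one_mul]
    exact coord_le_norm x (n / 2)

noncomputable def T1 : ↥E →L[ℝ] C(OnePoint ℕ, ℝ) := T0.mkContinuous 1 T0_bound

theorem T1_norm : ‖T1‖ ≤ 1 := LinearMap.mkContinuous_norm_le _ zero_le_one _

theorem no_ext : ¬ ∃ S : X →L[ℝ] C(OnePoint ℕ, ℝ), (∀ x : ↥E, S (x : X) = T1 x) ∧ ‖S‖ ≤ ‖T1‖ := by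
  rintro ⟨S, hS1, hS2⟩
  have hS : ‖S‖ ≤ 1 := le_trans hS2 T1_norm
  have hval : ∀ n : ℕ, (S x₀) (n : OnePoint ℕ) = (-1 : ℝ) ^ n := by
    intro n
    let F : StrongDual ℝ X := (ContinuousMap.evalCLM ℝ (n : OnePoint ℕ)).comp S
    have hF : ‖F‖ ≤ 1 := by
      apply ContinuousLinearMap.opNorm_le_bound _ zero_le_one
      intro x
      calc ‖(S x) (n : OnePoint ℕ)‖ ≤ ‖S x‖ := ContinuousMap.norm_coe_le_norm _ _
        _ ≤ ‖S‖ * ‖x‖ := S.le_opNorm x
        _ ≤ 1 * ‖x‖ := by gcongr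
    have hmem := mem_Bs_of_norm hF
    set b := D (F.comp (φ : H →L[ℝ] X)) with hb
    have hG : G b ≤ 1 := hmem
    have hbm : b (n / 2 + 1) = (-1 : ℝ) ^ n := by
      rw [hb, D_apply]
      change (S (φ (e (n / 2 + 1)))) (n : OnePoint ℕ) = _
      have := hS1 ⟨φ (e (n / 2 + 1)), en_mem (n / 2)⟩
      change S (φ (e (n / 2 + 1))) = _ at this
      rw [this]
      change (-1 : ℝ) ^ n * (e (n / 2 + 1) : H) (n / 2 + 1) = _
      rw [e_apply]; simp
    have hb0 : b 0 = (S x₀) (n : OnePoint ℕ) := by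
      rw [hb, D_apply]; rfl
    have hsq : ((-1 : ℝ) ^ n) ^ 2 = 1 := by
      rw [← pow_mul, mul_comm, pow_mul]; norm_num
    have habs : |(-1 : ℝ) ^ n| = 1 := by
      rw [abs_pow, abs_neg, abs_one, one_pow]
    have h1 : phi (ep (n / 2)) (b 0) (b (n / 2 + 1)) ≤ G b := by
      rw [G_eq]
      have := (phi_summable b).le_tsum (n / 2) (fun i _ => by
        unfold phi; have := ep_pos i; positivity)
      have h2 := be_nonneg (b 0)
      linarith
    rw [hbm] at h1
    unfold phi at h1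
    rw [habs, hsq, one_mul] at h1
    have h2 : ep (n / 2) * (b 0 - (-1 : ℝ) ^ n) ^ 2 ≤ 0 := by linarith
    have h3 := ep_pos (n / 2)
    have h4 : (b 0 - (-1 : ℝ) ^ n) ^ 2 ≤ 0 := by
      by_contra hcon
      push Not at hcon
      have := mul_pos h3 hcon
      linarith
    have h5 : b 0 - (-1 : ℝ) ^ n = 0 := by
      have := sq_nonneg (b 0 - (-1 : ℝ) ^ n)
      exact pow_eq_zero_iff (two_ne_zero) |>.mp (le_antisymm h4 this)
    rw [← hb0]; linarith
  have hcont := (OnePoint.continuous_iff_from_nat _).mp (S x₀).continuous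
  simp only [hval] at hcont
  have h2 : Tendsto (fun n : ℕ => 2 * n) atTop atTop :=
    tendsto_atTop_mono (fun n => by simp only [id]; omega) tendsto_id
  have h3 : Tendsto (fun n : ℕ => 2 * n + 1) atTop atTop :=
    tendsto_atTop_mono (fun n => by simp only [id]; omega) tendsto_id
  have h4 := hcont.comp h2
  have h5 := hcont.comp h3
  have e4 : ((fun n : ℕ => (-1 : ℝ) ^ n) ∘ fun n : ℕ => 2 * n) = fun _ => 1 := by
    ext n; simp [pow_mul]
  have e5 : ((fun n : ℕ => (-1 : ℝ) ^ n) ∘ fun n : ℕ => 2 * n + 1) = fun _ => -1 := by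
    ext n; simp [pow_mul, pow_add]
  rw [e4] at h4
  rw [e5] at h5
  have h6 := tendsto_nhds_unique h4 tendsto_const_nhds
  have h7 := tendsto_nhds_unique h5 tendsto_const_nhds
  linarith

end NoEP

end Pool.Agent.Helper871.Geo2
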