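import Mathlib
import Pool.Agent.Helper871.L1
import Pool.Agent.Helper871.Gam

set_option autoImplicit false

namespace Pool.Agent.Helper871.Lift

open Filter Topology Set
open Pool.Agent.Helper871.L1 Pool.Agent.Helper871.Gam

variable {Z : Type} [NormedAddCommGroup Z] [NormedSpace ℝ Z] (ι : L1 →ₗᵢ[ℝ] Z)

/-- Linear combination of the vectors `v`. -/
def comb {k : ℕ} (v : Fin k → Z) (c : Fin k → ℝ) : Z := ∑ i, c i • v i

theorem comb_add {k : ℕ} (v : Fin k → Z) (c d : Fin k → ℝ) :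
    comb v (c + d) = comb v c + comb v d := by
  unfold comb
  rw [← Finset.sum_add_distrib]
  exact Finset.sum_congr rfl fun i _ => by rw [Pi.add_apply, add_smul]

theorem comb_smul {k : ℕ} (v : Fin k → Z) (t : ℝ) (c : Fin k → ℝ) :
    comb v (t • c) = t • comb v c := by
  unfold comb
  rw [Finset.smul_sum]
  exact Finset.sum_congr rfl fun i _ => by rw [Pi.smul_apply, smul_eq_mul, mul_smul]

theorem comb_single {k : ℕ} (v : Fin k → Z) (i : Fin k) (t : ℝ) :
    comb v (Pi.single i t) = t • v i := by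
  unfold comb
  rw [Finset.sum_eq_single i]
  · simp
  · intro j _ hj; simp [hj]
  · intro h; exact absurd (Finset.mem_univ i) h

/-- Hahn-Banach step. -/
theorem hahn {k : ℕ} (v : Fin k → Z) (s η : ℝ) (hs : 0 ≤ s) (hη : 0 ≤ η) (f₀ : StrongDual ℝ Z)
    (hf₀ : ∀ w, f₀ w ≤ s * nu ι w) (g : StrongDual ℝ L1)
    (hC : ∀ (u : L1) (c : Fin k → ℝ),
      g u ≤ s * nu ι (ι u - comb v c) + f₀ (comb v c) + η * ∑ i, |c i|) :
    ∃ f : StrongDual ℝ Z, (∀ u, f (ι u) = g u) ∧ (∀ w, f w ≤ s * nu ι w) ∧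
      ∀ i, |f (v i) - f₀ (v i)| ≤ η := by
  set q : Z → (Fin k → ℝ) → ℝ := fun w c =>
    s * nu ι (w - comb v c) + f₀ (comb v c) + η * ∑ i, |c i| with hq
  have hqlow : ∀ w c, f₀ w ≤ q w c := by
    intro w c
    have h1 := hf₀ (w - comb v c)
    rw [map_sub] at h1
    have h2 : 0 ≤ η * ∑ i, |c i| := mul_nonneg hη (Finset.sum_nonneg fun i _ => abs_nonneg _)
    simp only [hq]
    linarith
  set p : Z → ℝ := fun w => ⨅ c, q w c with hp
  have hbdd : ∀ w, BddBelow (Set.range (q w)) := fun w =>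
    ⟨f₀ w, by rintro _ ⟨c, rfl⟩; exact hqlow w c⟩
  have hple : ∀ w c, p w ≤ q w c := fun w c => ciInf_le (hbdd w) c
  have hqadd : ∀ w w' c d, q (w + w') (c + d) ≤ q w c + q w' d := by
    intro w w' c d
    simp only [hq]
    rw [comb_add, map_add]
    have h1 := nu_add ι (w - comb v c) (w' - comb v d)
    have e : w + w' - (comb v c + comb v d) = (w - comb v c) + (w' - comb v d) := by abel
    rw [e]
    have h2 : ∑ i, |(c + d) i| ≤ ∑ i, |c i| + ∑ i, |d i| := by
      rw [← Finset.sum_add_distrib]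
      exact Finset.sum_le_sum fun i _ => abs_add_le _ _
    nlinarith
  have hpadd : ∀ w w', p (w + w') ≤ p w + p w' := by
    intro w w'
    rw [← sub_le_iff_le_add]
    apply le_ciInf
    intro c
    rw [sub_le_iff_le_add, ← sub_le_iff_le_add']
    apply le_ciInf
    intro d
    rw [sub_le_iff_le_add']
    exact le_trans (hple _ (c + d)) (hqadd w w' c d)
  have hqsmul : ∀ (t : ℝ), 0 < t → ∀ w c, q (t • w) (t • c) = t * q w c := by
    intro t ht w c
    simp only [hq]
    rw [comb_smul, ← smul_sub, nu_smul, abs_of_pos ht, map_smul, smul_eq_mul]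
    have : ∑ i, |(t • c) i| = t * ∑ i, |c i| := by
      rw [Finset.mul_sum]
      exact Finset.sum_congr rfl fun i _ => by
        rw [Pi.smul_apply, smul_eq_mul, abs_mul, abs_of_pos ht]
    rw [this]; ring
  have hpsmul_le : ∀ (t : ℝ), 0 < t → ∀ w, p (t • w) ≤ t * p w := by
    intro t ht w
    rw [← div_le_iff₀' ht]
    apply le_ciInf
    intro c
    rw [div_le_iff₀' ht, ← hqsmul t ht]
    exact hple _ _
  have hpsmul : ∀ (t : ℝ), 0 < t → ∀ w, p (t • w) = t * p w := by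
    intro t ht w
    apply le_antisymm (hpsmul_le t ht w)
    have h1 := hpsmul_le t⁻¹ (inv_pos.mpr ht) (t • w)
    rw [smul_smul, inv_mul_cancel₀ ht.ne', one_smul, inv_mul_eq_div, le_div_iff₀ ht] at h1
    linarith
  let e := ι.equivRange
  let g' : (LinearMap.range ι.toLinearMap) →ₗ[ℝ] ℝ := (g : L1 →ₗ[ℝ] ℝ).comp e.symm.toLinearEquiv.toLinearMap
  let G : Z →ₗ.[ℝ] ℝ := ⟨LinearMap.range ι.toLinearMap, g'⟩
  obtain ⟨F, hF1, hF2⟩ := exists_extension_of_le_sublinear G p hpsmul hpadd (by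
    rintro ⟨y, hy⟩
    obtain ⟨u, rfl⟩ := hy
    have h1 : G ⟨ι.toLinearMap u, LinearMap.mem_range_self _ _⟩ = g u := by
      change g (e.symm ⟨ι.toLinearMap u, LinearMap.mem_range_self _ _⟩) = g u
      congr 1
      exact e.symm_apply_apply u
    have h2 : g u ≤ p (ι u) := le_ciInf fun c => hC u c
    exact le_of_eq_of_le h1 h2)
  have hFs : ∀ w, F w ≤ s * nu ι w := by
    intro w
    have h1 := le_trans (hF2 w) (hple w 0)
    have h2 : comb v (0 : Fin k → ℝ) = 0 := by unfold comb; simp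
    simp only [hq, h2] at h1
    simpa using h1
  have hFbd : ∀ w, ‖F w‖ ≤ (2 * s) * ‖w‖ := by
    intro w
    rw [Real.norm_eq_abs, abs_le]
    have h1 := hFs w
    have h2 := hFs (-w)
    have h3 : nu ι (-w) = nu ι w := by
      have := nu_smul ι (-1) w
      simpa using this
    rw [map_neg, h3] at h2
    have h4 := nu_le ι w
    have h5 : s * nu ι w ≤ s * (2 * ‖w‖) := by gcongr
    constructor <;> linarith
  refine ⟨F.mkContinuous (2 * s) hFbd, ?_, hFs, ?_⟩
  · intro u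
    have h1 := hF1 ⟨ι.toLinearMap u, LinearMap.mem_range_self _ _⟩
    have h2 : G ⟨ι.toLinearMap u, LinearMap.mem_range_self _ _⟩ = g u := by
      change g (e.symm ⟨ι.toLinearMap u, LinearMap.mem_range_self _ _⟩) = g u
      congr 1
      exact e.symm_apply_apply u
    exact h1.trans h2
  · intro i
    change |F (v i) - f₀ (v i)| ≤ η
    have hsum1 : ∑ j, |(Pi.single i (1 : ℝ) : Fin k → ℝ) j| = 1 := by
      rw [Finset.sum_eq_single i]
      · simp
      · intro j _ hj; simp [hj]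
      · intro h; exact absurd (Finset.mem_univ i) h
    have hsum2 : ∑ j, |(Pi.single i (-1 : ℝ) : Fin k → ℝ) j| = 1 := by
      rw [Finset.sum_eq_single i]
      · simp
      · intro j _ hj; simp [hj]
      · intro h; exact absurd (Finset.mem_univ i) h
    have hnu0 : nu ι 0 = 0 := by
      have := nu_smul ι 0 0
      simpa using this
    have h1 := le_trans (hF2 (v i)) (hple (v i) (Pi.single i 1))
    have h2 := le_trans (hF2 (-(v i))) (hple (-(v i)) (Pi.single i (-1)))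
    simp only [hq, comb_single, hsum1, hsum2] at h1 h2
    rw [one_smul, sub_self, hnu0] at h1
    rw [neg_one_smul, sub_self, hnu0, map_neg, map_neg] at h2
    rw [abs_le]
    constructor <;> linarith

theorem cond {k : ℕ} (v : Fin k → Z) (b s η : ℝ) (hb : 0 ≤ b) (hbs : b < s) (hη : 0 < η)
    (f₀ : StrongDual ℝ Z) (hf₀ : ∀ w, f₀ w ≤ s * nu ι w) (g : ℕ → StrongDual ℝ L1)
    (hg : ∀ n, ‖g n‖ ≤ b)
    (hlim : ∀ u, Tendsto (fun n => g n u) atTop (𝓝 (f₀ (ι u)))) :
    ∀ᶠ n in atTop, ∀ (u : L1) (c : Fin k → ℝ),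
      g n u ≤ s * nu ι (ι u - comb v c) + f₀ (comb v c) + η * ∑ i, |c i| := by
  by_contra hcon
  rw [Filter.not_eventually] at hcon
  have hs : 0 < s := lt_of_le_of_lt hb hbs
  have hcon' : ∃ᶠ n in atTop, ∃ (u : L1) (c : Fin k → ℝ), (∑ i, |c i| = 1) ∧
      s * nu ι (ι u - comb v c) + f₀ (comb v c) + η < g n u := by
    refine hcon.mono fun n hn => ?_
    push Not at hn
    obtain ⟨u, c, huc⟩ := hn
    set t := ∑ i, |c i| with ht
    have ht0 : 0 ≤ t := Finset.sum_nonneg fun i _ => abs_nonneg _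
    have htpos : 0 < t := by
      rcases lt_or_eq_of_le ht0 with h | h
      · exact h
      · exfalso
        have hc0 : c = 0 := by
          ext i
          have := (Finset.sum_eq_zero_iff_of_nonneg (fun i _ => abs_nonneg (c i))).mp h.symm i
            (Finset.mem_univ i)
          simpa using this
        have h2 : comb v (0 : Fin k → ℝ) = 0 := by unfold comb; simp
        rw [hc0, h2, sub_zero, nu_iota, map_zero] at huc
        have h3 : g n u ≤ b * ‖u‖ := by
          calc g n u ≤ ‖g n u‖ := le_abs_self _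
            _ ≤ ‖g n‖ * ‖u‖ := (g n).le_opNorm u
            _ ≤ b * ‖u‖ := by gcongr; exact hg n
        have h4 : η * t = 0 := by rw [← h, mul_zero]
        nlinarith [norm_nonneg u]
    refine ⟨t⁻¹ • u, t⁻¹ • c, ?_, ?_⟩
    · have : ∑ i, |(t⁻¹ • c) i| = t⁻¹ * t := by
        rw [ht, Finset.mul_sum]
        exact Finset.sum_congr rfl fun i _ => by
          rw [Pi.smul_apply, smul_eq_mul, abs_mul, abs_of_pos (inv_pos.mpr htpos)]
      rw [this, inv_mul_cancel₀ htpos.ne']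
    · rw [comb_smul, map_smul, ← smul_sub, nu_smul, abs_of_pos (inv_pos.mpr htpos), map_smul,
        map_smul, smul_eq_mul, smul_eq_mul]
      have h1 : t * (s * (t⁻¹ * nu ι (ι u - comb v c)) + t⁻¹ * f₀ (comb v c) + η) <
          t * (t⁻¹ * g n u) := by
        have e1 : t * (s * (t⁻¹ * nu ι (ι u - comb v c)) + t⁻¹ * f₀ (comb v c) + η) =
          s * nu ι (ι u - comb v c) + f₀ (comb v c) + η * t := by field_simp
        have e2 : t * (t⁻¹ * g n u) = g n u := by field_simp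
        rw [e1, e2]; exact huc
      exact lt_of_mul_lt_mul_left h1 htpos.le
  obtain ⟨φ, hφ, hφ'⟩ := Filter.extraction_of_frequently_atTop hcon'
  choose u c hc huc using hφ'
  set V := ∑ i, ‖v i‖ with hV
  have hV0 : 0 ≤ V := Finset.sum_nonneg fun i _ => norm_nonneg _
  have hci : ∀ n i, |c n i| ≤ 1 := by
    intro n i
    rw [← hc n]
    exact Finset.single_le_sum (f := fun i => |c n i|) (fun i _ => abs_nonneg _) (Finset.mem_univ i)
  have hcombn : ∀ n, ‖comb v (c n)‖ ≤ V := by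
    intro n
    unfold comb
    refine le_trans (norm_sum_le _ _) (Finset.sum_le_sum fun i _ => ?_)
    rw [norm_smul, Real.norm_eq_abs]
    have := hci n i
    nlinarith [norm_nonneg (v i)]
  have hnuneg : ∀ w, nu ι (-w) = nu ι w := by
    intro w
    have := nu_smul ι (-1) w
    simpa using this
  set R := 4 * s * V / (s - b) with hR
  have hsb : 0 < s - b := by linarith
  have hun : ∀ n, ‖u n‖ ≤ R := by
    intro n
    rw [hR, le_div_iff₀ hsb]
    have h1 := huc n
    have h2 := hf₀ (-(comb v (c n)))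
    rw [map_neg, hnuneg] at h2
    have h3 := nu_le ι (comb v (c n))
    have h4 : nu ι (ι (u n)) ≤ nu ι (ι (u n) - comb v (c n)) + nu ι (comb v (c n)) := by
      have := nu_add ι (ι (u n) - comb v (c n)) (comb v (c n))
      rwa [sub_add_cancel] at this
    rw [nu_iota] at h4
    have h5 : g (φ n) (u n) ≤ b * ‖u n‖ := by
      calc g (φ n) (u n) ≤ ‖g (φ n) (u n)‖ := le_abs_self _
        _ ≤ ‖g (φ n)‖ * ‖u n‖ := (g (φ n)).le_opNorm _
        _ ≤ b * ‖u n‖ := by gcongr; exact hg _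
    have h6 := hcombn n
    have h7 : s * ‖u n‖ ≤ s * (nu ι (ι (u n) - comb v (c n)) + nu ι (comb v (c n))) := by gcongr
    have h8 : s * nu ι (comb v (c n)) ≤ s * (2 * V) := by
      apply mul_le_mul_of_nonneg_left _ hs.le
      linarith
    nlinarith
  -- compactness
  have hK : IsCompact ((Metric.closedBall (0 : Fin k → ℝ) 1) ×ˢ
      (Set.univ.pi fun _ : ℕ => Set.Icc (-R) R)) :=
    (isCompact_closedBall _ _).prod (isCompact_univ_pi fun _ => isCompact_Icc)
  obtain ⟨⟨c₀, a⟩, _, ψ, hψ, hlim2⟩ := hK.tendsto_subseq (x := fun n => (c n, (u n : ℕ → ℝ))) (by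
    intro n
    refine ⟨?_, ?_⟩
    · rw [mem_closedBall_zero_iff, pi_norm_le_iff_of_nonneg zero_le_one]
      intro i; exact hci n i
    · intro i _
      have := lp.norm_apply_le_norm (p := 1) (by simp) (u n) i
      rw [Real.norm_eq_abs] at this
      exact abs_le.mp (le_trans this (hun n)))
  have hc₀ : Tendsto (fun n => c (ψ n)) atTop (𝓝 c₀) := by
    have := (continuous_fst.tendsto _).comp hlim2
    exact this
  have ha : Tendsto (fun n => ((u (ψ n) : ℕ → ℝ))) atTop (𝓝 a) := by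
    have := (continuous_snd.tendsto _).comp hlim2
    exact this
  have hmem : Memℓp (E := fun _ : ℕ => ℝ) a 1 := by
    apply lp.memℓp_of_tendsto (F := fun n => u (ψ n)) _ ha
    rw [isBounded_iff_forall_norm_le]
    exact ⟨R, by rintro _ ⟨n, rfl⟩; exact hun _⟩
  set u₀ : L1 := ⟨a, hmem⟩ with hu₀
  set w₀ := comb v c₀ with hw₀
  have hcombc : Continuous (comb v) := by
    unfold comb
    fun_prop
  have hw : Tendsto (fun n => ‖w₀ - comb v (c (ψ n))‖) atTop (𝓝 0) := by
    have h1 : Tendsto (fun n => comb v (c (ψ n))) atTop (𝓝 w₀) := (hcombc.tendsto _).comp hc₀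
    have h2 := (tendsto_const_nhds (x := w₀)).sub h1
    rw [sub_self] at h2
    simpa using h2.norm
  obtain ⟨m, hm⟩ := star ι (ι u₀ - w₀) (η / (4 * s)) (by positivity)
  set r : ℕ → L1 := fun n => u (ψ n) - u₀ with hr
  set pn : ℕ → L1 := fun n => trunc m (r n) with hpn
  have hp0 : Tendsto (fun n => ‖pn n‖) atTop (𝓝 0) := by
    have h1 : ∀ i, Tendsto (fun n => |r n i|) atTop (𝓝 0) := by
      intro i
      have h2 : Tendsto (fun n => (u (ψ n) : ℕ → ℝ) i) atTop (𝓝 (a i)) :=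
        (tendsto_pi_nhds.mp ha) i
      have h3 : Tendsto (fun n => (u (ψ n) : ℕ → ℝ) i - a i) atTop (𝓝 0) := by
        have := h2.sub_const (a i)
        rwa [sub_self] at this
      have h4 := h3.abs
      rw [abs_zero] at h4
      exact h4
    have h5 : Tendsto (fun n => ∑ i ∈ Finset.range m, |r n i|) atTop (𝓝 0) := by
      have := tendsto_finsetSum (Finset.range m) (fun i _ => h1 i)
      simpa using this
    exact squeeze_zero (fun n => norm_nonneg _) (fun n => norm_trunc_le m (r n)) h5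
  have hgu : Tendsto (fun n => g (φ (ψ n)) u₀) atTop (𝓝 (f₀ (ι u₀))) :=
    (hlim u₀).comp (hφ.tendsto_atTop.comp hψ.tendsto_atTop)
  have hrhs : Tendsto (fun n => g (φ (ψ n)) u₀ + (b + s) * ‖pn n‖ +
      (2 * s + ‖f₀‖) * ‖w₀ - comb v (c (ψ n))‖) atTop (𝓝 (f₀ (ι u₀))) := by
    have := (hgu.add (hp0.const_mul (b + s))).add (hw.const_mul (2 * s + ‖f₀‖))
    simpa using this
  obtain ⟨n, hn⟩ := (hrhs.eventually (gt_mem_nhds (show f₀ (ι u₀) < f₀ (ι u₀) + η / 2 by
    linarith))).exists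
  -- the estimate at index n
  have h1 := huc (ψ n)
  set t : L1 := r n - pn n with htdef
  have htm : t ∈ Tail m := sub_trunc_mem m (r n)
  have h2 := hm t htm
  set wn := comb v (c (ψ n)) with hwn
  have e0 : u (ψ n) = u₀ + r n := (add_sub_cancel _ _).symm
  have e1 : u (ψ n) = u₀ + pn n + t := by
    rw [htdef, add_assoc, add_sub_cancel]; exact e0
  have h3 : nu ι (ι u₀ - w₀ + ι t) ≤ nu ι (ι (u (ψ n)) - wn) + ‖pn n‖ + 2 * ‖w₀ - wn‖ := by
    have e2 : ι u₀ - w₀ + ι t = (ι (u (ψ n)) - wn) + (-(ι (pn n)) + -(w₀ - wn)) := by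
      rw [e1, map_add, map_add]; abel
    rw [e2]
    have h4 := nu_add ι (ι (u (ψ n)) - wn) (-(ι (pn n)) + -(w₀ - wn))
    have h5 := nu_add ι (-(ι (pn n))) (-(w₀ - wn))
    rw [hnuneg, hnuneg, nu_iota] at h5
    have h6 := nu_le ι (w₀ - wn)
    linarith
  have h4 : g (φ (ψ n)) (u (ψ n)) ≤ g (φ (ψ n)) u₀ + b * ‖pn n‖ + b * ‖t‖ := by
    rw [e1, map_add, map_add]
    have h5 : ∀ y : L1, g (φ (ψ n)) y ≤ b * ‖y‖ := by
      intro y
      calc g (φ (ψ n)) y ≤ ‖g (φ (ψ n)) y‖ := le_abs_self _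
        _ ≤ ‖g (φ (ψ n))‖ * ‖y‖ := (g (φ (ψ n))).le_opNorm _
        _ ≤ b * ‖y‖ := by gcongr; exact hg _
    have := h5 (pn n)
    have := h5 t
    linarith
  have h5 : f₀ w₀ - ‖f₀‖ * ‖w₀ - wn‖ ≤ f₀ wn := by
    have h6 : f₀ (w₀ - wn) ≤ ‖f₀‖ * ‖w₀ - wn‖ :=
      le_trans (le_abs_self _) (f₀.le_opNorm _)
    rw [map_sub] at h6
    linarith
  have h6 := hf₀ (ι u₀ - w₀)
  rw [map_sub] at h6
  have h7 : s * (nu ι (ι u₀ - w₀) + ‖t‖ - η / (4 * s)) ≤
      s * (nu ι (ι (u (ψ n)) - wn) + ‖pn n‖ + 2 * ‖w₀ - wn‖) := by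
    apply mul_le_mul_of_nonneg_left _ hs.le
    linarith
  have h8 : s * (η / (4 * s)) = η / 4 := by field_simp
  have h9 : b * ‖t‖ ≤ s * ‖t‖ := by gcongr
  nlinarith

theorem lift_main {k : ℕ} (v : Fin k → Z) (b s η : ℝ) (hb : 0 ≤ b) (hbs : b < s) (hη : 0 < η)
    (f₀ : StrongDual ℝ Z) (hf₀ : ∀ w, f₀ w ≤ s * nu ι w) (g : ℕ → StrongDual ℝ L1)
    (hg : ∀ n, ‖g n‖ ≤ b)
    (hlim : ∀ u, Tendsto (fun n => g n u) atTop (𝓝 (f₀ (ι u)))) :
    ∀ᶠ n in atTop, ∃ f : StrongDual ℝ Z, (∀ u, f (ι u) = g n u) ∧ (∀ w, f w ≤ s * nu ι w) ∧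
      ∀ i, |f (v i) - f₀ (v i)| ≤ η := by
  filter_upwards [cond ι v b s η hb hbs hη f₀ hf₀ g hg hlim] with n hn
  exact hahn ι v s η (le_trans hb hbs.le) hη.le f₀ hf₀ (g n) hn

end Pool.Agent.Helper871.Lift
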