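import Mathlib
import Pool.Agent.Helper871.NormExt
import Pool.Agent.Helper871.L1
import Pool.Agent.Helper871.Gam
import Pool.Agent.Helper871.Lift

set_option autoImplicit false

namespace Pool.Agent.Helper871.L1Ext

open Filter Topology Set
open Pool.Agent.Helper871.NormExt Pool.Agent.Helper871.L1 Pool.Agent.Helper871.Gam

section S

variable {Z : Type} [NormedAddCommGroup Z] [NormedSpace ℝ Z] (z : ℕ → Z)

noncomputable def T (j : ℕ) (f : StrongDual ℝ Z) : ℝ :=
  (1 / 2 : ℝ) ^ j * ((f (z j)) ^ 2 / (1 + ‖z j‖) ^ 2)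

noncomputable def S (f : StrongDual ℝ Z) : ℝ := ∑' j, T z j f

theorem T_nonneg (j : ℕ) (f : StrongDual ℝ Z) : 0 ≤ T z j f := by
  unfold T; positivity

theorem T_le (j : ℕ) (f : StrongDual ℝ Z) : T z j f ≤ (1 / 2 : ℝ) ^ j * ‖f‖ ^ 2 := by
  unfold T
  apply mul_le_mul_of_nonneg_left _ (by positivity)
  rw [div_le_iff₀ (by positivity)]
  have h3 : |f (z j)| ≤ ‖f‖ * ‖z j‖ := f.le_opNorm (z j)
  have h4 : |f (z j)| ≤ ‖f‖ * (1 + ‖z j‖) := by nlinarith [norm_nonneg f]
  calc (f (z j)) ^ 2 = |f (z j)| ^ 2 := (sq_abs _).symm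
    _ ≤ (‖f‖ * (1 + ‖z j‖)) ^ 2 := by gcongr
    _ = _ := by ring

theorem summable_geom (c : ℝ) : Summable fun j : ℕ => (1 / 2 : ℝ) ^ j * c :=
  (summable_geometric_of_lt_one (by norm_num) (by norm_num)).mul_right c

theorem T_summable (f : StrongDual ℝ Z) : Summable fun j => T z j f :=
  Summable.of_nonneg_of_le (fun j => T_nonneg z j f) (fun j => T_le z j f) (summable_geom _)

theorem T_mid (j : ℕ) (f g : StrongDual ℝ Z) :
    T z j ((1 / 2 : ℝ) • (f + g)) = (T z j f + T z j g) / 2
      - (1 / 2 : ℝ) ^ j * ((f - g) (z j) ^ 2 / (4 * (1 + ‖z j‖) ^ 2)) := by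
  unfold T
  have h3 : ((1 / 2 : ℝ) • (f + g)) (z j) = (f (z j) + g (z j)) / 2 := by
    change (1 / 2 : ℝ) * (f (z j) + g (z j)) = _
    ring
  have h4 : (f - g) (z j) = f (z j) - g (z j) := rfl
  rw [h3, h4]
  have : (1 + ‖z j‖) ^ 2 ≠ 0 := by positivity
  field_simp
  ring

theorem S_mid_lt (hz : DenseRange z) (f g : StrongDual ℝ Z) (hfg : f ≠ g) :
    S z ((1 / 2 : ℝ) • (f + g)) < (S z f + S z g) / 2 := by
  obtain ⟨j, hj⟩ : ∃ j, (f - g) (z j) ≠ 0 := by
    by_contra hcon
    push Not at hcon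
    apply hfg
    have h1 : (fun x => (f - g) x) = fun _ => (0 : ℝ) := by
      apply hz.equalizer (f - g).continuous continuous_const
      ext j; exact hcon j
    ext x
    have := congrFun h1 x
    change f x - g x = 0 at this
    linarith
  unfold S
  have h2 : ∑' j, T z j ((1 / 2 : ℝ) • (f + g)) < ∑' j, ((T z j f + T z j g) / 2) := by
    apply Summable.tsum_lt_tsum (i := j)
    · intro i
      have := T_mid z i f g
      have h3 : 0 ≤ (1 / 2 : ℝ) ^ i * ((f - g) (z i) ^ 2 / (4 * (1 + ‖z i‖) ^ 2)) := by positivity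
      linarith
    · have := T_mid z j f g
      have h3 : 0 < (1 / 2 : ℝ) ^ j * ((f - g) (z j) ^ 2 / (4 * (1 + ‖z j‖) ^ 2)) := by
        have : 0 < (f - g) (z j) ^ 2 := by positivity
        positivity
      linarith
    · exact T_summable z _
    · exact ((T_summable z f).add (T_summable z g)).div_const 2
  have h3 : ∑' j, ((T z j f + T z j g) / 2) = (∑' j, T z j f + ∑' j, T z j g) / 2 := by
    rw [tsum_div_const, (T_summable z f).tsum_add (T_summable z g)]
  rw [h3] at h2
  exact h2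

theorem S_zero : S z 0 = 0 := by
  unfold S
  have : ∀ j, T z j 0 = 0 := by intro j; unfold T; simp
  simp [this]

theorem S_nonneg (f : StrongDual ℝ Z) : 0 ≤ S z f := tsum_nonneg fun j => T_nonneg z j f

theorem S_even (f : StrongDual ℝ Z) : S z (-f) = S z f := by
  unfold S
  congr 1
  ext j
  unfold T
  have h3 : (-f) (z j) = - f (z j) := rfl
  rw [h3]; ring

theorem S_le (f : StrongDual ℝ Z) : S z f ≤ 2 * ‖f‖ ^ 2 := by
  unfold S
  have h1 : ∑' j, T z j f ≤ ∑' j : ℕ, (1 / 2 : ℝ) ^ j * ‖f‖ ^ 2 :=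
    Summable.tsum_le_tsum (fun j => T_le z j f) (T_summable z f) (summable_geom _)
  rw [tsum_mul_right, tsum_geometric_of_lt_one (by norm_num) (by norm_num)] at h1
  norm_num at h1
  linarith

theorem T_continuous (j : ℕ) : Continuous (T z j) := by
  unfold T
  have h : Continuous fun f : StrongDual ℝ Z => f (z j) :=
    (ContinuousLinearMap.apply ℝ ℝ (z j)).continuous
  fun_prop

theorem S_continuous : Continuous (S z) := by
  unfold S
  rw [continuous_iff_continuousAt]
  intro f
  have hball : Metric.closedBall f 1 ∈ 𝓝 f := Metric.closedBall_mem_nhds f one_pos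
  apply ContinuousOn.continuousAt _ hball
  apply continuousOn_tsum (u := fun j => (1 / 2 : ℝ) ^ j * (‖f‖ + 1) ^ 2)
  · intro j
    exact (T_continuous z j).continuousOn
  · exact summable_geom _
  · intro j g hg
    rw [Real.norm_of_nonneg (T_nonneg z j g)]
    refine le_trans (T_le z j g) ?_
    have h1 : ‖g‖ ≤ ‖f‖ + 1 := by
      rw [Metric.mem_closedBall, dist_eq_norm] at hg
      calc ‖g‖ = ‖(g - f) + f‖ := by congr 1; abel
        _ ≤ ‖g - f‖ + ‖f‖ := norm_add_le _ _
        _ ≤ _ := by linarith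
    gcongr

theorem S_lsc : LowerSemicontinuous fun f : WeakDual ℝ Z => S z (WeakDual.toStrongDual f) := by
  have hpart : ∀ n, Continuous fun f : WeakDual ℝ Z =>
      ∑ j ∈ Finset.range n, T z j (WeakDual.toStrongDual f) := by
    intro n
    apply continuous_finsetSum
    intro j _
    unfold T
    exact continuous_const.mul (((WeakDual.eval_continuous (z j)).pow 2).div_const _)
  intro f y hy
  unfold S at hy
  have h1 : Tendsto (fun n => ∑ j ∈ Finset.range n, T z j (WeakDual.toStrongDual f)) atTop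
      (𝓝 (∑' j, T z j (WeakDual.toStrongDual f))) := (T_summable z _).hasSum.tendsto_sum_nat
  obtain ⟨n, hn⟩ := (h1.eventually (lt_mem_nhds hy)).exists
  filter_upwards [(hpart n).continuousAt.eventually (lt_mem_nhds hn)] with g hg
  refine lt_of_lt_of_le hg ?_
  unfold S
  exact (T_summable z _).sum_le_tsum _ fun j _ => T_nonneg z j _

theorem S_est (R ε : ℝ) (hR : 0 ≤ R) (hε : 0 < ε) : ∃ (J : ℕ) (η : ℝ), 0 < η ∧
    ∀ f f₀ : StrongDual ℝ Z, ‖f‖ ≤ R → ‖f₀‖ ≤ R → (∀ j : Fin J, |f (z j) - f₀ (z j)| ≤ η) →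
      S z f ≤ S z f₀ + ε := by
  have hlim : Tendsto (fun J : ℕ => (1 / 2 : ℝ) ^ J * (2 * R ^ 2)) atTop (𝓝 0) := by
    have := (tendsto_pow_atTop_nhds_zero_of_lt_one (r := (1 / 2 : ℝ)) (by norm_num)
      (by norm_num)).mul_const (2 * R ^ 2)
    simpa using this
  obtain ⟨J, hJ⟩ := (hlim.eventually (gt_mem_nhds (show 0 < ε / 2 by linarith))).exists
  refine ⟨J, ε / (8 * (R + 1)), by positivity, fun f f₀ hf hf₀ hclose => ?_⟩
  have h1 : S z f = ∑ j ∈ Finset.range J, T z j f + ∑' j, T z (j + J) f :=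
    ((T_summable z f).sum_add_tsum_nat_add J).symm
  have h2 : ∑' j, T z (j + J) f ≤ (1 / 2 : ℝ) ^ J * (2 * R ^ 2) := by
    have h3 : ∑' j, T z (j + J) f ≤ ∑' j : ℕ, (1 / 2 : ℝ) ^ j * ((1 / 2 : ℝ) ^ J * R ^ 2) := by
      apply Summable.tsum_le_tsum _ ((summable_nat_add_iff J).mpr (T_summable z f))
        (summable_geom _)
      intro j
      refine le_trans (T_le z (j + J) f) ?_
      rw [pow_add, mul_assoc]
      gcongr
    rw [tsum_mul_right, tsum_geometric_of_lt_one (by norm_num) (by norm_num)] at h3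
    norm_num at h3 ⊢
    linarith
  have h3 : ∑ j ∈ Finset.range J, T z j f₀ ≤ S z f₀ :=
    (T_summable z _).sum_le_tsum _ fun j _ => T_nonneg z j _
  have h4 : ∑ j ∈ Finset.range J, T z j f ≤ ∑ j ∈ Finset.range J, T z j f₀ + ε / 2 := by
    have h5 : ∀ j ∈ Finset.range J, T z j f ≤ T z j f₀ +
        (1 / 2 : ℝ) ^ j * (ε / 4) := by
      intro j hj
      have hc := hclose ⟨j, Finset.mem_range.mp hj⟩
      simp only at hc
      have hfz : |f (z j)| ≤ R * ‖z j‖ := le_trans (f.le_opNorm (z j)) (by gcongr)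
      have hf₀z : |f₀ (z j)| ≤ R * ‖z j‖ := le_trans (f₀.le_opNorm (z j)) (by gcongr)
      unfold T
      rw [← mul_add]
      apply mul_le_mul_of_nonneg_left _ (by positivity)
      rw [← sub_le_iff_le_add', ← sub_div, div_le_iff₀ (by positivity)]
      have h6 : f (z j) ^ 2 - f₀ (z j) ^ 2 ≤ |f (z j) - f₀ (z j)| * |f (z j) + f₀ (z j)| := by
        rw [← abs_mul]
        refine le_trans (le_of_eq ?_) (le_abs_self _)
        ring
      have h7 : |f (z j) + f₀ (z j)| ≤ 2 * R * ‖z j‖ :=
        le_trans (abs_add_le _ _) (by linarith)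
      have h8 : |f (z j) - f₀ (z j)| * |f (z j) + f₀ (z j)| ≤
          ε / (8 * (R + 1)) * (2 * R * ‖z j‖) := by
        gcongr
      have h9 : ε / (8 * (R + 1)) * (2 * R * ‖z j‖) ≤ ε / 4 * (1 + ‖z j‖) ^ 2 := by
        have h10 : ε / (8 * (R + 1)) * (2 * R * ‖z j‖) = ε / 4 * ((R / (R + 1)) * ‖z j‖) := by
          field_simp
          ring
        rw [h10]
        apply mul_le_mul_of_nonneg_left _ (by positivity)
        have h11 : R / (R + 1) ≤ 1 := by
          rw [div_le_one (by positivity)]; linarith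
        have h12 : 0 ≤ R / (R + 1) := by positivity
        nlinarith [norm_nonneg (z j)]
      linarith
    refine le_trans (Finset.sum_le_sum h5) ?_
    rw [Finset.sum_add_distrib]
    have h6 : ∑ j ∈ Finset.range J, (1 / 2 : ℝ) ^ j * (ε / 4) ≤ ε / 2 := by
      have h7 : ∑ j ∈ Finset.range J, (1 / 2 : ℝ) ^ j * (ε / 4) ≤
          ∑' j : ℕ, (1 / 2 : ℝ) ^ j * (ε / 4) :=
        (summable_geom _).sum_le_tsum _ fun j _ => by positivity
      rw [tsum_mul_right, tsum_geometric_of_lt_one (by norm_num) (by norm_num)] at h7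
      norm_num at h7
      norm_num
      linarith
    linarith
  linarith

end S

section NuStar

variable {Z : Type} [NormedAddCommGroup Z] [NormedSpace ℝ Z] (ι : L1 →ₗᵢ[ℝ] Z)

theorem nu_neg (w : Z) : nu ι (-w) = nu ι w := by
  have := nu_smul ι (-1) w
  simpa using this

theorem nu_zero : nu ι 0 = 0 := by
  have := nu_smul ι 0 0
  simpa using this

/-- The dual norm of `nu`. -/
noncomputable def ns (f : StrongDual ℝ Z) : ℝ := sSup {r : ℝ | ∃ w, nu ι w ≤ 1 ∧ f w = r}

theorem ns_bdd (f : StrongDual ℝ Z) : BddAbove {r : ℝ | ∃ w, nu ι w ≤ 1 ∧ f w = r} := by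
  refine ⟨2 * ‖f‖, ?_⟩
  rintro _ ⟨w, hw, rfl⟩
  have h1 := le_nu ι w
  calc f w ≤ ‖f w‖ := le_abs_self _
    _ ≤ ‖f‖ * ‖w‖ := f.le_opNorm w
    _ ≤ ‖f‖ * 2 := by gcongr; linarith
    _ = _ := by ring

theorem ns_ne (f : StrongDual ℝ Z) : {r : ℝ | ∃ w, nu ι w ≤ 1 ∧ f w = r}.Nonempty :=
  ⟨0, 0, by rw [nu_zero]; exact zero_le_one, by simp⟩

theorem ns_nonneg (f : StrongDual ℝ Z) : 0 ≤ ns ι f :=
  le_csSup (ns_bdd ι f) ⟨0, by rw [nu_zero]; exact zero_le_one, by simp⟩

theorem le_ns (f : StrongDual ℝ Z) (w : Z) : f w ≤ ns ι f * nu ι w := by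
  rcases lt_or_eq_of_le (nu_nonneg ι w) with h | h
  · have h1 : f ((nu ι w)⁻¹ • w) ≤ ns ι f := by
      apply le_csSup (ns_bdd ι f)
      refine ⟨_, ?_, rfl⟩
      rw [nu_smul, abs_of_pos (inv_pos.mpr h), inv_mul_cancel₀ h.ne']
    rw [map_smul, smul_eq_mul, inv_mul_eq_div, div_le_iff₀ h] at h1
    exact h1
  · have h1 := le_nu ι w
    rw [← h] at h1
    have h2 : w = 0 := by
      rw [← norm_le_zero_iff]; linarith
    rw [h2]; simp [nu_zero]

theorem ns_le {f : StrongDual ℝ Z} {r : ℝ} (hr : 0 ≤ r) (h : ∀ w, f w ≤ r * nu ι w) :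
    ns ι f ≤ r := by
  apply csSup_le (ns_ne ι f)
  rintro _ ⟨w, hw, rfl⟩
  refine le_trans (h w) ?_
  nlinarith [nu_nonneg ι w]

theorem ns_le_norm (f : StrongDual ℝ Z) : ns ι f ≤ 2 * ‖f‖ := by
  apply ns_le ι (by positivity)
  intro w
  have h1 := le_nu ι w
  calc f w ≤ ‖f w‖ := le_abs_self _
    _ ≤ ‖f‖ * ‖w‖ := f.le_opNorm w
    _ ≤ ‖f‖ * (2 * nu ι w) := by gcongr
    _ = _ := by ring

theorem norm_le_ns (f : StrongDual ℝ Z) : ‖f‖ ≤ 2 * ns ι f := by
  apply ContinuousLinearMap.opNorm_le_bound _ (by have := ns_nonneg ι f; positivity)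
  intro w
  rw [Real.norm_eq_abs, abs_le]
  have h1 := le_ns ι f w
  have h2 := le_ns ι f (-w)
  rw [map_neg, nu_neg] at h2
  have h3 := nu_le ι w
  have h4 : ns ι f * nu ι w ≤ ns ι f * (2 * ‖w‖) :=
    mul_le_mul_of_nonneg_left h3 (ns_nonneg ι f)
  constructor <;> linarith

theorem ns_neg (f : StrongDual ℝ Z) : ns ι (-f) = ns ι f := by
  have key : ∀ f : StrongDual ℝ Z, ns ι (-f) ≤ ns ι f := by
    intro f
    apply ns_le ι (ns_nonneg ι f)
    intro w
    have := le_ns ι f (-w)
    rw [nu_neg, map_neg] at this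
    exact this
  apply le_antisymm (key f)
  have := key (-f)
  rwa [neg_neg] at this

theorem ns_add (f g : StrongDual ℝ Z) : ns ι (f + g) ≤ ns ι f + ns ι g := by
  apply ns_le ι (add_nonneg (ns_nonneg ι f) (ns_nonneg ι g))
  intro w
  have := le_ns ι f w
  have := le_ns ι g w
  change f w + g w ≤ _
  linarith

theorem ns_mid (f g : StrongDual ℝ Z) : ns ι ((1 / 2 : ℝ) • (f + g)) ≤ (ns ι f + ns ι g) / 2 := by
  have h1 := ns_nonneg ι f
  have h2 := ns_nonneg ι g
  apply ns_le ι (by positivity)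
  intro w
  have := le_ns ι f w
  have := le_ns ι g w
  change (1 / 2 : ℝ) * (f w + g w) ≤ _
  linarith

theorem ns_zero : ns ι 0 = 0 := by
  apply le_antisymm _ (ns_nonneg ι 0)
  have := ns_le_norm ι 0
  simpa using this

theorem ns_continuous : Continuous (ns ι) := by
  have : LipschitzWith 2 (ns ι) := by
    apply LipschitzWith.of_dist_le_mul
    intro f g
    rw [Real.dist_eq, abs_le, dist_eq_norm]
    have h1 : ns ι f ≤ ns ι g + ns ι (f - g) := by
      have := ns_add ι g (f - g)
      rwa [add_sub_cancel] at this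
    have h2 : ns ι g ≤ ns ι f + ns ι (g - f) := by
      have := ns_add ι f (g - f)
      rwa [add_sub_cancel] at this
    have h3 := ns_le_norm ι (f - g)
    have h4 := ns_le_norm ι (g - f)
    rw [norm_sub_rev] at h4
    constructor
    · norm_num; linarith
    · norm_num; linarith
  exact this.continuous

theorem ns_wclosed (r : ℝ) (hr : 0 ≤ r) : WClosed {f : StrongDual ℝ Z | ns ι f ≤ r} := by
  have : {f : StrongDual ℝ Z | ns ι f ≤ r} = ⋂ w, {f | f w ≤ r * nu ι w} := by
    ext f
    simp only [Set.mem_ofPred_eq, Set.mem_iInter]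
    constructor
    · intro h w
      refine le_trans (le_ns ι f w) ?_
      exact mul_le_mul_of_nonneg_right h (nu_nonneg ι w)
    · intro h
      exact ns_le ι hr h
  rw [this]
  exact wclosed_iInter fun w => wclosed_eval_le _ _

/-- The penalty term. -/
noncomputable def pen (l : ℝ) (f : StrongDual ℝ Z) : ℝ := (max (ns ι f - l) 0) ^ 2

theorem pen_lsc (l : ℝ) (hl : 0 ≤ l) :
    LowerSemicontinuous fun f : WeakDual ℝ Z => pen ι l (WeakDual.toStrongDual f) := by
  have h1 : LowerSemicontinuous fun f : WeakDual ℝ Z => ns ι (WeakDual.toStrongDual f) := by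
    rw [lowerSemicontinuous_iff_isClosed_preimage]
    intro r
    rcases le_or_gt 0 r with hr | hr
    · exact ns_wclosed ι r hr
    · convert isClosed_empty
      ext f
      simp only [Set.mem_preimage, Set.mem_Iic, Set.mem_empty_iff_false, iff_false, not_le]
      exact lt_of_lt_of_le hr (ns_nonneg ι _)
  have h2 : (fun f : WeakDual ℝ Z => pen ι l (WeakDual.toStrongDual f)) =
      (fun t : ℝ => (max (t - l) 0) ^ 2) ∘ fun f : WeakDual ℝ Z => ns ι (WeakDual.toStrongDual f) := by
    ext f; rfl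
  rw [h2]
  apply Continuous.comp_lowerSemicontinuous _ h1
  · intro a b hab
    have : max (a - l) 0 ≤ max (b - l) 0 := max_le_max (by linarith) le_rfl
    exact pow_le_pow_left₀ (le_max_right _ _) this 2
  · fun_prop

theorem pen_mid (l : ℝ) (f g : StrongDual ℝ Z) :
    pen ι l ((1 / 2 : ℝ) • (f + g)) ≤ (pen ι l f + pen ι l g) / 2 := by
  unfold pen
  have h1 := ns_mid ι f g
  have h2 : max (ns ι ((1 / 2 : ℝ) • (f + g)) - l) 0 ≤
      (max (ns ι f - l) 0 + max (ns ι g - l) 0) / 2 := by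
    apply max_le
    · have := le_max_left (ns ι f - l) 0
      have := le_max_left (ns ι g - l) 0
      linarith
    · have := le_max_right (ns ι f - l) 0
      have := le_max_right (ns ι g - l) 0
      linarith
  have h3 : (max (ns ι ((1 / 2 : ℝ) • (f + g)) - l) 0) ^ 2 ≤
      ((max (ns ι f - l) 0 + max (ns ι g - l) 0) / 2) ^ 2 :=
    pow_le_pow_left₀ (le_max_right _ _) h2 2
  nlinarith [sq_nonneg (max (ns ι f - l) 0 - max (ns ι g - l) 0)]

end NuStar

section Final

variable {Z : Type} [NormedAddCommGroup Z] [NormedSpace ℝ Z]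

theorem unique_norming {X : Type} [NormedAddCommGroup X] [NormedSpace ℝ X] (N : X → ℝ) (x₀ : X)
    (L : X →L[ℝ] ℝ) (hL : ∀ h : X, HasDerivAt (fun t : ℝ => N (x₀ + t • h)) (L h) 0)
    (g : StrongDual ℝ X) (hg : g ∈ Kq N) (hgx : g x₀ = N x₀) : g = L := by
  ext h
  have h1 : HasDerivAt (fun t : ℝ => N (x₀ + t • h) - (g x₀ + t * g h)) (L h - g h) 0 := by
    apply (hL h).sub
    have h2 : HasDerivAt (fun t : ℝ => t * g h) (1 * g h) 0 := (hasDerivAt_id 0).mul_const _
    rw [one_mul] at h2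
    exact h2.const_add _
  have h2 : IsLocalMin (fun t : ℝ => N (x₀ + t • h) - (g x₀ + t * g h)) 0 := by
    apply Filter.Eventually.of_forall
    intro t
    simp only [zero_smul, add_zero, zero_mul]
    have h3 := hg (x₀ + t • h)
    rw [map_add, map_smul, smul_eq_mul] at h3
    linarith
  have h3 := h2.hasDerivAt_eq_zero h1
  linarith

theorem property_E [TopologicalSpace.SeparableSpace Z] (ι : L1 →ₗᵢ[ℝ] Z) (N : L1 → ℝ)
    (N_add : ∀ x y, N (x + y) ≤ N x + N y)
    (N_smul : ∀ (c : ℝ) (x : L1), N (c • x) = |c| * N x)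
    (N_bd : ∃ a b : ℝ, 0 < a ∧ ∀ x, a * ‖x‖ ≤ N x ∧ N x ≤ b * ‖x‖)
    (N_gat : ∀ x : L1, x ≠ 0 → ∃ f : L1 →L[ℝ] ℝ,
              ∀ h : L1, HasDerivAt (fun t : ℝ => N (x + t • h)) (f h) 0) :
    ∃ M : Z → ℝ,
    ((∀ z w, M (z + w) ≤ M z + M w) ∧
      (∀ (c : ℝ) (z : Z), M (c • z) = |c| * M z) ∧
      (∃ a b : ℝ, 0 < a ∧ ∀ z, a * ‖z‖ ≤ M z ∧ M z ≤ b * ‖z‖) ∧
      (∀ z : Z, z ≠ 0 → ∃ f : Z →L[ℝ] ℝ,
        ∀ h : Z, HasDerivAt (fun t : ℝ => M (z + t • h)) (f h) 0)) ∧
      ∀ x : L1, M (ι x) = N x := by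
  obtain ⟨a, b₀, ha, hab⟩ := N_bd
  set b : ℝ := |b₀| with hb
  have hb0 : 0 ≤ b := abs_nonneg _
  have N_neg : ∀ x, N (-x) = N x := by
    intro x
    have := N_smul (-1) x
    simpa using this
  have hKb : ∀ g ∈ Kq N, ‖g‖ ≤ b := by
    intro g hg
    apply ContinuousLinearMap.opNorm_le_bound _ hb0
    intro x
    rw [Real.norm_eq_abs, abs_le]
    have h1 := hg x
    have h2 := hg (-x)
    rw [N_neg, map_neg] at h2
    have h3 := (hab x).2
    have h4 : b₀ * ‖x‖ ≤ b * ‖x‖ := by gcongr; exact le_abs_self b₀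
    constructor <;> linarith
  have hKw : WClosed (Kq N) := by
    have : Kq N = ⋂ x, {g : StrongDual ℝ L1 | g x ≤ N x} := by
      ext g; simp [Kq]
    rw [this]
    exact wclosed_iInter fun x => wclosed_eval_le _ _
  set l : ℝ := b + 1 with hl
  have hl0 : 0 ≤ l := by positivity
  set z : ℕ → Z := TopologicalSpace.denseSeq Z with hz
  have hzd : DenseRange z := TopologicalSpace.denseRange_denseSeq _
  set Φ : StrongDual ℝ Z → ℝ := fun f => S z f + pen ι l f with hΦ
  have D : Data ι N Φ :=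
    { closed_range := ι.isometry.isClosedEmbedding.isClosed_range
      N_add := N_add
      N_smul := N_smul
      N_bd := ⟨a, b₀, ha, hab⟩
      N_gat := N_gat
      Φ_zero := by
        simp only [hΦ]
        rw [S_zero]
        unfold pen
        rw [ns_zero, max_eq_right (by linarith)]
        norm_num
      Φ_nonneg := by
        intro f
        simp only [hΦ]
        have := S_nonneg z f
        unfold pen
        positivity
      Φ_even := by
        intro f
        simp only [hΦ]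
        rw [S_even]
        unfold pen
        rw [ns_neg]
      Φ_sc := by
        intro f g hfg
        simp only [hΦ]
        have h1 := S_mid_lt z hzd f g hfg
        have h2 := pen_mid ι l f g
        linarith
      Φ_cont := by
        simp only [hΦ]
        apply (S_continuous z).add
        unfold pen
        have := ns_continuous ι
        fun_prop
      Φ_lsc := by
        intro r
        have h1 := (S_lsc z).add (pen_lsc ι l hl0)
        exact (lowerSemicontinuous_iff_isClosed_preimage.mp h1) r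
      Φ_bdd := by
        intro r
        refine ⟨2 * (l + |r| + 1), fun f hf => ?_⟩
        simp only [hΦ] at hf
        have h1 := S_nonneg z f
        unfold pen at hf
        have h2 : ns ι f - l ≤ |r| + 1 := by
          by_contra hcon
          push Not at hcon
          have h3 := le_max_left (ns ι f - l) 0
          have h4 := le_abs_self r
          nlinarith [abs_nonneg r]
        have h3 := norm_le_ns ι f
        linarith
      Φ_bdd' := by
        intro R
        refine ⟨2 * R ^ 2 + (2 * R) ^ 2, fun f hf => ?_⟩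
        simp only [hΦ]
        have h1 := S_le z f
        have h2 := ns_le_norm ι f
        have h0 := norm_nonneg f
        have h3 : max (ns ι f - l) 0 ≤ 2 * R := max_le (by linarith) (by linarith)
        have h4 : pen ι l f ≤ (2 * R) ^ 2 := by
          unfold pen
          exact pow_le_pow_left₀ (le_max_right _ _) h3 2
        have h5 : ‖f‖ ^ 2 ≤ R ^ 2 := pow_le_pow_left₀ h0 hf 2
        linarith
      lift := by
        intro x₀ hx₀ g₀ hg₀ hg₀x f₀ hf₀ _ ε hε
        by_contra hcon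
        push Not at hcon
        have hseq : ∀ n : ℕ, ∃ g ∈ Kq N, N x₀ - 1 / ((n : ℝ) + 1) ≤ g x₀ ∧
            ∀ f : StrongDual ℝ Z, res ι f = g → Φ f₀ + ε < Φ f := fun n =>
          hcon (1 / ((n : ℝ) + 1)) (by positivity)
        choose g hgK hgx hgf using hseq
        obtain ⟨L, hL⟩ := N_gat x₀ hx₀
        have huniq : ∀ g' ∈ Kq N, g' x₀ = N x₀ → g' = g₀ := by
          intro g' hg' hg'x
          rw [unique_norming N x₀ L hL g' hg' hg'x, unique_norming N x₀ L hL g₀ hg₀ hg₀x]
        have hlim : ∀ u, Tendsto (fun n => g n u) atTop (𝓝 (f₀ (ι u))) := by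
          intro u
          have e : f₀ (ι u) = g₀ u := by rw [← hf₀]; rfl
          rw [e, Metric.tendsto_atTop]
          intro ε' hε'
          obtain ⟨δ, hδ, hδ'⟩ := exposed_wk hKw b hKb x₀ (N x₀) g₀ (fun g' hg' => hg' x₀)
            huniq u ε' hε'
          obtain ⟨n₀, hn₀⟩ := exists_nat_one_div_lt hδ
          refine ⟨n₀, fun n hn => ?_⟩
          rw [Real.dist_eq]
          apply hδ' (g n) (hgK n)
          have h1 := hgx n
          have h2 : 1 / ((n : ℝ) + 1) ≤ 1 / ((n₀ : ℝ) + 1) := by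
            apply one_div_le_one_div_of_le (by positivity)
            have : (n₀ : ℝ) ≤ n := by exact_mod_cast hn
            linarith
          linarith
        set s : ℝ := max (ns ι f₀) l with hs
        have hbs : b < s := lt_of_lt_of_le (by linarith) (le_max_right _ _)
        have hs0 : 0 ≤ s := by linarith
        have hf₀s : ∀ w, f₀ w ≤ s * nu ι w := by
          intro w
          refine le_trans (le_ns ι f₀ w) ?_
          exact mul_le_mul_of_nonneg_right (le_max_left _ _) (nu_nonneg ι w)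
        obtain ⟨J, η, hη, hSest⟩ := S_est z (2 * s) ε (by positivity) hε
        have hev := Lift.lift_main ι (fun i : Fin J => z i) b s η hb0 hbs hη f₀ hf₀s g
          (fun n => hKb _ (hgK n)) hlim
        obtain ⟨n, f, hf1, hf2, hf3⟩ := hev.exists
        have hnsf : ns ι f ≤ s := ns_le ι hs0 hf2
        have hnf : ‖f‖ ≤ 2 * s := le_trans (norm_le_ns ι f) (by linarith)
        have hnf₀ : ‖f₀‖ ≤ 2 * s := le_trans (norm_le_ns ι f₀) (by
          have := le_max_left (ns ι f₀) l
          linarith)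
        have h1 := hSest f f₀ hnf hnf₀ hf3
        have h2 : pen ι l f ≤ pen ι l f₀ := by
          unfold pen
          apply pow_le_pow_left₀ (le_max_right _ _)
          have e : max (ns ι f₀ - l) 0 = s - l := by
            rw [hs, ← max_sub_sub_right, sub_self]
          rw [e]
          apply max_le (by linarith)
          have := le_max_right (ns ι f₀) l
          linarith
        have h3 := hgf n f (by ext u; exact hf1 u)
        simp only [hΦ] at h3
        linarith }
  apply D.gateaux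
  refine ⟨lp.single 1 0 (1 : ℝ), fun h => ?_⟩
  have := congrArg (fun u : L1 => u 0) h
  simp at this

end Final

end Pool.Agent.Helper871.L1Ext
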