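import Mathlib

set_option autoImplicit false

namespace Pool.Agent.Helper871.Tal

open Filter Topology Set
open scoped BoundedContinuousFunction

/-- Branches: points of the Baire space. -/
abbrev Br := ℕ → ℕ

/-- `τ` and `ρ` agree below `n`. -/
def agree (n : ℕ) (τ ρ : Br) : Prop := ∀ i < n, τ i = ρ i

theorem agree.symm {n : ℕ} {τ ρ : Br} (h : agree n τ ρ) : agree n ρ τ := fun i hi => (h i hi).symm

theorem agree.trans {n : ℕ} {τ ρ κ : Br} (h : agree n τ ρ) (h' : agree n ρ κ) : agree n τ κ :=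
  fun i hi => (h i hi).trans (h' i hi)

theorem agree.mono {n m : ℕ} {τ ρ : Br} (h : agree n τ ρ) (hm : m ≤ n) : agree m τ ρ :=
  fun i hi => h i (lt_of_lt_of_le hi hm)

theorem agree_refl (n : ℕ) (τ : Br) : agree n τ τ := fun _ _ => rfl

/-- Admissible coefficient functions of level `n`: bounded by one, supported on a set of branches
with a common initial segment of length `n` and pairwise different `n`-th coordinates. -/
def Adm (n : ℕ) (a : Br → ℝ) : Prop :=
  (∀ τ, |a τ| ≤ 1) ∧ ∀ τ ρ, a τ ≠ 0 → a ρ ≠ 0 → agree n τ ρ ∧ (τ ≠ ρ → τ n ≠ ρ n)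

/-- The index set. -/
def Idx : Type := {p : ℕ × (Br → ℝ) // Adm p.1 p.2}

instance : TopologicalSpace Idx := ⊥
instance : DiscreteTopology Idx := ⟨rfl⟩

/-- The level of an index. -/
def Idx.lev (p : Idx) : ℕ := p.1.1
/-- The coefficient function of an index. -/
def Idx.a (p : Idx) : Br → ℝ := p.1.2

theorem Idx.le_one (p : Idx) (τ : Br) : |p.a τ| ≤ 1 := p.2.1 τ
theorem Idx.adm (p : Idx) {τ ρ : Br} (h : p.a τ ≠ 0) (h' : p.a ρ ≠ 0) :
    agree p.lev τ ρ ∧ (τ ≠ ρ → τ p.lev ≠ ρ p.lev) := p.2.2 τ ρ h h'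

/-- The ambient space. -/
abbrev E := Idx →ᵇ ℝ

/-- Elements of the ambient space from bounded functions. -/
noncomputable def mk (y : Idx → ℝ) (C : ℝ) (h : ∀ p, |y p| ≤ C) : E :=
  BoundedContinuousFunction.ofNormedAddCommGroupDiscrete y C h

@[simp] theorem mk_apply (y : Idx → ℝ) (C : ℝ) (h : ∀ p, |y p| ≤ C) (p : Idx) :
    mk y C h p = y p := rfl

/-- The unit vectors. -/
noncomputable def e (τ : Br) : E := mk (fun p => p.a τ) 1 (fun p => p.le_one τ)

@[simp] theorem e_apply (τ : Br) (p : Idx) : e τ p = p.a τ := rfl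

theorem norm_le_one_iff (y : E) : ‖y‖ ≤ 1 ↔ ∀ p, |y p| ≤ 1 :=
  BoundedContinuousFunction.norm_le zero_le_one

theorem norm_e_le (τ : Br) : ‖e τ‖ ≤ 1 := (norm_le_one_iff _).mpr fun p => p.le_one τ

/-- Restriction to a set of indices. -/
noncomputable def cut (D : Set Idx) (y : E) : E :=
  mk (D.indicator y) ‖y‖ (fun p => by
    by_cases hp : p ∈ D
    · rw [Set.indicator_of_mem hp]; exact y.norm_coe_le_norm p
    · rw [Set.indicator_of_notMem hp, abs_zero]; exact norm_nonneg y)

theorem cut_apply (D : Set Idx) (y : E) (p : Idx) : cut D y p = D.indicator y p := rfl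

theorem cut_mem {D : Set Idx} (y : E) {p : Idx} (hp : p ∈ D) : cut D y p = y p := by
  rw [cut_apply, Set.indicator_of_mem hp]

theorem cut_notMem {D : Set Idx} (y : E) {p : Idx} (hp : p ∉ D) : cut D y p = 0 := by
  rw [cut_apply, Set.indicator_of_notMem hp]

theorem abs_cut_le (D : Set Idx) (y : E) (p : Idx) : |cut D y p| ≤ |y p| := by
  by_cases hp : p ∈ D
  · rw [cut_mem y hp]
  · rw [cut_notMem y hp, abs_zero]; exact abs_nonneg _

theorem cut_add_compl (D : Set Idx) (y : E) : cut D y + cut Dᶜ y = y := by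
  ext p
  rw [BoundedContinuousFunction.add_apply]
  by_cases hp : p ∈ D
  · rw [cut_mem y hp, cut_notMem y (by simpa using hp), add_zero]
  · rw [cut_notMem y hp, cut_mem y (by simpa using hp), zero_add]

/-- The functional `F` has mass at most `δ` on `D`. -/
def Sm (F : StrongDual ℝ E) (D : Set Idx) (δ : ℝ) : Prop :=
  ∀ y : E, (∀ p, |y p| ≤ 1) → (∀ p, p ∉ D → y p = 0) → F y ≤ δ

theorem Sm.abs_le {F : StrongDual ℝ E} {D : Set Idx} {δ : ℝ} (h : Sm F D δ) (y : E)
    (h1 : ∀ p, |y p| ≤ 1) (h2 : ∀ p, p ∉ D → y p = 0) : |F y| ≤ δ := by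
  rw [_root_.abs_le]
  constructor
  · have := h (-y) (fun p => by
      rw [BoundedContinuousFunction.neg_apply, abs_neg]; exact h1 p)
      (fun p hp => by rw [BoundedContinuousFunction.neg_apply, h2 p hp, neg_zero])
    rw [map_neg] at this
    linarith
  · exact h y h1 h2

/-- Indices near the branch `σ`. -/
def Dn (σ : Br) (n : ℕ) : Set Idx := {p | n ≤ p.lev ∧ ∀ τ, p.a τ ≠ 0 → agree n τ σ}

theorem Dn_anti (σ : Br) {n m : ℕ} (h : n ≤ m) : Dn σ m ⊆ Dn σ n :=
  fun _ hp => ⟨h.trans hp.1, fun τ hτ => (hp.2 τ hτ).mono h⟩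

/-- Chains of blocks with large mass are short. -/
theorem chain (σ : Br) (F : StrongDual ℝ E) (hF : ‖F‖ ≤ 1) (δ : ℝ) (n : ℕ → ℕ)
    (hn : Monotone n) (L : ℕ)
    (h : ∀ i < L, ¬ Sm F (Dn σ (n i) \ Dn σ (n (i + 1))) δ) : L * δ ≤ 1 := by
  have key : ∀ K ≤ L, ∃ y : E, (∀ p, |y p| ≤ 1) ∧ (∀ p, p ∉ Dn σ (n 0) \ Dn σ (n K) → y p = 0) ∧
      K * δ ≤ F y := by
    intro K
    induction K with
    | zero =>
      intro _
      exact ⟨0, fun p => by simp, fun p _ => rfl, by simp⟩
    | succ K ih =>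
      intro hK
      obtain ⟨y, hy1, hy2, hy3⟩ := ih (by omega)
      have h1 := h K (by omega)
      unfold Sm at h1
      push Not at h1
      obtain ⟨z, hz1, hz2, hz3⟩ := h1
      refine ⟨y + z, fun p => ?_, fun p hp => ?_, ?_⟩
      · rw [BoundedContinuousFunction.add_apply]
        by_cases hp : p ∈ Dn σ (n K)
        · rw [hy2 p (fun h => h.2 hp), zero_add]; exact hz1 p
        · rw [hz2 p (fun h => hp h.1), add_zero]; exact hy1 p
      · rw [BoundedContinuousFunction.add_apply, hy2 p, hz2 p, add_zero]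
        · exact fun h => hp ⟨Dn_anti σ (hn (Nat.zero_le _)) h.1, h.2⟩
        · exact fun h => hp ⟨h.1, fun h' => h.2 (Dn_anti σ (hn (Nat.le_succ _)) h')⟩
      · rw [map_add]
        push_cast
        linarith
  obtain ⟨y, hy1, -, hy3⟩ := key L le_rfl
  have h2 : F y ≤ 1 := by
    calc F y ≤ ‖F y‖ := le_abs_self _
      _ ≤ ‖F‖ * ‖y‖ := F.le_opNorm y
      _ ≤ 1 * 1 := by
        gcongr
        exact (norm_le_one_iff y).mpr hy1
      _ = 1 := one_mul 1
  linarith

/-- Far blocks of a single functional are small. -/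
theorem tail_small (σ : Br) (F : StrongDual ℝ E) (hF : ‖F‖ ≤ 1) (δ : ℝ) (hδ : 0 < δ) (m : ℕ) :
    ∃ n > m, ∀ n' > n, Sm F (Dn σ n \ Dn σ n') δ := by
  by_contra hcon
  push Not at hcon
  choose! nx hnx1 hnx2 using hcon
  set n : ℕ → ℕ := fun i => nx^[i] (m + 1) with hn
  have hgt : ∀ i, m < n i := by
    intro i
    induction i with
    | zero => simp [hn]
    | succ i ih =>
      have h1 := hnx1 (n i) ih
      have h2 : n (i + 1) = nx (n i) := by
        simp only [hn, Function.iterate_succ_apply']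
      omega
  have hsucc : ∀ i, n (i + 1) = nx (n i) := fun i => by
    simp only [hn, Function.iterate_succ_apply']
  have hmono : Monotone n := monotone_nat_of_le_succ fun i => by
    rw [hsucc]; exact (hnx1 (n i) (hgt i)).le
  obtain ⟨L, hL⟩ := exists_nat_gt (1 / δ)
  have := chain σ F hF δ n hmono L (fun i _ => by rw [hsucc]; exact hnx2 (n i) (hgt i))
  rw [div_lt_iff₀ hδ] at hL
  linarith

/-- For a sequence of functionals there is a level beyond which blocks are small infinitely
often. -/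
theorem seq_small (σ : Br) (F : ℕ → StrongDual ℝ E) (hF : ∀ k, ‖F k‖ ≤ 1) (δ : ℝ) (hδ : 0 < δ)
    (m : ℕ) : ∃ n ≥ m, ∀ n' ≥ n, ∀ K, ∃ k ≥ K, Sm (F k) (Dn σ n \ Dn σ n') δ := by
  by_contra hcon
  push Not at hcon
  choose! nx hnx1 Kx hKx using hcon
  set n : ℕ → ℕ := fun i => nx^[i] m with hn
  have hsucc : ∀ i, n (i + 1) = nx (n i) := fun i => by
    simp only [hn, Function.iterate_succ_apply']
  have hgt : ∀ i, m ≤ n i := by
    intro i
    induction i with
    | zero => simp [hn]
    | succ i ih =>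
      rw [hsucc]; exact ih.trans (hnx1 (n i) ih)
  have hmono : Monotone n := monotone_nat_of_le_succ fun i => by
    rw [hsucc]; exact hnx1 (n i) (hgt i)
  obtain ⟨L, hL⟩ := exists_nat_gt (1 / δ)
  set K : ℕ := (Finset.range L).sup (fun i => Kx (n i)) with hK
  have := chain σ (F K) (hF K) δ n hmono L (fun i hi => by
    rw [hsucc]
    apply hKx (n i) (hgt i) K
    exact Finset.le_sup (f := fun i => Kx (n i)) (Finset.mem_range.mpr hi))
  rw [div_lt_iff₀ hδ] at hL
  linarith

/-- Low level indices. -/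
def Lo (n : ℕ) : Set Idx := {p | p.lev < n}

/-- On low levels the unit vectors of branches through a fixed node are `c₀`-like. -/
theorem ell_one (σ : Br) (F : StrongDual ℝ E) (hF : ‖F‖ ≤ 1) (n : ℕ) (T : Finset Br)
    (hT : ∀ τ ∈ T, agree n τ σ) : ∑ τ ∈ T, |F (cut (Lo n) (e τ))| ≤ 1 := by
  classical
  set η : Br → ℝ := fun τ => if 0 ≤ F (cut (Lo n) (e τ)) then 1 else -1 with hη
  set y : E := ∑ τ ∈ T, η τ • cut (Lo n) (e τ) with hy
  have h1 : F y = ∑ τ ∈ T, |F (cut (Lo n) (e τ))| := by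
    rw [hy, map_sum]
    apply Finset.sum_congr rfl
    intro τ _
    rw [map_smul, smul_eq_mul]
    simp only [hη]
    split_ifs with h
    · rw [one_mul, abs_of_nonneg h]
    · push Not at h
      rw [abs_of_neg h]; ring
  have h2 : ‖y‖ ≤ 1 := by
    rw [norm_le_one_iff]
    intro p
    have hyp : y p = ∑ τ ∈ T, η τ * cut (Lo n) (e τ) p := by
      rw [hy, BoundedContinuousFunction.coe_sum, Finset.sum_apply]
      rfl
    rw [hyp]
    by_cases hp : ∃ τ ∈ T, cut (Lo n) (e τ) p ≠ 0
    · obtain ⟨τ, hτT, hτ⟩ := hp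
      have hpLo : p ∈ Lo n := by
        by_contra h
        exact hτ (cut_notMem _ h)
      rw [cut_mem _ hpLo, e_apply] at hτ
      rw [Finset.sum_eq_single τ]
      · rw [abs_mul, cut_mem _ hpLo, e_apply]
        have h3 : |η τ| = 1 := by simp only [hη]; split_ifs <;> simp
        rw [h3, one_mul]
        exact p.le_one τ
      · intro ρ hρT hρτ
        by_cases hρ : p.a ρ = 0
        · rw [cut_mem _ hpLo, e_apply, hρ, mul_zero]
        · exfalso
          have h3 := (p.adm hρ hτ).2 hρτ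
          exact h3 ((hT ρ hρT p.lev hpLo).trans (hT τ hτT p.lev hpLo).symm)
      · intro h; exact absurd hτT h
    · push Not at hp
      rw [Finset.sum_eq_zero (fun τ hτ => by rw [hp τ hτ, mul_zero]), abs_zero]
      exact zero_le_one
  calc ∑ τ ∈ T, |F (cut (Lo n) (e τ))| = F y := h1.symm
    _ ≤ ‖F y‖ := le_abs_self _
    _ ≤ ‖F‖ * ‖y‖ := F.le_opNorm y
    _ ≤ 1 * 1 := by gcongr
    _ = 1 := one_mul 1

/-- Splitting off the low levels for a branch which leaves `σ` between `n` and `n'`. -/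
theorem split_bound (σ τ : Br) (F : StrongDual ℝ E) (n n' : ℕ) (δ : ℝ)
    (hS : Sm F (Dn σ n \ Dn σ n') δ) (hn : agree n τ σ) (hn' : ¬ agree n' τ σ) :
    |F (e τ)| ≤ |F (cut (Lo n) (e τ))| + δ := by
  have h1 := cut_add_compl (Lo n) (e τ)
  have h2 : F (e τ) = F (cut (Lo n) (e τ)) + F (cut (Lo n)ᶜ (e τ)) := by
    rw [← map_add, h1]
  have h3 : |F (cut (Lo n)ᶜ (e τ))| ≤ δ := by
    apply hS.abs_le
    · intro p
      exact (abs_cut_le _ _ p).trans (p.le_one τ)
    · intro p hp
      by_cases hpL : p ∈ (Lo n)ᶜ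
      · rw [cut_mem _ hpL, e_apply]
        by_contra ha
        apply hp
        have hlev : n ≤ p.lev := by
          have : ¬ p.lev < n := hpL
          omega
        refine ⟨⟨hlev, fun ρ hρ => ?_⟩, fun hpD => hn' (hpD.2 τ ha)⟩
        exact ((p.adm hρ ha).1.mono hlev).trans hn
      · exact cut_notMem _ hpL
  rw [h2]
  exact (abs_add_le _ _).trans (by linarith)

/-- Averages of far members of a bounded sequence of functionals have few large coordinates in
a suitable cylinder around `σ`. -/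
theorem average (σ : Br) (F : ℕ → StrongDual ℝ E) (hF : ∀ k, ‖F k‖ ≤ 1) (ε : ℝ) (hε : 0 < ε)
    (m : ℕ) : ∃ n ≥ m, ∃ M : ℕ, 0 < M ∧ ∃ k : ℕ → ℕ, (∀ i, n ≤ k i) ∧
      ∀ T : Finset Br, (∀ τ ∈ T, agree n τ σ ∧
        ε ≤ |(1 / (M : ℝ)) * ∑ i ∈ Finset.range M, F (k i) (e τ)|) →
        (T.card : ℝ) ≤ 4 / ε + 1 := by
  classical
  set δ := ε / 4 with hδ
  have hδ0 : 0 < δ := by positivity
  obtain ⟨n, hnm, hn⟩ := seq_small σ F hF δ hδ0 m
  obtain ⟨M, hM⟩ := exists_nat_gt (4 / ε)
  have hM0 : (0 : ℝ) < M := lt_trans (by positivity) hM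
  have hM4 : 1 ≤ M * (ε / 4) := by
    rw [div_lt_iff₀ hε] at hM
    linarith
  have hstep : ∀ q : ℕ, n ≤ q → ∃ k q' : ℕ, n ≤ k ∧ q < q' ∧ Sm (F k) (Dn σ n \ Dn σ q) δ ∧
      ∀ n' > q', Sm (F k) (Dn σ q' \ Dn σ n') δ := by
    intro q hq
    obtain ⟨k, hk, hk'⟩ := hn q hq n
    obtain ⟨q', hq', hq''⟩ := tail_small σ (F k) (hF k) δ hδ0 q
    exact ⟨k, q', hk, hq', hk', hq''⟩
  choose! kf qf hk hq hS1 hS2 using hstep
  set ns : ℕ → ℕ := fun i => qf^[i] n with hns
  have hsucc : ∀ i, ns (i + 1) = qf (ns i) := fun i => by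
    simp only [hns, Function.iterate_succ_apply']
  have hge : ∀ i, n ≤ ns i := by
    intro i
    induction i with
    | zero => simp [hns]
    | succ i ih => rw [hsucc]; exact ih.trans (hq _ ih).le
  have hmono : StrictMono ns := strictMono_nat_of_lt_succ fun i => by
    rw [hsucc]; exact hq _ (hge i)
  have hMpos : 0 < M := by exact_mod_cast hM0
  refine ⟨n, hnm, M, hMpos, fun i => kf (ns i), fun i => hk _ (hge i), ?_⟩
  intro T hT
  set G : ℕ → StrongDual ℝ E := fun i => F (kf (ns i)) with hG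
  have hG1 : ∀ i, ‖G i‖ ≤ 1 := fun i => hF _
  set w : ℕ → Br → ℝ := fun i τ =>
    if agree (ns (i + 1)) τ σ then |G i (cut (Lo (ns (i + 1))) (e τ))| else 0 with hw
  set w' : ℕ → Br → ℝ := fun i τ => |G i (cut (Lo n) (e τ))| with hw'
  set T' := T.erase σ with hT'
  -- pointwise estimate
  have hpt : ∀ τ ∈ T', |∑ i ∈ Finset.range M, G i (e τ)| ≤
      (∑ i ∈ Finset.range M, (w i τ + w' i τ)) + M * δ + 1 := by
    intro τ hτ
    have hτσ : τ ≠ σ := Finset.ne_of_mem_erase hτ
    have hτn : agree n τ σ := (hT τ (Finset.mem_of_mem_erase hτ)).1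
    have hex : ∃ j, τ j ≠ σ j := by
      by_contra h
      push Not at h
      exact hτσ (funext h)
    set j := Nat.find hex with hj
    have hj1 : τ j ≠ σ j := Nat.find_spec hex
    have hj2 : agree j τ σ := fun i hi => by
      by_contra h
      exact Nat.find_min hex hi h
    have hnj : n ≤ j := by
      by_contra h
      push Not at h
      exact hj1 (hτn j h)
    have hnot : ∀ q, j < q → ¬ agree q τ σ := fun q hq h => hj1 (h j hq)
    have hind : ∀ i ∈ Finset.range M, |G i (e τ)| ≤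
        (w i τ + w' i τ) + δ + (if ns i ≤ j ∧ j < ns (i + 1) then 1 else 0) := by
      intro i _
      have hw0 : 0 ≤ w i τ := by simp only [hw]; split_ifs <;> positivity
      have hw0' : 0 ≤ w' i τ := abs_nonneg _
      by_cases hc1 : ns (i + 1) ≤ j
      · have hag : agree (ns (i + 1)) τ σ := hj2.mono hc1
        have h1 := split_bound σ τ (G i) (ns (i + 1)) (j + 1) δ
          (by rw [hsucc]; exact hS2 (ns i) (hge i) (j + 1) (by rw [← hsucc]; omega)) hag
          (hnot _ (Nat.lt_succ_self _))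
        have h2 : w i τ = |G i (cut (Lo (ns (i + 1))) (e τ))| := by
          simp only [hw]; rw [if_pos hag]
        rw [if_neg (by omega)]
        linarith
      · by_cases hc2 : j < ns i
        · have h1 := split_bound σ τ (G i) n (ns i) δ (hS1 (ns i) (hge i)) hτn (hnot _ hc2)
          rw [if_neg (by omega)]
          have h2 : w' i τ = |G i (cut (Lo n) (e τ))| := rfl
          linarith
        · rw [if_pos (by omega)]
          have h1 : |G i (e τ)| ≤ 1 := by
            calc |G i (e τ)| = ‖G i (e τ)‖ := rfl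
              _ ≤ ‖G i‖ * ‖e τ‖ := (G i).le_opNorm _
              _ ≤ 1 * 1 := by
                gcongr
                · exact hG1 i
                · exact norm_e_le τ
              _ = 1 := one_mul 1
          linarith
    have hone : ∑ i ∈ Finset.range M, (if ns i ≤ j ∧ j < ns (i + 1) then (1 : ℝ) else 0) ≤ 1 := by
      rw [← Finset.sum_filter, Finset.sum_const, nsmul_eq_mul, mul_one]
      have : ((Finset.range M).filter fun i => ns i ≤ j ∧ j < ns (i + 1)).card ≤ 1 := by
        rw [Finset.card_le_one]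
        intro a ha b hb
        rw [Finset.mem_filter] at ha hb
        rcases lt_trichotomy a b with h | h | h
        · have := hmono.monotone (Nat.succ_le_of_lt h)
          simp only [Nat.succ_eq_add_one] at this
          omega
        · exact h
        · have := hmono.monotone (Nat.succ_le_of_lt h)
          simp only [Nat.succ_eq_add_one] at this
          omega
      exact_mod_cast this
    calc |∑ i ∈ Finset.range M, G i (e τ)| ≤ ∑ i ∈ Finset.range M, |G i (e τ)| :=
          Finset.abs_sum_le_sum_abs _ _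
      _ ≤ ∑ i ∈ Finset.range M, ((w i τ + w' i τ) + δ +
            (if ns i ≤ j ∧ j < ns (i + 1) then 1 else 0)) := Finset.sum_le_sum hind
      _ = (∑ i ∈ Finset.range M, (w i τ + w' i τ)) + M * δ +
            ∑ i ∈ Finset.range M, (if ns i ≤ j ∧ j < ns (i + 1) then (1 : ℝ) else 0) := by
          rw [Finset.sum_add_distrib, Finset.sum_add_distrib, Finset.sum_const, Finset.card_range,
            nsmul_eq_mul]
      _ ≤ _ := by linarith
  -- ℓ₁ sums
  have hsum : ∑ τ ∈ T', ∑ i ∈ Finset.range M, (w i τ + w' i τ) ≤ 2 * M := by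
    rw [Finset.sum_comm]
    have : ∀ i ∈ Finset.range M, ∑ τ ∈ T', (w i τ + w' i τ) ≤ 2 := by
      intro i _
      rw [Finset.sum_add_distrib]
      have h1 : ∑ τ ∈ T', w i τ ≤ 1 := by
        simp only [hw]
        rw [← Finset.sum_filter]
        apply ell_one σ (G i) (hG1 i)
        intro τ hτ
        exact (Finset.mem_filter.mp hτ).2
      have h2 : ∑ τ ∈ T', w' i τ ≤ 1 := by
        apply ell_one σ (G i) (hG1 i)
        intro τ hτ
        exact (hT τ (Finset.mem_of_mem_erase hτ)).1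
      linarith
    calc _ ≤ ∑ i ∈ Finset.range M, (2 : ℝ) := Finset.sum_le_sum this
      _ = 2 * M := by rw [Finset.sum_const, Finset.card_range, nsmul_eq_mul]; ring
  have hlow : ∀ τ ∈ T', M * ε ≤ |∑ i ∈ Finset.range M, G i (e τ)| := by
    intro τ hτ
    have h1 := (hT τ (Finset.mem_of_mem_erase hτ)).2
    rw [abs_mul, abs_of_pos (by positivity : (0 : ℝ) < 1 / (M : ℝ)), one_div, inv_mul_eq_div,
      le_div_iff₀ hM0] at h1
    linarith
  have htot : (T'.card : ℝ) * (M * ε) ≤ 2 * M + T'.card * (M * δ + 1) := by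
    calc (T'.card : ℝ) * (M * ε) = ∑ τ ∈ T', (M * ε : ℝ) := by
          rw [Finset.sum_const, nsmul_eq_mul]
      _ ≤ ∑ τ ∈ T', ((∑ i ∈ Finset.range M, (w i τ + w' i τ)) + (M * δ + 1)) := by
          apply Finset.sum_le_sum
          intro τ hτ
          have h1 := hlow τ hτ
          have h2 := hpt τ hτ
          linarith
      _ = (∑ τ ∈ T', ∑ i ∈ Finset.range M, (w i τ + w' i τ)) + T'.card * (M * δ + 1) := by
          rw [Finset.sum_add_distrib, Finset.sum_const, nsmul_eq_mul]
      _ ≤ _ := by linarith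
  have hT'c : (T'.card : ℝ) ≤ 4 / ε := by
    rw [le_div_iff₀ hε]
    have h1 : (T'.card : ℝ) * (M * δ + 1) ≤ T'.card * (M * ε / 2) := by
      apply mul_le_mul_of_nonneg_left _ (Nat.cast_nonneg _)
      rw [hδ]
      linarith
    have h2 : (T'.card : ℝ) * (M * ε) / 2 ≤ 2 * M := by nlinarith
    have h3 : ((T'.card : ℝ) * ε) * M ≤ 4 * M := by nlinarith
    exact le_of_mul_le_mul_right h3 hM0
  have hcard : (T.card : ℝ) ≤ T'.card + 1 := by
    have : T.card ≤ T'.card + 1 := by
      rw [hT']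
      have := Finset.pred_card_le_card_erase (s := T) (a := σ)
      omega
    exact_mod_cast this
  linarith

end Pool.Agent.Helper871.Tal
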