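import Pool.Agent.Helper871.Tal1
import Pool.Agent.Helper871.NormExt

set_option autoImplicit false

namespace Pool.Agent.Helper871.Tal

open Filter Topology Set
open scoped BoundedContinuousFunction
open Pool.Agent.Helper871.NormExt

/-- The example, as a closed subspace. -/
noncomputable def Xs : Submodule ℝ E := (Submodule.span ℝ (Set.range e)).topologicalClosure

theorem Xs_closed : IsClosed (Xs : Set E) := Submodule.isClosed_topologicalClosure _

/-- The example. -/
def X : Type := ↥Xs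

noncomputable instance : NormedAddCommGroup X := inferInstanceAs (NormedAddCommGroup ↥Xs)
noncomputable instance : NormedSpace ℝ X := inferInstanceAs (NormedSpace ℝ ↥Xs)
instance : CompleteSpace X := Xs_closed.completeSpace_coe

/-- The inclusion. -/
noncomputable def inc : X →ₗᵢ[ℝ] E := Xs.subtypeₗᵢ

/-- The unit vectors of the example. -/
noncomputable def ex (τ : Br) : X :=
  (⟨e τ, subset_closure (Submodule.subset_span ⟨τ, rfl⟩)⟩ : ↥Xs)

theorem inc_ex (τ : Br) : inc (ex τ) = e τ := rfl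

theorem norm_ex_le (τ : Br) : ‖ex τ‖ ≤ 1 := by
  rw [← inc.norm_map, inc_ex]; exact norm_e_le τ

theorem inc_inj : Function.Injective inc := inc.injective

theorem inc_mem (x : X) : inc x ∈ closure ((Submodule.span ℝ (Set.range e) : Submodule ℝ E) : Set E) :=
  (show ↥Xs from x).2

theorem exists_inc {y : E} (hy : y ∈ (Submodule.span ℝ (Set.range e) : Submodule ℝ E)) :
    ∃ x : X, inc x = y := ⟨(⟨y, subset_closure hy⟩ : ↥Xs), rfl⟩

theorem hahn_banach (u : StrongDual ℝ X) :
    ∃ F : StrongDual ℝ E, (∀ x : X, F (inc x) = u x) ∧ ‖F‖ = ‖u‖ := by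
  obtain ⟨F, h1, h2⟩ := exists_extension_norm_eq Xs (show StrongDual ℝ ↥Xs from u)
  exact ⟨F, fun x => h1 x, h2⟩

theorem span_dense : Dense ((Submodule.span ℝ (Set.range ex) : Submodule ℝ X) : Set X) := by
  intro x
  rw [Metric.mem_closure_iff]
  intro ε hε
  have hx := inc_mem x
  rw [Metric.mem_closure_iff] at hx
  obtain ⟨y, hy, hxy⟩ := hx ε hε
  have hmap : Submodule.map (inc : X →ₗᵢ[ℝ] E).toLinearMap (Submodule.span ℝ (Set.range ex)) =
      Submodule.span ℝ (Set.range e) := by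
    rw [Submodule.map_span, ← Set.range_comp]
    rfl
  rw [SetLike.mem_coe, ← hmap] at hy
  obtain ⟨z, hz, hzy⟩ := hy
  refine ⟨z, hz, ?_⟩
  rw [← inc.dist_map]
  have : inc z = y := hzy
  rw [this]; exact hxy

/-- Functionals are determined by their values at the unit vectors. -/
theorem ext_ex {f g : StrongDual ℝ X} (h : ∀ τ, f (ex τ) = g (ex τ)) : f = g := by
  have hd := span_dense
  have h1 : Set.EqOn f g ((Submodule.span ℝ (Set.range ex) : Submodule ℝ X) : Set X) := by
    intro x hx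
    induction hx using Submodule.span_induction with
    | mem x hx => obtain ⟨τ, rfl⟩ := hx; exact h τ
    | zero => rw [map_zero, map_zero]
    | add x y _ _ hx hy => rw [map_add, map_add, hx, hy]
    | smul a x _ hx => rw [map_smul, map_smul, hx]
  have h2 := Continuous.ext_on hd f.continuous g.continuous h1
  exact ContinuousLinearMap.ext fun x => congrFun h2 x

/-! ### weak-star closure -/

/-- The weak-star closure of a set of functionals. -/
def Wcl (B : Set (StrongDual ℝ X)) : Set (StrongDual ℝ X) :=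
  {f | ∀ (s : Finset X) (δ : ℝ), 0 < δ → ∃ u ∈ B, ∀ x ∈ s, |u x - f x| < δ}

theorem subset_Wcl (B : Set (StrongDual ℝ X)) : B ⊆ Wcl B := fun f hf s δ hδ =>
  ⟨f, hf, fun x _ => by simpa using hδ⟩

theorem Wcl_wclosed (B : Set (StrongDual ℝ X)) : WClosed (Wcl B) := by
  unfold WClosed
  rw [← isOpen_compl_iff, isOpen_iff_mem_nhds]
  intro f hf
  have hf' : ¬ ((WeakDual.toStrongDual f) ∈ Wcl B) := hf
  unfold Wcl at hf'
  simp only [Set.mem_ofPred_eq] at hf'
  push Not at hf'
  obtain ⟨s, δ, hδ, hs⟩ := hf'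
  have hopen : IsOpen {g : WeakDual ℝ X | ∀ x ∈ s, |g x - f x| < δ / 2} := by
    have : {g : WeakDual ℝ X | ∀ x ∈ s, |g x - f x| < δ / 2} =
        ⋂ x ∈ s, {g : WeakDual ℝ X | |g x - f x| < δ / 2} := by
      ext g; simp
    rw [this]
    apply isOpen_biInter_finset
    intro x _
    have h1 : Continuous fun g : WeakDual ℝ X => |g x - f x| :=
      ((WeakDual.eval_continuous x).sub continuous_const).abs
    exact isOpen_lt h1 continuous_const
  apply mem_of_superset (hopen.mem_nhds (by intro x _; simpa using hδ))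
  intro g hg hgB
  obtain ⟨u, hu, hus⟩ := hgB s (δ / 2) (by linarith)
  obtain ⟨x, hx, hx'⟩ := hs u hu
  have h1 := hus x hx
  have h2 := hg x hx
  have h3 : |u x - f x| ≤ |u x - g x| + |g x - f x| := abs_sub_le _ _ _
  have h4 : (WeakDual.toStrongDual g) x = g x := rfl
  have h5 : (WeakDual.toStrongDual f) x = f x := rfl
  rw [h4] at h1
  rw [h5] at hx'
  linarith

theorem supp_Wcl {B : Set (StrongDual ℝ X)} (R : ℝ) (hR : ∀ f ∈ B, ‖f‖ ≤ R) (hne : B.Nonempty)
    (x : X) : supp (Wcl B) x = supp B x := by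
  have hle : ∀ f ∈ Wcl B, ∀ x, f x ≤ supp B x := by
    intro f hf x
    apply le_of_forall_pos_le_add
    intro ε hε
    obtain ⟨u, hu, hux⟩ := hf {x} ε hε
    have h1 := hux x (Finset.mem_singleton_self x)
    have h2 := le_supp R hR hu x
    rw [abs_lt] at h1
    linarith
  apply le_antisymm
  · exact supp_le (hne.mono (subset_Wcl B)) fun f hf => hle f hf x
  · apply supp_le hne
    intro f hf
    apply le_csSup
    · refine ⟨supp B x, ?_⟩
      rintro _ ⟨g, hg, rfl⟩
      exact hle g hg x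
    · exact ⟨f, subset_Wcl B hf, rfl⟩

theorem Wcl_bdd {B : Set (StrongDual ℝ X)} (R : ℝ) (hR : ∀ f ∈ B, ‖f‖ ≤ R) (hR0 : 0 ≤ R) :
    ∀ f ∈ Wcl B, ‖f‖ ≤ R := by
  intro f hf
  apply ContinuousLinearMap.opNorm_le_bound _ hR0
  intro x
  apply le_of_forall_pos_le_add
  intro ε hε
  obtain ⟨u, hu, hux⟩ := hf {x} ε hε
  have h1 := hux x (Finset.mem_singleton_self x)
  have h2 : ‖u x‖ ≤ R * ‖x‖ := (u.le_opNorm x).trans (by gcongr; exact hR u hu)
  rw [Real.norm_eq_abs] at h2 ⊢
  have h3 : |f x| ≤ |u x| + |u x - f x| := by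
    have := abs_sub_abs_le_abs_sub (f x) (u x)
    rw [abs_sub_comm (f x) (u x)] at this
    linarith
  linarith

theorem Wcl_convex {B : Set (StrongDual ℝ X)} (hB : Convex ℝ B) : Convex ℝ (Wcl B) := by
  intro f hf g hg a b ha hb hab s δ hδ
  obtain ⟨u, hu, hus⟩ := hf s δ hδ
  obtain ⟨v, hv, hvs⟩ := hg s δ hδ
  refine ⟨a • u + b • v, hB hu hv ha hb hab, fun x hx => ?_⟩
  have h1 : (a • u + b • v) x - (a • f + b • g) x = a * (u x - f x) + b * (v x - g x) := by
    change (a * u x + b * v x) - (a * f x + b * g x) = _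
    ring
  rw [h1]
  have h2 := hus x hx
  have h3 := hvs x hx
  calc |a * (u x - f x) + b * (v x - g x)| ≤ |a * (u x - f x)| + |b * (v x - g x)| :=
        abs_add_le _ _
    _ = a * |u x - f x| + b * |v x - g x| := by
        rw [abs_mul, abs_mul, abs_of_nonneg ha, abs_of_nonneg hb]
    _ < δ := by
        rcases ha.lt_or_eq with h | h
        · nlinarith
        · have hb1 : b = 1 := by linarith
          rw [← h, hb1]; linarith

/-! ### the approximation lemma -/

/-- `u` has at most `N` coordinates of size at least `ε` in the cylinder `[σ|n]`. -/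
def Small (n N : ℕ) (ε : ℝ) (σ : Br) (u : StrongDual ℝ X) : Prop :=
  ∀ T : Finset Br, (∀ τ ∈ T, agree n τ σ ∧ ε ≤ |u (ex τ)|) → T.card ≤ N

theorem Small.mono {n N n' N' : ℕ} {ε : ℝ} {σ : Br} {u : StrongDual ℝ X} (h : Small n N ε σ u)
    (hn : n ≤ n') (hN : N ≤ N') : Small n' N' ε σ u := fun T hT =>
  (h T fun τ hτ => ⟨(hT τ hτ).1.mono hn, (hT τ hτ).2⟩).trans hN

theorem exists_pos_le (δ : ℕ → ℝ) (hδ : ∀ n, 0 < δ n) (k : ℕ) : ∃ r, 0 < r ∧ ∀ j ≤ k, r ≤ δ j := by
  induction k with
  | zero => exact ⟨δ 0, hδ 0, fun j hj => by rw [Nat.le_zero.mp hj]⟩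
  | succ k ih =>
    obtain ⟨r, hr, hr'⟩ := ih
    refine ⟨min r (δ (k + 1)), lt_min hr (hδ _), fun j hj => ?_⟩
    rcases Nat.lt_or_ge j (k + 1) with h | h
    · exact (min_le_left _ _).trans (hr' j (by omega))
    · have : j = k + 1 := by omega
      rw [this]; exact min_le_right _ _

theorem claim (B : Set (StrongDual ℝ X)) (hB : Convex ℝ B) (hB1 : ∀ u ∈ B, ‖u‖ ≤ 1)
    (f : StrongDual ℝ X) (hf : f ∈ Wcl B) (σ : Br) (ε : ℝ) (hε : 0 < ε) :
    ∃ n N : ℕ, f ∈ Wcl {u | u ∈ B ∧ Small n N ε σ u} := by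
  classical
  by_contra hcon
  push Not at hcon
  have h1 : ∀ n : ℕ, ∃ (s : Finset X) (δ : ℝ), 0 < δ ∧ ∀ u ∈ B, Small n n ε σ u →
      ∃ x ∈ s, δ ≤ |u x - f x| := by
    intro n
    have := hcon n n
    unfold Wcl at this
    simp only [Set.mem_ofPred_eq] at this
    push Not at this
    obtain ⟨s, δ, hδ, hs⟩ := this
    exact ⟨s, δ, hδ, fun u hu hu' => hs u ⟨hu, hu'⟩⟩
  choose s δ hδ hs using h1
  have h2 : ∀ k : ℕ, ∃ u ∈ B, ∀ j ≤ k, ∀ x ∈ s j, |u x - f x| < δ j := by
    intro k
    obtain ⟨r, hr, hr'⟩ := exists_pos_le δ hδ k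
    obtain ⟨u, hu, hu'⟩ := hf ((Finset.range (k + 1)).biUnion s) r hr
    refine ⟨u, hu, fun j hj x hx => lt_of_lt_of_le (hu' x ?_) (hr' j hj)⟩
    exact Finset.mem_biUnion.mpr ⟨j, Finset.mem_range.mpr (by omega), hx⟩
  choose u huB hus using h2
  have h3 : ∀ k, ∃ g : StrongDual ℝ E, (∀ x : X, g (inc x) = u k x) ∧ ‖g‖ = ‖u k‖ := fun k =>
    hahn_banach (u k)
  choose F hF1 hF2 using h3
  obtain ⟨n, hn, M, hM, k, hk, hT⟩ := average σ F (fun j => by rw [hF2]; exact hB1 _ (huB j)) ε hε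
    ⌈4 / ε + 1⌉₊
  set w : StrongDual ℝ X := ∑ i ∈ Finset.range M, (1 / (M : ℝ)) • u (k i) with hw
  have hM0 : (0 : ℝ) < M := by exact_mod_cast hM
  have hconv : Convex ℝ {v | v ∈ B ∧ ∀ x ∈ s n, |v x - f x| < δ n} := by
    intro v hv v' hv' a b ha hb hab
    refine ⟨hB hv.1 hv'.1 ha hb hab, fun x hx => ?_⟩
    have e1 : (a • v + b • v') x - f x = a * (v x - f x) + b * (v' x - f x) := by
      change (a * v x + b * v' x) - f x = _
      linear_combination (f x) * hab
    have h2 := hv.2 x hx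
    have h3 := hv'.2 x hx
    rw [e1]
    calc |a * (v x - f x) + b * (v' x - f x)| ≤ |a * (v x - f x)| + |b * (v' x - f x)| :=
          abs_add_le _ _
      _ = a * |v x - f x| + b * |v' x - f x| := by
          rw [abs_mul, abs_mul, abs_of_nonneg ha, abs_of_nonneg hb]
      _ < δ n := by
          rcases ha.lt_or_eq with h | h
          · have e2 := mul_lt_mul_of_pos_left h2 h
            have e3 := mul_le_mul_of_nonneg_left h3.le hb
            have e4 : a * δ n + b * δ n = δ n := by rw [← add_mul, hab, one_mul]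
            linarith
          · have hb1 : b = 1 := by linarith
            rw [← h, hb1]; linarith
  have hwmem : w ∈ {v | v ∈ B ∧ ∀ x ∈ s n, |v x - f x| < δ n} := by
    apply hconv.sum_mem
    · intro i _; positivity
    · rw [Finset.sum_const, Finset.card_range, nsmul_eq_mul]; field_simp
    · intro i _
      exact ⟨huB _, fun x hx => hus (k i) n (hk i) x hx⟩
  have hsmall : Small n n ε σ w := by
    intro T hT'
    have := hT T (fun τ hτ => ⟨(hT' τ hτ).1, by
      have h4 := (hT' τ hτ).2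
      have h5 : w (ex τ) = (1 / (M : ℝ)) * ∑ i ∈ Finset.range M, F (k i) (e τ) := by
        rw [hw, _root_.sum_apply, Finset.mul_sum]
        apply Finset.sum_congr rfl
        intro i _
        have := hF1 (k i) (ex τ)
        rw [inc_ex] at this
        rw [this]; rfl
      rw [h5] at h4; exact h4⟩)
    have h6 : 4 / ε + 1 ≤ n := (Nat.le_ceil _).trans (by exact_mod_cast hn)
    exact_mod_cast this.trans h6
  obtain ⟨x, hx, hx'⟩ := hs n w hwmem.1 hsmall
  have := hwmem.2 x hx
  linarith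

end Pool.Agent.Helper871.Tal
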