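import Pool.Agent.Helper871.Tal2

set_option autoImplicit false

namespace Pool.Agent.Helper871.Tal

open Filter Topology Set
open scoped BoundedContinuousFunction
open Pool.Agent.Helper871.NormExt

/-- An enumeration of finite sequences in which each one occurs infinitely often. -/
def dq (q : ℕ) : List ℕ := (Encodable.decode (α := List ℕ) q.unpair.1).getD []

/-- The cylinder of a finite sequence. -/
def cyl (l : List ℕ) (τ : Br) : Prop := agree l.length τ (fun i => l.getD i 0)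

/-- The quadratic form of a vector and a finite set of pairs. -/
noncomputable def qf (x : X) (A : Finset (ℕ × Br)) (f : StrongDual ℝ X) : ℝ :=
  (f x) ^ 2 + ∑ p ∈ A, ((1 / 2) ^ p.1 * f (ex p.2)) ^ 2

open Classical in
/-- Admissible sets of pairs. -/
def Ad (A : Finset (ℕ × Br)) : Prop :=
  (∀ p ∈ A, cyl (dq p.1) p.2) ∧ ∀ q, (A.filter fun p => p.1 = q).card ≤ q

/-- The dual ball of the new norm. -/
def C : Set (StrongDual ℝ X) := {f | ∀ x : X, ‖x‖ ≤ 1 → ∀ A, Ad A → qf x A f ≤ 1}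

theorem Ad_empty : Ad ∅ := ⟨fun p hp => absurd hp (Finset.notMem_empty p), fun q => by simp⟩

theorem exists_q (σ : Br) (n N : ℕ) : ∃ q, N ≤ q ∧ ∀ τ, cyl (dq q) τ ↔ agree n τ σ := by
  refine ⟨Nat.pair (Encodable.encode ((List.range n).map σ)) N, Nat.right_le_pair _ _, ?_⟩
  intro τ
  have h1 : dq (Nat.pair (Encodable.encode ((List.range n).map σ)) N) = (List.range n).map σ := by
    unfold dq
    rw [Nat.unpair_pair, Encodable.encodek]
    rfl
  rw [h1]
  unfold cyl agree
  rw [List.length_map, List.length_range]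
  constructor
  · intro h i hi
    rw [h i hi]
    simp [hi]
  · intro h i hi
    rw [h i hi]
    simp [hi]

theorem qf_nonneg (x : X) (A : Finset (ℕ × Br)) (f : StrongDual ℝ X) : 0 ≤ qf x A f := by
  unfold qf
  have : 0 ≤ ∑ p ∈ A, ((1 / 2) ^ p.1 * f (ex p.2)) ^ 2 :=
    Finset.sum_nonneg fun p _ => sq_nonneg _
  nlinarith [sq_nonneg (f x)]

theorem qf_neg (x : X) (A : Finset (ℕ × Br)) (f : StrongDual ℝ X) : qf x A (-f) = qf x A f := by
  unfold qf
  have : ∀ y, (-f) y = - f y := fun _ => rfl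
  simp only [this, mul_neg, neg_sq]

theorem qf_smul (x : X) (A : Finset (ℕ × Br)) (c : ℝ) (f : StrongDual ℝ X) :
    qf x A (c • f) = c ^ 2 * qf x A f := by
  unfold qf
  have : ∀ y, (c • f) y = c * f y := fun _ => rfl
  rw [mul_add, Finset.mul_sum]
  simp only [this]
  congr 1
  · ring
  · apply Finset.sum_congr rfl
    intro p _
    ring

theorem qf_conv (x : X) (A : Finset (ℕ × Br)) (f g : StrongDual ℝ X) (a b : ℝ) (ha : 0 ≤ a)
    (hb : 0 ≤ b) (hab : a + b = 1) : qf x A (a • f + b • g) ≤ a * qf x A f + b * qf x A g := by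
  have key : ∀ u v : ℝ, (a * u + b * v) ^ 2 ≤ a * u ^ 2 + b * v ^ 2 := by
    intro u v
    have : b = 1 - a := by linarith
    subst this
    nlinarith [mul_nonneg (mul_nonneg ha hb) (sq_nonneg (u - v))]
  unfold qf
  have h1 : ∀ y, (a • f + b • g) y = a * f y + b * g y := fun _ => rfl
  have h2 : ∑ p ∈ A, ((1 / 2) ^ p.1 * (a • f + b • g) (ex p.2)) ^ 2 ≤
      a * ∑ p ∈ A, ((1 / 2) ^ p.1 * f (ex p.2)) ^ 2 +
      b * ∑ p ∈ A, ((1 / 2) ^ p.1 * g (ex p.2)) ^ 2 := by
    rw [Finset.mul_sum, Finset.mul_sum, ← Finset.sum_add_distrib]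
    apply Finset.sum_le_sum
    intro p _
    rw [h1]
    have := key ((1 / 2) ^ p.1 * f (ex p.2)) ((1 / 2) ^ p.1 * g (ex p.2))
    calc ((1 / 2) ^ p.1 * (a * f (ex p.2) + b * g (ex p.2))) ^ 2
        = (a * ((1 / 2) ^ p.1 * f (ex p.2)) + b * ((1 / 2) ^ p.1 * g (ex p.2))) ^ 2 := by ring
      _ ≤ _ := this
  have h3 := key (f x) (g x)
  rw [h1 x]
  linarith

theorem qf_par (x : X) (A : Finset (ℕ × Br)) (f g : StrongDual ℝ X) :
    qf x A ((1 / 2 : ℝ) • (f + g)) + qf x A ((1 / 2 : ℝ) • (f - g)) =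
      (qf x A f + qf x A g) / 2 := by
  unfold qf
  have h1 : ∀ y, ((1 / 2 : ℝ) • (f + g)) y = (1 / 2) * (f y + g y) := fun _ => rfl
  have h2 : ∀ y, ((1 / 2 : ℝ) • (f - g)) y = (1 / 2) * (f y - g y) := fun _ => rfl
  have h3 : ∑ p ∈ A, ((1 / 2) ^ p.1 * ((1 / 2 : ℝ) • (f + g)) (ex p.2)) ^ 2 +
      ∑ p ∈ A, ((1 / 2) ^ p.1 * ((1 / 2 : ℝ) • (f - g)) (ex p.2)) ^ 2 =
      (∑ p ∈ A, ((1 / 2) ^ p.1 * f (ex p.2)) ^ 2 +
      ∑ p ∈ A, ((1 / 2) ^ p.1 * g (ex p.2)) ^ 2) / 2 := by
    rw [← Finset.sum_add_distrib, ← Finset.sum_add_distrib, Finset.sum_div]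
    apply Finset.sum_congr rfl
    intro p _
    rw [h1, h2]
    ring
  rw [h1 x, h2 x]
  linear_combination h3

theorem C_convex : Convex ℝ C := by
  intro f hf g hg a b ha hb hab x hx A hA
  have h1 := qf_conv x A f g a b ha hb hab
  have h2 := mul_le_mul_of_nonneg_left (hf x hx A hA) ha
  have h3 := mul_le_mul_of_nonneg_left (hg x hx A hA) hb
  linarith

theorem C_neg : ∀ f ∈ C, -f ∈ C := by
  intro f hf x hx A hA
  rw [qf_neg]; exact hf x hx A hA

theorem C_bdd : ∀ f ∈ C, ‖f‖ ≤ 1 := by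
  intro f hf
  apply ContinuousLinearMap.opNorm_le_of_unit_norm zero_le_one
  intro x hx
  have h1 := hf x hx.le ∅ Ad_empty
  unfold qf at h1
  rw [Finset.sum_empty, add_zero] at h1
  rw [Real.norm_eq_abs]
  exact (sq_le_one_iff_abs_le_one _).mp h1

theorem sum_weights (A : Finset (ℕ × Br)) (hA : Ad A) : ∑ p ∈ A, (1 / 4 : ℝ) ^ p.1 ≤ 2 := by
  classical
  have h1 : ∑ p ∈ A, (1 / 4 : ℝ) ^ p.1 =
      ∑ q ∈ A.image Prod.fst, ∑ p ∈ A.filter (fun p => p.1 = q), (1 / 4 : ℝ) ^ p.1 := by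
    rw [Finset.sum_fiberwise_of_maps_to]
    intro p hp
    exact Finset.mem_image_of_mem _ hp
  rw [h1]
  have h2 : ∀ q ∈ A.image Prod.fst, ∑ p ∈ A.filter (fun p => p.1 = q), (1 / 4 : ℝ) ^ p.1 ≤
      (1 / 2) ^ q := by
    intro q _
    have h3 : ∑ p ∈ A.filter (fun p => p.1 = q), (1 / 4 : ℝ) ^ p.1 =
        ((A.filter (fun p => p.1 = q)).card : ℝ) * (1 / 4) ^ q := by
      rw [← nsmul_eq_mul, ← Finset.sum_const]
      apply Finset.sum_congr rfl
      intro p hp
      rw [(Finset.mem_filter.mp hp).2]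
    rw [h3]
    have h4 : ((A.filter (fun p => p.1 = q)).card : ℝ) ≤ q := by
      have := hA.2 q
      have h5 : (A.filter (fun p => p.1 = q)).card ≤ q := by convert this
      exact_mod_cast h5
    have h5 : (q : ℝ) ≤ 2 ^ q := by exact_mod_cast (Nat.lt_two_pow_self).le
    have h6 : (2 : ℝ) ^ q * (1 / 4) ^ q = (1 / 2) ^ q := by
      rw [← mul_pow]; norm_num
    calc _ ≤ (2 : ℝ) ^ q * (1 / 4) ^ q := by
          apply mul_le_mul_of_nonneg_right (h4.trans h5) (by positivity)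
      _ = _ := h6
  calc _ ≤ ∑ q ∈ A.image Prod.fst, (1 / 2 : ℝ) ^ q := Finset.sum_le_sum h2
    _ ≤ ∑' q : ℕ, (1 / 2 : ℝ) ^ q :=
        summable_geometric_two.sum_le_tsum _ (fun q _ => by positivity)
    _ = 2 := tsum_geometric_two

theorem C_ball : ∀ f : StrongDual ℝ X, ‖f‖ ≤ 1 / 2 → f ∈ C := by
  intro f hf x hx A hA
  unfold qf
  have hb : ∀ y : X, ‖y‖ ≤ 1 → (f y) ^ 2 ≤ 1 / 4 := by
    intro y hy
    have h1 : |f y| ≤ 1 / 2 := by
      calc |f y| = ‖f y‖ := rfl
        _ ≤ ‖f‖ * ‖y‖ := f.le_opNorm y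
        _ ≤ 1 / 2 * 1 := by gcongr
        _ = 1 / 2 := by norm_num
    rw [← sq_abs]
    nlinarith [abs_nonneg (f y)]
  have h2 : ∑ p ∈ A, ((1 / 2) ^ p.1 * f (ex p.2)) ^ 2 ≤ ∑ p ∈ A, (1 / 4 : ℝ) ^ p.1 * (1 / 4) := by
    apply Finset.sum_le_sum
    intro p _
    rw [mul_pow, ← pow_mul, mul_comm p.1 2, pow_mul]
    have h3 := hb (ex p.2) (norm_ex_le _)
    have h4 : ((1 / 2 : ℝ) ^ 2) ^ p.1 = (1 / 4) ^ p.1 := by norm_num
    rw [h4]
    exact mul_le_mul_of_nonneg_left h3 (by positivity)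
  rw [← Finset.sum_mul] at h2
  have h5 := sum_weights A hA
  have h6 := hb x hx
  linarith

theorem C_ne : C.Nonempty := ⟨0, C_ball 0 (by simp)⟩

/-- The new norm. -/
noncomputable def Nn : X → ℝ := supp C

theorem Nn_add (x y : X) : Nn (x + y) ≤ Nn x + Nn y := supp_add 1 C_bdd C_ne x y
theorem Nn_smul (r : ℝ) (x : X) : Nn (r • x) = |r| * Nn x := supp_smul 1 C_bdd C_ne C_neg r x
theorem Nn_lo (x : X) : 1 / 2 * ‖x‖ ≤ Nn x := norm_le_supp 1 C_bdd (1 / 2) (by norm_num) C_ball x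
theorem Nn_hi (x : X) : Nn x ≤ 1 * ‖x‖ := supp_le_norm 1 C_bdd C_ne x

/-- The functionals dominated by the new norm are those in `C`. -/
theorem mem_C_iff (f : StrongDual ℝ X) : f ∈ C ↔ ∀ z, f z ≤ Nn z := by
  constructor
  · intro hf z
    exact le_supp 1 C_bdd hf z
  · intro hf x hx A hA
    set y : X := f x • x + ∑ p ∈ A, ((1 / 2 : ℝ) ^ p.1 * ((1 / 2) ^ p.1 * f (ex p.2))) • ex p.2
      with hy
    have hval : ∀ g : StrongDual ℝ X, g y = f x * g x +
        ∑ p ∈ A, ((1 / 2) ^ p.1 * f (ex p.2)) * ((1 / 2) ^ p.1 * g (ex p.2)) := by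
      intro g
      rw [hy, map_add, map_smul, map_sum, smul_eq_mul]
      congr 1
      apply Finset.sum_congr rfl
      intro p _
      rw [map_smul, smul_eq_mul]
      ring
    have h1 : f y = qf x A f := by
      rw [hval]
      unfold qf
      congr 1
      · ring
      · apply Finset.sum_congr rfl
        intro p _
        ring
    have h2 : Nn y ≤ (qf x A f + 1) / 2 := by
      apply supp_le C_ne
      intro g hg
      have h3 := hg x hx A hA
      have h4 : g y ≤ (qf x A f + qf x A g) / 2 := by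
        rw [hval]
        unfold qf
        have h5 : ∑ p ∈ A, ((1 / 2) ^ p.1 * f (ex p.2)) * ((1 / 2) ^ p.1 * g (ex p.2)) ≤
            (∑ p ∈ A, ((1 / 2) ^ p.1 * f (ex p.2)) ^ 2 +
             ∑ p ∈ A, ((1 / 2) ^ p.1 * g (ex p.2)) ^ 2) / 2 := by
          rw [← Finset.sum_add_distrib, Finset.sum_div]
          apply Finset.sum_le_sum
          intro p _
          nlinarith [sq_nonneg ((1 / 2) ^ p.1 * f (ex p.2) - (1 / 2) ^ p.1 * g (ex p.2))]
        nlinarith [sq_nonneg (f x - g x)]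
      linarith
    have h6 := hf y
    linarith

/-- Rotundity of the new dual norm at a coordinate. -/
theorem rot {f g : StrongDual ℝ X} (hf : f ∈ C) (hg : g ∈ C) {x : X} {A : Finset (ℕ × Br)}
    (hx : ‖x‖ ≤ 1) (hA : Ad A) {η c c' : ℝ}
    (hθ : 1 - η < qf x A ((1 / 2 : ℝ) • (f + g))) (q : ℕ) (σ : Br) (hσ : cyl (dq q) σ)
    (hc' : 0 ≤ c') (hcc : c' < c) (h1 : c ≤ |((1 / 2 : ℝ) • (f + g)) (ex σ)|)
    (h2 : ∀ S : Finset Br, (∀ τ ∈ S, cyl (dq q) τ ∧ c' ≤ |((1 / 2 : ℝ) • (f + g)) (ex τ)|) →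
      S.card ≤ q) (hη : η ≤ (1 / 4) ^ q * (c ^ 2 - c' ^ 2)) :
    (1 / 4) ^ q * (f (ex σ) - g (ex σ)) ^ 2 / 4 ≤ η := by
  classical
  set h : StrongDual ℝ X := (1 / 2 : ℝ) • (f + g) with hh
  have hC : h ∈ C := by
    have := C_convex hf hg (by norm_num : (0 : ℝ) ≤ 1 / 2) (by norm_num : (0 : ℝ) ≤ 1 / 2)
      (by norm_num)
    rw [hh, smul_add]; exact this
  have hterm : ∀ τ : Br, ((1 / 2 : ℝ) ^ q * h (ex τ)) ^ 2 = (1 / 4) ^ q * (h (ex τ)) ^ 2 := by
    intro τ
    rw [mul_pow, ← pow_mul, mul_comm q 2, pow_mul]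
    norm_num
  have hq4 : (0 : ℝ) < (1 / 4) ^ q := by positivity
  have hcσ : c ^ 2 ≤ (h (ex σ)) ^ 2 := by
    rw [← sq_abs (h (ex σ))]
    exact pow_le_pow_left₀ (by linarith) h1 2
  have hmem : (q, σ) ∈ A := by
    by_contra hnot
    by_cases hcase : (A.filter fun p => p.1 = q).card < q
    · -- insert
      have hA' : Ad (insert (q, σ) A) := by
        refine ⟨?_, ?_⟩
        · intro p hp
          rw [Finset.mem_insert] at hp
          rcases hp with rfl | hp
          · exact hσ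
          · exact hA.1 p hp
        · intro r
          rw [Finset.filter_insert]
          split_ifs with hr
          · have hr' : q = r := hr
            subst hr'
            exact (Finset.card_insert_le _ _).trans (by omega)
          · exact hA.2 r
      have h3 := hC x hx _ hA'
      have h4 : qf x (insert (q, σ) A) h = qf x A h + ((1 / 2 : ℝ) ^ q * h (ex σ)) ^ 2 := by
        unfold qf
        rw [Finset.sum_insert hnot]
        ring
      rw [h4, hterm] at h3
      nlinarith [mul_le_mul_of_nonneg_left hcσ hq4.le, sq_nonneg c']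
    · -- swap
      have hex : ∃ τ, (q, τ) ∈ A ∧ |h (ex τ)| < c' := by
        by_contra hcon
        push Not at hcon
        have h3 := h2 (insert σ ((A.filter fun p => p.1 = q).image Prod.snd)) (by
          intro τ hτ
          rw [Finset.mem_insert] at hτ
          rcases hτ with rfl | hτ
          · exact ⟨hσ, by linarith⟩
          · obtain ⟨p, hp, rfl⟩ := Finset.mem_image.mp hτ
            rw [Finset.mem_filter] at hp
            have hpq : p = (q, p.2) := Prod.ext hp.2 rfl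
            refine ⟨?_, hcon _ (by rw [← hpq]; exact hp.1)⟩
            have := hA.1 p hp.1
            rw [hp.2] at this
            exact this)
        rw [Finset.card_insert_of_notMem, Finset.card_image_of_injOn] at h3
        · omega
        · intro p hp r hr hpr
          rw [Finset.mem_coe, Finset.mem_filter] at hp hr
          exact Prod.ext (hp.2.trans hr.2.symm) hpr
        · intro hmem
          obtain ⟨p, hp, hp2⟩ := Finset.mem_image.mp hmem
          rw [Finset.mem_filter] at hp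
          apply hnot
          have : p = (q, σ) := Prod.ext hp.2 hp2
          rw [← this]; exact hp.1
      obtain ⟨τ, hτA, hτ⟩ := hex
      have hnot' : (q, σ) ∉ A.erase (q, τ) := fun h => hnot (Finset.mem_of_mem_erase h)
      have hA' : Ad (insert (q, σ) (A.erase (q, τ))) := by
        refine ⟨?_, ?_⟩
        · intro p hp
          rw [Finset.mem_insert] at hp
          rcases hp with rfl | hp
          · exact hσ
          · exact hA.1 p (Finset.mem_of_mem_erase hp)
        · intro r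
          rw [Finset.filter_insert]
          split_ifs with hr
          · have hr' : q = r := hr
            subst hr'
            refine (Finset.card_insert_le _ _).trans ?_
            have hmem2 : (q, τ) ∈ A.filter (fun p => p.1 = q) :=
              Finset.mem_filter.mpr ⟨hτA, rfl⟩
            rw [Finset.filter_erase, Finset.card_erase_of_mem hmem2]
            have h5 := hA.2 q
            have h6 : 0 < (A.filter fun p => p.1 = q).card :=
              Finset.card_pos.mpr ⟨_, hmem2⟩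
            have h7 : (A.filter fun p => p.1 = q).card ≤ q := by convert h5
            omega
          · refine (Finset.card_le_card ?_).trans (hA.2 r)
            intro p hp
            rw [Finset.mem_filter] at hp ⊢
            exact ⟨Finset.mem_of_mem_erase hp.1, hp.2⟩
      have h3 := hC x hx _ hA'
      have h4 : qf x (insert (q, σ) (A.erase (q, τ))) h =
          qf x A h - ((1 / 2 : ℝ) ^ q * h (ex τ)) ^ 2 + ((1 / 2 : ℝ) ^ q * h (ex σ)) ^ 2 := by
        unfold qf
        rw [Finset.sum_insert hnot', ← Finset.add_sum_erase A _ hτA]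
        ring
      rw [h4, hterm, hterm] at h3
      have h5 : (h (ex τ)) ^ 2 ≤ c' ^ 2 := by
        rw [← sq_abs (h (ex τ))]
        exact pow_le_pow_left₀ (abs_nonneg _) hτ.le 2
      nlinarith [mul_le_mul_of_nonneg_left hcσ hq4.le, mul_le_mul_of_nonneg_left h5 hq4.le]
  have h3 := qf_par x A f g
  have h4 := hf x hx A hA
  have h5 := hg x hx A hA
  have h6 : ((1 / 2 : ℝ) ^ q * ((1 / 2 : ℝ) • (f - g)) (ex σ)) ^ 2 ≤
      qf x A ((1 / 2 : ℝ) • (f - g)) := by
    unfold qf
    have h7 := Finset.single_le_sum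
      (f := fun p : ℕ × Br => ((1 / 2 : ℝ) ^ p.1 * ((1 / 2 : ℝ) • (f - g)) (ex p.2)) ^ 2)
      (fun p _ => sq_nonneg _) hmem
    simp only at h7
    nlinarith [sq_nonneg (((1 / 2 : ℝ) • (f - g)) x)]
  have h8 : ((1 / 2 : ℝ) ^ q * ((1 / 2 : ℝ) • (f - g)) (ex σ)) ^ 2 =
      (1 / 4) ^ q * (f (ex σ) - g (ex σ)) ^ 2 / 4 := by
    have h9 : ((1 / 2 : ℝ) • (f - g)) (ex σ) = (1 / 2) * (f (ex σ) - g (ex σ)) := rfl
    rw [h9, mul_pow, ← pow_mul, mul_comm q 2, pow_mul]
    norm_num
    ring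
  rw [h8] at h6
  rw [← hh] at h3
  linarith

end Pool.Agent.Helper871.Tal
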