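import Pool.Agent.Helper871.Tal3

set_option autoImplicit false

namespace Pool.Agent.Helper871.Tal

open Filter Topology Set
open scoped BoundedContinuousFunction
open Pool.Agent.Helper871.NormExt

/-- The unit ball of the subspace `Y` of the dual in the new dual norm. -/
def BY (Y : Submodule ℝ (StrongDual ℝ X)) : Set (StrongDual ℝ X) := {u | u ∈ Y ∧ u ∈ C}

theorem BY_convex (Y : Submodule ℝ (StrongDual ℝ X)) : Convex ℝ (BY Y) := by
  intro f hf g hg a b ha hb hab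
  exact ⟨Y.add_mem (Y.smul_mem a hf.1) (Y.smul_mem b hg.1), C_convex hf.2 hg.2 ha hb hab⟩

theorem BY_bdd (Y : Submodule ℝ (StrongDual ℝ X)) : ∀ u ∈ BY Y, ‖u‖ ≤ 1 := fun u hu => C_bdd u hu.2

theorem BY_ne (Y : Submodule ℝ (StrongDual ℝ X)) : (BY Y).Nonempty :=
  ⟨0, Y.zero_mem, C_ball 0 (by simp)⟩

theorem uniq_aux (Y : Submodule ℝ (StrongDual ℝ X)) (x : X) (m : ℝ) (hm : 0 < m)
    (hle : ∀ u ∈ BY Y, u x ≤ m) {f g : StrongDual ℝ X} (hf : f ∈ Wcl (BY Y))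
    (hg : g ∈ Wcl (BY Y)) (hfx : f x = m) (hgx : g x = m) (σ : Br)
    (hne : f (ex σ) + g (ex σ) ≠ 0) : f (ex σ) = g (ex σ) := by
  classical
  by_contra hfg
  set a := |f (ex σ) + g (ex σ)| / 2 with ha
  have ha0 : 0 < a := by have := abs_pos.mpr hne; linarith
  set ρ := |f (ex σ) - g (ex σ)| with hρ
  have hρ0 : 0 < ρ := abs_pos.mpr (sub_ne_zero.mpr hfg)
  obtain ⟨n1, N1, h1⟩ := claim (BY Y) (BY_convex Y) (BY_bdd Y) f hf σ (a / 4) (by linarith)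
  obtain ⟨n2, N2, h2⟩ := claim (BY Y) (BY_convex Y) (BY_bdd Y) g hg σ (a / 4) (by linarith)
  obtain ⟨q, hq, hcyl⟩ := exists_q σ (max n1 n2) (N1 + N2)
  have hq4 : (0 : ℝ) < (1 / 4) ^ q := by positivity
  set η := min ((1 / 4) ^ q * ((a / 2) ^ 2 - (a / 4) ^ 2)) (min ((1 / 4) ^ q * ρ ^ 2 / 32) 1)
    with hη
  have hη0 : 0 < η := by
    apply lt_min
    · apply mul_pos hq4; nlinarith
    · exact lt_min (by positivity) one_pos
  have hη1 : η ≤ (1 / 4) ^ q * ((a / 2) ^ 2 - (a / 4) ^ 2) := min_le_left _ _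
  have hη2 : η ≤ (1 / 4) ^ q * ρ ^ 2 / 32 := (min_le_right _ _).trans (min_le_left _ _)
  have hη3 : η ≤ 1 := (min_le_right _ _).trans (min_le_right _ _)
  set κ := min (a / 4) (min (ρ / 4) (m * η / 8)) with hκ
  have hκ0 : 0 < κ := lt_min (by linarith) (lt_min (by linarith) (by positivity))
  have hκ1 : κ ≤ a / 4 := min_le_left _ _
  have hκ2 : κ ≤ ρ / 4 := (min_le_right _ _).trans (min_le_left _ _)
  have hκ3 : κ ≤ m * η / 8 := (min_le_right _ _).trans (min_le_right _ _)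
  obtain ⟨u, ⟨huB, huS⟩, hu⟩ := h1 {x, ex σ} κ hκ0
  obtain ⟨v, ⟨hvB, hvS⟩, hv⟩ := h2 {x, ex σ} κ hκ0
  have hux := hu x (by simp)
  have huσ := hu (ex σ) (by simp)
  have hvx := hv x (by simp)
  have hvσ := hv (ex σ) (by simp)
  rw [hfx, abs_lt] at hux
  rw [hgx, abs_lt] at hvx
  set w : StrongDual ℝ X := (1 / 2 : ℝ) • (u + v) with hw
  have hwval : ∀ y, w y = (1 / 2) * (u y + v y) := fun _ => rfl
  have hwB : w ∈ BY Y := by
    have := BY_convex Y huB hvB (by norm_num : (0 : ℝ) ≤ 1 / 2) (by norm_num : (0 : ℝ) ≤ 1 / 2)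
      (by norm_num)
    rw [hw, smul_add]; exact this
  have hwx : m - κ < w x := by rw [hwval]; linarith
  have hext : ∃ (x' : X) (A : Finset (ℕ × Br)), ‖x'‖ ≤ 1 ∧ Ad A ∧ 1 - η < qf x' A w := by
    by_contra hcon
    push Not at hcon
    have h3 : (1 + η / 2) • w ∈ BY Y := by
      refine ⟨Y.smul_mem _ hwB.1, fun x' hx' A hA => ?_⟩
      rw [qf_smul]
      have h4 := hcon x' A hx' hA
      have h5 := mul_le_mul_of_nonneg_left h4 (sq_nonneg (1 + η / 2))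
      have h6 : (1 + η / 2) ^ 2 * (1 - η) ≤ 1 := by
        have : (1 + η / 2) ^ 2 * (1 - η) = 1 - η ^ 2 * (3 / 4 + η / 4) := by ring
        rw [this]
        have : 0 ≤ η ^ 2 * (3 / 4 + η / 4) := by positivity
        linarith
      linarith
    have h4 := hle _ h3
    have h5 : ((1 + η / 2) • w) x = (1 + η / 2) * w x := rfl
    rw [h5] at h4
    have h6 : (1 + η / 2) * (m - κ) < m := by
      have := mul_lt_mul_of_pos_left hwx (by linarith : 0 < 1 + η / 2)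
      linarith
    have h7 : κ * (1 + η / 2) ≤ m * η / 8 * (3 / 2) := by
      apply mul_le_mul hκ3 (by linarith) (by positivity) (by positivity)
    nlinarith [mul_pos hm hη0]
  obtain ⟨x', A, hx', hA, hqf⟩ := hext
  have hσ : cyl (dq q) σ := (hcyl σ).mpr (agree_refl _ _)
  have hbig : a / 2 ≤ |w (ex σ)| := by
    rw [hwval]
    have h3 : |u (ex σ) + v (ex σ)| ≥ |f (ex σ) + g (ex σ)| - 2 * κ := by
      have h4 : |f (ex σ) + g (ex σ)| ≤ |u (ex σ) + v (ex σ)| +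
          (|u (ex σ) - f (ex σ)| + |v (ex σ) - g (ex σ)|) := by
        have h5 : f (ex σ) + g (ex σ) = (u (ex σ) + v (ex σ)) -
          ((u (ex σ) - f (ex σ)) + (v (ex σ) - g (ex σ))) := by ring
        rw [h5]
        refine (abs_sub _ _).trans ?_
        have := abs_add_le (u (ex σ) - f (ex σ)) (v (ex σ) - g (ex σ))
        linarith
      linarith
    rw [abs_mul, abs_of_pos (by norm_num : (0 : ℝ) < 1 / 2)]
    linarith
  have hcount : ∀ S : Finset Br, (∀ τ ∈ S, cyl (dq q) τ ∧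
      a / 4 ≤ |((1 / 2 : ℝ) • (u + v)) (ex τ)|) → S.card ≤ q := by
    intro S hS
    have h3 : S ⊆ S.filter (fun τ => a / 4 ≤ |u (ex τ)|) ∪ S.filter (fun τ => a / 4 ≤ |v (ex τ)|) := by
      intro τ hτ
      rw [Finset.mem_union, Finset.mem_filter, Finset.mem_filter]
      by_contra hcon
      push Not at hcon
      have h4 := hcon.1 hτ
      have h5 := hcon.2 hτ
      have h6 := (hS τ hτ).2
      have h7 : ((1 / 2 : ℝ) • (u + v)) (ex τ) = (1 / 2) * (u (ex τ) + v (ex τ)) := rfl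
      rw [h7, abs_mul, abs_of_pos (by norm_num : (0 : ℝ) < 1 / 2)] at h6
      have := abs_add_le (u (ex τ)) (v (ex τ))
      linarith
    have h4 := huS (S.filter (fun τ => a / 4 ≤ |u (ex τ)|)) (fun τ hτ => by
      rw [Finset.mem_filter] at hτ
      exact ⟨((hcyl τ).mp (hS τ hτ.1).1).mono (le_max_left _ _), hτ.2⟩)
    have h5 := hvS (S.filter (fun τ => a / 4 ≤ |v (ex τ)|)) (fun τ hτ => by
      rw [Finset.mem_filter] at hτ
      exact ⟨((hcyl τ).mp (hS τ hτ.1).1).mono (le_max_right _ _), hτ.2⟩)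
    have h6 := (Finset.card_le_card h3).trans (Finset.card_union_le _ _)
    omega
  have hrot := rot huB.2 hvB.2 hx' hA hqf q σ hσ (by linarith : 0 ≤ a / 4)
    (by linarith : a / 4 < a / 2) hbig hcount hη1
  have hdiff : ρ / 2 ≤ |u (ex σ) - v (ex σ)| := by
    have h4 : ρ ≤ |u (ex σ) - v (ex σ)| +
        (|u (ex σ) - f (ex σ)| + |v (ex σ) - g (ex σ)|) := by
      have h5 : f (ex σ) - g (ex σ) = (u (ex σ) - v (ex σ)) -
        ((u (ex σ) - f (ex σ)) - (v (ex σ) - g (ex σ))) := by ring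
      rw [hρ, h5]
      refine (abs_sub _ _).trans ?_
      have := abs_sub (u (ex σ) - f (ex σ)) (v (ex σ) - g (ex σ))
      linarith
    linarith
  have hsq : ρ ^ 2 / 4 ≤ (u (ex σ) - v (ex σ)) ^ 2 := by
    rw [← sq_abs (u (ex σ) - v (ex σ))]
    have := pow_le_pow_left₀ (by linarith : 0 ≤ ρ / 2) hdiff 2
    linarith [this, (by ring : (ρ / 2) ^ 2 = ρ ^ 2 / 4)]
  have hfin : (1 / 4) ^ q * ρ ^ 2 / 16 ≤ (1 / 4) ^ q * ρ ^ 2 / 32 := by
    have := mul_le_mul_of_nonneg_left hsq hq4.le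
    linarith
  have : 0 < (1 / 4 : ℝ) ^ q * ρ ^ 2 := by positivity
  linarith

theorem uniq (Y : Submodule ℝ (StrongDual ℝ X)) (x : X) (m : ℝ) (hm : 0 < m)
    (hle : ∀ u ∈ BY Y, u x ≤ m) {f g : StrongDual ℝ X} (hf : f ∈ Wcl (BY Y))
    (hg : g ∈ Wcl (BY Y)) (hfx : f x = m) (hgx : g x = m) : f = g := by
  apply ext_ex
  intro σ
  by_cases hne : f (ex σ) + g (ex σ) ≠ 0
  · exact uniq_aux Y x m hm hle hf hg hfx hgx σ hne
  · push Not at hne
    by_cases hf0 : f (ex σ) = 0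
    · rw [hf0] at hne ⊢; linarith
    · exfalso
      have hg' : (1 / 2 : ℝ) • f + (1 / 2 : ℝ) • g ∈ Wcl (BY Y) :=
        Wcl_convex (BY_convex Y) hf hg (by norm_num) (by norm_num) (by norm_num)
      have hval : ∀ y, ((1 / 2 : ℝ) • f + (1 / 2 : ℝ) • g) y = (1 / 2) * f y + (1 / 2) * g y :=
        fun _ => rfl
      have h0 : ((1 / 2 : ℝ) • f + (1 / 2 : ℝ) • g) (ex σ) = 0 := by rw [hval]; linarith
      have := uniq_aux Y x m hm hle hf hg' hfx (by rw [hval, hfx, hgx]; ring) σ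
        (by rw [h0, add_zero]; exact hf0)
      rw [h0] at this
      exact hf0 this

theorem envelope (Y : Submodule ℝ (StrongDual ℝ X)) (x : X) (hpos : 0 < supp (BY Y) x) :
    ∃ g : StrongDual ℝ X, ∀ h : X, HasDerivAt (fun t : ℝ => supp (BY Y) (x + t • h)) (g h) 0 := by
  have hWb := Wcl_bdd 1 (BY_bdd Y) zero_le_one
  have hWne : (Wcl (BY Y)).Nonempty := (BY_ne Y).mono (subset_Wcl _)
  have hs : ∀ y, supp (Wcl (BY Y)) y = supp (BY Y) y := supp_Wcl 1 (BY_bdd Y) (BY_ne Y)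
  obtain ⟨f₀, hf₀, hmax⟩ := exists_max (Wcl_wclosed (BY Y)) 1 hWb hWne x
  have hf₀x : f₀ x = supp (Wcl (BY Y)) x :=
    le_antisymm (le_supp 1 hWb hf₀ x) (supp_le hWne hmax)
  refine ⟨f₀, fun h => ?_⟩
  have := supp_gateaux (Wcl_wclosed (BY Y)) 1 hWb hWne x f₀ hf₀ hf₀x (fun f hf hfx =>
    uniq Y x (supp (BY Y) x) hpos (fun u hu => le_supp 1 (BY_bdd Y) hu x) hf hf₀
      (by rw [hfx, hs]) (by rw [hf₀x, hs])) h
  simpa only [hs] using this

theorem good_norm :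
    ∃ N : X → ℝ,
      (∀ x y : X, N (x + y) ≤ N x + N y) ∧
      (∀ (r : ℝ) (x : X), N (r • x) = |r| * N x) ∧
      (∃ a b : ℝ, 0 < a ∧ 0 < b ∧ ∀ x : X, a * ‖x‖ ≤ N x ∧ N x ≤ b * ‖x‖) ∧
      ∀ Y : Submodule ℝ (X →L[ℝ] ℝ),
        (∃ c : ℝ, 0 < c ∧ ∀ x : X,
          c * N x ≤ sSup {r : ℝ | ∃ f ∈ Y, (∀ z : X, f z ≤ N z) ∧ f x = r}) →
        ∀ x : X, x ≠ 0 → ∃ g : X →L[ℝ] ℝ, ∀ h : X,
          HasDerivAt
            (fun t : ℝ => sSup {r : ℝ | ∃ f ∈ Y, (∀ z : X, f z ≤ N z) ∧ f (x + t • h) = r})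
            (g h) 0 := by
  refine ⟨Nn, Nn_add, Nn_smul, ⟨1 / 2, 1, by norm_num, one_pos, fun x => ⟨Nn_lo x, Nn_hi x⟩⟩, ?_⟩
  intro Y hY x hx
  have hset : ∀ y : X, {r : ℝ | ∃ f ∈ Y, (∀ z : X, f z ≤ Nn z) ∧ f y = r} =
      (fun f : StrongDual ℝ X => f y) '' BY Y := by
    intro y
    ext r
    constructor
    · rintro ⟨f, hfY, hfN, rfl⟩
      exact ⟨f, ⟨hfY, (mem_C_iff f).mpr hfN⟩, rfl⟩
    · rintro ⟨f, hf, rfl⟩
      exact ⟨f, hf.1, (mem_C_iff f).mp hf.2, rfl⟩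
  have hsup : ∀ y : X, sSup {r : ℝ | ∃ f ∈ Y, (∀ z : X, f z ≤ Nn z) ∧ f y = r} =
      supp (BY Y) y := fun y => by rw [hset]; rfl
  simp only [hsup] at hY ⊢
  obtain ⟨c, hc, hY⟩ := hY
  apply envelope
  have h1 := hY x
  have h2 : 0 < ‖x‖ := norm_pos_iff.mpr hx
  have h3 := Nn_lo x
  have h4 : 0 < c * Nn x := mul_pos hc (by linarith)
  linarith

end Pool.Agent.Helper871.Tal
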