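import Pool.Agent.Helper871.Tal2

set_option autoImplicit false

namespace Pool.Agent.Helper871.Tal

open Filter Topology Set
open scoped BoundedContinuousFunction

section General

variable {Z : Type} [NormedAddCommGroup Z] [NormedSpace ℝ Z]

/-- A functional detecting the distance to a subspace. -/
theorem exists_dist_functional (p : Submodule ℝ Z) (hp : IsClosed (p : Set Z)) (w : Z) (r : ℝ)
    (hr : 0 < r) (h : ∀ φ : StrongDual ℝ Z, ‖φ‖ ≤ 1 → (∀ y ∈ p, φ y = 0) → |φ w| ≤ r) :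
    ∃ y ∈ p, ‖w - y‖ < 2 * r := by
  have : IsClosed (p : Set Z) := hp
  obtain ⟨g, hg1, hg2⟩ := exists_dual_vector'' ℝ (p.mkQL w)
  set φ : StrongDual ℝ Z := g.comp p.mkQL with hφ
  have h1 : ‖φ‖ ≤ 1 := by
    apply ContinuousLinearMap.opNorm_le_bound _ zero_le_one
    intro z
    calc ‖φ z‖ = ‖g (p.mkQL z)‖ := rfl
      _ ≤ ‖g‖ * ‖p.mkQL z‖ := g.le_opNorm _
      _ ≤ 1 * ‖z‖ := by
        gcongr
        exact Submodule.Quotient.norm_mk_le (S := p) z
  have h2 : ∀ y ∈ p, φ y = 0 := by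
    intro y hy
    have : p.mkQL y = 0 := by
      rw [Submodule.mkQL_apply, Submodule.mkQ_apply, Submodule.Quotient.mk_eq_zero]; exact hy
    rw [hφ, ContinuousLinearMap.comp_apply, this, map_zero]
  have h3 := h φ h1 h2
  have h4 : φ w = ‖p.mkQL w‖ := by
    rw [hφ, ContinuousLinearMap.comp_apply, hg2]; rfl
  rw [h4, abs_of_nonneg (norm_nonneg _)] at h3
  obtain ⟨m, hm1, hm2⟩ := Submodule.Quotient.norm_mk_lt (S := p) (p.mkQL w) hr
  refine ⟨w - m, ?_, ?_⟩
  · rw [← Submodule.Quotient.mk_eq_zero, Submodule.Quotient.mk_sub, hm1,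
      Submodule.mkQL_apply, Submodule.mkQ_apply, sub_self]
  · rw [sub_sub_cancel]
    linarith

/-- Extension of functionals along an embedding. -/
theorem exists_extension (T : X →L[ℝ] Z) (c : ℝ) (hc : 0 < c) (hT : ∀ x, c * ‖x‖ ≤ ‖T x‖)
    (a : StrongDual ℝ X) (ha : ‖a‖ ≤ 1) : ∃ φ : StrongDual ℝ Z, ‖φ‖ ≤ 1 / c ∧
      ∀ x, φ (T x) = a x := by
  have hinj : Function.Injective T.toLinearMap := by
    rw [injective_iff_map_eq_zero]
    intro x hx
    have h1 := hT x
    have h2 : T x = 0 := hx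
    rw [h2, norm_zero] at h1
    have : ‖x‖ ≤ 0 := by
      by_contra hcon
      push Not at hcon
      have := mul_pos hc hcon
      linarith
    exact norm_le_zero_iff.mp this
  set e₁ := LinearEquiv.ofInjective T.toLinearMap hinj with he
  have hsymm : ∀ y : LinearMap.range T.toLinearMap, T (e₁.symm y) = (y : Z) := by
    intro y
    have := LinearEquiv.ofInjective_apply (h := hinj) T.toLinearMap (e₁.symm y)
    rw [← he, LinearEquiv.apply_symm_apply] at this
    exact this.symm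
  set g₀ : LinearMap.range T.toLinearMap →ₗ[ℝ] ℝ := a.toLinearMap ∘ₗ e₁.symm.toLinearMap with hg₀
  have hb : ∀ y, ‖g₀ y‖ ≤ 1 / c * ‖y‖ := by
    intro y
    have h1 : g₀ y = a (e₁.symm y) := rfl
    rw [h1]
    have h2 := hT (e₁.symm y)
    rw [hsymm] at h2
    calc ‖a (e₁.symm y)‖ ≤ ‖a‖ * ‖e₁.symm y‖ := a.le_opNorm _
      _ ≤ 1 * ‖e₁.symm y‖ := by gcongr
      _ = ‖e₁.symm y‖ := one_mul _
      _ ≤ 1 / c * ‖(y : Z)‖ := by
        rw [one_div, inv_mul_eq_div, le_div_iff₀ hc]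
        linarith
      _ = 1 / c * ‖y‖ := rfl
  obtain ⟨φ, h1, h2⟩ := exists_extension_norm_eq (LinearMap.range T.toLinearMap)
    (g₀.mkContinuous (1 / c) hb)
  refine ⟨φ, ?_, fun x => ?_⟩
  · rw [h2]
    exact LinearMap.mkContinuous_norm_le _ (by positivity) _
  · have h3 := h1 ⟨T x, x, rfl⟩
    rw [LinearMap.mkContinuous_apply] at h3
    change φ (T x) = _ at h3
    rw [h3]
    change a (e₁.symm _) = a x
    congr 1
    apply hinj
    exact hsymm _

/-- Sets of combinations of bounded length and size of elements of `K`. -/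
def Comb (K : Set Z) (r : ℕ) (N : ℕ) : Set Z :=
  {z | ∃ (a : Fin r → ℝ) (k : Fin r → Z), (∀ i, |a i| ≤ N) ∧ (∀ i, k i ∈ K) ∧
    ∑ i, a i • k i = z}

theorem exists_comb {K : Set Z} {z : Z} (hz : z ∈ Submodule.span ℝ K) :
    ∃ r N, z ∈ Comb K r N := by
  obtain ⟨r, a, k, h⟩ := Submodule.mem_span_set'.mp hz
  obtain ⟨N, hN⟩ := exists_nat_ge (∑ i, |a i|)
  exact ⟨r, N, a, fun i => k i, fun i =>
    (Finset.single_le_sum (fun j _ => abs_nonneg (a j)) (Finset.mem_univ i)).trans hN,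
    fun i => (k i).2, h⟩

/-- Weak limits along ultrafilters exist in weakly compact sets. -/
theorem weak_limit {K : Set Z} (hK : IsCompact ((toWeakSpace ℝ Z) '' K)) (U : Ultrafilter ℕ)
    (k : ℕ → Z) (hk : ∀ j, k j ∈ K) :
    ∃ z : Z, ∀ φ : StrongDual ℝ Z, Tendsto (fun j => φ (k j)) U (𝓝 (φ z)) := by
  have h1 := hK.ultrafilter_le_nhds (U.map fun j => toWeakSpace ℝ Z (k j)) (by
    rw [le_principal_iff, Ultrafilter.mem_coe, Ultrafilter.mem_map]
    exact Filter.univ_mem' fun j => ⟨k j, hk j, rfl⟩)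
  obtain ⟨z, -, hz⟩ := h1
  refine ⟨(toWeakSpace ℝ Z).symm z, fun φ => ?_⟩
  have h2 : Continuous fun w : WeakSpace ℝ Z => φ ((toWeakSpace ℝ Z).symm w) :=
    WeakBilin.eval_continuous _ φ
  exact (h2.tendsto z).comp hz

theorem comb_limit {K : Set Z} (hK : IsCompact ((toWeakSpace ℝ Z) '' K)) (U : Ultrafilter ℕ)
    (r N : ℕ) (w : ℕ → Z) (hw : ∀ j, w j ∈ Comb K r N) :
    ∃ z : Z, ∀ φ : StrongDual ℝ Z, Tendsto (fun j => φ (w j)) U (𝓝 (φ z)) := by
  choose a k ha hk hs using hw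
  have h1 : ∀ i, ∃ z : Z, ∀ φ : StrongDual ℝ Z, Tendsto (fun j => φ (k j i)) U (𝓝 (φ z)) :=
    fun i => weak_limit hK U (fun j => k j i) (fun j => hk j i)
  choose z hz using h1
  have h2 : ∀ i, ∃ b : ℝ, Tendsto (fun j => a j i) U (𝓝 b) := by
    intro i
    have hc : IsCompact (Set.Icc (-(N : ℝ)) N) := isCompact_Icc
    obtain ⟨b, -, hb⟩ := hc.ultrafilter_le_nhds (U.map fun j => a j i) (by
      rw [le_principal_iff, Ultrafilter.mem_coe, Ultrafilter.mem_map]
      exact Filter.univ_mem' fun j => abs_le.mp (ha j i))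
    exact ⟨b, hb⟩
  choose b hb using h2
  refine ⟨∑ i, b i • z i, fun φ => ?_⟩
  have h3 : (fun j => φ (w j)) = fun j => ∑ i, a j i * φ (k j i) := by
    funext j
    rw [← hs j, map_sum]
    simp only [map_smul, smul_eq_mul]
  rw [h3, map_sum]
  simp only [map_smul, smul_eq_mul]
  exact tendsto_finsetSum _ fun i _ => (hb i).mul (hz i φ)

end General

/-- The index attached to a set of branches through the immediate successors of a node. -/
theorem adm_indicator (m : ℕ) (ρ : Br) (t : ℕ → Br) (ht1 : ∀ j, agree m (t j) ρ)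
    (ht2 : ∀ j, t j m = j) (J : Set ℕ) : Adm m ((t '' J).indicator 1) := by
  constructor
  · intro τ
    by_cases h : τ ∈ t '' J
    · rw [Set.indicator_of_mem h]; simp
    · rw [Set.indicator_of_notMem h]; simp
  · intro τ κ hτ hκ
    have h1 := Set.mem_of_indicator_ne_zero hτ
    have h2 := Set.mem_of_indicator_ne_zero hκ
    obtain ⟨i, -, rfl⟩ := h1
    obtain ⟨j, -, rfl⟩ := h2
    refine ⟨(ht1 i).trans (ht1 j).symm, fun hne => ?_⟩
    rw [ht2, ht2]
    rintro rfl
    exact hne rfl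

/-- Evaluation at an index. -/
noncomputable def ev (p : Idx) : StrongDual ℝ X :=
  LinearMap.mkContinuous
    { toFun := fun x => inc x p
      map_add' := fun x y => by rw [map_add]; rfl
      map_smul' := fun c x => by rw [map_smul]; rfl } 1 (fun x => by
        rw [one_mul, ← inc.norm_map]
        exact (inc x).norm_coe_le_norm p)

theorem ev_apply (p : Idx) (x : X) : ev p x = inc x p := rfl

theorem norm_ev (p : Idx) : ‖ev p‖ ≤ 1 := LinearMap.mkContinuous_norm_le _ zero_le_one _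

/-- Elements of the span have finite support. -/
theorem finite_support {x : X} (hx : x ∈ Submodule.span ℝ (Set.range ex)) :
    ∃ F : Finset Br, ∀ p : Idx, (∀ τ ∈ F, p.a τ = 0) → ev p x = 0 := by
  classical
  induction hx using Submodule.span_induction with
  | mem x hx =>
    obtain ⟨τ, rfl⟩ := hx
    exact ⟨{τ}, fun p hp => by rw [ev_apply, inc_ex, e_apply]; exact hp τ (by simp)⟩
  | zero => exact ⟨∅, fun p _ => map_zero _⟩
  | add x y _ _ hx hy =>
    obtain ⟨F, hF⟩ := hx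
    obtain ⟨G, hG⟩ := hy
    refine ⟨F ∪ G, fun p hp => ?_⟩
    rw [map_add, hF p fun τ hτ => hp τ (Finset.mem_union_left _ hτ),
      hG p fun τ hτ => hp τ (Finset.mem_union_right _ hτ), add_zero]
  | smul a x _ hx =>
    obtain ⟨F, hF⟩ := hx
    exact ⟨F, fun p hp => by rw [map_smul, hF p hp, smul_zero]⟩

theorem not_embed (Z : Type) [NormedAddCommGroup Z] [NormedSpace ℝ Z]
    (K : Set Z) (hK : IsCompact ((toWeakSpace ℝ Z) '' K))
    (hd : Dense ((Submodule.span ℝ K : Submodule ℝ Z) : Set Z))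
    (T : X →L[ℝ] Z) (c : ℝ) (hc : 0 < c) (hT : ∀ x, c * ‖x‖ ≤ ‖T x‖) : False := by
  classical
  set ε : ℝ := c / 8 with hε
  have hε0 : 0 < ε := by positivity
  -- Baire category
  set S : ℕ × ℕ → Set Br := fun q => {τ | ∃ z ∈ Comb K q.1 q.2, ‖T (ex τ) - z‖ ≤ ε} with hS
  have hcover : ⋃ q, closure (S q) = univ := by
    rw [eq_univ_iff_forall]
    intro τ
    obtain ⟨z, hz, hz'⟩ := Metric.mem_closure_iff.mp (hd (T (ex τ))) ε hε0
    obtain ⟨r, N, hrN⟩ := exists_comb hz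
    rw [mem_iUnion]
    refine ⟨(r, N), subset_closure ⟨z, hrN, ?_⟩⟩
    rw [dist_eq_norm] at hz'
    exact hz'.le
  obtain ⟨q, ρ, hρ⟩ := nonempty_interior_of_iUnion_of_closed (fun q => isClosed_closure) hcover
  obtain ⟨_, ⟨⟨ρ', m, rfl⟩, hρ'1, hρ'2⟩⟩ :=
    (PiNat.isTopologicalBasis_cylinders (fun _ : ℕ => ℕ)).exists_subset_of_mem_open hρ
      isOpen_interior
  have hcyl : ∀ τ : Br, agree m τ ρ' → τ ∈ closure (S q) := fun τ hτ =>
    interior_subset (hρ'2 hτ)
  have hex : ∀ j : ℕ, ∃ τ ∈ S q, agree m τ ρ' ∧ τ m = j := by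
    intro j
    set κ : Br := Function.update ρ' m j with hκ
    have h1 : agree m κ ρ' := fun i hi => by
      rw [hκ, Function.update_of_ne hi.ne]
    have h2 := mem_closure_iff.mp (hcyl κ h1) (PiNat.cylinder κ (m + 1))
      (PiNat.isOpen_cylinder _ _ _) (PiNat.self_mem_cylinder _ _)
    obtain ⟨τ, hτ1, hτ2⟩ := h2
    refine ⟨τ, hτ2, fun i hi => ?_, ?_⟩
    · rw [hτ1 i (by omega)]; exact h1 i hi
    · rw [hτ1 m (by omega), hκ, Function.update_self]
  choose t htS ht1 ht2 using hex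
  have hw : ∀ j, ∃ z ∈ Comb K q.1 q.2, ‖T (ex (t j)) - z‖ ≤ ε := fun j => htS j
  choose w hwC hwε using hw
  set U : Ultrafilter ℕ := Filter.hyperfilter ℕ with hU
  obtain ⟨z, hz⟩ := comb_limit hK U q.1 q.2 w hwC
  have ht_inj : Function.Injective t := fun i j h => by
    rw [← ht2 i, ← ht2 j, h]
  -- distance to the range
  set p : Submodule ℝ Z := (Submodule.map T.toLinearMap
    (Submodule.span ℝ (Set.range ex))).topologicalClosure with hp
  obtain ⟨y, hyp, hy⟩ := exists_dist_functional p (Submodule.isClosed_topologicalClosure _) z ε hε0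
    (by
      intro φ hφ1 hφ2
      have h1 : ∀ j, |φ (w j)| ≤ ε := by
        intro j
        have h2 : φ (T (ex (t j))) = 0 := hφ2 _ (subset_closure
          ⟨ex (t j), Submodule.subset_span ⟨t j, rfl⟩, rfl⟩)
        have h3 : φ (w j) = - φ (T (ex (t j)) - w j) := by rw [map_sub, h2]; ring
        rw [h3, abs_neg]
        calc |φ (T (ex (t j)) - w j)| = ‖φ (T (ex (t j)) - w j)‖ := rfl
          _ ≤ ‖φ‖ * ‖T (ex (t j)) - w j‖ := φ.le_opNorm _
          _ ≤ 1 * ε := by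
            gcongr
            exact hwε j
          _ = ε := one_mul _
      exact le_of_tendsto (hz φ).abs (Eventually.of_forall h1))
  have hr : 0 < 2 * ε - ‖z - y‖ := by linarith
  obtain ⟨y', hy'1, hy'2⟩ := Metric.mem_closure_iff.mp hyp (2 * ε - ‖z - y‖) hr
  obtain ⟨x', hx', hx'y⟩ := hy'1
  have hzx : ‖z - T x'‖ < 2 * ε := by
    have h1 : T x' = y' := hx'y
    rw [h1]
    rw [dist_eq_norm] at hy'2
    calc ‖z - y'‖ = ‖(z - y) + (y - y')‖ := by congr 1; abel
      _ ≤ ‖z - y‖ + ‖y - y'‖ := norm_add_le _ _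
      _ < 2 * ε := by linarith
  obtain ⟨F, hF⟩ := finite_support hx'
  set J : Set ℕ := {j | t j ∉ F} with hJ
  have hJU : J ∈ (U : Filter ℕ) := by
    rw [hU]
    apply Filter.mem_hyperfilter_of_finite_compl
    have : Jᶜ = t ⁻¹' (F : Set Br) := by
      ext j; simp [hJ]
    rw [this]
    exact F.finite_toSet.preimage ht_inj.injOn
  set pj : Idx := ⟨(m, (t '' J).indicator 1), adm_indicator m ρ' t ht1 ht2 J⟩ with hpj
  obtain ⟨φ, hφ1, hφ2⟩ := exists_extension T c hc hT (ev pj) (norm_ev pj)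
  have hval : ∀ j ∈ J, φ (T (ex (t j))) = 1 := by
    intro j hj
    rw [hφ2, ev_apply, inc_ex, e_apply]
    change (t '' J).indicator 1 (t j) = 1
    have hmem : t j ∈ t '' J := ⟨j, hj, rfl⟩
    rw [Set.indicator_of_mem hmem]
    rfl
  have hx0 : φ (T x') = 0 := by
    rw [hφ2]
    apply hF
    intro τ hτ
    change (t '' J).indicator 1 τ = 0
    rw [Set.indicator_of_notMem]
    rintro ⟨j, hj, rfl⟩
    exact hj hτ
  have h1 : |φ z - 1| ≤ 1 / c * ε := by
    have h2 : Tendsto (fun j => |φ (w j) - 1|) U (𝓝 |φ z - 1|) := ((hz φ).sub_const 1).abs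
    apply le_of_tendsto h2
    filter_upwards [hJU] with j hj
    have h3 : φ (w j) - 1 = - φ (T (ex (t j)) - w j) := by rw [map_sub, hval j hj]; ring
    rw [h3, abs_neg]
    calc |φ (T (ex (t j)) - w j)| = ‖φ (T (ex (t j)) - w j)‖ := rfl
      _ ≤ ‖φ‖ * ‖T (ex (t j)) - w j‖ := φ.le_opNorm _
      _ ≤ 1 / c * ε := by
        gcongr
        exact hwε j
  have h2 : |φ z| ≤ 1 / c * (2 * ε) := by
    have h3 : φ z = φ (z - T x') := by rw [map_sub, hx0, sub_zero]
    rw [h3]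
    calc |φ (z - T x')| = ‖φ (z - T x')‖ := rfl
      _ ≤ ‖φ‖ * ‖z - T x'‖ := φ.le_opNorm _
      _ ≤ 1 / c * (2 * ε) := by gcongr
  have h3 : 1 / c * ε = 1 / 8 := by rw [hε]; field_simp
  have h4 : 1 / c * (2 * ε) = 2 / 8 := by rw [hε]; field_simp
  rw [h3] at h1
  rw [h4] at h2
  rw [abs_le] at h1 h2
  linarith [h1.1, h2.2]

end Pool.Agent.Helper871.Tal
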